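import Pool.Agent.Helper4.SH.WSum

/-!
# SH-S1: sums over primes with the weights `ww`

`ww T p ^ 2 = (log p)²/(L² p) = (log p/(p L)) · y_p`. By `mertens` (library: `|∑_{n ≤ e^y} Λ n/n - y| ≤ CMe`) and
`∑_{p^k, k ≥ 2} log p/p^k ≤ C`: `μ_T(u) := ∑_{p : y_p ≤ u} log p/(p L) = u + O(1/L)` uniformly in `0 ≤ u ≤ 1`. For continuous `φ`
cut `[0, z]` into `N` intervals on which `y φ(y)` oscillates by at most `ε/4` (uniform continuity on `[0,1]`), see also `psum_gen` and its uses
in the library (`Helper57/LS/PrimeAsym.lean`, `Helper78/SG/Diag.lean`). Note `PP T` = primes `≤ T`, all have `y_p ≤ 1`.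
-/

/-!
Second statement: `ww T p ^ 4 ≤ C/L² · ww T p ^ 2` because `(log p)²/p ≤ C`.
-/

open MeasureTheory Set Filter Topology
open Pool.Agent.Helper57.Zeta Pool.Agent.Helper57.PC Pool.Agent.Helper57.LH Pool.Agent.Helper78.SG
open scoped ContDiff

namespace Pool.Agent.Helper4.SH

open Pool.Agent.Helper57.LS Pool.Agent.Helper57.UB in
open scoped ArithmeticFunction in
private theorem S1_C1 {ψ ψ' : ℝ → ℝ} (hd : ∀ y, HasDerivAt ψ (ψ' y) y) (hc : Continuous ψ') :
    ∃ C : ℝ, ∀ T : ℝ, 1 < T → 1 ≤ Real.log T → ∀ z ∈ Icc (0:ℝ) 1,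
    |(∑ p ∈ (PP T).filter (fun p => yy T p ≤ z), ww T p ^ 2 * ψ (yy T p)) -
      ∫ y in (0:ℝ)..z, y * ψ y| ≤ C / Real.log T := by
  have hcψ : Continuous ψ := continuous_iff_continuousAt.2 fun y => (hd y).continuousAt
  obtain ⟨M, hM⟩ := (isCompact_Icc (a := (0:ℝ)) (b := 1)).exists_bound_of_continuousOn
    hcψ.continuousOn
  obtain ⟨M', hM'⟩ := (isCompact_Icc (a := (0:ℝ)) (b := 1)).exists_bound_of_continuousOn
    hc.continuousOn
  have hM0 : 0 ≤ M := (norm_nonneg _).trans (hM 0 ⟨le_rfl, by norm_num⟩)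
  have hM0' : 0 ≤ M' := (norm_nonneg _).trans (hM' 0 ⟨le_rfl, by norm_num⟩)
  refine ⟨M * CNP + CMe * (M + (M + M')), fun T hT hL z hz => ?_⟩
  obtain ⟨L, hLdef⟩ : ∃ L, L = Real.log T := ⟨_, rfl⟩
  rw [← hLdef] at hL ⊢
  have hL0 : 0 < L := by linarith
  have hCM := CMe_pos
  have hCN := CNP_nonneg
  have hT0 : 0 < T := by linarith
  have hexpL : Real.exp L = T := by rw [hLdef, Real.exp_log hT0]
  rcases eq_or_lt_of_le hz.1 with h0 | hz0
  · have h1 : (PP T).filter (fun p => yy T p ≤ z) = ∅ := by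
      refine Finset.filter_eq_empty_iff.2 fun p hp hle => ?_
      unfold PP at hp
      have hpp : p.Prime := (Finset.mem_filter.1 hp).2
      have h2 : 0 < Real.log p := Real.log_pos (by exact_mod_cast hpp.one_lt)
      unfold yy at hle
      rw [← hLdef, ← h0] at hle
      have := div_pos h2 hL0
      linarith
    rw [h1, ← h0]
    simp only [Finset.sum_empty, intervalIntegral.integral_same, sub_zero, abs_zero]
    positivity
  have hX : 0 < z * L := by positivity
  have hXL : z * L ≤ L := by nlinarith [hz.2]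
  have hset : (PP T).filter (fun p => yy T p ≤ z) =
      (Finset.range (NX (z * L) + 1)).filter Nat.Prime := by
    ext p
    unfold PP yy NX
    simp only [Finset.mem_filter, Finset.mem_range, ← hLdef]
    constructor
    · rintro ⟨⟨h1, h2⟩, h3⟩
      refine ⟨?_, h2⟩
      have hp0 : (0:ℝ) < p := by exact_mod_cast h2.pos
      rw [div_le_iff₀ hL0, Real.log_le_iff_le_exp hp0] at h3
      exact Nat.lt_succ_of_le (Nat.le_floor h3)
    · rintro ⟨h1, h2⟩
      have hp0 : (0:ℝ) < p := by exact_mod_cast h2.pos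
      have h3 : (p:ℝ) ≤ Real.exp (z * L) :=
        (Nat.le_floor_iff (Real.exp_pos _).le).mp (Nat.le_of_lt_succ h1)
      refine ⟨⟨?_, h2⟩, ?_⟩
      · refine Nat.lt_succ_of_le (Nat.le_floor (h3.trans ?_))
        rw [← hexpL]
        exact Real.exp_le_exp.2 hXL
      · rw [div_le_iff₀ hL0, Real.log_le_iff_le_exp hp0]
        exact h3
  have hrange : ∀ y : ℝ, 0 ≤ y → y ≤ z * L → y / L ∈ Icc (0:ℝ) 1 := by
    intro y h0 h1
    refine ⟨by positivity, ?_⟩
    rw [div_le_one hL0]; linarith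
  have hder : ∀ y : ℝ, HasDerivAt (fun y => y * ψ (y / L))
      (ψ (y / L) + y * (ψ' (y / L) / L)) y := by
    intro y
    have h1 : HasDerivAt (fun y : ℝ => y / L) (1 / L) y := (hasDerivAt_id y).div_const L
    have h3 : HasDerivAt (fun y : ℝ => ψ (y / L)) (ψ' (y / L) * (1 / L)) y :=
      HasDerivAt.comp y (hd (y / L)) h1
    have h4 := (hasDerivAt_id y).fun_mul h3
    refine h4.congr_deriv ?_
    simp only [id]
    ring
  have hcont : Continuous (fun y => ψ (y / L) + y * (ψ' (y / L) / L)) := by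
    fun_prop
  have hKb : ∀ y, 0 ≤ y → y ≤ z * L →
      |ψ (y / L) + y * (ψ' (y / L) / L)| ≤ M + M' := by
    intro y h0 h1
    have a1 : |ψ (y / L)| ≤ M := hM _ (hrange y h0 h1)
    have a2 : |ψ' (y / L)| ≤ M' := hM' _ (hrange y h0 h1)
    have a3 : 0 ≤ y / L := (hrange y h0 h1).1
    have a4 : y / L ≤ 1 := (hrange y h0 h1).2
    have e1 : y * (ψ' (y / L) / L) = (y / L) * ψ' (y / L) := by ring
    rw [e1]
    refine (abs_add_le _ _).trans (add_le_add a1 ?_)
    rw [abs_mul, abs_of_nonneg a3]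
    calc y / L * |ψ' (y / L)| ≤ 1 * M' := mul_le_mul a4 a2 (abs_nonneg _) (by norm_num)
      _ = M' := one_mul _
  have h1 := psum_gen hX hder hcont (by simp) hKb
  have hend : |z * L * ψ (z * L / L)| ≤ L * M := by
    rw [abs_mul, abs_of_pos hX]
    exact mul_le_mul hXL (hM _ (hrange _ hX.le le_rfl)) (abs_nonneg _) hL0.le
  have hint : ∫ y in (0:ℝ)..(z * L), y * ψ (y / L) = L ^ 2 * ∫ y in (0:ℝ)..z, y * ψ y := by
    have h := intervalIntegral.integral_comp_mul_left (a := 0) (b := z)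
      (fun y => y * ψ (y / L)) hL0.ne'
    rw [mul_zero, smul_eq_mul, mul_comm L z] at h
    have h2 : ∫ y in (0:ℝ)..(z * L), y * ψ (y / L) =
        L * ∫ y in (0:ℝ)..z, (L * y) * ψ (L * y / L) := by
      rw [h, ← mul_assoc, mul_inv_cancel₀ hL0.ne', one_mul]
    rw [h2, ← intervalIntegral.integral_const_mul, ← intervalIntegral.integral_const_mul]
    apply intervalIntegral.integral_congr
    intro t _
    simp only
    rw [show L * t / L = t by field_simp]
    ring
  rw [hint] at h1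
  obtain ⟨A, hA⟩ : ∃ A, A = ∑ n ∈ Finset.range (NX (z * L) + 1),
    (if n.Prime then Real.log n ^ 2 / n * ψ (Real.log n / L) else 0) := ⟨_, rfl⟩
  obtain ⟨B, hB⟩ : ∃ B, B = ∑ n ∈ Finset.range (NX (z * L) + 1),
    (Λ n / n) * (Real.log n * ψ (Real.log n / L)) := ⟨_, rfl⟩
  obtain ⟨J, hJ⟩ : ∃ J, J = ∫ y in (0:ℝ)..z, y * ψ y := ⟨_, rfl⟩
  rw [← hB, ← hJ] at h1
  have h2 : |A - B| ≤ L * M * CNP := by
    rw [hA, hB, ← Finset.sum_sub_distrib]
    refine (Finset.abs_sum_le_sum_abs _ _).trans ?_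
    have h3 : ∀ n ∈ Finset.range (NX (z * L) + 1),
        |(if n.Prime then Real.log n ^ 2 / n * ψ (Real.log n / L) else 0) -
          (Λ n / n) * (Real.log n * ψ (Real.log n / L))| ≤ L * M * (aN n / n) := by
      intro n hn
      rw [Finset.mem_range] at hn
      unfold aN
      by_cases hp : n.Prime
      · rw [if_pos hp, if_pos hp, ArithmeticFunction.vonMangoldt_apply_prime hp]
        have e : Real.log n ^ 2 / n * ψ (Real.log n / L) -
          Real.log n / n * (Real.log n * ψ (Real.log n / L)) = 0 := by ring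
        rw [e]; simp
      · rw [if_neg hp, if_neg hp, zero_sub, abs_neg]
        rcases Nat.eq_zero_or_pos n with rfl | hn0
        · simp
        have hn0' : (0:ℝ) < n := by exact_mod_cast hn0
        have h4 : (n:ℝ) ≤ Real.exp (z * L) :=
          (Nat.le_floor_iff (Real.exp_pos _).le).mp (by unfold NX at hn; omega)
        have h5 : Real.log n ≤ z * L := by rwa [Real.log_le_iff_le_exp hn0']
        have h50 : 0 ≤ Real.log n := Real.log_natCast_nonneg n
        have h9 := @ArithmeticFunction.vonMangoldt_nonneg n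
        have h7 : |ψ (Real.log n / L)| ≤ M := hM _ (hrange _ h50 h5)
        have h8 : 0 ≤ Λ n / n := by positivity
        rw [abs_mul, abs_mul, abs_of_nonneg h8, abs_of_nonneg h50]
        calc Λ n / n * (Real.log n * |ψ (Real.log n / L)|) ≤ Λ n / n * (L * M) := by
              gcongr
              linarith
          _ = _ := by ring
    refine (Finset.sum_le_sum h3).trans ?_
    rw [← Finset.mul_sum]
    exact mul_le_mul_of_nonneg_left (nonprime_sum (NX (z * L))) (by positivity)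
  have hsum : ∑ p ∈ (PP T).filter (fun p => yy T p ≤ z), ww T p ^ 2 * ψ (yy T p) =
      1 / L ^ 2 * A := by
    rw [hset, hA, Finset.sum_filter, Finset.mul_sum]
    refine Finset.sum_congr rfl fun n _ => ?_
    split_ifs
    · unfold ww yy
      rw [← hLdef, div_pow, mul_pow, Real.sq_sqrt (Nat.cast_nonneg n)]
      ring
    · simp
  rw [hsum, ← hJ]
  have e : 1 / L ^ 2 * A - J = 1 / L ^ 2 * ((A - B) + (B - L ^ 2 * J)) := by
    field_simp
    ring
  rw [e, abs_mul, abs_of_pos (by positivity)]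
  have h11 : |B - L ^ 2 * J| ≤ CMe * (L * M + (M + M') * L) := by
    refine h1.trans ?_
    gcongr
  have h10 : |(A - B) + (B - L ^ 2 * J)| ≤ L * M * CNP + CMe * (L * M + (M + M') * L) :=
    (abs_add_le _ _).trans (add_le_add h2 h11)
  calc 1 / L ^ 2 * |(A - B) + (B - L ^ 2 * J)|
      ≤ 1 / L ^ 2 * (L * M * CNP + CMe * (L * M + (M + M') * L)) :=
        mul_le_mul_of_nonneg_left h10 (by positivity)
    _ = _ := by
        field_simp

private theorem s1_yy_le_one {T : ℝ} (hT : 1 < T) {p : ℕ} (hp : p ∈ PP T) : yy T p ≤ 1 := by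
  unfold PP at hp
  rw [Finset.mem_filter, Finset.mem_range] at hp
  have hL : 0 < Real.log T := Real.log_pos hT
  unfold yy
  rw [div_le_one hL]
  have hp0 : (0:ℝ) < p := by exact_mod_cast hp.2.pos
  refine Real.log_le_log hp0 ?_
  exact (Nat.le_floor_iff (by linarith)).mp (Nat.le_of_lt_succ hp.1)

private theorem s1_yy_nonneg {T : ℝ} (hT : 1 < T) (p : ℕ) : 0 ≤ yy T p := by
  unfold yy
  exact div_nonneg (Real.log_natCast_nonneg p) (Real.log_pos hT).le

private theorem s1_sum_sq_le : ∀ᶠ T : ℝ in atTop, ∑ p ∈ PP T, ww T p ^ 2 ≤ 1 := by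
  obtain ⟨C, hC⟩ := S1_C1 (ψ := fun _ => (1:ℝ)) (ψ' := fun _ => 0) (fun y => hasDerivAt_const y 1)
    continuous_const
  have hlog := Real.tendsto_log_atTop
  filter_upwards [eventually_gt_atTop (1:ℝ), hlog.eventually_ge_atTop 1,
    hlog.eventually_ge_atTop (2 * C)] with T hT hL hLC
  have h := hC T hT hL 1 ⟨zero_le_one, le_rfl⟩
  have hL0 : 0 < Real.log T := by linarith
  have h1 : (PP T).filter (fun p => yy T p ≤ 1) = PP T :=
    Finset.filter_true_of_mem fun p hp => s1_yy_le_one hT hp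
  rw [h1] at h
  simp only [mul_one] at h
  have h2 : ∫ y in (0:ℝ)..1, y = 1 / 2 := by
    rw [integral_id]; norm_num
  rw [h2] at h
  have h3 : C / Real.log T ≤ 1 / 2 := by
    rw [div_le_iff₀ hL0]; linarith
  have := (abs_le.1 h).2
  linarith

theorem S1 {φ : ℝ → ℝ} (hφ : Continuous φ) {ε : ℝ} (hε : 0 < ε) : ∀ᶠ T : ℝ in atTop, ∀ z ∈ Icc (0:ℝ) 1,
    |(∑ p ∈ (PP T).filter (fun p => yy T p ≤ z), ww T p ^ 2 * φ (yy T p)) - ∫ y in (0:ℝ)..z, y * φ y| ≤ ε := by
  obtain ⟨P, hP⟩ := exists_polynomial_near_of_continuousOn 0 1 φ hφ.continuousOn (ε / 4)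
    (by positivity)
  obtain ⟨C, hC⟩ := S1_C1 (ψ := fun y => P.eval y) (ψ' := fun y => P.derivative.eval y)
    (fun y => P.hasDerivAt y) P.derivative.continuous
  have hlog := Real.tendsto_log_atTop
  filter_upwards [eventually_gt_atTop (1:ℝ), hlog.eventually_ge_atTop 1,
    hlog.eventually_ge_atTop (2 * C / ε), s1_sum_sq_le] with T hT hL hLC hsq z hz
  have hL0 : 0 < Real.log T := by linarith
  have h := hC T hT hL z hz
  have hCe : C / Real.log T ≤ ε / 2 := by
    rw [div_le_iff₀ hL0]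
    rw [div_le_iff₀ hε] at hLC
    linarith
  have h1 : |(∑ p ∈ (PP T).filter (fun p => yy T p ≤ z), ww T p ^ 2 * φ (yy T p)) -
      ∑ p ∈ (PP T).filter (fun p => yy T p ≤ z), ww T p ^ 2 * P.eval (yy T p)| ≤ ε / 4 := by
    rw [← Finset.sum_sub_distrib]
    refine (Finset.abs_sum_le_sum_abs _ _).trans ?_
    have h2 : ∀ p ∈ (PP T).filter (fun p => yy T p ≤ z),
        |ww T p ^ 2 * φ (yy T p) - ww T p ^ 2 * P.eval (yy T p)| ≤ ε / 4 * ww T p ^ 2 := by
      intro p hp
      have hp1 := (Finset.mem_filter.1 hp).1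
      rw [← mul_sub, abs_mul, abs_of_nonneg (sq_nonneg _), mul_comm]
      refine mul_le_mul_of_nonneg_right ?_ (sq_nonneg _)
      rw [abs_sub_comm]
      exact (hP _ ⟨s1_yy_nonneg hT p, s1_yy_le_one hT hp1⟩).le
    refine (Finset.sum_le_sum h2).trans ?_
    rw [← Finset.mul_sum]
    have h3 : ∑ p ∈ (PP T).filter (fun p => yy T p ≤ z), ww T p ^ 2 ≤ 1 :=
      (Finset.sum_le_sum_of_subset_of_nonneg (Finset.filter_subset _ _)
        (fun _ _ _ => sq_nonneg _)).trans hsq
    calc ε / 4 * ∑ p ∈ (PP T).filter (fun p => yy T p ≤ z), ww T p ^ 2 ≤ ε / 4 * 1 := by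
          gcongr
      _ = ε / 4 := mul_one _
  have h2 : |(∫ y in (0:ℝ)..z, y * P.eval y) - ∫ y in (0:ℝ)..z, y * φ y| ≤ ε / 4 := by
    have i1 : IntervalIntegrable (fun y => y * P.eval y) volume 0 z :=
      (continuous_id.mul P.continuous).intervalIntegrable _ _
    have i2 : IntervalIntegrable (fun y => y * φ y) volume 0 z :=
      (continuous_id.mul hφ).intervalIntegrable _ _
    rw [← intervalIntegral.integral_sub i1 i2, ← Real.norm_eq_abs]
    have h3 := intervalIntegral.norm_integral_le_of_norm_le_const (a := 0) (b := z) (C := ε / 4)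
      (f := fun y => y * P.eval y - y * φ y) (by
        intro y hy
        rw [uIoc_of_le hz.1] at hy
        have hy1 : y ≤ 1 := hy.2.trans hz.2
        rw [← mul_sub, norm_mul, Real.norm_eq_abs, Real.norm_eq_abs, abs_of_pos hy.1]
        calc y * |P.eval y - φ y| ≤ 1 * (ε / 4) :=
              mul_le_mul hy1 (hP _ ⟨hy.1.le, hy1⟩).le (abs_nonneg _) zero_le_one
          _ = ε / 4 := one_mul _)
    refine h3.trans ?_
    rw [sub_zero, abs_of_nonneg hz.1]
    have := hz.2
    nlinarith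
  calc _ = |((∑ p ∈ (PP T).filter (fun p => yy T p ≤ z), ww T p ^ 2 * φ (yy T p)) -
      ∑ p ∈ (PP T).filter (fun p => yy T p ≤ z), ww T p ^ 2 * P.eval (yy T p)) +
      ((∑ p ∈ (PP T).filter (fun p => yy T p ≤ z), ww T p ^ 2 * P.eval (yy T p)) -
        ∫ y in (0:ℝ)..z, y * P.eval y) +
      ((∫ y in (0:ℝ)..z, y * P.eval y) - ∫ y in (0:ℝ)..z, y * φ y)| := by ring_nf
    _ ≤ ε / 4 + ε / 2 + ε / 4 := by
        refine (abs_add_le _ _).trans (add_le_add ((abs_add_le _ _).trans ?_) h2)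
        exact add_le_add h1 (h.trans hCe)
    _ = ε := by ring

theorem S1_diag {ε : ℝ} (hε : 0 < ε) : ∀ᶠ T : ℝ in atTop, ∑ p ∈ PP T, ww T p ^ 4 ≤ ε := by
  have hlog := Real.tendsto_log_atTop
  filter_upwards [eventually_gt_atTop (1:ℝ), hlog.eventually_ge_atTop 1,
    hlog.eventually_ge_atTop (4 / ε), s1_sum_sq_le] with T hT hL hLC hsq
  have hL0 : 0 < Real.log T := by linarith
  have h1 : ∀ p ∈ PP T, ww T p ^ 4 ≤ 4 / Real.log T ^ 2 * ww T p ^ 2 := by
    intro p hp
    unfold PP at hp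
    have hpp : p.Prime := (Finset.mem_filter.1 hp).2
    have hp0 : (0:ℝ) < p := by exact_mod_cast hpp.pos
    have hlogp : 0 ≤ Real.log p := Real.log_natCast_nonneg p
    have h2 : Real.log p ≤ 2 * Real.sqrt p := by
      have h3 := Real.log_le_rpow_div hp0.le (show (0:ℝ) < 1/2 by norm_num)
      rw [← Real.sqrt_eq_rpow] at h3
      linarith
    have h4 : ww T p ^ 2 ≤ 4 / Real.log T ^ 2 := by
      unfold ww
      rw [div_pow, mul_pow, Real.sq_sqrt hp0.le, div_le_div_iff₀ (by positivity) (by positivity)]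
      have h5 : Real.log p ^ 2 ≤ 4 * p := by
        calc Real.log p ^ 2 ≤ (2 * Real.sqrt p) ^ 2 := pow_le_pow_left₀ hlogp h2 2
          _ = 4 * p := by rw [mul_pow, Real.sq_sqrt hp0.le]; norm_num
      nlinarith [sq_nonneg (Real.log T)]
    calc ww T p ^ 4 = ww T p ^ 2 * ww T p ^ 2 := by ring
      _ ≤ 4 / Real.log T ^ 2 * ww T p ^ 2 := mul_le_mul_of_nonneg_right h4 (sq_nonneg _)
  refine (Finset.sum_le_sum h1).trans ?_
  rw [← Finset.mul_sum]
  have h2 : 4 / Real.log T ^ 2 ≤ ε := by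
    rw [div_le_iff₀ (by positivity)]
    rw [div_le_iff₀ hε] at hLC
    nlinarith
  calc 4 / Real.log T ^ 2 * ∑ p ∈ PP T, ww T p ^ 2 ≤ ε * 1 :=
        mul_le_mul h2 hsq (Finset.sum_nonneg fun _ _ => sq_nonneg _) hε.le
    _ = ε := mul_one _

end Pool.Agent.Helper4.SH
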