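import Pool.Agent.Helper4.SH.Defs
import Pool.Agent.Helper78.SG.Diag

/-!
# SH-WS: the weights `ww`, `WW`

* `ww_sq_le`: `∑_{p ≤ T} (log p)²/p ≤ log T · ∑_{n ≤ T} Λ(n)/n`, and `∑_{n≤x} Λ(n)/n = log x + O(1)` (M library: `psum_gen`, `CMe`, or the
  statements used in `Helper78/SG/Four.lean`, `Diag.lean`); sharper: `∑_{p≤T} (log p)²/p = ½ log² T + O(log T)`, so the sum is `1/2 + o(1)`.
  (`≤ 1` needs the factor `1/2`: use partial summation, or `psum_gen` with the function `y ↦ y`.)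
* `ww_le_one`: `log p ≤ log T` and `√p ≥ 1`.
* `WW_mul`: `Nat.perm_primeFactorsList_mul`.
* `WW_pow_sum`: induction on `i`: for `Ω(N) = i + 1` write `N = p N'`, `p = minFac N`; the map `N ↦ (p, N/p)` is injective and
  `WW N = ww p WW N'`; `N' ` ranges over the finset of the `N/minFac N`.
-/

open MeasureTheory Set Filter Topology
open Pool.Agent.Helper57.Zeta Pool.Agent.Helper57.PC Pool.Agent.Helper57.LH Pool.Agent.Helper78.SG
open scoped ContDiff

namespace Pool.Agent.Helper4.SH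

theorem ww_nonneg (T : ℝ) (hT : 1 < T) (n : ℕ) : 0 ≤ ww T n :=
  div_nonneg (Real.log_natCast_nonneg n)
    (mul_nonneg (Real.log_nonneg hT.le) (Real.sqrt_nonneg _))

theorem mem_PP67 {T : ℝ} (hT : 1 < T) {p : ℕ} (hp : p ∈ PP T) : p.Prime ∧ (p : ℝ) ≤ T := by
  unfold PP at hp
  rw [Finset.mem_filter, Finset.mem_range] at hp
  exact ⟨hp.2, (Nat.le_floor_iff (by linarith)).1 (by omega)⟩

theorem ww_le_one {T : ℝ} (hT : 1 < T) {p : ℕ} (hp : p ∈ PP T) : ww T p ≤ 1 := by
  obtain ⟨h1, h2⟩ := mem_PP67 hT hp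
  have hp1 : (1 : ℝ) ≤ p := by exact_mod_cast h1.one_lt.le
  have hp0 : (0 : ℝ) < p := by linarith
  have hlT : 0 < Real.log T := Real.log_pos hT
  have h3 : Real.log p ≤ Real.log T := Real.log_le_log hp0 h2
  have h4 : 1 ≤ Real.sqrt p := Real.one_le_sqrt.2 hp1
  unfold ww
  rw [div_le_one (by positivity)]
  nlinarith

open Pool.Agent.Helper57.LS Pool.Agent.Helper57.UB in
open scoped ArithmeticFunction in
theorem ww_sq_le : ∀ᶠ T : ℝ in atTop, ∑ p ∈ PP T, ww T p ^ 2 ≤ 1 := by
  have hC := CMe_pos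
  filter_upwards [eventually_ge_atTop (Real.exp (4 * CMe + 1))] with T hT
  have hT0 : 0 < T := (Real.exp_pos _).trans_le hT
  have hX1 : 4 * CMe + 1 ≤ Real.log T := by
    rw [Real.le_log_iff_exp_le hT0]; exact hT
  have hX0 : 0 < Real.log T := by linarith
  set X := Real.log T with hX
  have h1 := psum_gen (X := X) hX0 (h := fun y => y) (h' := fun _ => 1)
    (fun y => hasDerivAt_id' y) continuous_const rfl (K := 1) (fun y _ _ => by simp)
  have hNX : NX X = ⌊T⌋₊ := by
    unfold NX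
    rw [hX, Real.exp_log hT0]
  rw [hNX, integral_id, abs_of_pos hX0] at h1
  have h2 := (abs_le.1 h1).2
  have h3 : ∑ p ∈ PP T, ww T p ^ 2 ≤
      (∑ n ∈ Finset.range (⌊T⌋₊ + 1), (Λ n / n) * Real.log n) / X ^ 2 := by
    rw [Finset.sum_div]
    unfold PP
    rw [Finset.sum_filter]
    refine Finset.sum_le_sum fun n _ => ?_
    split_ifs with hn
    · have hn0 : (0 : ℝ) < n := by exact_mod_cast hn.pos
      have h5 : Real.sqrt n ^ 2 = n := Real.sq_sqrt hn0.le
      have h6 : Real.sqrt n ≠ 0 := (Real.sqrt_pos.2 hn0).ne'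
      rw [ArithmeticFunction.vonMangoldt_apply_prime hn]
      unfold ww
      rw [← hX, div_pow, mul_pow, h5]
      apply le_of_eq
      field_simp
    · have h7 : 0 ≤ Real.log n := Real.log_natCast_nonneg n
      have h8 : 0 ≤ Λ n := ArithmeticFunction.vonMangoldt_nonneg
      positivity
  refine h3.trans ?_
  rw [div_le_one (by positivity)]
  nlinarith

theorem WW_mul (T : ℝ) {m n : ℕ} (hm : m ≠ 0) (hn : n ≠ 0) : WW T (m * n) = WW T m * WW T n := by
  unfold WW
  rw [((Nat.perm_primeFactorsList_mul hm hn).map (ww T)).prod_eq, List.map_append,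
    List.prod_append]

theorem WW_prime (T : ℝ) {p : ℕ} (hp : p.Prime) : WW T p = ww T p := by
  unfold WW
  rw [Nat.primeFactorsList_prime hp]
  simp

theorem WW_nonneg {T : ℝ} (hT : 1 < T) (n : ℕ) : 0 ≤ WW T n := by
  unfold WW
  refine List.prod_nonneg fun x hx => ?_
  obtain ⟨p, -, rfl⟩ := List.mem_map.1 hx
  exact ww_nonneg T hT p

/-- all prime factors in `PP T`, number of prime factors `i` -/
theorem WW_pow_sum {T : ℝ} (hT : 1 < T) (i : ℕ) (S : Finset ℕ)
    (hS : ∀ N ∈ S, N ≠ 0 ∧ N.primeFactorsList.length = i ∧ ∀ p ∈ N.primeFactorsList, p ∈ PP T) :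
    ∑ N ∈ S, WW T N ^ 2 ≤ (∑ p ∈ PP T, ww T p ^ 2) ^ i := by
  induction i generalizing S with
  | zero =>
    have h1 : S ⊆ {1} := by
      intro N hN
      obtain ⟨h0, h1, -⟩ := hS N hN
      rw [List.length_eq_zero_iff, Nat.primeFactorsList_eq_nil] at h1
      rw [Finset.mem_singleton]
      rcases h1 with h1 | h1
      · exact absurd h1 h0
      · exact h1
    refine (Finset.sum_le_sum_of_subset_of_nonneg h1 fun _ _ _ => sq_nonneg _).trans ?_
    simp [WW]
  | succ i ih =>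
    classical
    have key : ∀ N ∈ S, N.minFac ∈ PP T ∧ N.minFac.Prime ∧ N = N.minFac * (N / N.minFac) ∧
        N / N.minFac ≠ 0 ∧ (N / N.minFac).primeFactorsList.length = i ∧
        ∀ p ∈ (N / N.minFac).primeFactorsList, p ∈ PP T := by
      intro N hN
      obtain ⟨h0, h1, h2⟩ := hS N hN
      have hN1 : N ≠ 1 := by
        rintro rfl
        simp at h1
      obtain ⟨k, rfl⟩ : ∃ k, N = k + 2 := ⟨N - 2, by omega⟩
      have h3 : (k + 2).primeFactorsList =
          (k + 2).minFac :: ((k + 2) / (k + 2).minFac).primeFactorsList := by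
        rw [Nat.primeFactorsList]
      rw [h3] at h1 h2
      refine ⟨h2 _ List.mem_cons_self, Nat.minFac_prime hN1,
        (Nat.mul_div_cancel' (Nat.minFac_dvd _)).symm, ?_, ?_, fun p hp =>
          h2 p (List.mem_cons_of_mem _ hp)⟩
      · have h4 := Nat.div_pos (Nat.le_of_dvd (by omega) (Nat.minFac_dvd (k + 2)))
          (Nat.minFac_pos (k + 2))
        omega
      · simpa using h1
    set φ : ℕ → ℕ × ℕ := fun N => (N.minFac, N / N.minFac) with hφ
    have hinj : Set.InjOn φ (S : Set ℕ) := by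
      intro N hN M hM hNM
      rw [hφ] at hNM
      have e1 : N.minFac = M.minFac := congrArg Prod.fst hNM
      have e2 : N / N.minFac = M / M.minFac := congrArg Prod.snd hNM
      rw [(key N hN).2.2.1, (key M hM).2.2.1, e1]
      rw [e1] at e2
      rw [e2]
    have h1 : ∑ N ∈ S, WW T N ^ 2 =
        ∑ x ∈ S.image φ, ww T x.1 ^ 2 * WW T x.2 ^ 2 := by
      rw [Finset.sum_image hinj]
      refine Finset.sum_congr rfl fun N hN => ?_
      obtain ⟨-, k2, k3, k4, -, -⟩ := key N hN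
      change WW T N ^ 2 = ww T N.minFac ^ 2 * WW T (N / N.minFac) ^ 2
      conv_lhs => rw [k3]
      rw [WW_mul T k2.ne_zero k4, WW_prime T k2, mul_pow]
    have h2 : S.image φ ⊆ PP T ×ˢ S.image (fun N => N / N.minFac) := by
      intro x hx
      obtain ⟨N, hN, rfl⟩ := Finset.mem_image.1 hx
      exact Finset.mem_product.2 ⟨(key N hN).1, Finset.mem_image.2 ⟨N, hN, rfl⟩⟩
    rw [h1]
    refine (Finset.sum_le_sum_of_subset_of_nonneg h2 fun _ _ _ => by positivity).trans ?_
    rw [Finset.sum_product, pow_succ']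
    have h3 : ∑ p ∈ PP T, ∑ N ∈ S.image (fun N => N / N.minFac), ww T p ^ 2 * WW T N ^ 2 =
        (∑ p ∈ PP T, ww T p ^ 2) * ∑ N ∈ S.image (fun N => N / N.minFac), WW T N ^ 2 := by
      rw [Finset.sum_mul_sum]
    rw [h3]
    refine mul_le_mul_of_nonneg_left (ih _ ?_) (Finset.sum_nonneg fun _ _ => sq_nonneg _)
    intro N hN
    obtain ⟨M, hM, rfl⟩ := Finset.mem_image.1 hN
    exact ⟨(key M hM).2.2.2.1, (key M hM).2.2.2.2⟩

end Pool.Agent.Helper4.SH
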