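import Pool.Agent.Helper4.SH.GMV
import Pool.Agent.Helper4.SH.WSum

/-!
# SH-PP: prime powers are negligible; second moment of the prime part

`pss h s T t = ∑_{n ≤ NX(s L/2)} (2/L) (Λ n/√n) h(log n/(s L)) cos(t log n)`, `L = log T` (unfold `pss`, `prs`, `co`; `NX X = ⌊e^X⌋`).
For prime `n = p` the coefficient is `2 ww p h(yy p/s)`, which is `0` unless `p ≤ T^(s f.th)`, `s f.th < s/2 ≤ 1`; so
`pss - prp = ∑_{n ≤ T, n = p^k, k ≥ 2} (2/L)(Λ n/√n) f.h(...) cos(t log n)`. Square, `2 cos cos = cos + cos`, and apply `gmv`: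
`a * b ≤ T^(2 s f.th)` ... `a = m n, b = 1` and `a = m, b = n`: `min(a, b) ≤ T^(s f.th)`, `δ = 1 - 2 f.th` works in both cases. Diagonal:
`≤ (4/L²) ∑_{p, k ≥ 2} (log p)²/p^k · sup|f.h|² ≤ C/L²`. Second statement: the same with primes, diagonal
`∑ 4 ww² f.h² ≤ C` (`ww_sq_le`). See `Helper78/SG/PrsMean.lean`, `Diag.lean` for similar computations.
-/

open MeasureTheory Set Filter Topology
open Pool.Agent.Helper57.Zeta Pool.Agent.Helper57.PC Pool.Agent.Helper57.LH Pool.Agent.Helper78.SG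
open scoped ContDiff

namespace Pool.Agent.Helper4.SH

/-- Mean square of a short real cosine polynomial against the smooth weight. -/
theorem sq_mean71 (g : TF) {δ : ℝ} (hδ : 0 < δ) : ∃ C : ℝ, 0 < C ∧ ∀ T : ℝ, 1 ≤ T →
    ∀ (S : Finset ℕ) (c : ℕ → ℝ) (M : ℝ), 0 ≤ M →
      (∀ n ∈ S, 2 ≤ n ∧ (n : ℝ) ≤ T ^ (1 - δ) ∧ |c n| ≤ M) →
      ∫ t, om g.h T t * (∑ n ∈ S, c n * Real.cos (Real.log n * t)) ^ 2 ≤
        C * (T * ∑ n ∈ S, c n ^ 2 + M ^ 2) := by
  obtain ⟨C, hC, hgmv⟩ := gmv g hδ (⌈3 / δ⌉₊)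
  have hK : 3 ≤ δ * (⌈3 / δ⌉₊ : ℕ) := by
    have h1 := Nat.le_ceil (3 / δ)
    have h2 := mul_le_mul_of_nonneg_left h1 hδ.le
    rwa [mul_div_cancel₀ _ hδ.ne'] at h2
  refine ⟨|∫ x, g.h x| + C, by positivity, ?_⟩
  intro T hT S c M hM hS
  have hT0 : 0 < T := by linarith
  set S' : Finset ((ℕ × ℕ) ⊕ (ℕ × ℕ)) := (S ×ˢ S).disjSum (S ×ˢ S) with hS'
  set c' : (ℕ × ℕ) ⊕ (ℕ × ℕ) → ℝ :=
    Sum.elim (fun x => c x.1 * c x.2 / 2) (fun x => c x.1 * c x.2 / 2) with hc'
  set a : (ℕ × ℕ) ⊕ (ℕ × ℕ) → ℕ := Sum.elim (fun x => x.1) (fun x => x.1 * x.2) with ha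
  set b : (ℕ × ℕ) ⊕ (ℕ × ℕ) → ℕ := Sum.elim (fun x => x.2) (fun _ => 1) with hb
  have hN1 : (1 : ℝ) ≤ T ^ (1 - δ) ∨ S = ∅ := by
    by_cases hne : S.Nonempty
    · obtain ⟨n, hn⟩ := hne
      obtain ⟨h2, h3, -⟩ := hS n hn
      left
      have : (2 : ℝ) ≤ n := by exact_mod_cast h2
      linarith
    · right
      exact Finset.not_nonempty_iff_eq_empty.1 hne
  have hab : ∀ i ∈ S', 1 ≤ a i ∧ 1 ≤ b i ∧ ((min (a i) (b i) : ℕ) : ℝ) ≤ T ^ (1 - δ) := by
    intro i hi
    rcases i with x | x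
    · rw [hS', Finset.inl_mem_disjSum, Finset.mem_product] at hi
      obtain ⟨h1, h2, -⟩ := hS _ hi.1
      obtain ⟨h3, h4, -⟩ := hS _ hi.2
      refine ⟨?_, ?_, ?_⟩
      · simp only [ha, Sum.elim_inl]; omega
      · simp only [hb, Sum.elim_inl]; omega
      · simp only [ha, hb, Sum.elim_inl]
        refine le_trans ?_ h2
        exact_mod_cast min_le_left _ _
    · rw [hS', Finset.inr_mem_disjSum, Finset.mem_product] at hi
      obtain ⟨h1, h2, -⟩ := hS _ hi.1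
      obtain ⟨h3, h4, -⟩ := hS _ hi.2
      refine ⟨?_, ?_, ?_⟩
      · simp only [ha, Sum.elim_inr]
        exact Nat.one_le_iff_ne_zero.2 (Nat.mul_ne_zero (by omega) (by omega))
      · simp only [hb, Sum.elim_inr]; exact le_rfl
      · simp only [ha, hb, Sum.elim_inr]
        rcases hN1 with h5 | h5
        · refine le_trans ?_ h5
          exact_mod_cast min_le_right _ _
        · rw [h5] at hi
          simp at hi
  have hmain := hgmv T hT _ S' c' a b hab
  have hid : ∀ t : ℝ, (∑ n ∈ S, c n * Real.cos (Real.log n * t)) ^ 2 =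
      ∑ i ∈ S', c' i * Real.cos (t * (Real.log (a i) - Real.log (b i))) := by
    intro t
    rw [hS', Finset.sum_disjSum, pow_two, Finset.sum_mul_sum, ← Finset.sum_product',
      ← Finset.sum_add_distrib]
    refine Finset.sum_congr rfl fun x hx => ?_
    obtain ⟨hx1, hx2⟩ := Finset.mem_product.1 hx
    obtain ⟨h1, -, -⟩ := hS _ hx1
    obtain ⟨h3, -, -⟩ := hS _ hx2
    have h10 : ((x.1 : ℕ) : ℝ) ≠ 0 := by
      have : x.1 ≠ 0 := by omega
      exact_mod_cast this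
    have h20 : ((x.2 : ℕ) : ℝ) ≠ 0 := by
      have : x.2 ≠ 0 := by omega
      exact_mod_cast this
    simp only [hc', ha, hb, Sum.elim_inl, Sum.elim_inr]
    rw [Nat.cast_mul, Real.log_mul h10 h20, Nat.cast_one, Real.log_one, sub_zero]
    have e1 : t * (Real.log x.1 - Real.log x.2) = Real.log x.1 * t - Real.log x.2 * t := by ring
    have e2 : t * (Real.log x.1 + Real.log x.2) = Real.log x.1 * t + Real.log x.2 * t := by ring
    rw [e1, e2, Real.cos_sub, Real.cos_add]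
    ring
  have hdiag : ∑ i ∈ S', (if a i = b i then c' i else 0) = (∑ n ∈ S, c n ^ 2) / 2 := by
    rw [hS', Finset.sum_disjSum]
    have h2 : ∑ x ∈ S ×ˢ S, (if a (Sum.inr x) = b (Sum.inr x) then c' (Sum.inr x) else 0) = 0 := by
      refine Finset.sum_eq_zero fun x hx => ?_
      obtain ⟨hx1, hx2⟩ := Finset.mem_product.1 hx
      obtain ⟨h1, -, -⟩ := hS _ hx1
      rw [if_neg]
      simp only [ha, hb, Sum.elim_inr]
      intro h
      have := Nat.eq_one_of_mul_eq_one_right h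
      omega
    rw [h2, add_zero, Finset.sum_product, Finset.sum_div]
    refine Finset.sum_congr rfl fun n hn => ?_
    simp only [ha, hb, hc', Sum.elim_inl]
    rw [Finset.sum_ite_eq S n, if_pos hn]
    ring
  have habs : ∑ i ∈ S', |c' i| = (∑ n ∈ S, |c n|) ^ 2 := by
    rw [hS', Finset.sum_disjSum, pow_two, Finset.sum_mul_sum, ← Finset.sum_product',
      ← Finset.sum_add_distrib]
    refine Finset.sum_congr rfl fun x _ => ?_
    simp only [hc', Sum.elim_inl, Sum.elim_inr]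
    rw [abs_div, abs_mul, abs_of_pos (by norm_num : (0 : ℝ) < 2)]
    ring
  have hcard : (S.card : ℝ) ≤ T := by
    have h1 : S ⊆ Finset.Icc 1 ⌊T⌋₊ := by
      intro n hn
      obtain ⟨h2, h3, -⟩ := hS n hn
      rw [Finset.mem_Icc]
      refine ⟨by omega, Nat.le_floor ?_⟩
      refine h3.trans ?_
      calc T ^ (1 - δ) ≤ T ^ (1 : ℝ) := Real.rpow_le_rpow_of_exponent_le hT (by linarith)
        _ = T := Real.rpow_one T
    have h2 := Finset.card_le_card h1
    rw [Nat.card_Icc] at h2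
    have h3 : (S.card : ℝ) ≤ ((⌊T⌋₊ : ℕ) : ℝ) := by
      have : S.card ≤ ⌊T⌋₊ := by omega
      exact_mod_cast this
    exact h3.trans (Nat.floor_le hT0.le)
  have hsum : ∑ n ∈ S, |c n| ≤ M * T := by
    calc ∑ n ∈ S, |c n| ≤ ∑ n ∈ S, M := Finset.sum_le_sum fun n hn => (hS n hn).2.2
      _ = S.card * M := by rw [Finset.sum_const, nsmul_eq_mul]
      _ ≤ T * M := mul_le_mul_of_nonneg_right hcard hM
      _ = M * T := mul_comm _ _
  have hsum0 : 0 ≤ ∑ n ∈ S, |c n| := Finset.sum_nonneg fun _ _ => abs_nonneg _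
  rw [hdiag, habs] at hmain
  have e3 : (∫ t, om g.h T t * (∑ n ∈ S, c n * Real.cos (Real.log n * t)) ^ 2) =
      ∫ t, om g.h T t * ∑ i ∈ S', c' i * Real.cos (t * (Real.log (a i) - Real.log (b i))) := by
    congr 1
    funext t
    rw [hid t]
  rw [e3]
  have h5 := (abs_le.1 hmain).2
  have h6 : C * T ^ (1 - δ * (⌈3 / δ⌉₊ : ℕ)) * (∑ n ∈ S, |c n|) ^ 2 ≤ C * M ^ 2 := by
    have h7 : T ^ (1 - δ * (⌈3 / δ⌉₊ : ℕ)) ≤ T ^ (-2 : ℝ) :=
      Real.rpow_le_rpow_of_exponent_le hT (by linarith)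
    have h8 : T ^ (-2 : ℝ) = (T ^ 2)⁻¹ := by
      rw [Real.rpow_neg hT0.le]
      norm_cast
    have h9 : (∑ n ∈ S, |c n|) ^ 2 ≤ (M * T) ^ 2 := pow_le_pow_left₀ hsum0 hsum 2
    calc C * T ^ (1 - δ * (⌈3 / δ⌉₊ : ℕ)) * (∑ n ∈ S, |c n|) ^ 2
        ≤ C * (T ^ 2)⁻¹ * (M * T) ^ 2 := by
          rw [← h8]
          gcongr
      _ = C * M ^ 2 := by
          field_simp
  have h10 : T * (∫ x, g.h x) * ((∑ n ∈ S, c n ^ 2) / 2) ≤
      |∫ x, g.h x| * (T * ∑ n ∈ S, c n ^ 2) := by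
    have h11 : 0 ≤ ∑ n ∈ S, c n ^ 2 := Finset.sum_nonneg fun _ _ => sq_nonneg _
    have h12 : (∫ x, g.h x) ≤ |∫ x, g.h x| := le_abs_self _
    have h13 : 0 ≤ |∫ x, g.h x| := abs_nonneg _
    have h14 : 0 ≤ T * ∑ n ∈ S, c n ^ 2 := by positivity
    nlinarith
  have h15 : 0 ≤ T * ∑ n ∈ S, c n ^ 2 :=
    mul_nonneg hT0.le (Finset.sum_nonneg fun _ _ => sq_nonneg _)
  have h16 : 0 ≤ |∫ x, g.h x| := abs_nonneg _
  nlinarith [sq_nonneg M, mul_nonneg hC.le h15, mul_nonneg h16 (sq_nonneg M)]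

/-- test functions are bounded -/
theorem tf_bdd71 (f : TF) : ∃ M : ℝ, 0 < M ∧ ∀ x, |f.h x| ≤ M := by
  obtain ⟨M, hM⟩ := (isCompact_Icc (a := -f.th) (b := f.th)).exists_bound_of_continuousOn
    (f.smooth.continuous.continuousOn)
  refine ⟨|M| + 1, by positivity, fun x => ?_⟩
  by_cases hx : f.th ≤ |x|
  · rw [f.supp x hx, abs_zero]
    positivity
  · have h1 : x ∈ Icc (-f.th) f.th := abs_le.1 (not_le.1 hx).le
    have h2 := hM x h1
    rw [Real.norm_eq_abs] at h2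
    linarith [le_abs_self M]

open scoped ArithmeticFunction in
/-- the coefficient of the prime sum at scale `s` -/
noncomputable def cc71 (h : ℝ → ℝ) (s T : ℝ) (n : ℕ) : ℝ :=
  2 / Real.log T * (Λ n / Real.sqrt n) * h (yy T n / s)

theorem h_zero71 (f : TF) {s : ℝ} (hs : s = 1 ∨ s = 2) {T : ℝ} (hT : 1 < T) {n : ℕ}
    (hn : 2 ≤ n) (hnT : ¬ ((n : ℝ) ≤ T ^ (1 - (1 - 2 * f.th)))) : f.h (yy T n / s) = 0 := by
  have hL : 0 < Real.log T := Real.log_pos hT
  have hn0 : (0 : ℝ) < n := by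
    have : 0 < n := by omega
    exact_mod_cast this
  apply f.supp
  rw [not_le, sub_sub_cancel] at hnT
  have h1 : 2 * f.th * Real.log T < Real.log n := by
    rw [← Real.log_rpow (by linarith)]
    exact Real.log_lt_log (Real.rpow_pos_of_pos (by linarith) _) hnT
  have h2 : 2 * f.th < yy T n := by
    unfold yy
    rw [lt_div_iff₀ hL]
    exact h1
  have h3 := f.th0
  rcases hs with rfl | rfl
  · rw [div_one, abs_of_pos (by linarith)]
    linarith
  · rw [abs_of_pos (by linarith)]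
    linarith

theorem pss_eq71 (f : TF) {s : ℝ} (hs : s = 1 ∨ s = 2) {T : ℝ} (hT : 1 < T) (t : ℝ) :
    pss f.h s T t = ∑ n ∈ Finset.range (⌊T⌋₊ + 1), cc71 f.h s T n * Real.cos (Real.log n * t) := by
  have hL : 0 < Real.log T := Real.log_pos hT
  have hs0 : 0 < s := by rcases hs with rfl | rfl <;> norm_num
  have hs2 : s / 2 ≤ 1 := by rcases hs with rfl | rfl <;> norm_num
  have e1 : ∀ n : ℕ, s * co f.h (s * Real.log T) n = cc71 f.h s T n := by
    intro n
    unfold co cc71 yy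
    have e2 : Real.log n / (s * Real.log T) = Real.log n / Real.log T / s := by
      field_simp
    rw [e2]
    field_simp
  have e3 : pss f.h s T t = ∑ n ∈ Finset.range (NX (s * Real.log T / 2) + 1),
      cc71 f.h s T n * Real.cos (Real.log n * t) := by
    unfold pss prs
    rw [Finset.mul_sum]
    refine Finset.sum_congr rfl fun n _ => ?_
    rw [← e1 n]
    ring
  rw [e3]
  apply Finset.sum_subset
  · intro n hn
    rw [Finset.mem_range] at hn ⊢
    have h1 : NX (s * Real.log T / 2) ≤ ⌊T⌋₊ := by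
      unfold NX
      apply Nat.floor_le_floor
      calc Real.exp (s * Real.log T / 2) ≤ Real.exp (Real.log T) :=
            Real.exp_le_exp.2 (by nlinarith)
        _ = T := Real.exp_log (by linarith)
    omega
  · intro n hn hn2
    rw [Finset.mem_range] at hn hn2
    have h1 : NX (s * Real.log T / 2) < n := by omega
    unfold NX at h1
    have h2 : Real.exp (s * Real.log T / 2) < n := (Nat.floor_lt (Real.exp_pos _).le).1 h1
    have h3 : s * Real.log T / 2 < Real.log n := by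
      rw [Real.lt_log_iff_exp_lt ((Real.exp_pos _).trans h2)]
      exact h2
    have h4 : 1 / 2 < yy T n / s := by
      unfold yy
      rw [lt_div_iff₀ hs0, lt_div_iff₀ hL]
      linarith
    have h5 : f.h (yy T n / s) = 0 := by
      apply f.supp
      rw [abs_of_pos (by linarith)]
      linarith [f.th1]
    unfold cc71
    rw [h5]
    ring

theorem prp_eq71 (f : TF) {s : ℝ} {T : ℝ} (t : ℝ) :
    prp f.h s T t = ∑ n ∈ (Finset.range (⌊T⌋₊ + 1)).filter Nat.Prime,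
      cc71 f.h s T n * Real.cos (Real.log n * t) := by
  unfold prp PP
  refine Finset.sum_congr rfl fun n hn => ?_
  have hp := (Finset.mem_filter.1 hn).2
  unfold cc71 ww
  rw [ArithmeticFunction.vonMangoldt_apply_prime hp]
  congr 2
  rw [div_mul_div_comm, mul_div_assoc]

theorem cc_bd71 {f : TF} {M : ℝ} (hM : ∀ x, |f.h x| ≤ M) {s T : ℝ} (hT : 1 < T) {n : ℕ}
    (hn : n ∈ Finset.range (⌊T⌋₊ + 1)) (hn1 : 1 ≤ n) : |cc71 f.h s T n| ≤ 2 * M := by
  have hL : 0 < Real.log T := Real.log_pos hT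
  have hn0 : (0 : ℝ) < n := by exact_mod_cast hn1
  have hnT : (n : ℝ) ≤ T := by
    rw [Finset.mem_range] at hn
    exact (Nat.le_floor_iff (by linarith)).1 (by omega)
  have h1 : ArithmeticFunction.vonMangoldt n ≤ Real.log T :=
    ArithmeticFunction.vonMangoldt_le_log.trans (Real.log_le_log hn0 hnT)
  have h0 : 0 ≤ ArithmeticFunction.vonMangoldt n := ArithmeticFunction.vonMangoldt_nonneg
  have h2 : 1 ≤ Real.sqrt n := Real.one_le_sqrt.2 (by exact_mod_cast hn1)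
  have h3 : ArithmeticFunction.vonMangoldt n / Real.sqrt n ≤ Real.log T := by
    rw [div_le_iff₀ (by linarith)]
    nlinarith
  have h4 : 0 ≤ ArithmeticFunction.vonMangoldt n / Real.sqrt n := by positivity
  unfold cc71
  rw [abs_mul, abs_mul, abs_of_nonneg h4, abs_of_pos (by positivity : 0 < 2 / Real.log T)]
  have h5 : 2 / Real.log T * (ArithmeticFunction.vonMangoldt n / Real.sqrt n) ≤ 2 := by
    rw [div_mul_eq_mul_div, div_le_iff₀ hL]
    nlinarith
  have h6 := hM (yy T n / s)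
  have h7 : 0 ≤ |f.h (yy T n / s)| := abs_nonneg _
  calc _ ≤ 2 * |f.h (yy T n / s)| := mul_le_mul_of_nonneg_right h5 h7
    _ ≤ 2 * M := by linarith

open Pool.Agent.Helper57.UB Pool.Agent.Helper57.LS in
theorem pp_small (g f : TF) {s : ℝ} (hs : s = 1 ∨ s = 2) {ε : ℝ} (hε : 0 < ε) : ∀ᶠ T : ℝ in atTop,
    ∫ t, om g.h T t * (pss f.h s T t - prp f.h s T t) ^ 2 ≤ ε * T := by
  obtain ⟨M, hM0, hM⟩ := tf_bdd71 f
  have hδ : 0 < 1 - 2 * f.th := by linarith [f.th1]
  obtain ⟨C, hC, hmean⟩ := sq_mean71 g hδ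
  have hCNP := CNP_nonneg
  filter_upwards [eventually_gt_atTop 1,
    Real.tendsto_log_atTop.eventually_ge_atTop (8 * C * M ^ 2 * CNP / ε + 1),
    eventually_ge_atTop (8 * C * M ^ 2 / ε)] with T hT hLT hTT
  have hL : 0 < Real.log T := Real.log_pos hT
  set S : Finset ℕ := (Finset.range (⌊T⌋₊ + 1)).filter
    (fun n => ¬ n.Prime ∧ 2 ≤ n ∧ (n : ℝ) ≤ T ^ (1 - (1 - 2 * f.th))) with hS
  have e1 : ∀ t, pss f.h s T t - prp f.h s T t =
      ∑ n ∈ S, cc71 f.h s T n * Real.cos (Real.log n * t) := by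
    intro t
    rw [pss_eq71 f hs hT, prp_eq71,
      ← Finset.sum_filter_add_sum_filter_not (Finset.range (⌊T⌋₊ + 1)) Nat.Prime
        (fun n => cc71 f.h s T n * Real.cos (Real.log n * t)), add_sub_cancel_left]
    symm
    apply Finset.sum_subset
    · intro n hn
      rw [hS, Finset.mem_filter] at hn
      exact Finset.mem_filter.2 ⟨hn.1, hn.2.1⟩
    · intro n hn hn2
      rw [Finset.mem_filter] at hn
      rw [hS, Finset.mem_filter] at hn2
      by_cases h2 : 2 ≤ n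
      · have h3 : ¬ ((n : ℝ) ≤ T ^ (1 - (1 - 2 * f.th))) := fun h => hn2 ⟨hn.1, hn.2, h2, h⟩
        unfold cc71
        rw [h_zero71 f hs hT h2 h3]
        ring
      · have h3 : n = 0 ∨ n = 1 := by omega
        unfold cc71
        rcases h3 with rfl | rfl
        · simp
        · simp
  have hSb : ∀ n ∈ S, 2 ≤ n ∧ (n : ℝ) ≤ T ^ (1 - (1 - 2 * f.th)) ∧ |cc71 f.h s T n| ≤ 2 * M := by
    intro n hn
    rw [hS, Finset.mem_filter] at hn
    exact ⟨hn.2.2.1, hn.2.2.2, cc_bd71 hM hT hn.1 (by omega)⟩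
  have h1 := hmean T hT.le S (cc71 f.h s T) (2 * M) (by positivity) hSb
  have e2 : (∫ t, om g.h T t * (pss f.h s T t - prp f.h s T t) ^ 2) =
      ∫ t, om g.h T t * (∑ n ∈ S, cc71 f.h s T n * Real.cos (Real.log n * t)) ^ 2 := by
    congr 1
    funext t
    rw [e1 t]
  rw [e2]
  have h2 : ∑ n ∈ S, cc71 f.h s T n ^ 2 ≤ 4 * M ^ 2 / Real.log T * CNP := by
    have h3 : ∀ n ∈ S, cc71 f.h s T n ^ 2 ≤ 4 * M ^ 2 / Real.log T * (aN n / n) := by
      intro n hn
      rw [hS, Finset.mem_filter] at hn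
      have hn0 : (0 : ℝ) < n := by
        have : 0 < n := by omega
        exact_mod_cast this
      have hnT : (n : ℝ) ≤ T := by
        have := Finset.mem_range.1 hn.1
        exact (Nat.le_floor_iff (by linarith)).1 (by omega)
      have h4 : ArithmeticFunction.vonMangoldt n ≤ Real.log T :=
        ArithmeticFunction.vonMangoldt_le_log.trans (Real.log_le_log hn0 hnT)
      have h0 : 0 ≤ ArithmeticFunction.vonMangoldt n := ArithmeticFunction.vonMangoldt_nonneg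
      unfold cc71 aN
      rw [if_neg hn.2.1, mul_pow, mul_pow, div_pow, div_pow, Real.sq_sqrt hn0.le]
      have h5 : f.h (yy T n / s) ^ 2 ≤ M ^ 2 := by
        rw [← sq_abs]
        exact pow_le_pow_left₀ (abs_nonneg _) (hM _) 2
      have h6 : ArithmeticFunction.vonMangoldt n ^ 2 / n ≤
          ArithmeticFunction.vonMangoldt n * Real.log T / n := by
        gcongr
        nlinarith
      have h7 : 0 ≤ ArithmeticFunction.vonMangoldt n * Real.log T / n := by positivity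
      calc 2 ^ 2 / Real.log T ^ 2 * (ArithmeticFunction.vonMangoldt n ^ 2 / n) *
            f.h (yy T n / s) ^ 2
          ≤ 2 ^ 2 / Real.log T ^ 2 * (ArithmeticFunction.vonMangoldt n * Real.log T / n) * M ^ 2 := by
            gcongr
        _ = 4 * M ^ 2 / Real.log T * (ArithmeticFunction.vonMangoldt n / n) := by
            field_simp
            ring
    refine (Finset.sum_le_sum h3).trans ?_
    rw [← Finset.mul_sum]
    refine mul_le_mul_of_nonneg_left ?_ (by positivity)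
    refine le_trans (Finset.sum_le_sum_of_subset_of_nonneg (Finset.filter_subset _ _) ?_)
      (nonprime_sum ⌊T⌋₊)
    intro n _ _
    have := aN_nonneg n
    positivity
  have h8 : C * (4 * M ^ 2 / Real.log T * CNP) ≤ ε / 2 := by
    have h9 : 8 * C * M ^ 2 * CNP / ε ≤ Real.log T := by linarith
    rw [div_le_iff₀ hε] at h9
    have e : C * (4 * M ^ 2 / Real.log T * CNP) = 4 * C * M ^ 2 * CNP / Real.log T := by
      field_simp
    rw [e, div_le_iff₀ hL]
    nlinarith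
  have h10 : C * (2 * M) ^ 2 ≤ ε / 2 * T := by
    rw [div_le_iff₀ hε] at hTT
    nlinarith
  calc _ ≤ C * (T * ∑ n ∈ S, cc71 f.h s T n ^ 2 + (2 * M) ^ 2) := h1
    _ ≤ C * (T * (4 * M ^ 2 / Real.log T * CNP) + (2 * M) ^ 2) := by gcongr
    _ = C * (4 * M ^ 2 / Real.log T * CNP) * T + C * (2 * M) ^ 2 := by ring
    _ ≤ ε / 2 * T + ε / 2 * T := by
        refine add_le_add (mul_le_mul_of_nonneg_right h8 (by linarith)) h10
    _ = ε * T := by ring

theorem prp_sq_int (g f : TF) {s : ℝ} (hs : s = 1 ∨ s = 2) : ∃ C : ℝ, 0 < C ∧ ∀ᶠ T : ℝ in atTop,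
    ∫ t, om g.h T t * prp f.h s T t ^ 2 ≤ C * T := by
  obtain ⟨M, hM0, hM⟩ := tf_bdd71 f
  have hδ : 0 < 1 - 2 * f.th := by linarith [f.th1]
  obtain ⟨C, hC, hmean⟩ := sq_mean71 g hδ
  refine ⟨C * (8 * M ^ 2), by positivity, ?_⟩
  filter_upwards [eventually_gt_atTop 1, ww_sq_le] with T hT hww
  have hL : 0 < Real.log T := Real.log_pos hT
  set S : Finset ℕ := (Finset.range (⌊T⌋₊ + 1)).filter
    (fun n => n.Prime ∧ (n : ℝ) ≤ T ^ (1 - (1 - 2 * f.th))) with hS
  have e1 : ∀ t, prp f.h s T t =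
      ∑ n ∈ S, cc71 f.h s T n * Real.cos (Real.log n * t) := by
    intro t
    rw [prp_eq71]
    symm
    apply Finset.sum_subset
    · intro n hn
      rw [hS, Finset.mem_filter] at hn
      exact Finset.mem_filter.2 ⟨hn.1, hn.2.1⟩
    · intro n hn hn2
      rw [Finset.mem_filter] at hn
      rw [hS, Finset.mem_filter] at hn2
      have h3 : ¬ ((n : ℝ) ≤ T ^ (1 - (1 - 2 * f.th))) := fun h => hn2 ⟨hn.1, hn.2, h⟩
      unfold cc71
      rw [h_zero71 f hs hT hn.2.two_le h3]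
      ring
  have hSb : ∀ n ∈ S, 2 ≤ n ∧ (n : ℝ) ≤ T ^ (1 - (1 - 2 * f.th)) ∧ |cc71 f.h s T n| ≤ 2 * M := by
    intro n hn
    rw [hS, Finset.mem_filter] at hn
    exact ⟨hn.2.1.two_le, hn.2.2, cc_bd71 hM hT hn.1 hn.2.1.one_lt.le⟩
  have h1 := hmean T hT.le S (cc71 f.h s T) (2 * M) (by positivity) hSb
  have e2 : (∫ t, om g.h T t * prp f.h s T t ^ 2) =
      ∫ t, om g.h T t * (∑ n ∈ S, cc71 f.h s T n * Real.cos (Real.log n * t)) ^ 2 := by
    congr 1
    funext t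
    rw [e1 t]
  rw [e2]
  have h2 : ∑ n ∈ S, cc71 f.h s T n ^ 2 ≤ 4 * M ^ 2 := by
    have h3 : ∀ n ∈ S, cc71 f.h s T n ^ 2 ≤ 4 * M ^ 2 * ww T n ^ 2 := by
      intro n hn
      rw [hS, Finset.mem_filter] at hn
      have hn0 : (0 : ℝ) < n := by exact_mod_cast hn.2.1.pos
      have e3 : cc71 f.h s T n = 2 * ww T n * f.h (yy T n / s) := by
        unfold cc71 ww
        rw [ArithmeticFunction.vonMangoldt_apply_prime hn.2.1]
        congr 1
        rw [div_mul_div_comm, mul_div_assoc]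
      rw [e3, mul_pow, mul_pow]
      have h5 : f.h (yy T n / s) ^ 2 ≤ M ^ 2 := by
        rw [← sq_abs]
        exact pow_le_pow_left₀ (abs_nonneg _) (hM _) 2
      nlinarith [sq_nonneg (ww T n)]
    refine (Finset.sum_le_sum h3).trans ?_
    rw [← Finset.mul_sum]
    have h4 : ∑ n ∈ S, ww T n ^ 2 ≤ ∑ n ∈ PP T, ww T n ^ 2 := by
      refine Finset.sum_le_sum_of_subset_of_nonneg ?_ (fun _ _ _ => sq_nonneg _)
      intro n hn
      rw [hS, Finset.mem_filter] at hn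
      exact Finset.mem_filter.2 ⟨hn.1, hn.2.1⟩
    nlinarith [sq_nonneg M]
  calc _ ≤ C * (T * ∑ n ∈ S, cc71 f.h s T n ^ 2 + (2 * M) ^ 2) := h1
    _ ≤ C * (T * (4 * M ^ 2) + 4 * M ^ 2 * T) := by
        have h3 : (2 * M) ^ 2 ≤ 4 * M ^ 2 * T := by nlinarith [sq_nonneg M]
        have h4 : T * ∑ n ∈ S, cc71 f.h s T n ^ 2 ≤ T * (4 * M ^ 2) :=
          mul_le_mul_of_nonneg_left h2 (by linarith)
        exact mul_le_mul_of_nonneg_left (add_le_add h4 h3) hC.le
    _ = C * (8 * M ^ 2) * T := by ring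

end Pool.Agent.Helper4.SH
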