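import Pool.Agent.Helper4.SH.Iso
import Pool.Agent.Helper78.SG.Moments
import Pool.Agent.Helper78.SG.Weak
import Pool.Agent.Helper78.SG.Tail
import Pool.Agent.Helper78.SG.XMeas

/-!
# SH-SC: sums over zeros at scale `s ∈ [1, 2]` (helper4 proves this file)
-/

open MeasureTheory Set Filter Topology
open Pool.Agent.Helper57.Zeta Pool.Agent.Helper57.PC Pool.Agent.Helper57.LH Pool.Agent.Helper78.SG
open scoped ContDiff Interval

namespace Pool.Agent.Helper4.SH

theorem explicit_s (f : TF) {s T : ℝ} (hs : 1 ≤ s) (hT : 1 < T) (t : ℝ) :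
    Tendsto (fun F : Finset ZS => ∑ ρ ∈ F, mx ρ * kzs f.h s T t ρ) atTop (𝓝 (Xs f.h s T t)) := by
  have hL : 0 < s * Real.log T := mul_pos (by linarith) (Real.log_pos hT)
  have h1 := explicit_h f hL t
  have h2 : Tendsto (fun F : Finset ZS => s * ∑ ρ ∈ F, mx ρ * kz f.h (s * Real.log T) t ρ) atTop
      (𝓝 (s * Xf f.h (s * Real.log T) t)) := Tendsto.const_mul s h1
  refine h2.congr fun F => ?_
  rw [Finset.mul_sum]
  refine Finset.sum_congr rfl fun ρ _ => ?_
  unfold kzs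
  ring

theorem pss_cont (h : ℝ → ℝ) (s T : ℝ) : Continuous (fun t => pss h s T t) := by
  unfold pss
  exact continuous_const.mul (prs_cont16 h (s * Real.log T))

theorem main_term_s (f : TF) {s δ ε : ℝ} (hs : 1 ≤ s) (hs2 : s ≤ 2) (hδ : 0 < δ) (hε : 0 < ε) :
    ∀ᶠ T : ℝ in atTop, ∀ t ∈ Icc (δ * T) T, |Xs f.h s T t - (f.h 0 - pss f.h s T t)| ≤ ε := by
  obtain ⟨C, hC, hCb⟩ := MT_small
  obtain ⟨B, hB⟩ := isCompact_Icc.exists_bound_of_continuousOn
    (s := Icc (0:ℝ) (1 / 2)) (f := deriv (deriv f.h)) (d2_cont f).continuousOn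
  have hB0 : 0 ≤ B := (norm_nonneg _).trans (hB 0 ⟨le_rfl, by norm_num⟩)
  set K : ℝ := B * (|CM| / 2 + C) * (1 / 2) + |Real.log δ| * |f.h 0| with hK
  have hK0 : 0 ≤ K := by positivity
  have hev : ∀ᶠ T : ℝ in atTop, 1 + 2 * |Real.log δ| + K / ε ≤ Real.log T :=
    Real.tendsto_log_atTop.eventually_ge_atTop _
  filter_upwards [hev, eventually_gt_atTop 0] with T hT hT0
  intro t ht
  set L := Real.log T with hL
  have hs0 : 0 < s := by linarith
  have hKε : 0 ≤ K / ε := by positivity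
  have hLδ : 2 * |Real.log δ| ≤ L := by linarith
  have hL1 : 1 ≤ L := by linarith [abs_nonneg (Real.log δ)]
  have hLK : K / ε ≤ L := by linarith [abs_nonneg (Real.log δ)]
  have hL0 : 0 < L := by linarith
  have hsL : 0 < s * L := by positivity
  have ht0 : 0 < t := lt_of_lt_of_le (mul_pos hδ hT0) ht.1
  have hlt1 : Real.log t ≤ L := Real.log_le_log ht0 ht.2
  have hlt2 : Real.log δ + L ≤ Real.log t := by
    rw [hL, ← Real.log_mul hδ.ne' hT0.ne']
    exact Real.log_le_log (mul_pos hδ hT0) ht.1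
  have hδa := neg_abs_le (Real.log δ)
  have hlt0 : 0 ≤ Real.log t := by linarith
  have hlth : L / 4 ≤ Real.log t := by linarith
  have ht1 : 1 ≤ t := (Real.log_nonneg_iff ht0).mp hlt0
  have hlin : |Real.log t / L - 1| ≤ |Real.log δ| / L := by
    rw [show Real.log t / L - 1 = (Real.log t - L) / L by field_simp, abs_div, abs_of_pos hL0]
    apply div_le_div_of_nonneg_right _ hL0.le
    rw [abs_le]; constructor <;> linarith [abs_nonneg (Real.log δ)]
  -- pointwise bound
  have hpt : ∀ y ∈ Set.uIoc (0:ℝ) (1 / 2),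
      ‖y * deriv (deriv f.h) y * (MT (s * L * y) t - Real.log t)‖ ≤ B * (|CM| / 2 + C / (s * L)) := by
    intro y hy
    rw [uIoc_of_le (by norm_num)] at hy
    have hy0 : 0 < y := hy.1
    have hg := hB y ⟨hy.1.le, hy.2⟩
    have hLy : 0 < s * L * y := mul_pos hsL hy0
    have hkey : y * |MT (s * L * y) t - Real.log t| ≤ |CM| / 2 + C / (s * L) := by
      rcases le_total 1 (s * L * y) with h | h
      · have h2 : Real.exp (s * L * y / 2) ≤ t ^ 2 := by
          rw [← Real.exp_log (pow_pos ht0 2), Real.log_pow]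
          apply Real.exp_le_exp.mpr
          have h3 : s * L * y ≤ 2 * L * (1 / 2) := by
            apply mul_le_mul _ hy.2 hy0.le (by positivity)
            exact mul_le_mul_of_nonneg_right hs2 hL0.le
          push_cast
          linarith
        have h3 := MT_bound h ht1 h2
        have h4 : |MT (s * L * y) t - Real.log t| ≤ |CM| := h3.trans (le_abs_self _)
        calc y * |MT (s * L * y) t - Real.log t| ≤ (1 / 2) * |CM| := by
              apply mul_le_mul hy.2 h4 (abs_nonneg _) (by norm_num)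
          _ ≤ |CM| / 2 + C / (s * L) := by
              have : 0 ≤ C / (s * L) := by positivity
              linarith
      · have h3 := hCb (s * L * y) t hLy h ht1
        calc y * |MT (s * L * y) t - Real.log t| ≤ y * (C / (s * L * y)) := by gcongr
          _ = C / (s * L) := by field_simp
          _ ≤ |CM| / 2 + C / (s * L) := by linarith [abs_nonneg CM]
    rw [Real.norm_eq_abs, abs_mul, abs_mul, abs_of_pos hy0]
    rw [Real.norm_eq_abs] at hg
    calc y * |deriv (deriv f.h) y| * |MT (s * L * y) t - Real.log t|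
        = |deriv (deriv f.h) y| * (y * |MT (s * L * y) t - Real.log t|) := by ring
      _ ≤ B * (|CM| / 2 + C / (s * L)) := by
          apply mul_le_mul hg hkey (by positivity) hB0
  have hint := intervalIntegral.norm_integral_le_of_norm_le_const hpt
  have hI1 := mt_integrable f hsL t
  have hI2 : IntervalIntegrable (fun y => y * deriv (deriv f.h) y * Real.log t) volume 0 (1 / 2) :=
    ((continuous_id.mul (d2_cont f)).mul continuous_const).intervalIntegrable _ _
  have hsplit : (∫ y in (0:ℝ)..(1 / 2), y * deriv (deriv f.h) y * (MT (s * L * y) t - Real.log t))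
      = (∫ y in (0:ℝ)..(1 / 2), y * deriv (deriv f.h) y * MT (s * L * y) t) - f.h 0 * Real.log t := by
    have h1 : (∫ y in (0:ℝ)..(1 / 2), y * deriv (deriv f.h) y * (MT (s * L * y) t - Real.log t))
        = ∫ y in (0:ℝ)..(1 / 2), (y * deriv (deriv f.h) y * MT (s * L * y) t
          - y * deriv (deriv f.h) y * Real.log t) := by
      congr 1; ext y; ring
    rw [h1, intervalIntegral.integral_sub hI1 hI2, intervalIntegral.integral_mul_const]
    have h2 := taylor f (z := 0) (by norm_num)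
    simp only [sub_zero] at h2
    rw [h2]
  have hXf : Xs f.h s T t - (f.h 0 - pss f.h s T t)
      = 1 / L * (∫ y in (0:ℝ)..(1 / 2), y * deriv (deriv f.h) y * (MT (s * L * y) t - Real.log t))
        + (Real.log t / L - 1) * f.h 0 := by
    rw [hsplit]
    unfold Xs pss Xf
    rw [← hL]
    field_simp
    ring
  rw [hXf]
  have hA : |1 / L * (∫ y in (0:ℝ)..(1 / 2),
      y * deriv (deriv f.h) y * (MT (s * L * y) t - Real.log t))| ≤ B * (|CM| / 2 + C) * (1 / 2) / L := by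
    rw [abs_mul, abs_of_pos (by positivity : (0:ℝ) < 1 / L)]
    rw [Real.norm_eq_abs] at hint
    have h3 : C / (s * L) ≤ C := div_le_self hC.le (by nlinarith)
    have h4 : |(1 / 2 : ℝ) - 0| = 1 / 2 := by norm_num
    rw [h4] at hint
    have h5 : B * (|CM| / 2 + C / (s * L)) * (1 / 2) ≤ B * (|CM| / 2 + C) * (1 / 2) := by gcongr
    calc 1 / L * |∫ y in (0:ℝ)..(1 / 2), y * deriv (deriv f.h) y * (MT (s * L * y) t - Real.log t)|
        ≤ 1 / L * (B * (|CM| / 2 + C) * (1 / 2)) := by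
          gcongr; exact hint.trans h5
      _ = _ := by ring
  have hB2 : |(Real.log t / L - 1) * f.h 0| ≤ |Real.log δ| * |f.h 0| / L := by
    rw [abs_mul]
    calc |Real.log t / L - 1| * |f.h 0| ≤ |Real.log δ| / L * |f.h 0| := by gcongr
      _ = _ := by ring
  calc _ ≤ |1 / L * (∫ y in (0:ℝ)..(1 / 2), y * deriv (deriv f.h) y * (MT (s * L * y) t - Real.log t))|
        + |(Real.log t / L - 1) * f.h 0| := abs_add_le _ _
    _ ≤ B * (|CM| / 2 + C) * (1 / 2) / L + |Real.log δ| * |f.h 0| / L := add_le_add hA hB2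
    _ = K / L := by rw [hK]; ring
    _ ≤ ε := by
        rw [div_le_iff₀ hL0]
        rw [div_le_iff₀ hε] at hLK
        linarith

theorem Gs_cont (f : TF) (s T : ℝ) : Continuous (fun t => Gs f.h s T t) := by
  unfold Gs kzs
  refine continuous_finsetSum _ fun ρ _ => continuous_const.mul ?_
  exact (continuous_const.mul (kz_cont f _ _)).abs

theorem Zs_cont (f : TF) (s T : ℝ) : Continuous (fun t => Zs f.h s T t) := by
  unfold Zs krs
  refine continuous_finsetSum _ fun ρ _ => continuous_const.mul ?_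
  exact (ker_cont f 0).comp (by fun_prop)

theorem weak_s (f : TF) {s η ε : ℝ} (hs : 1 ≤ s) (hs2 : s ≤ 2) (hη : 0 < η) (hε : 0 < ε) : ∃ p : ℝ, 0 < p ∧
    ∀ᶠ T : ℝ in atTop, ∑ ρ ∈ CZ T, mx ρ ≤ p * (T * Real.log T) →
      volume {t : ℝ | η < Gs f.h s T t} ≤ ENNReal.ofReal (ε * T) := by
  obtain ⟨κ, C, hκ, hC, hexp⟩ := exp_moment
  obtain ⟨r, hr⟩ : ∃ r, r = min (κ / 4) 1 := ⟨_, rfl⟩
  have hs0 : 0 < s := by linarith
  have hr0 : 0 < r := by
    rw [hr]
    exact lt_min (by linarith) one_pos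
  have hr1 : r ≤ 1 := by
    rw [hr]
    exact min_le_right _ _
  have hrκ : 4 * r ≤ κ := by
    have : r ≤ κ / 4 := by
      rw [hr]
      exact min_le_left _ _
    linarith
  obtain ⟨C', hC', hint⟩ := int_rpow f hr0 hr1
  have hηr : 0 < (η / s) ^ r := Real.rpow_pos_of_pos (by positivity) r
  refine ⟨(ε * (η / s) ^ r / C') ^ 2 / C, by positivity, ?_⟩
  filter_upwards [hexp, eventually_ge_atTop (Real.exp 1)] with T hT hTe hsum
  have hF : CZ T ⊆ ZT T := fun ρ hρ => (mem_CZ.mp hρ).1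
  have hT0 : 0 < T := lt_of_lt_of_le (Real.exp_pos 1) hTe
  have hL : 1 ≤ Real.log T := by
    rw [Real.le_log_iff_exp_le hT0]
    exact hTe
  have hL0 : 0 < Real.log T := by linarith
  have hsL : 1 ≤ s * Real.log T := by nlinarith
  obtain ⟨hi, hb⟩ := hint (s * Real.log T) hsL (CZ T)
  have hTL : 0 < T * Real.log T := by positivity
  have hcs := weak_cs (CZ T) (fun ρ => mx ρ)
    (fun ρ => |s * Real.log T * ((ρ : ℂ).re - 1 / 2)|) (fun ρ => mx_nonneg ρ) r
  have hs2' : ∑ ρ ∈ CZ T, mx ρ * Real.exp (2 * r * |s * Real.log T * ((ρ : ℂ).re - 1 / 2)|) ≤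
      C * (T * Real.log T) := by
    calc ∑ ρ ∈ CZ T, mx ρ * Real.exp (2 * r * |s * Real.log T * ((ρ : ℂ).re - 1 / 2)|)
        ≤ ∑ ρ ∈ CZ T, mx ρ * Real.exp (κ * |Real.log T * ((ρ : ℂ).re - 1 / 2)|) := by
          refine Finset.sum_le_sum fun ρ _ => ?_
          refine mul_le_mul_of_nonneg_left ?_ (mx_nonneg _)
          refine Real.exp_le_exp.2 ?_
          rw [mul_assoc s, abs_mul, abs_of_pos hs0, ← mul_assoc]
          refine mul_le_mul_of_nonneg_right ?_ (abs_nonneg _)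
          nlinarith
      _ ≤ ∑ ρ ∈ ZT T, mx ρ * Real.exp (κ * |Real.log T * ((ρ : ℂ).re - 1 / 2)|) :=
          Finset.sum_le_sum_of_subset_of_nonneg hF
            (fun ρ _ _ => mul_nonneg (mx_nonneg _) (Real.exp_pos _).le)
      _ ≤ C * (T * Real.log T) := hT
  have hmain : ∑ ρ ∈ CZ T, mx ρ * Real.exp (r * |s * Real.log T * ((ρ : ℂ).re - 1 / 2)|) ≤
      ε * (η / s) ^ r / C' * (T * Real.log T) := by
    refine le_trans hcs ?_
    calc Real.sqrt (∑ ρ ∈ CZ T, mx ρ) *
          Real.sqrt (∑ ρ ∈ CZ T, mx ρ * Real.exp (2 * r * |s * Real.log T * ((ρ : ℂ).re - 1 / 2)|))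
        ≤ Real.sqrt ((ε * (η / s) ^ r / C') ^ 2 / C * (T * Real.log T)) *
          Real.sqrt (C * (T * Real.log T)) := by
          apply mul_le_mul (Real.sqrt_le_sqrt hsum) (Real.sqrt_le_sqrt hs2') (Real.sqrt_nonneg _)
            (Real.sqrt_nonneg _)
      _ = Real.sqrt ((ε * (η / s) ^ r / C' * (T * Real.log T)) ^ 2) := by
          rw [← Real.sqrt_mul (by positivity)]
          congr 1
          field_simp
      _ = ε * (η / s) ^ r / C' * (T * Real.log T) := Real.sqrt_sq (by positivity)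
  have hA : ∫ t, (∑ ρ ∈ CZ T, mx ρ * |kz f.h (s * Real.log T) t ρ|) ^ r ≤ ε * (η / s) ^ r * T := by
    refine le_trans hb ?_
    calc C' / (s * Real.log T) * ∑ ρ ∈ CZ T, mx ρ * Real.exp (r * |s * Real.log T * ((ρ : ℂ).re - 1 / 2)|)
        ≤ C' / (s * Real.log T) * (ε * (η / s) ^ r / C' * (T * Real.log T)) :=
          mul_le_mul_of_nonneg_left hmain (by positivity)
      _ = ε * (η / s) ^ r * T / s := by
          field_simp
      _ ≤ ε * (η / s) ^ r * T := div_le_self (by positivity) hs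
  have hfin := weak_cheb (fun t => ∑ ρ ∈ CZ T, mx ρ * |kz f.h (s * Real.log T) t ρ|)
    (fun t => Finset.sum_nonneg fun ρ _ => mul_nonneg (mx_nonneg _) (abs_nonneg _)) hr0
    (by positivity : 0 < η / s) hi hA
  have e : ε * (η / s) ^ r * T / (η / s) ^ r = ε * T := by
    field_simp
  rw [e] at hfin
  refine le_trans (measure_mono ?_) hfin
  intro t ht
  simp only [Set.mem_ofPred_eq] at ht ⊢
  rw [div_lt_iff₀ hs0]
  refine lt_of_lt_of_eq ht ?_
  unfold Gs kzs
  rw [Finset.sum_mul]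
  refine Finset.sum_congr rfl fun ρ _ => ?_
  rw [abs_mul, abs_of_pos hs0]
  ring

theorem tail_s (f : TF) {s δ ε : ℝ} (hs : 1 ≤ s) (hs2 : s ≤ 2) (hδ : 0 < δ) (hδ1 : δ < 1 / 2) (hε : 0 < ε) :
    ∀ᶠ T : ℝ in atTop, ∀ t ∈ Icc (δ * T) ((1 - δ) * T), ∀ F : Finset ZS, (∀ ρ ∈ F, ρ ∉ ZT T) →
      ∑ ρ ∈ F, mx ρ * |kzs f.h s T t ρ| ≤ ε := by
  obtain ⟨C, hC, hker⟩ := ker_decay f 4
  have hs0 : 0 < s := by linarith
  have hCA : 0 ≤ CA := by
    have h := (abs_nonneg _).trans (Afun_bound 0)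
    have h2 : Pool.Agent.Helper57.LH.wg 0 = 1 := by
      unfold Pool.Agent.Helper57.LH.wg
      simp
    rw [h2, mul_one] at h
    exact h
  filter_upwards [eventually_ge_atTop (Real.exp 1), eventually_ge_atTop (1:ℝ),
    (Real.tendsto_sqrt_atTop).eventually_ge_atTop (16 * C * CA / (δ ^ 2 * ε))] with T hTe hT1 hTb
  intro t ht F hF
  have hT0 : 0 < T := by linarith
  have hL1 : 1 ≤ Real.log T := by
    rw [Real.le_log_iff_exp_le hT0]
    exact hTe
  set L := Real.log T with hL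
  have hdT : 0 < δ * T := mul_pos hδ hT0
  have hexp : Real.exp L = T := by rw [hL, Real.exp_log hT0]
  have hterm : ∀ ρ ∈ F, mx ρ * |kzs f.h s T t ρ| ≤ (8 * C * T / (δ * T) ^ 2) * fz ρ t := by
    intro ρ hρ
    have hre := zs_re ρ
    have hd : δ * T ≤ |t - (ρ:ℂ).im| := by
      have hn := hF ρ hρ
      rw [mem_ZT, not_and_or, not_le, not_le] at hn
      rcases hn with h | h
      · rw [abs_of_nonneg (by linarith [ht.1])]
        linarith [ht.1]
      · rw [abs_sub_comm, abs_of_nonneg (by linarith [ht.2])]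
        linarith [ht.2]
    set d := |t - (ρ:ℂ).im| with hdd
    have hd0 : 0 < d := lt_of_lt_of_le hdT hd
    have hk := hker (s * L * ((ρ:ℂ).re - 1 / 2)) (s * L * (t - (ρ:ℂ).im))
    have hsL1 : 1 ≤ s * L := by nlinarith
    have hsL0 : 0 ≤ s * L := by linarith
    have ha : |s * L * ((ρ:ℂ).re - 1 / 2)| ≤ L := by
      rw [abs_mul, abs_of_nonneg hsL0]
      have h1 : |(ρ:ℂ).re - 1 / 2| ≤ 1 / 2 := by
        rw [abs_le]
        constructor <;> linarith
      calc s * L * |(ρ:ℂ).re - 1 / 2| ≤ (2 * L) * (1 / 2) := by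
            apply mul_le_mul _ h1 (abs_nonneg _) (by linarith)
            exact mul_le_mul_of_nonneg_right hs2 (by linarith)
        _ = L := by ring
    have hu : d ≤ |s * L * (t - (ρ:ℂ).im)| := by
      rw [abs_mul, abs_of_nonneg hsL0, ← hdd]
      nlinarith
    have h4 : (δ * T) ^ 2 * (1 + d ^ 2) ≤ (1 + |s * L * (t - (ρ:ℂ).im)|) ^ 4 := by
      have h5 : (1 + d) ^ 4 ≤ (1 + |s * L * (t - (ρ:ℂ).im)|) ^ 4 := by
        apply pow_le_pow_left₀ (by linarith)
        linarith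
      have h6 : (δ * T) ^ 2 ≤ (1 + d) ^ 2 := by
        apply pow_le_pow_left₀ hdT.le
        linarith
      have h7 : 1 + d ^ 2 ≤ (1 + d) ^ 2 := by nlinarith
      calc (δ * T) ^ 2 * (1 + d ^ 2) ≤ (1 + d) ^ 2 * (1 + d) ^ 2 := by
            apply mul_le_mul h6 h7 (by positivity) (by positivity)
        _ = (1 + d) ^ 4 := by ring
        _ ≤ _ := h5
    have hpos : 0 < (δ * T) ^ 2 * (1 + d ^ 2) := by positivity
    have hkz : |kz f.h (s * L) t ρ| ≤ C * T / ((δ * T) ^ 2 * (1 + d ^ 2)) := by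
      unfold kz
      refine hk.trans ?_
      apply div_le_div₀ (by positivity) _ hpos h4
      apply mul_le_mul_of_nonneg_left _ hC.le
      rw [← hexp]
      exact Real.exp_le_exp.2 ha
    have hkzs : |kzs f.h s T t ρ| ≤ 2 * (C * T / ((δ * T) ^ 2 * (1 + d ^ 2))) := by
      unfold kzs
      rw [abs_mul, abs_of_pos hs0, ← hL]
      exact mul_le_mul hs2 hkz (abs_nonneg _) (by norm_num)
    have hfz : mx ρ / (1 + d ^ 2) ≤ 4 * fz ρ t := by
      unfold fz
      have hm := mx_nonneg (ρ : ℂ)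
      have hsq : (t - (ρ:ℂ).im) ^ 2 = d ^ 2 := by rw [hdd, sq_abs]
      rw [hsq]
      have h8 : 1 / (1 + d ^ 2) ≤ 4 * ((2 - (ρ:ℂ).re) / ((2 - (ρ:ℂ).re) ^ 2 + d ^ 2)) := by
        rw [← mul_div_assoc, div_le_div_iff₀ (by positivity) (by
          have : 0 < (2 - (ρ:ℂ).re) ^ 2 := by
            apply pow_pos; linarith
          positivity)]
        have h9 : (2 - (ρ:ℂ).re) ^ 2 ≤ 4 := by nlinarith
        have h10 : 1 ≤ 2 - (ρ:ℂ).re := by linarith
        nlinarith [sq_nonneg d, mul_nonneg (sq_nonneg d) (by linarith : (0:ℝ) ≤ 2 - (ρ:ℂ).re - 1)]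
      calc mx ρ / (1 + d ^ 2) = mx ρ * (1 / (1 + d ^ 2)) := by ring
        _ ≤ mx ρ * (4 * ((2 - (ρ:ℂ).re) / ((2 - (ρ:ℂ).re) ^ 2 + d ^ 2))) :=
            mul_le_mul_of_nonneg_left h8 hm
        _ = _ := by ring
    calc mx ρ * |kzs f.h s T t ρ| ≤ mx ρ * (2 * (C * T / ((δ * T) ^ 2 * (1 + d ^ 2)))) :=
          mul_le_mul_of_nonneg_left hkzs (mx_nonneg _)
      _ = (2 * C * T / (δ * T) ^ 2) * (mx ρ / (1 + d ^ 2)) := by
          have h1d : (1 + d ^ 2) ≠ 0 := by positivity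
          field_simp
      _ ≤ (2 * C * T / (δ * T) ^ 2) * (4 * fz ρ t) := by
          apply mul_le_mul_of_nonneg_left hfz
          positivity
      _ = _ := by ring
  have hsum := Finset.sum_le_sum hterm
  rw [← Finset.mul_sum] at hsum
  refine hsum.trans ?_
  have hA : ∑ ρ ∈ F, fz ρ t ≤ CA * Real.sqrt (1 + |t|) := by
    refine (sum_le_hasSum F (fun i _ => fz_nonneg i t) (fz_hasSum t)).trans ?_
    exact (le_abs_self _).trans (Afun_bound t)
  have ht0 : 0 ≤ t := le_trans hdT.le ht.1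
  have htT : t ≤ T := by nlinarith [ht.2]
  have hsT : 0 < Real.sqrt T := Real.sqrt_pos.mpr hT0
  have hs1 : Real.sqrt (1 + |t|) ≤ 2 * Real.sqrt T := by
    rw [abs_of_nonneg ht0, Real.sqrt_le_left (by positivity), mul_pow, Real.sq_sqrt hT0.le]
    linarith
  have hsq : Real.sqrt T * Real.sqrt T = T := Real.mul_self_sqrt hT0.le
  calc (8 * C * T / (δ * T) ^ 2) * ∑ ρ ∈ F, fz ρ t
      ≤ (8 * C * T / (δ * T) ^ 2) * (CA * (2 * Real.sqrt T)) := by
        apply mul_le_mul_of_nonneg_left _ (by positivity)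
        exact hA.trans (mul_le_mul_of_nonneg_left hs1 hCA)
    _ = 16 * C * CA * Real.sqrt T / (δ ^ 2 * T) := by
        field_simp
        ring
    _ = 16 * C * CA / (δ ^ 2 * Real.sqrt T) := by
        rw [div_eq_div_iff (by positivity) (by positivity)]
        have h12 : 16 * C * CA * Real.sqrt T * (δ ^ 2 * Real.sqrt T) =
            16 * C * CA * (δ ^ 2 * (Real.sqrt T * Real.sqrt T)) := by ring
        rw [h12, hsq]
    _ ≤ ε := by
        rw [div_le_iff₀ (by positivity)]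
        rw [div_le_iff₀ (by positivity)] at hTb
        nlinarith

theorem dev_s (f : TF) {s ε : ℝ} (hs : 1 ≤ s) (hs2 : s ≤ 2) (hε : 0 < ε) : ∀ᶠ T : ℝ in atTop,
    ∀ t ∈ Icc (1 / 8 * T) (7 / 8 * T), |Xs f.h s T t - Zs f.h s T t| ≤ Gs f.h s T t + ε := by
  classical
  filter_upwards [tail_s f hs hs2 (δ := 1 / 8) (by norm_num) (by norm_num) hε, eventually_gt_atTop 1] with T hT hT1
  intro t ht
  have htail := hT t ⟨ht.1, by linarith [ht.2]⟩
  have hsl := explicit_s f hs hT1 t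
  have h1 : |Xs f.h s T t - ∑ ρ ∈ ZT T, mx ρ * kzs f.h s T t ρ| ≤ ε := by
    have hlim : Tendsto (fun F : Finset ZS => |(∑ ρ ∈ F, mx ρ * kzs f.h s T t ρ) - ∑ ρ ∈ ZT T, mx ρ * kzs f.h s T t ρ|)
        atTop (𝓝 |Xs f.h s T t - ∑ ρ ∈ ZT T, mx ρ * kzs f.h s T t ρ|) :=
      (hsl.sub_const _).abs
    refine le_of_tendsto hlim ?_
    filter_upwards [eventually_ge_atTop (ZT T)] with F hF
    rw [← Finset.sum_sdiff hF, add_sub_cancel_right]
    calc |∑ ρ ∈ F \ ZT T, mx ρ * kzs f.h s T t ρ| ≤ ∑ ρ ∈ F \ ZT T, |mx ρ * kzs f.h s T t ρ| := Finset.abs_sum_le_sum_abs _ _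
      _ = ∑ ρ ∈ F \ ZT T, mx ρ * |kzs f.h s T t ρ| := by
          refine Finset.sum_congr rfl fun ρ _ => ?_
          rw [abs_mul, abs_of_nonneg (mx_nonneg _)]
      _ ≤ ε := htail _ (fun ρ hρ => (Finset.mem_sdiff.mp hρ).2)
  have h2 : ∑ ρ ∈ ZT T, mx ρ * kzs f.h s T t ρ =
      (∑ ρ ∈ CZ T, mx ρ * kzs f.h s T t ρ) + Zs f.h s T t := by
    unfold CZ Zs IZ
    rw [← Finset.sum_filter_add_sum_filter_not (ZT T) (CloseB T)]
    congr 1
    refine Finset.sum_congr rfl fun ρ hρ => ?_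
    have h3 := iso_propsB (T := T) (ρ := ρ) (by
      rw [Finset.mem_filter] at hρ
      exact hρ.2)
    obtain ⟨h4, h5, _⟩ := h3
    rw [h5, one_mul]
    unfold kzs krs kz
    rw [h4, sub_self, mul_zero]
  have h3 : |∑ ρ ∈ CZ T, mx ρ * kzs f.h s T t ρ| ≤ Gs f.h s T t := by
    refine (Finset.abs_sum_le_sum_abs _ _).trans (le_of_eq ?_)
    unfold Gs
    refine Finset.sum_congr rfl fun ρ _ => ?_
    rw [abs_mul, abs_of_nonneg (mx_nonneg _)]
  rw [h2] at h1
  have h4 := abs_le.mp h1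
  have h5 := abs_le.mp h3
  rw [abs_le]
  constructor <;> linarith [h4.1, h4.2, h5.1, h5.2]

theorem Xs_meas (f : TF) {s T : ℝ} (hs : 1 ≤ s) (hT : 1 < T) : Measurable (fun t => Xs f.h s T t) := by
  unfold Xs
  exact (Xf_meas f (mul_pos (by linarith) (Real.log_pos hT))).const_mul s

theorem om_supp (g : TF) (hg : g.th = 1 / 4) {T : ℝ} (hT : 0 < T) (t : ℝ) (ht : om g.h T t ≠ 0) :
    t ∈ Icc (1 / 8 * T) (7 / 8 * T) := by
  unfold om at ht
  have h1 : |t / T - 1 / 2| < 1 / 4 := by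
    by_contra hcon
    rw [not_lt] at hcon
    exact ht (g.supp _ (by rw [hg]; exact hcon))
  rw [abs_lt] at h1
  have h2 : t / T * T = t := by field_simp
  constructor <;> nlinarith [h1.1, h1.2]

theorem om_cont (g : TF) (T : ℝ) : Continuous (fun t => om g.h T t) := by
  unfold om
  exact g.smooth.continuous.comp (by fun_prop)

/-- on the support of the weight `Xs` is bounded (for each `T`), so everything is integrable -/
theorem omX_int (g f : TF) (hg : g.th = 1 / 4) {s : ℝ} (hs : 1 ≤ s) (hs2 : s ≤ 2) : ∀ᶠ T : ℝ in atTop,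
    ∀ H : ℝ → ℝ, Continuous H → ∀ n : ℕ, Integrable (fun t => om g.h T t * (H t * Xs f.h s T t ^ n)) := by
  filter_upwards [main_term_s f hs hs2 (δ := 1 / 8) (by norm_num) one_pos, eventually_gt_atTop 1] with T hT hT1
  intro H hH n
  have hT0 : 0 < T := by linarith
  obtain ⟨B0, hB0⟩ := (isCompact_Icc (a := 1 / 8 * T) (b := 7 / 8 * T)).exists_bound_of_continuousOn
    (pss_cont f.h s T).continuousOn
  obtain ⟨B1, hB1⟩ := (isCompact_Icc (a := 1 / 8 * T) (b := 7 / 8 * T)).exists_bound_of_continuousOn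
    ((om_cont g T).mul hH).continuousOn
  have hX : ∀ t ∈ Icc (1 / 8 * T) (7 / 8 * T), |Xs f.h s T t| ≤ |f.h 0| + B0 + 1 := by
    intro t ht
    have h1 := hT t ⟨ht.1, by linarith [ht.2]⟩
    have h2 := hB0 t ht
    rw [Real.norm_eq_abs] at h2
    have h3 : Xs f.h s T t = f.h 0 - pss f.h s T t + (Xs f.h s T t - (f.h 0 - pss f.h s T t)) := by ring
    rw [h3]
    have h4 := abs_add_le (f.h 0 - pss f.h s T t) (Xs f.h s T t - (f.h 0 - pss f.h s T t))
    have h5 := abs_sub (f.h 0) (pss f.h s T t)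
    linarith
  have hmeas : AEStronglyMeasurable (fun t => om g.h T t * (H t * Xs f.h s T t ^ n)) volume :=
    ((om_cont g T).measurable.mul (hH.measurable.mul ((Xs_meas f hs hT1).pow_const n))).aestronglyMeasurable
  have hon : IntegrableOn (fun t => om g.h T t * (H t * Xs f.h s T t ^ n)) (Icc (1 / 8 * T) (7 / 8 * T)) := by
    refine Measure.integrableOn_of_bounded (M := B1 * (|f.h 0| + B0 + 1) ^ n) measure_Icc_lt_top.ne
      hmeas ?_
    refine ae_restrict_of_forall_mem measurableSet_Icc fun t ht => ?_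
    rw [← mul_assoc, norm_mul, Real.norm_eq_abs (Xs f.h s T t ^ n), abs_pow]
    have h6 := hB1 t ht
    exact mul_le_mul h6 (pow_le_pow_left₀ (abs_nonneg _) (hX t ht) n) (by positivity)
      ((norm_nonneg _).trans h6)
  rw [← integrableOn_univ]
  refine hon.of_forall_sdiff_eq_zero MeasurableSet.univ ?_
  intro t ht
  have h7 : om g.h T t = 0 := by
    by_contra hne
    exact ht.2 (om_supp g hg hT0 t hne)
  rw [h7, zero_mul]

end Pool.Agent.Helper4.SH
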