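import Pool.Agent.Helper4.SH.Defs

/-!
# SH-KE: the two kernels

`SB y = 0.68 sinc(0.68 π y)` is smooth and even; multiply by a smooth even cutoff equal to `1` on `|y| ≤ 0.499` and supported in
`|y| < 0.4995` (first), equal to `1` on `|y| ≤ 0.416` and supported in `|y| < 0.42` (second, for `y ↦ SB (2 y)`).
Smoothness of `Real.sinc`: e.g. `Real.sinc x = ∫ u in (0:ℝ)..1, Real.cos (u x)` and differentiation under the integral, or analyticity of
`dslope` (`sinc_eq_dslope`), or `sinc x = re` of an entire function (`(exp(i x) - 1)/(i x)` type removable singularity,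
`DifferentiableOn ... → AnalyticAt`), or the power series.
-/

open MeasureTheory Set Filter Topology
open Pool.Agent.Helper57.Zeta Pool.Agent.Helper57.PC Pool.Agent.Helper57.LH Pool.Agent.Helper78.SG
open scoped ContDiff

namespace Pool.Agent.Helper4.SH

theorem sinc_contDiff : ContDiff ℝ ∞ Real.sinc := by
  have hd : Differentiable ℂ (dslope Complex.sin 0) := by
    rw [← differentiableOn_univ, Complex.differentiableOn_dslope Filter.univ_mem]
    exact Complex.differentiable_sin.differentiableOn
  have hc : ContDiff ℝ ∞ (dslope Complex.sin 0) := (hd.contDiff (n := ∞)).restrict_scalars ℝ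
  have h1 : ContDiff ℝ ∞ (fun x : ℝ => (dslope Complex.sin 0 (x : ℂ)).re) :=
    (Complex.reCLM.contDiff.comp hc).comp Complex.ofRealCLM.contDiff
  have h2 : (fun x : ℝ => (dslope Complex.sin 0 (x : ℂ)).re) = Real.sinc := by
    funext x
    by_cases hx : x = 0
    · subst hx
      rw [Complex.ofReal_zero, dslope_same, Complex.deriv_sin, Complex.cos_zero, Complex.one_re,
        Real.sinc_zero]
    · have hx' : (x : ℂ) ≠ 0 := by exact_mod_cast hx
      rw [dslope_of_ne _ hx', slope_def_field, Complex.sin_zero, sub_zero, sub_zero,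
        ← Complex.ofReal_sin, ← Complex.ofReal_div, Complex.ofReal_re, Real.sinc_of_ne_zero hx]
  rw [← h2]
  exact h1

private theorem SB_contDiff : ContDiff ℝ ∞ SB := by
  unfold SB
  exact contDiff_const.mul (sinc_contDiff.comp (contDiff_const.mul contDiff_id))

private theorem SB_even (y : ℝ) : SB (-y) = SB y := by
  unfold SB
  rw [mul_neg, Real.sinc_neg]

private theorem exists_cut (a b : ℝ) (ha : 0 < a) (hab : a < b) (hb : b < 1 / 2) (F : ℝ → ℝ)
    (hF : ContDiff ℝ ∞ F) (hFe : ∀ x, F (-x) = F x) :
    ∃ f : TF, ∀ y, |y| ≤ a → f.h y = F y := by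
  let χ : ContDiffBump (0 : ℝ) := ⟨a, b, ha, hab⟩
  refine ⟨⟨fun y => χ y * F y, b, χ.contDiff.mul hF, ?_, by linarith, hb, ?_⟩, ?_⟩
  · intro x
    simp only [χ.neg, hFe]
  · intro x hx
    have : χ x = 0 := χ.zero_of_le_dist (by rw [Real.dist_eq, sub_zero]; exact hx)
    simp only [this, zero_mul]
  · intro y hy
    have : χ y = 1 := χ.one_of_mem_closedBall (by
      rw [Metric.mem_closedBall, Real.dist_eq, sub_zero]; exact hy)
    simp only [this, one_mul]

theorem exists_f1 : ∃ f : TF, ∀ y, |y| ≤ 499 / 1000 → f.h y = SB y :=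
  exists_cut (499 / 1000) (4995 / 10000) (by norm_num) (by norm_num) (by norm_num) SB SB_contDiff
    SB_even

theorem exists_f2 : ∃ f : TF, ∀ y, |y| ≤ 416 / 1000 → f.h y = SB (2 * y) :=
  exists_cut (416 / 1000) (42 / 100) (by norm_num) (by norm_num) (by norm_num) (fun y => SB (2 * y))
    (SB_contDiff.comp (contDiff_const.mul contDiff_id)) (fun x => by rw [mul_neg, SB_even])

end Pool.Agent.Helper4.SH
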