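import Pool.Agent.Helper4.SH.Defs

/-!
# SH-NU: the numerical inequality

`SB y ≥ SBl y = 0.68 - 0.52 y²`: `sinc x ≥ 1 - x²/6`, `(0.68)³ π²/6 = 0.5172... ≤ 0.52` (`Real.pi_lt_d4` or so).
`num_int`: the integrals are integrals of polynomials (split the integral with `min` at `0.2495`); left side minus right side is
`112858656876309455616739/10500000000000000000000000 - 1/100 = 0.000748...` (exact value of left minus `0.32 * A` is `0.0107484435...`,
where `A = 3.3884975...`, `B = 1.0950676...`).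
-/

/-!
`∫ (z in 0..w) z * bl z` etc. are explicit polynomials in `w`.
-/

open MeasureTheory Set Filter Topology
open Pool.Agent.Helper57.Zeta Pool.Agent.Helper57.PC Pool.Agent.Helper57.LH Pool.Agent.Helper78.SG
open scoped ContDiff

namespace Pool.Agent.Helper4.SH

private theorem sinc_ge (x : ℝ) : 1 - x ^ 2 / 6 ≤ Real.sinc x := by
  have key : ∀ x : ℝ, 0 < x → 1 - x ^ 2 / 6 ≤ Real.sinc x := by
    intro x hx
    rw [Real.sinc_of_ne_zero hx.ne', le_div_iff₀ hx]
    have := Real.sin_gt_sub_cube hx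
    nlinarith
  rcases lt_trichotomy x 0 with h | h | h
  · have := key (-x) (by linarith)
    rw [Real.sinc_neg] at this
    simpa using this
  · subst h
    simp
  · exact key x h

theorem SB_ge (y : ℝ) : SBl y ≤ SB y := by
  unfold SBl SB
  have h1 := sinc_ge (Real.pi * (68 / 100) * y)
  have hpi : Real.pi ^ 2 ≤ 9.8697 := by
    have h2 := Real.pi_lt_d4
    have h3 := Real.pi_pos
    nlinarith
  have h4 : (Real.pi * (68 / 100) * y) ^ 2 = Real.pi ^ 2 * ((68 / 100) ^ 2 * y ^ 2) := by ring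
  have h5 : Real.pi ^ 2 * ((68 / 100) ^ 2 * y ^ 2) ≤ 9.8697 * ((68 / 100) ^ 2 * y ^ 2) :=
    mul_le_mul_of_nonneg_right hpi (by positivity)
  have h6 : 0 ≤ y ^ 2 := sq_nonneg y
  calc (68 / 100 - 52 / 100 * y ^ 2 : ℝ) ≤ 68 / 100 * (1 - (9.8697 * ((68 / 100) ^ 2 * y ^ 2)) / 6) := by
        nlinarith
    _ ≤ 68 / 100 * (1 - (Real.pi * (68 / 100) * y) ^ 2 / 6) := by
        rw [h4]; linarith
    _ ≤ 68 / 100 * Real.sinc (Real.pi * (68 / 100) * y) := by linarith

theorem SB_even (y : ℝ) : SB (-y) = SB y := by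
  unfold SB
  rw [mul_neg, Real.sinc_neg]

theorem SB_zero : SB 0 = 68 / 100 := by
  simp [SB]

theorem SB_cont : Continuous SB := by
  unfold SB
  exact continuous_const.mul (Real.continuous_sinc.comp (continuous_const.mul continuous_id))

private theorem ip (a b c1 c2 c3 c4 c5 c6 : ℝ) (f : ℝ → ℝ)
    (hf : ∀ y, f y = c1 * y + c2 * y ^ 2 + c3 * y ^ 3 + c4 * y ^ 4 + c5 * y ^ 5 + c6 * y ^ 6) :
    ∫ y in a..b, f y = (c1 * b ^ 2 / 2 + c2 * b ^ 3 / 3 + c3 * b ^ 4 / 4 + c4 * b ^ 5 / 5 + c5 * b ^ 6 / 6 + c6 * b ^ 7 / 7)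
      - (c1 * a ^ 2 / 2 + c2 * a ^ 3 / 3 + c3 * a ^ 4 / 4 + c4 * a ^ 5 / 5 + c5 * a ^ 6 / 6 + c6 * a ^ 7 / 7) := by
  have hc : Continuous f := by
    have : f = fun y => c1 * y + c2 * y ^ 2 + c3 * y ^ 3 + c4 * y ^ 4 + c5 * y ^ 5 + c6 * y ^ 6 := funext hf
    rw [this]
    fun_prop
  refine intervalIntegral.integral_eq_sub_of_hasDerivAt
    (f := fun y => c1 * y ^ 2 / 2 + c2 * y ^ 3 / 3 + c3 * y ^ 4 / 4 + c4 * y ^ 5 / 5 + c5 * y ^ 6 / 6 + c6 * y ^ 7 / 7)
    (fun y _ => ?_) (hc.intervalIntegrable _ _)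
  rw [hf y]
  have h2 := ((hasDerivAt_pow 2 y).const_mul c1).div_const 2
  have h3 := ((hasDerivAt_pow 3 y).const_mul c2).div_const 3
  have h4 := ((hasDerivAt_pow 4 y).const_mul c3).div_const 4
  have h5 := ((hasDerivAt_pow 5 y).const_mul c4).div_const 5
  have h6 := ((hasDerivAt_pow 6 y).const_mul c5).div_const 6
  have h7 := ((hasDerivAt_pow 7 y).const_mul c6).div_const 7
  refine (((((h2.add h3).add h4).add h5).add h6).add h7).congr_deriv ?_
  norm_num
  ring

private theorem in1 (w : ℝ) : ∫ z in (0:ℝ)..w, z * 1 = w ^ 2 / 2 := by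
  rw [ip 0 w 1 0 0 0 0 0 (fun z => z * 1) (fun y => by ring)]
  ring

private theorem inS (w : ℝ) : ∫ z in (0:ℝ)..w, z * SBl z = 34 / 100 * w ^ 2 - 13 / 100 * w ^ 4 := by
  rw [ip 0 w (68 / 100) 0 (-(52 / 100)) 0 0 0 (fun z => z * SBl z) (fun y => by unfold SBl; ring)]
  ring

private theorem inB (w : ℝ) : ∫ z in (0:ℝ)..w, z * bl z = 5 / 2 * w ^ 2 - 10 / 3 * w ^ 3 := by
  rw [ip 0 w 5 (-10) 0 0 0 0 (fun z => z * bl z) (fun y => by unfold bl; ring)]
  ring

private theorem split_min (G : ℝ → ℝ → ℝ) (hG : Continuous (fun x : ℝ × ℝ => G x.1 x.2)) :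
    ∫ y in (0:ℝ)..(499 / 1000), G y (min y (499 / 1000 - y)) =
      (∫ y in (0:ℝ)..(499 / 2000), G y y) + ∫ y in (499 / 2000 : ℝ)..(499 / 1000), G y (499 / 1000 - y) := by
  have hc : Continuous (fun y : ℝ => G y (min y (499 / 1000 - y))) :=
    hG.comp (continuous_id.prodMk (continuous_id.min (continuous_const.sub continuous_id)))
  rw [← intervalIntegral.integral_add_adjacent_intervals (a := (0:ℝ)) (b := 499 / 2000) (c := 499 / 1000)
    (hc.intervalIntegrable _ _) (hc.intervalIntegrable _ _)]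
  congr 1
  · refine intervalIntegral.integral_congr fun y hy => ?_
    rw [uIcc_of_le (by norm_num)] at hy
    have : min y (499 / 1000 - y) = y := min_eq_left (by linarith [hy.2])
    simp only [this]
  · refine intervalIntegral.integral_congr fun y hy => ?_
    rw [uIcc_of_le (by norm_num)] at hy
    have : min y (499 / 1000 - y) = 499 / 1000 - y := min_eq_right (by linarith [hy.1])
    simp only [this]

theorem num_int :
    32 / 100 * (1 + (∫ y in (0:ℝ)..(499 / 1000), y * al y ^ 2) + (∫ y in (0:ℝ)..(333 / 1000), y * bl y ^ 2)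
      + 256 * ∫ y in (0:ℝ)..(499 / 1000), y * 1 * ∫ z in (0:ℝ)..(499 / 1000 - y), z * 1) + 1 / 100 ≤
    2 * ((∫ y in (0:ℝ)..(499 / 1000), y * (SBl y * al y))
      + 16 * (∫ y in (0:ℝ)..(499 / 1000), y * al y * ∫ z in (0:ℝ)..(499 / 1000 - y), z * SBl z)
      + 16 * (∫ y in (0:ℝ)..(499 / 1000), y * al y * ∫ z in (0:ℝ)..(min y (499 / 1000 - y)), z * SBl z)) +
    2 * ((∫ y in (0:ℝ)..(333 / 1000), y * (SBl y * bl y))
      + 16 * (∫ y in (0:ℝ)..(499 / 1000), y * SBl y * ∫ z in (0:ℝ)..(min y (499 / 1000 - y)), z * bl z)) := by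
  simp only [in1, inS, inB]
  have m1 := split_min (fun y w => y * al y * (34 / 100 * w ^ 2 - 13 / 100 * w ^ 4))
    (by unfold al; fun_prop)
  have m2 := split_min (fun y w => y * SBl y * (5 / 2 * w ^ 2 - 10 / 3 * w ^ 3))
    (by unfold SBl; fun_prop)
  beta_reduce at m1 m2
  rw [m1, m2]
  rw [ip 0 (499 / 1000) 36 (-108) 81 0 0 0 (fun y => y * al y ^ 2) (fun y => by unfold al; ring),
    ip 0 (333 / 1000) 25 (-100) 100 0 0 0 (fun y => y * bl y ^ 2) (fun y => by unfold bl; ring),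
    ip 0 (499 / 1000) (249001 / 2000000) (-(499 / 1000)) (1 / 2) 0 0 0
      (fun y => y * 1 * ((499 / 1000 - y) ^ 2 / 2)) (fun y => by ring),
    ip 0 (499 / 1000) (102 / 25) (-(153 / 25)) (-(78 / 25)) (117 / 25) 0 0
      (fun y => y * (SBl y * al y)) (fun y => by unfold SBl al; ring),
    ip 0 (499 / 1000) (22980043577961/50000000000000) (-(233765663045883/100000000000000))
      (83676457617/25000000000) (12243351/50000000) (-(77883/25000)) (117/100)
      (fun y => y * al y * (34 / 100 * (499 / 1000 - y) ^ 2 - 13 / 100 * (499 / 1000 - y) ^ 4))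
      (fun y => by unfold al; ring),
    ip 0 (499 / 2000) 0 0 (51 / 25) (-(153 / 50)) (-(39 / 50)) (117 / 100)
      (fun y => y * al y * (34 / 100 * y ^ 2 - 13 / 100 * y ^ 4)) (fun y => by unfold al; ring),
    ip (499 / 2000) (499 / 1000) (22980043577961/50000000000000) (-(233765663045883/100000000000000))
      (83676457617/25000000000) (12243351/50000000) (-(77883/25000)) (117/100)
      (fun y => y * al y * (34 / 100 * (499 / 1000 - y) ^ 2 - 13 / 100 * (499 / 1000 - y) ^ 4))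
      (fun y => by unfold al; ring),
    ip 0 (333 / 1000) (17 / 5) (-(34 / 5)) (-(13 / 5)) (26 / 5) 0 0
      (fun y => y * (SBl y * bl y)) (fun y => by unfold SBl bl; ring),
    ip 0 (499 / 2000) 0 0 (17 / 10) (-(34 / 15)) (-(13 / 10)) (26 / 15)
      (fun y => y * SBl y * (5 / 2 * y ^ 2 - 10 / 3 * y ^ 3)) (fun y => by unfold SBl; ring),
    ip (499 / 2000) (499 / 1000) (1062487267/7500000000) (-(8483/2500000))
      (-(13511490263/7500000000)) (17019461/7500000) (3237/2500) (-(26/15))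
      (fun y => y * SBl y * (5 / 2 * (499 / 1000 - y) ^ 2 - 10 / 3 * (499 / 1000 - y) ^ 3))
      (fun y => by unfold SBl; ring)]
  norm_num

end Pool.Agent.Helper4.SH
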