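import Pool.Agent.Helper4.SH.Osc

/-!
# SH-GMV: mean values of sums of cosines of rational frequencies

`log_gap`: for naturals `a < b`, `log b - log a ≥ log((a+1)/a) ≥ 1/(a+1) ≥ 1/(2a)`.
`gmv`: term by term. If `a i = b i` the cosine is `1` and `om_int` gives the diagonal term. If `a i ≠ b i` then
`|log a - log b| ≥ 1/(2 T^(1-δ))`, so `om_osc` gives `≤ C T (T · 1/(2T^(1-δ)))^(-K) = C 2^K T^(1-δK)`.
-/

open MeasureTheory Set Filter Topology
open Pool.Agent.Helper57.Zeta Pool.Agent.Helper57.PC Pool.Agent.Helper57.LH Pool.Agent.Helper78.SG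
open scoped ContDiff

namespace Pool.Agent.Helper4.SH

private theorem log_gap_aux {a b : ℕ} (ha : 1 ≤ a) (h : a < b) {N : ℝ} (hN : (a : ℝ) ≤ N) :
    1 / (2 * N) ≤ Real.log b - Real.log a := by
  have ha0 : (0 : ℝ) < a := by exact_mod_cast ha
  have ha1 : (1 : ℝ) ≤ a := by exact_mod_cast ha
  have hb1 : (a : ℝ) + 1 ≤ b := by exact_mod_cast h
  have hb0 : (0 : ℝ) < b := by linarith
  have h1 := Real.log_le_sub_one_of_pos (div_pos ha0 hb0)
  rw [Real.log_div ha0.ne' hb0.ne'] at h1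
  have h2 : (a : ℝ) / b ≤ a / (a + 1) := div_le_div_of_nonneg_left ha0.le (by linarith) hb1
  have h3 : (a : ℝ) / (a + 1) = 1 - 1 / (a + 1) := by field_simp; ring
  have h4 : 1 / (2 * N) ≤ 1 / ((a : ℝ) + 1) := one_div_le_one_div_of_le (by linarith) (by linarith)
  linarith

theorem log_gap {a b : ℕ} (ha : 1 ≤ a) (hb : 1 ≤ b) (h : a ≠ b) {N : ℝ} (hN : ((min a b : ℕ) : ℝ) ≤ N) :
    1 / (2 * N) ≤ |Real.log a - Real.log b| := by
  rcases lt_or_gt_of_ne h with h | h
  · rw [min_eq_left h.le] at hN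
    rw [abs_sub_comm]
    exact (log_gap_aux ha h hN).trans (le_abs_self _)
  · rw [min_eq_right h.le] at hN
    exact (log_gap_aux hb h hN).trans (le_abs_self _)

theorem gmv (g : TF) {δ : ℝ} (hδ : 0 < δ) (K : ℕ) : ∃ C : ℝ, 0 < C ∧ ∀ T : ℝ, 1 ≤ T →
    ∀ (ι : Type) (S : Finset ι) (c : ι → ℝ) (a b : ι → ℕ),
      (∀ i ∈ S, 1 ≤ a i ∧ 1 ≤ b i ∧ ((min (a i) (b i) : ℕ) : ℝ) ≤ T ^ (1 - δ)) →
      |(∫ t, om g.h T t * ∑ i ∈ S, c i * Real.cos (t * (Real.log (a i) - Real.log (b i)))) -
        T * (∫ x, g.h x) * ∑ i ∈ S, (if a i = b i then c i else 0)| ≤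
      C * T ^ (1 - δ * K) * ∑ i ∈ S, |c i| := by
  obtain ⟨C, hC, hosc⟩ := om_osc g K
  refine ⟨C * 2 ^ K, by positivity, ?_⟩
  intro T hT ι S c a b hab
  have hT0 : 0 < T := by linarith
  have hom := om_integrable g hT0
  have hcos : ∀ ν : ℝ, Integrable (fun t => om g.h T t * Real.cos (t * ν)) := by
    intro ν
    refine hom.mul_bdd (c := 1) ?_ ?_
    · exact (Real.continuous_cos.comp (continuous_id.mul continuous_const)).aestronglyMeasurable
    · exact Filter.Eventually.of_forall fun t => by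
        rw [Real.norm_eq_abs]; exact Real.abs_cos_le_one _
  have h1 : (∫ t, om g.h T t * ∑ i ∈ S, c i * Real.cos (t * (Real.log (a i) - Real.log (b i)))) =
      ∑ i ∈ S, c i * ∫ t, om g.h T t * Real.cos (t * (Real.log (a i) - Real.log (b i))) := by
    have e : (fun t => om g.h T t * ∑ i ∈ S, c i * Real.cos (t * (Real.log (a i) - Real.log (b i)))) =
        fun t => ∑ i ∈ S, c i * (om g.h T t * Real.cos (t * (Real.log (a i) - Real.log (b i)))) := by
      funext t
      rw [Finset.mul_sum]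
      exact Finset.sum_congr rfl fun i _ => by ring
    rw [e, integral_finsetSum]
    · exact Finset.sum_congr rfl fun i _ => integral_const_mul _ _
    · intro i _
      exact (hcos _).const_mul _
  rw [h1, Finset.mul_sum, ← Finset.sum_sub_distrib, Finset.mul_sum]
  refine (Finset.abs_sum_le_sum_abs _ _).trans (Finset.sum_le_sum fun i hi => ?_)
  obtain ⟨ha, hb, hmin⟩ := hab i hi
  have hpos : 0 < T ^ (1 - δ * K) := Real.rpow_pos_of_pos hT0 _
  by_cases h : a i = b i
  · have e0 : Real.log (a i) - Real.log (b i) = 0 := by rw [h, sub_self]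
    rw [if_pos h, e0]
    have e1 : (∫ t, om g.h T t * Real.cos (t * 0)) = T * ∫ x, g.h x := by
      rw [← om_int g hT0]
      congr 1
      funext t
      rw [mul_zero, Real.cos_zero, mul_one]
    rw [e1]
    have e2 : c i * (T * ∫ x, g.h x) - T * (∫ x, g.h x) * c i = 0 := by ring
    rw [e2, abs_zero]
    positivity
  · rw [if_neg h, mul_zero, sub_zero, abs_mul, mul_comm]
    refine mul_le_mul_of_nonneg_right ?_ (abs_nonneg _)
    refine (hosc T _ hT0).trans ?_
    have hgap := log_gap ha hb h hmin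
    set ν := Real.log (a i) - Real.log (b i) with hν
    have hTd : 0 < T ^ δ := Real.rpow_pos_of_pos hT0 _
    have h2 : T ^ δ / 2 ≤ 1 + |T * ν| := by
      rw [abs_mul, abs_of_pos hT0]
      have h3 : T ^ δ / 2 = T * (1 / (2 * T ^ (1 - δ))) := by
        rw [Real.rpow_sub hT0, Real.rpow_one]
        field_simp
      have h4 := mul_le_mul_of_nonneg_left hgap hT0.le
      rw [← h3] at h4
      linarith
    have h5 : (T ^ δ / 2) ^ K ≤ (1 + |T * ν|) ^ K := pow_le_pow_left₀ (by positivity) h2 K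
    have h6 : C * T / (1 + |T * ν|) ^ K ≤ C * T / (T ^ δ / 2) ^ K :=
      div_le_div_of_nonneg_left (by positivity) (by positivity) h5
    refine h6.trans (le_of_eq ?_)
    rw [Real.rpow_sub hT0, Real.rpow_one, Real.rpow_mul hT0.le, Real.rpow_natCast, div_pow]
    field_simp

end Pool.Agent.Helper4.SH
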