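import Pool.Agent.Helper4.SH.Iso
import Pool.Agent.Helper78.SG.KDecay

/-!
# SH-HC: the hard core

The ordinates of `IZ T` are at mutual distance `> 2π·0.68/L` (`iso_propsB`, file `Iso`). `|krs f.h s T u| ≤ s C/(1 + s L |u|)²`
(`ker_decay f 2` of Helper78/SG/KDecay with `a = 0`). Hence `∑_{γ} |krs(t - γ)| ≤ 2 ∑_{j ≥ 0} s C/(1 + 4 j s ... )² ≤ C'`, for instance: the
map `γ ↦ ⌊L (t - γ)/4⌋ ∈ ℤ` is injective on `IZ T` (`2π·0.68 = 4.27 > 4`) and `∑_{k ∈ ℤ} 1/(1 + |k|)²`-type sums converge.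
Second statement: the number of elements; `card (IZ T) ≤ ∑_{ZT T} mx = NT T ≤ T log T` (`mx_one_le`, `sum_ZT_mx`, `NT_upper`).
-/

open MeasureTheory Set Filter Topology
open Pool.Agent.Helper57.Zeta Pool.Agent.Helper57.PC Pool.Agent.Helper57.LH Pool.Agent.Helper78.SG
open scoped ContDiff

namespace Pool.Agent.Helper4.SH

namespace HCaux

noncomputable def gk (k : ℤ) : ℝ := 4 / (1 + |(k : ℝ)|) ^ 2

theorem gk_nonneg (k : ℤ) : 0 ≤ gk k := by unfold gk; positivity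

theorem gk_summable : Summable gk := by
  have h : Summable (fun n : ℕ => 4 / (1 + (n : ℝ)) ^ 2) := by
    have h1 : Summable (fun n : ℕ => 1 / ((n + 1 : ℕ) : ℝ) ^ 2) :=
      (summable_nat_add_iff 1).mpr (Real.summable_one_div_nat_pow.mpr one_lt_two)
    refine (h1.mul_left 4).congr fun n => ?_
    push_cast
    rw [mul_one_div, add_comm (1 : ℝ) (n : ℝ)]
  refine Summable.of_nat_of_neg ?_ ?_
  · refine h.congr fun n => ?_
    unfold gk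
    rw [Int.cast_natCast, abs_of_nonneg (Nat.cast_nonneg n)]
  · refine h.congr fun n => ?_
    unfold gk
    rw [Int.cast_neg, Int.cast_natCast, abs_neg, abs_of_nonneg (Nat.cast_nonneg n)]

theorem le_gk (v : ℝ) : 1 / (1 + |v|) ^ 2 ≤ gk ⌊v⌋ := by
  unfold gk
  have h1 : |((⌊v⌋ : ℤ) : ℝ)| ≤ |v| + 1 := by
    have h2 := Int.floor_le v
    have h3 := Int.lt_floor_add_one v
    have h4 := neg_abs_le v
    have h5 := le_abs_self v
    rw [abs_le]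
    constructor <;> linarith
  have h0 := abs_nonneg v
  have h0' := abs_nonneg ((⌊v⌋ : ℤ) : ℝ)
  rw [div_le_div_iff₀ (by positivity) (by positivity)]
  have h6 : 1 + |((⌊v⌋ : ℤ) : ℝ)| ≤ 2 * (1 + |v|) := by linarith
  have h7 : (1 + |((⌊v⌋ : ℤ) : ℝ)|) ^ 2 ≤ (2 * (1 + |v|)) ^ 2 :=
    pow_le_pow_left₀ (by positivity) h6 2
  nlinarith

theorem sum_sep {ι : Type*} (S : Finset ι) (y : ι → ℝ)
    (hsep : ∀ i ∈ S, ∀ j ∈ S, j ≠ i → 1 < |y i - y j|) :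
    ∑ i ∈ S, 1 / (1 + |y i|) ^ 2 ≤ ∑' k : ℤ, gk k := by
  classical
  have hinj : Set.InjOn (fun i => ⌊y i⌋) (S : Set ι) := by
    intro i hi j hj hij
    by_contra hne
    have h1 := hsep i hi j hj (fun h => hne h.symm)
    have h2 : ⌊y i⌋ = ⌊y j⌋ := hij
    have h3 := Int.abs_sub_lt_one_of_floor_eq_floor h2
    linarith
  calc ∑ i ∈ S, 1 / (1 + |y i|) ^ 2 ≤ ∑ i ∈ S, gk ⌊y i⌋ := Finset.sum_le_sum fun i _ => le_gk (y i)
    _ = ∑ k ∈ S.image (fun i => ⌊y i⌋), gk k := (Finset.sum_image hinj).symm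
    _ ≤ ∑' k : ℤ, gk k := gk_summable.sum_le_tsum _ fun k _ => gk_nonneg k

end HCaux

theorem Zs_bdd (f : TF) {s : ℝ} (hs : 1 ≤ s) : ∃ C : ℝ, 0 < C ∧ ∀ T : ℝ, 1 < T → ∀ t : ℝ, |Zs f.h s T t| ≤ C := by
  obtain ⟨C, hC, hk⟩ := ker_decay f 2
  have hg : 0 ≤ ∑' k : ℤ, HCaux.gk k := tsum_nonneg HCaux.gk_nonneg
  have hs0 : 0 ≤ s := by linarith
  refine ⟨s * C * (∑' k : ℤ, HCaux.gk k) + 1, by positivity, ?_⟩
  intro T hT t
  have hL : 0 < Real.log T := Real.log_pos hT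
  have h1 : ∀ ρ ∈ IZ T, |krs f.h s T (t - (ρ : ℂ).im)| ≤
      s * C * (1 / (1 + |Real.log T * (t - (ρ : ℂ).im)|) ^ 2) := by
    intro ρ _
    unfold krs
    have h2 := hk 0 (s * Real.log T * (t - (ρ : ℂ).im))
    rw [abs_zero, Real.exp_zero, mul_one] at h2
    rw [abs_mul, abs_of_nonneg hs0]
    have h3 : |Real.log T * (t - (ρ : ℂ).im)| ≤ |s * Real.log T * (t - (ρ : ℂ).im)| := by
      rw [mul_assoc, abs_mul s, abs_of_nonneg hs0]
      exact le_mul_of_one_le_left (abs_nonneg _) hs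
    have h4 : C / (1 + |s * Real.log T * (t - (ρ : ℂ).im)|) ^ 2 ≤
        C * (1 / (1 + |Real.log T * (t - (ρ : ℂ).im)|) ^ 2) := by
      rw [mul_one_div]
      exact div_le_div_of_nonneg_left hC.le (by positivity)
        (pow_le_pow_left₀ (by positivity) (by linarith) 2)
    calc s * |ker f.h 0 (s * Real.log T * (t - (ρ : ℂ).im))|
        ≤ s * (C * (1 / (1 + |Real.log T * (t - (ρ : ℂ).im)|) ^ 2)) :=
          mul_le_mul_of_nonneg_left (h2.trans h4) hs0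
      _ = _ := by ring
  have h5 : ∑ ρ ∈ IZ T, 1 / (1 + |Real.log T * (t - (ρ : ℂ).im)|) ^ 2 ≤ ∑' k : ℤ, HCaux.gk k := by
    refine HCaux.sum_sep (IZ T) (fun ρ => Real.log T * (t - (ρ : ℂ).im)) ?_
    intro ρ hρ ρ' _ hne
    have h6 := IZ_sep hT hρ hne
    have h7 : Real.log T * (t - (ρ : ℂ).im) - Real.log T * (t - (ρ' : ℂ).im) =
        Real.log T * ((ρ' : ℂ).im - (ρ : ℂ).im) := by ring
    show 1 < |Real.log T * (t - (ρ : ℂ).im) - Real.log T * (t - (ρ' : ℂ).im)|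
    rw [h7, abs_mul, abs_of_pos hL, abs_sub_comm]
    have h8 : Real.log T * (2 * hw T) = 2 * (Real.pi * (68 / 100)) := by
      unfold hw
      field_simp
    have hpi := Real.pi_gt_three
    have h9 : Real.log T * (2 * hw T) < Real.log T * |(ρ : ℂ).im - (ρ' : ℂ).im| :=
      mul_lt_mul_of_pos_left h6 hL
    rw [h8] at h9
    linarith
  unfold Zs
  calc |∑ ρ ∈ IZ T, krs f.h s T (t - (ρ : ℂ).im)|
      ≤ ∑ ρ ∈ IZ T, |krs f.h s T (t - (ρ : ℂ).im)| := Finset.abs_sum_le_sum_abs _ _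
    _ ≤ ∑ ρ ∈ IZ T, s * C * (1 / (1 + |Real.log T * (t - (ρ : ℂ).im)|) ^ 2) := Finset.sum_le_sum h1
    _ = s * C * ∑ ρ ∈ IZ T, 1 / (1 + |Real.log T * (t - (ρ : ℂ).im)|) ^ 2 := by
        rw [Finset.mul_sum]
    _ ≤ s * C * ∑' k : ℤ, HCaux.gk k := mul_le_mul_of_nonneg_left h5 (by positivity)
    _ ≤ _ := by linarith

theorem IZ_card : ∀ᶠ T : ℝ in atTop, ((IZ T).card : ℝ) ≤ T * Real.log T := by
  filter_upwards [NT_le_ev] with T hT
  have h1 : ((IZ T).card : ℝ) = ∑ _ρ ∈ IZ T, (1 : ℝ) := by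
    rw [Finset.sum_const, nsmul_eq_mul, mul_one]
  have hsub : IZ T ⊆ ZT T := fun ρ hρ => (mem_IZ.mp hρ).1
  calc ((IZ T).card : ℝ) = ∑ _ρ ∈ IZ T, (1 : ℝ) := h1
    _ ≤ ∑ ρ ∈ IZ T, mx ρ := Finset.sum_le_sum fun ρ _ => mx_one_le ρ
    _ ≤ ∑ ρ ∈ ZT T, mx ρ :=
        Finset.sum_le_sum_of_subset_of_nonneg hsub fun ρ _ _ => by have := mx_one_le ρ; linarith
    _ = NT T := sum_ZT_mx T
    _ ≤ T * Real.log T := hT

end Pool.Agent.Helper4.SH
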