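import Pool.Agent.Helper4.SH.Defs
import Pool.Agent.Helper78.SG.Parseval
import Pool.Agent.Helper78.SG.KDecay

/-!
# SH-WI: window integrals and kernels

`window_cos`: `∫_(γ-w)^(γ+w) cos(tν) dt = 2 cos(γν) sin(wν)/ν`, `w = hw T = 0.68 π/L`; with `y = ν/L`: `= cos(γν) (2π/L) SB(ν/L)`
(`ν = 0` included: `Real.sinc`). `kernel_cos`: `krs f.h s T u = s ker f.h 0 (s L u) = s ∫ f.h y cos(s L u y) dy` is the Fourier transform of a
smooth compactly supported even function; substitute `v = s L u` and use Fourier inversion (see `Helper78/SG/Parseval.lean`, or Mathlib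
`Continuous.fourierInv_fourier_eq` / `MeasureTheory.Integrable.fourierInv_fourier_eq`): `∫ krs(t - γ) cos(tν) dt = cos(γν) (2π/L) f.h(ν/(s L))`
(the sine part vanishes by evenness). Integrability: `ker_decay f 2` (Helper78/SG/KDecay).
-/

/-!
`window_F1`, `window_F2`: term by term. Frequencies: `0 ≤ ph i ≤ 0.499 L`, so `|ph i - ph j| ≤ 0.499 L`; `log p ≤ 0.333 L` on `S01`;
`0 ≤ ph i + log q ≤ 0.832 L`, so divided by `2 L` it is `≤ 0.416`. File `Arith`.
-/

open MeasureTheory Set Filter Topology
open Pool.Agent.Helper57.Zeta Pool.Agent.Helper57.PC Pool.Agent.Helper57.LH Pool.Agent.Helper78.SG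
open scoped ContDiff FourierTransform SchwartzMap

namespace Pool.Agent.Helper4.SH

theorem window_cos {T : ℝ} (hT : 1 < T) (γ ν : ℝ) :
    ∫ t in (γ - hw T)..(γ + hw T), Real.cos (t * ν) =
      Real.cos (γ * ν) * (2 * Real.pi / Real.log T) * SB (ν / Real.log T) := by
  have hL : 0 < Real.log T := Real.log_pos hT
  by_cases hν : ν = 0
  · subst hν
    simp only [mul_zero, Real.cos_zero, zero_div, SB, Real.sinc_zero, mul_one, intervalIntegral.integral_const, smul_eq_mul, hw]
    ring
  · have h1 : ∫ t in (γ - hw T)..(γ + hw T), Real.cos (t * ν) =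
        ν⁻¹ * (Real.sin ((γ + hw T) * ν) - Real.sin ((γ - hw T) * ν)) := by
      rw [intervalIntegral.integral_comp_mul_right (fun x => Real.cos x) hν, integral_cos, smul_eq_mul]
    rw [h1]
    have h2 : Real.sin ((γ + hw T) * ν) - Real.sin ((γ - hw T) * ν) = 2 * (Real.cos (γ * ν) * Real.sin (hw T * ν)) := by
      rw [add_mul, sub_mul, Real.sin_add, Real.sin_sub]
      ring
    rw [h2]
    have h3 : Real.pi * (68 / 100) * (ν / Real.log T) = hw T * ν := by
      unfold hw
      field_simp
    have hne : hw T * ν ≠ 0 := by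
      refine mul_ne_zero ?_ hν
      unfold hw
      positivity
    unfold SB
    rw [h3, Real.sinc_of_ne_zero hne]
    have h4 : (2 * Real.pi / Real.log T) * (68 / 100 * (Real.sin (hw T * ν) / (hw T * ν))) = 2 * (Real.sin (hw T * ν) / ν) := by
      unfold hw
      have := Real.pi_pos
      field_simp
    have h5 : Real.cos (γ * ν) * (2 * Real.pi / Real.log T) * (68 / 100 * (Real.sin (hw T * ν) / (hw T * ν))) =
        Real.cos (γ * ν) * ((2 * Real.pi / Real.log T) * (68 / 100 * (Real.sin (hw T * ν) / (hw T * ν)))) := by ring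
    rw [h5, h4]
    field_simp

lemma wi_ker_cont (f : TF) : Continuous (fun u => ker f.h 0 u) := by
  have hc : Continuous f.h := f.smooth.continuous
  have hfun : (fun u => ker f.h 0 u) = fun u => ∫ y in (-f.th)..f.th, f.h y * Real.cos (u * y) := by
    funext u
    unfold Pool.Agent.Helper78.SG.ker
    simp only [zero_mul, Real.cosh_zero, one_mul]
    rw [intervalIntegral.integral_of_le (by linarith [f.th0]), ← integral_indicator measurableSet_Ioc]
    refine integral_congr_ae (Eventually.of_forall fun y => ?_)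
    simp only [Set.indicator]
    split_ifs with h
    · rfl
    · have : f.h y = 0 := by
        apply f.supp
        by_contra hlt
        push Not at hlt
        exact h ⟨(abs_lt.mp hlt).1, (abs_lt.mp hlt).2.le⟩
      simp [this]
  rw [hfun]
  refine intervalIntegral.continuous_parametric_intervalIntegral_of_continuous' ?_ _ _
  fun_prop

lemma wi_ker_int (f : TF) : Integrable (fun u => ker f.h 0 u) := by
  obtain ⟨C, hC, h⟩ := ker_decay f 2
  refine (integrable_inv_one_add_sq.const_mul C).mono' (wi_ker_cont f).aestronglyMeasurable ?_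
  refine Eventually.of_forall fun u => ?_
  have h1 := h 0 u
  simp only [abs_zero, Real.exp_zero, mul_one] at h1
  rw [Real.norm_eq_abs]
  refine h1.trans ?_
  rw [div_eq_mul_inv]
  refine mul_le_mul_of_nonneg_left ?_ hC.le
  refine inv_anti₀ (by positivity) ?_
  have := abs_nonneg u
  have h2 : |u| ^ 2 = u ^ 2 := sq_abs u
  nlinarith

lemma wi_ker_even (f : TF) (u : ℝ) : ker f.h 0 (-u) = ker f.h 0 u := by
  unfold Pool.Agent.Helper78.SG.ker
  simp only [neg_mul, Real.cos_neg]

/-- Fourier inversion -/
lemma wi_inv (f : TF) (y : ℝ) : ∫ v, Real.cos (v * y) * ker f.h 0 v = 2 * Real.pi * f.h y := by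
  set s : Finset Unit := {()} with hs
  set c : Unit → ℝ := fun _ => 0 with hc
  set K : 𝓢(ℝ, ℂ) := (paK_cs f s c).toSchwartzMap (paK_smooth f s c) with hK
  have hKc : (K : ℝ → ℂ) = paK f s c := rfl
  have hKy : K y = (f.h y : ℂ) := by
    rw [hKc]
    simp [paK, hs, hc]
  have hF : ∀ ξ : ℝ, 𝓕 K ξ = ((ker f.h 0 (2 * Real.pi * ξ) : ℝ) : ℂ) := by
    intro ξ
    rw [SchwartzMap.fourier_coe, hKc, paK_fourier f s c ξ]
    simp [hs, hc]
  have hinv : 𝓕⁻ (𝓕 K) = K := by
    exact FourierTransform.fourierInv_fourier_eq K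
  have h1 : K y = ∫ ξ : ℝ, Complex.exp ((2 * Real.pi * ξ * y : ℝ) * Complex.I) * ((ker f.h 0 (2 * Real.pi * ξ) : ℝ) : ℂ) := by
    conv_lhs => rw [← hinv]
    rw [SchwartzMap.fourierInv_coe, Real.fourierInv_eq']
    refine integral_congr_ae (Eventually.of_forall fun ξ => ?_)
    simp only [smul_eq_mul, hF, RCLike.inner_apply, conj_trivial]
    congr 3
    push_cast
    ring
  have hint : Integrable (fun ξ : ℝ => Complex.exp ((2 * Real.pi * ξ * y : ℝ) * Complex.I) * ((ker f.h 0 (2 * Real.pi * ξ) : ℝ) : ℂ)) := by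
    have hk : Integrable (fun ξ : ℝ => ker f.h 0 (2 * Real.pi * ξ)) := (wi_ker_int f).comp_mul_left' (by positivity)
    refine hk.ofReal.bdd_mul (c := 1) ?_ ?_
    · exact (by fun_prop : Continuous fun ξ : ℝ => Complex.exp ((2 * Real.pi * ξ * y : ℝ) * Complex.I)).aestronglyMeasurable
    · refine Eventually.of_forall fun ξ => ?_
      rw [Complex.norm_exp_ofReal_mul_I]
  have h2 : f.h y = ∫ ξ : ℝ, Real.cos (2 * Real.pi * ξ * y) * ker f.h 0 (2 * Real.pi * ξ) := by
    have h3 : (K y).re = f.h y := by rw [hKy]; simp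
    rw [← h3, h1, ← RCLike.re_eq_complex_re, ← integral_re hint]
    refine integral_congr_ae (Eventually.of_forall fun ξ => ?_)
    simp only [RCLike.re_eq_complex_re, Complex.re_mul_ofReal, Complex.exp_ofReal_mul_I_re]
  have h4 := Measure.integral_comp_mul_left (fun v : ℝ => Real.cos (v * y) * ker f.h 0 v) (2 * Real.pi)
  have hpi : 0 < 2 * Real.pi := by positivity
  rw [← h2, smul_eq_mul, abs_of_pos (by positivity)] at h4
  rw [h4, ← mul_assoc, mul_inv_cancel₀ hpi.ne', one_mul]

theorem krs_cont (f : TF) (s T : ℝ) : Continuous (fun u => krs f.h s T u) := by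
  unfold krs
  exact continuous_const.mul ((wi_ker_cont f).comp (by fun_prop))

theorem krs_integrable (f : TF) {s T : ℝ} (hs : 1 ≤ s) (hT : 1 < T) : Integrable (fun u => krs f.h s T u) := by
  unfold krs
  have hL : 0 < Real.log T := Real.log_pos hT
  exact ((wi_ker_int f).comp_mul_left' (by positivity)).const_mul s

theorem kernel_cos (f : TF) {s T : ℝ} (hs : 1 ≤ s) (hT : 1 < T) (γ ν : ℝ) :
    ∫ t, Real.cos (t * ν) * krs f.h s T (t - γ) =
      Real.cos (γ * ν) * (2 * Real.pi / Real.log T) * f.h (ν / (s * Real.log T)) := by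
  have hL : 0 < Real.log T := Real.log_pos hT
  have hs0 : 0 < s := by linarith
  have hK := krs_integrable f hs hT
  have e1 : ∫ t, Real.cos (t * ν) * krs f.h s T (t - γ) = ∫ u, Real.cos ((u + γ) * ν) * krs f.h s T u := by
    rw [← integral_add_right_eq_self (fun t => Real.cos (t * ν) * krs f.h s T (t - γ)) γ]
    refine integral_congr_ae (Eventually.of_forall fun u => ?_)
    simp only [add_sub_cancel_right]
  have ic : Integrable (fun u => Real.cos (u * ν) * krs f.h s T u) := by
    refine hK.bdd_mul (c := 1) ?_ ?_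
    · exact (by fun_prop : Continuous fun u : ℝ => Real.cos (u * ν)).aestronglyMeasurable
    · exact Eventually.of_forall fun u => by rw [Real.norm_eq_abs]; exact Real.abs_cos_le_one _
  have is : Integrable (fun u => Real.sin (u * ν) * krs f.h s T u) := by
    refine hK.bdd_mul (c := 1) ?_ ?_
    · exact (by fun_prop : Continuous fun u : ℝ => Real.sin (u * ν)).aestronglyMeasurable
    · exact Eventually.of_forall fun u => by rw [Real.norm_eq_abs]; exact Real.abs_sin_le_one _
  have hodd : ∫ u, Real.sin (u * ν) * krs f.h s T u = 0 := by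
    have h1 : ∫ u, Real.sin (u * ν) * krs f.h s T u = ∫ u, Real.sin (-u * ν) * krs f.h s T (-u) :=
      (integral_neg_eq_self (fun u => Real.sin (u * ν) * krs f.h s T u) volume).symm
    have h2 : ∫ u, Real.sin (-u * ν) * krs f.h s T (-u) = - ∫ u, Real.sin (u * ν) * krs f.h s T u := by
      rw [← integral_neg]
      refine integral_congr_ae (Eventually.of_forall fun u => ?_)
      simp only [krs, neg_mul, Real.sin_neg, mul_neg, wi_ker_even]
    linarith
  have e2 : ∫ u, Real.cos ((u + γ) * ν) * krs f.h s T u =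
      Real.cos (γ * ν) * ∫ u, Real.cos (u * ν) * krs f.h s T u := by
    have : ∀ u, Real.cos ((u + γ) * ν) * krs f.h s T u =
        Real.cos (γ * ν) * (Real.cos (u * ν) * krs f.h s T u) - Real.sin (γ * ν) * (Real.sin (u * ν) * krs f.h s T u) := by
      intro u
      rw [add_mul, Real.cos_add]
      ring
    simp_rw [this]
    rw [integral_sub (ic.const_mul _) (is.const_mul _), integral_const_mul, integral_const_mul, hodd]
    ring
  have e3 : ∫ u, Real.cos (u * ν) * krs f.h s T u = 2 * Real.pi / Real.log T * f.h (ν / (s * Real.log T)) := by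
    have hsL : 0 < s * Real.log T := by positivity
    have h1 : ∀ u, Real.cos (u * ν) * krs f.h s T u =
        s * (fun v => Real.cos (v * (ν / (s * Real.log T))) * ker f.h 0 v) (s * Real.log T * u) := by
      intro u
      simp only [krs]
      have : s * Real.log T * u * (ν / (s * Real.log T)) = u * ν := by field_simp
      rw [this]
      ring
    simp_rw [h1]
    rw [integral_const_mul, Measure.integral_comp_mul_left (fun v => Real.cos (v * (ν / (s * Real.log T))) * ker f.h 0 v),
      wi_inv, abs_of_pos (by positivity), smul_eq_mul]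
    field_simp
  rw [e1, e2, e3]
  ring

end Pool.Agent.Helper4.SH
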