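import Pool.Agent.Helper4.SH.Iso

/-!
# SH-OS2: from two-sided to one-sided closeness

Let `A` = close zeros of `ZT T`, `A⁺` = `CloseUpB` zeros of `ZT T`. If `ρ ∈ A ∖ A⁺` then `ρ` is simple and has a zero `ρ' = P(ρ)` with
`Im ρ - w ≤ Im ρ' < Im ρ`, `w = 2π (68/100)/log T` (`ρ'` is not above or level, otherwise `ρ ∈ A⁺`). `ρ'` is `CloseUpB` (because of `ρ`).
`P` is injective: if `P(ρ₁) = P(ρ₂)`, `ρ₁ ≠ ρ₂`, `Im ρ₁ ≤ Im ρ₂`, then both ordinates are in `(Im ρ', Im ρ' + w]`, so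
`0 ≤ Im ρ₂ - Im ρ₁ ≤ w` and `ρ₁ ∈ A⁺`, contradiction. So `∑_{A ∖ A⁺} mx = #(A ∖ A⁺) ≤ ∑_{A⁺} mx + #{ρ ∈ A ∖ A⁺ : Im P(ρ) < 0}` and the last
number is at most `NT 1` (their ordinates are in `[0, w]`, `w ≤ 1`; `mx ≥ 1`, `sum_ZT_mx`). Hence `∑_{A⁺} mx ≥ (∑_A mx - NT 1)/2`.
-/

open MeasureTheory Set Filter Topology
open Pool.Agent.Helper57.Zeta Pool.Agent.Helper57.PC Pool.Agent.Helper57.LH Pool.Agent.Helper78.SG
open scoped ContDiff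

namespace Pool.Agent.Helper4.SH

/-- the zero is multiple or another zero lies at most `0.68` mean spacings above it (or level with it) -/
def CloseUpB (T : ℝ) (ρ : ZS) : Prop :=
  2 ≤ analyticOrderNatAt xi (ρ : ℂ) ∨
    ∃ ρ' : ZS, ρ' ≠ ρ ∧ 0 ≤ (ρ' : ℂ).im - (ρ : ℂ).im ∧
      ((ρ' : ℂ).im - (ρ : ℂ).im) * Real.log T / (2 * Real.pi) ≤ 68 / 100

open Classical in
theorem one_sideB {p : ℝ} (hp : 0 < p)
    (h : ∀ᶠ T : ℝ in atTop, p * (T * Real.log T) ≤ ∑ ρ ∈ (ZT T).filter (CloseB T), mx ρ) :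
    ∀ᶠ T : ℝ in atTop, p / 4 * (T * Real.log T) ≤ ∑ ρ ∈ (ZT T).filter (CloseUpB T), mx ρ := by
  have h1 : ∀ᶠ T : ℝ in atTop, 2 * Real.pi * (68 / 100) ≤ Real.log T :=
    Real.tendsto_log_atTop.eventually_ge_atTop _
  have h2 : ∀ᶠ T : ℝ in atTop, 2 * NT 1 / p ≤ T * Real.log T :=
    (tendsto_id.atTop_mul_atTop₀ Real.tendsto_log_atTop).eventually_ge_atTop _
  filter_upwards [h, h1, h2, eventually_gt_atTop 1] with T hT hT1 hT2 hT3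
  have hlog : 0 < Real.log T := Real.log_pos hT3
  have hpi : 0 < 2 * Real.pi := by positivity
  set A := (ZT T).filter (CloseB T) with hA
  set Ap := (ZT T).filter (CloseUpB T) with hAp
  set B := A.filter (fun ρ => ¬ CloseUpB T ρ) with hB
  have hsub : Ap = A.filter (CloseUpB T) := by
    ext ρ
    simp only [hAp, hA, Finset.mem_filter]
    constructor
    · rintro ⟨h3, h4⟩
      refine ⟨⟨h3, ?_⟩, h4⟩
      rcases h4 with h4 | ⟨ρ', h5, h6, h7⟩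
      · exact Or.inl h4
      · refine Or.inr ⟨ρ', h5, ?_⟩
        rw [abs_sub_comm, abs_of_nonneg h6]; exact h7
    · rintro ⟨⟨h3, _⟩, h4⟩
      exact ⟨h3, h4⟩
  have hsplit : ∑ ρ ∈ A, mx ρ = ∑ ρ ∈ Ap, mx ρ + ∑ ρ ∈ B, mx ρ := by
    rw [hsub, hB, Finset.sum_filter_add_sum_filter_not]
  -- the neighbour below
  have hex : ∀ ρ ∈ B, ∃ ρ' : ZS, ρ' ≠ ρ ∧ (ρ' : ℂ).im < (ρ : ℂ).im ∧
      ((ρ : ℂ).im - (ρ' : ℂ).im) * Real.log T / (2 * Real.pi) ≤ 68 / 100 := by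
    intro ρ hρ
    rw [hB, Finset.mem_filter, hA, Finset.mem_filter] at hρ
    obtain ⟨⟨_, h3⟩, h4⟩ := hρ
    rcases h3 with h3 | ⟨ρ', h5, h6⟩
    · exact absurd (Or.inl h3) h4
    · refine ⟨ρ', h5, ?_, ?_⟩
      · by_contra hcon
        rw [not_lt] at hcon
        apply h4
        refine Or.inr ⟨ρ', h5, sub_nonneg.2 hcon, ?_⟩
        rwa [abs_sub_comm, abs_of_nonneg (sub_nonneg.2 hcon)] at h6
      · refine le_trans ?_ h6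
        have := le_abs_self ((ρ : ℂ).im - (ρ' : ℂ).im)
        gcongr
  choose! P hP1 hP2 hP3 using hex
  have hmx : ∀ ρ ∈ B, mx ρ = 1 := by
    intro ρ hρ
    rw [hB, Finset.mem_filter] at hρ
    have h4 : ¬ (2 ≤ analyticOrderNatAt xi (ρ : ℂ)) := fun h5 => hρ.2 (Or.inl h5)
    have h5 : 1 ≤ mx ρ := mx_one_le ρ
    unfold mx at h5 ⊢
    have h6 : 1 ≤ analyticOrderNatAt xi (ρ : ℂ) := by exact_mod_cast h5
    have h7 : analyticOrderNatAt xi (ρ : ℂ) = 1 := by omega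
    rw [h7]; norm_num
  have hinj : Set.InjOn P (B : Set ZS) := by
    have key : ∀ ρ₁ ∈ B, ∀ ρ₂ ∈ B, P ρ₁ = P ρ₂ → ρ₁ ≠ ρ₂ → (ρ₁ : ℂ).im ≤ (ρ₂ : ℂ).im → False := by
      intro ρ₁ h3 ρ₂ h4 h5 h6 h7
      have h8 : ¬ CloseUpB T ρ₁ := by
        rw [hB, Finset.mem_filter] at h3; exact h3.2
      apply h8
      refine Or.inr ⟨ρ₂, h6.symm, sub_nonneg.2 h7, ?_⟩
      refine le_trans ?_ (hP3 ρ₂ h4)
      have h9 := hP2 ρ₁ h3
      rw [h5] at h9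
      have : (ρ₂ : ℂ).im - (ρ₁ : ℂ).im ≤ (ρ₂ : ℂ).im - (P ρ₂ : ℂ).im := by linarith
      gcongr
    intro ρ₁ h3 ρ₂ h4 h5
    by_contra h6
    rcases le_total (ρ₁ : ℂ).im (ρ₂ : ℂ).im with h7 | h7
    · exact key ρ₁ h3 ρ₂ h4 h5 h6 h7
    · exact key ρ₂ h4 ρ₁ h3 h5.symm (fun h => h6 h.symm) h7
  have hmem : ∀ ρ ∈ B, 0 ≤ (ρ : ℂ).im ∧ (ρ : ℂ).im ≤ T := by
    intro ρ hρ
    rw [hB, Finset.mem_filter, hA, Finset.mem_filter] at hρ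
    exact mem_ZT.1 hρ.1.1
  -- split `B`
  have hc1 : ((B.filter (fun ρ => 0 ≤ (P ρ : ℂ).im)).card : ℝ) ≤ ∑ ρ ∈ Ap, mx ρ := by
    have h3 : (B.filter (fun ρ => 0 ≤ (P ρ : ℂ).im)).card ≤ Ap.card := by
      refine Finset.card_le_card_of_injOn P ?_ (hinj.mono ?_)
      · intro ρ hρ
        rw [Finset.mem_coe, Finset.mem_filter] at hρ
        obtain ⟨h4, h5⟩ := hρ
        rw [Finset.mem_coe, hAp, Finset.mem_filter]
        have h6 := hP2 ρ h4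
        refine ⟨mem_ZT.2 ⟨h5, ?_⟩, ?_⟩
        · linarith [(hmem ρ h4).2]
        · exact Or.inr ⟨ρ, (hP1 ρ h4).symm, by linarith, hP3 ρ h4⟩
      · intro ρ hρ
        rw [Finset.mem_coe, Finset.mem_filter] at hρ
        exact hρ.1
    calc ((B.filter (fun ρ => 0 ≤ (P ρ : ℂ).im)).card : ℝ) ≤ (Ap.card : ℝ) := by exact_mod_cast h3
      _ = ∑ ρ ∈ Ap, (1 : ℝ) := by simp
      _ ≤ ∑ ρ ∈ Ap, mx ρ := Finset.sum_le_sum fun ρ _ => mx_one_le ρ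
  have hc2 : ((B.filter (fun ρ => ¬ 0 ≤ (P ρ : ℂ).im)).card : ℝ) ≤ NT 1 := by
    have h3 : B.filter (fun ρ => ¬ 0 ≤ (P ρ : ℂ).im) ⊆ ZT 1 := by
      intro ρ hρ
      rw [Finset.mem_filter, not_le] at hρ
      obtain ⟨h4, h5⟩ := hρ
      refine mem_ZT.2 ⟨(hmem ρ h4).1, ?_⟩
      have h6 := hP3 ρ h4
      rw [div_le_iff₀ hpi] at h6
      have h7 : ((ρ : ℂ).im - (P ρ : ℂ).im) * Real.log T ≤ 1 * Real.log T := by linarith
      have h8 := le_of_mul_le_mul_right h7 hlog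
      linarith
    calc ((B.filter (fun ρ => ¬ 0 ≤ (P ρ : ℂ).im)).card : ℝ) ≤ ((ZT 1).card : ℝ) := by
          exact_mod_cast Finset.card_le_card h3
      _ = ∑ ρ ∈ ZT 1, (1 : ℝ) := by simp
      _ ≤ ∑ ρ ∈ ZT 1, mx ρ := Finset.sum_le_sum fun ρ _ => mx_one_le ρ
      _ = NT 1 := sum_ZT_mx 1
  have hB1 : ∑ ρ ∈ B, mx ρ = (B.card : ℝ) := by
    rw [Finset.sum_congr rfl hmx]; simp
  have hB2 : (B.card : ℝ) = ((B.filter (fun ρ => 0 ≤ (P ρ : ℂ).im)).card : ℝ)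
      + ((B.filter (fun ρ => ¬ 0 ≤ (P ρ : ℂ).im)).card : ℝ) := by
    exact_mod_cast (Finset.card_filter_add_card_filter_not (s := B) (fun ρ => 0 ≤ (P ρ : ℂ).im)).symm
  rw [div_le_iff₀ hp] at hT2
  nlinarith

end Pool.Agent.Helper4.SH
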