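import Pool.Agent.Helper4.SH.Iso
import Pool.Agent.Helper78.SG.Pairs

/-!
# SH-PC: from close zeros to the pair count

`pairCount T (-17/20) (68/100) = ∑_{p ∈ Zf T ×ˢ Zf T} if nd T p ∈ [-17/20, 17/20] then mult mult else 0` (`pairCount_eq`), and
`Zf T`, `ZT T` correspond (`sum_ZT`, `mult_eq`). For `ρ ∈ ZT T` the inner sum over `ρ'` is at least `mx ρ ≥ 1` (diagonal), and at least `2` if
`ρ` is close with `1 ≤ Im ρ ≤ T - 1` (either `mx ρ ≥ 2`, or the partner `ρ'` has ordinate in `[0, T]` since `w = 2π(68/100)/log T ≤ 1`).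
So `pairCount ≥ NT T + ∑_{close} mx - ∑_{Im ρ ≤ 1 or Im ρ ≥ T-1} mx ≥ (1 - p π/4...) SN T + p T log T - NT 1 - (5/2) Afun(T)`
(`NT_lower`, `loc_count`, `Afun_log`; `SN T = T log T/(2π)`), so `≥ (1 + p) SN T` eventually (`2π p ≥ 6 p`, plenty of room).
-/

open MeasureTheory Set Filter Topology
open Pool.Agent.Helper57.Zeta Pool.Agent.Helper57.PC Pool.Agent.Helper57.LH Pool.Agent.Helper78.SG
open scoped ContDiff

namespace Pool.Agent.Helper4.SH

open Classical in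
/-- the inner sum -/
theorem innerB {T : ℝ} (hL : 6 ≤ Real.log T) (ρ : ZS) (hρ : ρ ∈ ZT T) :
    mx (ρ : ℂ) + (if CloseB T ρ ∧ 1 ≤ (ρ : ℂ).im ∧ (ρ : ℂ).im ≤ T - 1 then mx (ρ : ℂ) else 0) ≤
    ∑ ρ' ∈ ZT T,
      (if nd T ((ρ : ℂ), (ρ' : ℂ)) ∈ Icc (-(68 / 100)) (68 / 100)
        then mx (ρ : ℂ) * mx (ρ' : ℂ) else 0) := by
  have hpi := Real.pi_pos
  have hm1 : 1 ≤ mx (ρ : ℂ) := mx_one_le ρ
  have hnn : ∀ ρ' ∈ ZT T, 0 ≤ (if nd T ((ρ : ℂ), (ρ' : ℂ)) ∈ Icc (-(68 / 100)) (68 / 100)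
        then mx (ρ : ℂ) * mx (ρ' : ℂ) else 0) := by
    intro ρ' _
    split_ifs
    · exact mul_nonneg (mx_nonneg _) (mx_nonneg _)
    · exact le_rfl
  have hdiag : (if nd T ((ρ : ℂ), (ρ : ℂ)) ∈ Icc (-(68 / 100)) (68 / 100)
        then mx (ρ : ℂ) * mx (ρ : ℂ) else 0) = mx (ρ : ℂ) * mx (ρ : ℂ) := by
    rw [if_pos]
    unfold nd
    simp only [sub_self, zero_mul, zero_div, mem_Icc]
    constructor <;> norm_num
  have hone : mx (ρ : ℂ) * mx (ρ : ℂ) ≤ ∑ ρ' ∈ ZT T,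
      (if nd T ((ρ : ℂ), (ρ' : ℂ)) ∈ Icc (-(68 / 100)) (68 / 100)
        then mx (ρ : ℂ) * mx (ρ' : ℂ) else 0) := by
    calc mx (ρ : ℂ) * mx (ρ : ℂ) = _ := hdiag.symm
      _ ≤ _ := Finset.single_le_sum (f := fun ρ' : ZS =>
          (if nd T ((ρ : ℂ), (ρ' : ℂ)) ∈ Icc (-(68 / 100)) (68 / 100)
            then mx (ρ : ℂ) * mx (ρ' : ℂ) else 0)) hnn hρ
  split_ifs with hc
  · obtain ⟨hc1, hc2, hc3⟩ := hc
    rcases hc1 with hc1 | ⟨ρ', hne, hd⟩
    · have h2 : 2 ≤ mx (ρ : ℂ) := by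
        unfold mx
        exact_mod_cast hc1
      refine le_trans ?_ hone
      nlinarith
    · have hd' : |(ρ : ℂ).im - (ρ' : ℂ).im| * Real.log T ≤ 68 / 100 * (2 * Real.pi) := by
        rwa [div_le_iff₀ (by positivity)] at hd
      have habs : |(ρ : ℂ).im - (ρ' : ℂ).im| ≤ 1 := by
        by_contra hgt
        push Not at hgt
        have h3 : Real.pi < 3.15 := Real.pi_lt_d2
        nlinarith [abs_nonneg ((ρ : ℂ).im - (ρ' : ℂ).im)]
      have habs' := abs_le.mp habs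
      have hρ' : ρ' ∈ ZT T := by
        rw [mem_ZT]
        constructor <;> linarith [habs'.1, habs'.2]
      have hin : nd T ((ρ : ℂ), (ρ' : ℂ)) ∈ Icc (-(68 / 100)) (68 / 100) := by
        have h4 : |nd T ((ρ : ℂ), (ρ' : ℂ))| ≤ 68 / 100 := by
          unfold nd
          rw [abs_div, abs_mul, abs_of_nonneg (by linarith : (0:ℝ) ≤ Real.log T),
            abs_of_pos (by positivity : 0 < 2 * Real.pi)]
          exact hd
        exact abs_le.mp h4
      have hm1' : 1 ≤ mx (ρ' : ℂ) := mx_one_le ρ'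
      have htwo : mx (ρ : ℂ) * mx (ρ : ℂ) + mx (ρ : ℂ) * mx (ρ' : ℂ) ≤ ∑ ρ' ∈ ZT T,
          (if nd T ((ρ : ℂ), (ρ' : ℂ)) ∈ Icc (-(68 / 100)) (68 / 100)
            then mx (ρ : ℂ) * mx (ρ' : ℂ) else 0) := by
        have hsub : ({ρ, ρ'} : Finset ZS) ⊆ ZT T := by
          intro x hx
          rw [Finset.mem_insert, Finset.mem_singleton] at hx
          rcases hx with hx | hx
          · rw [hx]; exact hρ
          · rw [hx]; exact hρ'
        calc mx (ρ : ℂ) * mx (ρ : ℂ) + mx (ρ : ℂ) * mx (ρ' : ℂ)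
            = ∑ x ∈ ({ρ, ρ'} : Finset ZS), (if nd T ((ρ : ℂ), (x : ℂ)) ∈ Icc (-(68 / 100)) (68 / 100)
                then mx (ρ : ℂ) * mx (x : ℂ) else 0) := by
              rw [Finset.sum_pair (Ne.symm hne), hdiag, if_pos hin]
          _ ≤ _ := Finset.sum_le_sum_of_subset_of_nonneg hsub (fun i hi _ => hnn i hi)
      refine le_trans ?_ htwo
      nlinarith
  · refine le_trans ?_ hone
    nlinarith

open Classical in
theorem pair_lowerB {p : ℝ} (hp : 0 < p)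
    (h : ∀ᶠ T : ℝ in atTop, p * (T * Real.log T) ≤ ∑ ρ ∈ (ZT T).filter (CloseB T), mx ρ) :
    ∀ᶠ T : ℝ in atTop, (1 + p) * SN T ≤ pairCount T (-(68 / 100)) (68 / 100) := by
  obtain ⟨T₀, hT₀⟩ := NT_lower p hp
  filter_upwards [h, eventually_ge_atTop T₀, eventually_ge_atTop 3, eventually_ge_atTop (Real.exp 6),
    eventually_ge_atTop (15 * CLA / (2 * p))] with T h1 h2 h3 h4 h5
  have hT0 : 0 < T := by linarith
  have hL6 : 6 ≤ Real.log T := by
    rw [Real.le_log_iff_exp_le hT0]; exact h4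
  have hpi := Real.pi_gt_three
  have hCLA := CLA_pos
  have hNT := hT₀ T h2
  rw [pairCount_ZT_h48]
  have hsum := Finset.sum_le_sum (fun ρ hρ => innerB hL6 ρ hρ)
  refine le_trans ?_ hsum
  rw [Finset.sum_add_distrib, sum_ZT_mx]
  -- the close zeros near the ends
  have hlow : ∑ ρ ∈ (ZT T).filter (fun ρ : ZS => (ρ : ℂ).im < 1), mx (ρ : ℂ) ≤ 5 / 2 * (CLA * Real.log T) := by
    have ha := loc_count ((ZT T).filter (fun ρ : ZS => (ρ : ℂ).im < 1)) 0 (by
      intro ρ hρ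
      rw [Finset.mem_filter, mem_ZT] at hρ
      rw [sub_zero, abs_le]
      constructor <;> linarith [hρ.1.1, hρ.2])
    have hb := Afun_log (u := 0) h3 le_rfl hT0.le
    linarith
  have hhigh : ∑ ρ ∈ (ZT T).filter (fun ρ : ZS => T - 1 < (ρ : ℂ).im), mx (ρ : ℂ) ≤ 5 / 2 * (CLA * Real.log T) := by
    have ha := loc_count ((ZT T).filter (fun ρ : ZS => T - 1 < (ρ : ℂ).im)) T (by
      intro ρ hρ
      rw [Finset.mem_filter, mem_ZT] at hρ
      rw [abs_le]
      constructor <;> linarith [hρ.1.2, hρ.2])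
    have hb := Afun_log (u := T) h3 hT0.le le_rfl
    linarith
  have hsplit : ∑ ρ ∈ (ZT T).filter (CloseB T), mx (ρ : ℂ) ≤
      (∑ ρ ∈ ZT T, (if CloseB T ρ ∧ 1 ≤ (ρ : ℂ).im ∧ (ρ : ℂ).im ≤ T - 1 then mx (ρ : ℂ) else 0)) +
      (∑ ρ ∈ (ZT T).filter (fun ρ : ZS => (ρ : ℂ).im < 1), mx (ρ : ℂ)) +
      ∑ ρ ∈ (ZT T).filter (fun ρ : ZS => T - 1 < (ρ : ℂ).im), mx (ρ : ℂ) := by
    rw [Finset.sum_filter, Finset.sum_filter, Finset.sum_filter, ← Finset.sum_add_distrib,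
      ← Finset.sum_add_distrib]
    refine Finset.sum_le_sum fun ρ _ => ?_
    have hm := mx_nonneg (ρ : ℂ)
    by_cases hc : CloseB T ρ
    · rw [if_pos hc]
      by_cases ha : (ρ : ℂ).im < 1
      · rw [if_pos ha]
        split_ifs <;> linarith
      · rw [if_neg ha]
        by_cases hb : T - 1 < (ρ : ℂ).im
        · rw [if_pos hb]
          split_ifs <;> linarith
        · rw [if_neg hb, if_pos ⟨hc, not_lt.mp ha, not_lt.mp hb⟩]
          linarith
    · rw [if_neg hc]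
      split_ifs <;> linarith
  have hfin : (1 + p) * SN T ≤ (1 - p) * (T * Real.log T / (2 * Real.pi)) +
      (p * (T * Real.log T) - 5 * (CLA * Real.log T)) := by
    unfold SN
    have hL0 : 0 < Real.log T := by linarith
    have h6 : 15 * CLA ≤ T * (2 * p) := by
      rwa [div_le_iff₀ (by positivity)] at h5
    have h7 : T * Real.log T / (2 * Real.pi) ≤ T * Real.log T / 6 := by
      apply div_le_div_of_nonneg_left (by positivity) (by norm_num) (by linarith)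
    have h8 : 5 * (CLA * Real.log T) ≤ 2 / 3 * (p * (T * Real.log T)) := by
      have := mul_le_mul_of_nonneg_right h6 hL0.le
      nlinarith
    have h9 : 2 * p * (T * Real.log T / (2 * Real.pi)) ≤ 2 * p * (T * Real.log T / 6) := by gcongr
    nlinarith
  linarith

end Pool.Agent.Helper4.SH
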