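import Pool.Agent.Helper4.SH.Scale
import Pool.Agent.Helper4.SH.HardCore

/-!
# SH-TR: transfer from isolated zeros to all zeros

`ε' ` small. On the support of `om` (`om_supp`): `|Xs - Zs| ≤ Gs + ε'` (`dev_s`). `B := {t | ε' < Gs f.h s T t}` is open, `volume B ≤ η T` for `p`
small (`weak_s`). Off `B`: `|Xs - Zs| ≤ 2 ε'`, contribution at most `2 ε' ∫ om |F| ≤ 2 ε' (T + ∫ om F²)` (`|F| ≤ 1 + F²`, `∫ om ≤ T`). On `B`:
`|F (Xs - Zs)| ≤ |F Xs| + C_Z |F|` (`Zs_bdd`), `∫_B om |F Xs| ≤ ε T/4` by hypothesis `hui`, and `|F| ≤ λ F² + 1/(4λ)`,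
`∫_B om |F| ≤ λ C T + η T/(4λ)`.
-/

open MeasureTheory Set Filter Topology
open Pool.Agent.Helper57.Zeta Pool.Agent.Helper57.PC Pool.Agent.Helper57.LH Pool.Agent.Helper78.SG
open scoped ContDiff

namespace Pool.Agent.Helper4.SH

namespace TransferAux

theorem om_nonneg (g : TF) (hg0 : ∀ x, 0 ≤ g.h x) (T t : ℝ) : 0 ≤ om g.h T t := hg0 _

theorem om_le_one (g : TF) (hg1 : ∀ x, g.h x ≤ 1) (T t : ℝ) : om g.h T t ≤ 1 := hg1 _

theorem om_int_le (g : TF) (hg : g.th = 1 / 4) (hg0 : ∀ x, 0 ≤ g.h x) (hg1 : ∀ x, g.h x ≤ 1)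
    {T : ℝ} (hT : 0 < T) : ∫ t, om g.h T t ≤ T := by
  have h1 : ∫ t in Icc (1 / 8 * T) (7 / 8 * T), om g.h T t = ∫ t, om g.h T t := by
    apply setIntegral_eq_integral_of_forall_compl_eq_zero
    intro t ht
    by_contra h
    exact ht (om_supp g hg hT t h)
  rw [← h1]
  have h2 : ‖∫ t in Icc (1 / 8 * T) (7 / 8 * T), om g.h T t‖ ≤
      1 * volume.real (Icc (1 / 8 * T) (7 / 8 * T)) := by
    apply norm_setIntegral_le_of_norm_le_const
    · rw [Real.volume_Icc]; exact ENNReal.ofReal_lt_top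
    · intro t _
      rw [Real.norm_eq_abs, abs_of_nonneg (om_nonneg g hg0 T t)]
      exact om_le_one g hg1 T t
  have h3 : volume.real (Icc (1 / 8 * T) (7 / 8 * T)) = 7 / 8 * T - 1 / 8 * T := by
    rw [Real.volume_real_Icc_of_le (by linarith)]
  rw [h3] at h2
  have h4 := (Real.le_norm_self _).trans h2
  linarith

theorem om_setInt_le (g : TF) (hg0 : ∀ x, 0 ≤ g.h x) (hg1 : ∀ x, g.h x ≤ 1)
    {T c : ℝ} (hc : 0 ≤ c) (B : Set ℝ) (hB : volume B ≤ ENNReal.ofReal c) :
    ∫ t in B, om g.h T t ≤ c := by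
  have h2 : ‖∫ t in B, om g.h T t‖ ≤ 1 * volume.real B := by
    apply norm_setIntegral_le_of_norm_le_const
    · exact hB.trans_lt ENNReal.ofReal_lt_top
    · intro t _
      rw [Real.norm_eq_abs, abs_of_nonneg (om_nonneg g hg0 T t)]
      exact om_le_one g hg1 T t
  have h3 : volume.real B ≤ c := by
    unfold Measure.real
    exact ENNReal.toReal_le_of_le_ofReal hc hB
  have h4 := (Real.le_norm_self _).trans h2
  linarith

end TransferAux

open TransferAux in
theorem transfer (g f : TF) (hg : g.th = 1 / 4) (hg0 : ∀ x, 0 ≤ g.h x) (hg1 : ∀ x, g.h x ≤ 1) {s : ℝ} (hs : 1 ≤ s) (hs2 : s ≤ 2)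
    (F : ℝ → ℝ → ℝ) (hFc : ∀ T, Continuous (F T))
    (hF2 : ∃ C : ℝ, 0 < C ∧ ∀ᶠ T : ℝ in atTop, ∫ t, om g.h T t * F T t ^ 2 ≤ C * T)
    (hui : ∀ ε : ℝ, 0 < ε → ∃ η : ℝ, 0 < η ∧ ∀ᶠ T : ℝ in atTop, ∀ B : Set ℝ, MeasurableSet B →
      volume B ≤ ENNReal.ofReal (η * T) → ∫ t in B, om g.h T t * |F T t * Xs f.h s T t| ≤ ε * T)
    {ε : ℝ} (hε : 0 < ε) : ∃ p : ℝ, 0 < p ∧ ∀ᶠ T : ℝ in atTop, ∑ ρ ∈ CZ T, mx ρ ≤ p * (T * Real.log T) →
      |(∫ t, om g.h T t * (F T t * Zs f.h s T t)) - ∫ t, om g.h T t * (F T t * Xs f.h s T t)| ≤ ε * T := by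
  obtain ⟨CF, hCF0, hCF⟩ := hF2
  obtain ⟨K, hK0, hK⟩ := Zs_bdd f hs
  obtain ⟨η1, hη1, hui1⟩ := hui (ε / 4) (by positivity)
  obtain ⟨e, he0, he⟩ : ∃ e : ℝ, 0 < e ∧ 2 * e * (1 + CF) ≤ ε / 8 := by
    refine ⟨ε / (16 * (1 + CF)), by positivity, ?_⟩
    have : (1 + CF) ≠ 0 := by positivity
    apply le_of_eq
    field_simp
    ring
  obtain ⟨lam, hl0, hl⟩ : ∃ lam : ℝ, 0 < lam ∧ K * lam * CF ≤ ε / 8 := by
    refine ⟨ε / (8 * K * CF), by positivity, ?_⟩
    apply le_of_eq
    field_simp
  obtain ⟨η, hη0, hηle, hη⟩ : ∃ η : ℝ, 0 < η ∧ η ≤ η1 ∧ K / (4 * lam) * η ≤ ε / 8 := by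
    refine ⟨min η1 (lam * ε / (2 * K)), by positivity, min_le_left _ _, ?_⟩
    calc K / (4 * lam) * min η1 (lam * ε / (2 * K)) ≤ K / (4 * lam) * (lam * ε / (2 * K)) := by
          gcongr
          exact min_le_right _ _
      _ = ε / 8 := by
          field_simp
          ring
  obtain ⟨p, hp, hweak⟩ := weak_s f hs hs2 he0 hη0
  refine ⟨p, hp, ?_⟩
  filter_upwards [hCF, hui1, hweak, dev_s f hs hs2 he0, omX_int g f hg hs hs2, eventually_gt_atTop 1]
    with T h1 h2 h3 h4 h5 hT hsum
  have hT0 : 0 < T := by linarith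
  have hB := h3 hsum
  set B : Set ℝ := {t | e < Gs f.h s T t} with hBdef
  have hBm : MeasurableSet B := (isOpen_lt continuous_const (Gs_cont f s T)).measurableSet
  have hB1 : volume B ≤ ENNReal.ofReal (η1 * T) :=
    hB.trans (ENNReal.ofReal_le_ofReal (by gcongr))
  have hX := h2 B hBm hB1
  have hom0 := om_nonneg g hg0 T
  have hom1 := om_int_le g hg hg0 hg1 hT0
  have homB := om_setInt_le g hg0 hg1 (T := T) (c := η * T) (by positivity) B hB
  -- integrability
  have i1 : Integrable (fun t => om g.h T t * (F T t * Xs f.h s T t)) := by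
    have := h5 (F T) (hFc T) 1
    simpa only [pow_one] using this
  have i2 : Integrable (fun t => om g.h T t * (F T t * Zs f.h s T t)) := by
    have := h5 (fun t => F T t * Zs f.h s T t) ((hFc T).mul (Zs_cont f s T)) 0
    simpa only [pow_zero, mul_one] using this
  have i3 : Integrable (fun t => om g.h T t) := by
    have := h5 (fun _ => 1) continuous_const 0
    simpa only [pow_zero, mul_one] using this
  have i4 : Integrable (fun t => om g.h T t * F T t ^ 2) := by
    have := h5 (fun t => F T t ^ 2) ((hFc T).pow 2) 0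
    simpa only [pow_zero, mul_one] using this
  have i5 : Integrable (fun t => om g.h T t * |F T t * Xs f.h s T t|) := by
    refine i1.norm.congr (Eventually.of_forall fun t => ?_)
    simp only [Real.norm_eq_abs, abs_mul, abs_of_nonneg (hom0 t)]
  -- pointwise bound
  have hpt : ∀ t, ‖om g.h T t * (F T t * Zs f.h s T t) - om g.h T t * (F T t * Xs f.h s T t)‖ ≤
      B.indicator (fun t => om g.h T t * |F T t * Xs f.h s T t|) t +
      (2 * e * om g.h T t + (2 * e + K * lam) * (om g.h T t * F T t ^ 2)) +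
      K / (4 * lam) * B.indicator (fun t => om g.h T t) t := by
    intro t
    have hF1 : |F T t| ≤ 1 + F T t ^ 2 := by
      have := sq_nonneg (|F T t| - 1)
      rw [← sq_abs (F T t)]
      nlinarith [abs_nonneg (F T t)]
    have hF2' : |F T t| ≤ lam * F T t ^ 2 + 1 / (4 * lam) := by
      rw [← sq_abs (F T t)]
      have h6 : lam * |F T t| ^ 2 + 1 / (4 * lam) - |F T t| = (2 * lam * |F T t| - 1) ^ 2 / (4 * lam) := by
        field_simp
        ring
      have h7 : 0 ≤ (2 * lam * |F T t| - 1) ^ 2 / (4 * lam) := by positivity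
      linarith
    rw [← mul_sub, ← mul_sub, norm_mul, norm_mul, Real.norm_eq_abs, Real.norm_eq_abs, Real.norm_eq_abs,
      abs_of_nonneg (hom0 t)]
    by_cases hz : om g.h T t = 0
    · have hz1 : B.indicator (fun t => om g.h T t * |F T t * Xs f.h s T t|) t = 0 := by
        by_cases htB : t ∈ B
        · rw [indicator_of_mem htB, hz, zero_mul]
        · rw [indicator_of_notMem htB]
      have hz2 : B.indicator (fun t => om g.h T t) t = 0 := by
        by_cases htB : t ∈ B
        · rw [indicator_of_mem htB, hz]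
        · rw [indicator_of_notMem htB]
      rw [hz1, hz2, hz]
      simp
    · have htI := om_supp g hg hT0 t hz
      have hdev := h4 t htI
      have h0 := hom0 t
      have hF0 := abs_nonneg (F T t)
      by_cases htB : t ∈ B
      · rw [indicator_of_mem htB, indicator_of_mem htB]
        have h8 : |Zs f.h s T t - Xs f.h s T t| ≤ K + |Xs f.h s T t| :=
          (abs_sub _ _).trans (by gcongr; exact hK T hT t)
        have h9 : |F T t| * |Zs f.h s T t - Xs f.h s T t| ≤ K * |F T t| + |F T t * Xs f.h s T t| := by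
          rw [abs_mul]
          nlinarith
        have h10 : K * |F T t| ≤ K * (lam * F T t ^ 2 + 1 / (4 * lam)) := by gcongr
        have h11 : om g.h T t * (|F T t| * |Zs f.h s T t - Xs f.h s T t|) ≤
            om g.h T t * (K * (lam * F T t ^ 2 + 1 / (4 * lam)) + |F T t * Xs f.h s T t|) := by
          gcongr
          linarith
        have h12 : 0 ≤ 2 * e * om g.h T t + 2 * e * (om g.h T t * F T t ^ 2) := by positivity
        calc _ ≤ _ := h11
          _ = om g.h T t * |F T t * Xs f.h s T t| + K * lam * (om g.h T t * F T t ^ 2) +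
              K / (4 * lam) * om g.h T t := by ring
          _ ≤ _ := by linarith
      · rw [indicator_of_notMem htB, indicator_of_notMem htB]
        have h8 : Gs f.h s T t ≤ e := by
          by_contra hc
          exact htB (not_le.mp hc)
        have h9 : |Zs f.h s T t - Xs f.h s T t| ≤ 2 * e := by
          rw [abs_sub_comm]
          linarith
        have h11 : om g.h T t * (|F T t| * |Zs f.h s T t - Xs f.h s T t|) ≤
            om g.h T t * ((1 + F T t ^ 2) * (2 * e)) := by
          gcongr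
        have h12 : 0 ≤ K * lam * (om g.h T t * F T t ^ 2) := by positivity
        calc _ ≤ _ := h11
          _ = 2 * e * om g.h T t + 2 * e * (om g.h T t * F T t ^ 2) := by ring
          _ ≤ _ := by linarith
  rw [← integral_sub i2 i1, ← Real.norm_eq_abs]
  have j1 : Integrable (fun t => B.indicator (fun t => om g.h T t * |F T t * Xs f.h s T t|) t) :=
    i5.indicator hBm
  have j2 : Integrable (fun t => 2 * e * om g.h T t + (2 * e + K * lam) * (om g.h T t * F T t ^ 2)) :=
    (i3.const_mul _).add (i4.const_mul _)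
  have j3 : Integrable (fun t => K / (4 * lam) * B.indicator (fun t => om g.h T t) t) :=
    (i3.indicator hBm).const_mul _
  have j12 : Integrable (fun t => B.indicator (fun t => om g.h T t * |F T t * Xs f.h s T t|) t +
      (2 * e * om g.h T t + (2 * e + K * lam) * (om g.h T t * F T t ^ 2))) := j1.add j2
  have j123 : Integrable (fun t => B.indicator (fun t => om g.h T t * |F T t * Xs f.h s T t|) t +
      (2 * e * om g.h T t + (2 * e + K * lam) * (om g.h T t * F T t ^ 2)) +
      K / (4 * lam) * B.indicator (fun t => om g.h T t) t) := j12.add j3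
  have hmain := norm_integral_le_of_norm_le j123 (Eventually.of_forall hpt)
  refine hmain.trans ?_
  have e1 : ∫ t, (B.indicator (fun t => om g.h T t * |F T t * Xs f.h s T t|) t +
      (2 * e * om g.h T t + (2 * e + K * lam) * (om g.h T t * F T t ^ 2)) +
      K / (4 * lam) * B.indicator (fun t => om g.h T t) t) =
      (∫ t in B, om g.h T t * |F T t * Xs f.h s T t|) +
      (2 * e * (∫ t, om g.h T t) + (2 * e + K * lam) * ∫ t, om g.h T t * F T t ^ 2) +
      K / (4 * lam) * ∫ t in B, om g.h T t := by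
    rw [integral_add j12 j3, integral_add j1 j2, integral_indicator hBm,
      integral_add (i3.const_mul _) (i4.const_mul _), integral_const_mul, integral_const_mul,
      integral_const_mul, integral_indicator hBm]
  rw [e1]
  have k1 : 2 * e * (∫ t, om g.h T t) ≤ 2 * e * T := by gcongr
  have k2 : (2 * e + K * lam) * ∫ t, om g.h T t * F T t ^ 2 ≤ (2 * e + K * lam) * (CF * T) := by gcongr
  have k3 : K / (4 * lam) * ∫ t in B, om g.h T t ≤ K / (4 * lam) * (η * T) := by gcongr
  have k4 : 2 * e * (1 + CF) * T ≤ ε / 8 * T := by gcongr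
  have k5 : K * lam * CF * T ≤ ε / 8 * T := by gcongr
  have k6 : K / (4 * lam) * η * T ≤ ε / 8 * T := by gcongr
  nlinarith [mul_pos hε hT0]

end Pool.Agent.Helper4.SH
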