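import Pool.Agent.Helper4.SH.Arith

/-!
# SH-CB: crude bounds

Triangle inequality: `|HH| ≤ (∑|cf|)²`, `|BB| ≤ (∑|cl|)²`, `|F2| ≤ 2 ∑|cf| ∑|cl|`, with `sum_cf_le`, `sum_cl_le` (`Arith`);
`(64 T^0.499)² = 4096 T^0.998`.
-/

open MeasureTheory Set Filter Topology
open Pool.Agent.Helper57.Zeta Pool.Agent.Helper57.PC Pool.Agent.Helper57.LH Pool.Agent.Helper78.SG
open scoped ContDiff

namespace Pool.Agent.Helper4.SH

/-- a double sum of products with a bounded factor -/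
private theorem dsum_le {ι κ : Type*} (I : Finset ι) (J : Finset κ) (a : ι → ℝ) (b : κ → ℝ)
    (c : ι → κ → ℝ) (hc : ∀ i j, |c i j| ≤ 1) :
    |∑ i ∈ I, ∑ j ∈ J, a i * b j * c i j| ≤ (∑ i ∈ I, |a i|) * (∑ j ∈ J, |b j|) := by
  rw [Finset.sum_mul_sum]
  refine (Finset.abs_sum_le_sum_abs _ _).trans (Finset.sum_le_sum fun i _ => ?_)
  refine (Finset.abs_sum_le_sum_abs _ _).trans (Finset.sum_le_sum fun j _ => ?_)
  rw [abs_mul, abs_mul]
  exact mul_le_of_le_one_right (by positivity) (hc i j)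

private theorem sq_pow {T : ℝ} (hT : 1 < T) : (64 * T ^ ((499 : ℝ) / 1000)) * (64 * T ^ ((499 : ℝ) / 1000)) =
    4096 * T ^ ((998 : ℝ) / 1000) := by
  have h0 : 0 < T := by linarith
  have h1 : T ^ ((998 : ℝ) / 1000) = T ^ ((499 : ℝ) / 1000) * T ^ ((499 : ℝ) / 1000) := by
    rw [← Real.rpow_add h0]
    norm_num
  rw [h1]
  ring

theorem F1_crude {T : ℝ} (hT : 1 < T) (t : ℝ) : |F1 T t| ≤ 10000 * T ^ ((998 : ℝ) / 1000) := by
  have hP : 0 < T ^ ((998 : ℝ) / 1000) := Real.rpow_pos_of_pos (by linarith) _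
  have ha := sum_cf_le hT
  have hb := sum_cl_le hT
  have ha0 : 0 ≤ ∑ i ∈ IH T, |cf T i| := Finset.sum_nonneg fun _ _ => abs_nonneg _
  have hb0 : 0 ≤ ∑ q ∈ S01 T, |cl T q| := Finset.sum_nonneg fun _ _ => abs_nonneg _
  have h1 : |HH T t| ≤ 4096 * T ^ ((998 : ℝ) / 1000) := by
    refine (dsum_le (IH T) (IH T) (cf T) (cf T) (fun i j => Real.cos (t * (ph i - ph j)))
      (fun _ _ => Real.abs_cos_le_one _)).trans ?_
    rw [← sq_pow hT]
    exact mul_le_mul ha ha ha0 (ha0.trans ha)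
  have h2 : |BB T t| ≤ 4096 * T ^ ((998 : ℝ) / 1000) := by
    refine (dsum_le (S01 T) (S01 T) (cl T) (cl T) (fun p q => Real.cos (t * (Real.log p - Real.log q)))
      (fun _ _ => Real.abs_cos_le_one _)).trans ?_
    rw [← sq_pow hT]
    exact mul_le_mul hb hb hb0 (hb0.trans hb)
  unfold F1
  refine (abs_add_le _ _).trans ?_
  linarith

theorem F2_crude {T : ℝ} (hT : 1 < T) (t : ℝ) : |F2 T t| ≤ 10000 * T ^ ((998 : ℝ) / 1000) := by
  have hP : 0 < T ^ ((998 : ℝ) / 1000) := Real.rpow_pos_of_pos (by linarith) _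
  have ha := sum_cf_le hT
  have hb := sum_cl_le hT
  have ha0 : 0 ≤ ∑ i ∈ IH T, |cf T i| := Finset.sum_nonneg fun _ _ => abs_nonneg _
  have hb0 : 0 ≤ ∑ q ∈ S01 T, |cl T q| := Finset.sum_nonneg fun _ _ => abs_nonneg _
  have h1 : |∑ i ∈ IH T, ∑ q ∈ S01 T, cf T i * cl T q * Real.cos (t * (ph i + Real.log q))| ≤
      4096 * T ^ ((998 : ℝ) / 1000) := by
    refine (dsum_le (IH T) (S01 T) (cf T) (cl T) (fun i q => Real.cos (t * (ph i + Real.log q)))
      (fun _ _ => Real.abs_cos_le_one _)).trans ?_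
    rw [← sq_pow hT]
    exact mul_le_mul ha hb hb0 (ha0.trans ha)
  unfold F2
  rw [abs_mul, abs_of_nonneg (by norm_num : (0:ℝ) ≤ 2)]
  linarith

end Pool.Agent.Helper4.SH
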