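import Pool.Agent.Helper4.SH.Defs

/-!
# SH-NN: positivity and Cauchy-Schwarz

`HH T t = |∑ cf_i e^(i t ph_i)|² = (∑ cf_i cos(t ph_i))² + (∑ cf_i sin(t ph_i))²` (`Real.cos_sub`), same for `BB`, and
`F2 = 2 (C_H C_L - S_H S_L)` with `C_H = ∑ cf cos(t ph)`, `S_H = ∑ cf sin(t ph)`, `C_L = ∑ cl cos(t log q)`, `S_L = ∑ cl sin(t log q)`.
So `F1 + F2 = (C_H + C_L)² + (S_H - S_L)²` and `F2² ≤ 4 HH BB`.
-/

open MeasureTheory Set Filter Topology
open Pool.Agent.Helper57.Zeta Pool.Agent.Helper57.PC Pool.Agent.Helper57.LH Pool.Agent.Helper78.SG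
open scoped ContDiff

namespace Pool.Agent.Helper4.SH

theorem nn_dbl {ι κ : Type*} (s : Finset ι) (r : Finset κ) (a th : ι → ℝ) (b ps : κ → ℝ) (t : ℝ) :
    ∑ i ∈ s, ∑ j ∈ r, a i * b j * Real.cos (t * (th i - ps j))
      = (∑ i ∈ s, a i * Real.cos (t * th i)) * (∑ j ∈ r, b j * Real.cos (t * ps j))
        + (∑ i ∈ s, a i * Real.sin (t * th i)) * (∑ j ∈ r, b j * Real.sin (t * ps j)) := by
  rw [Finset.sum_mul_sum, Finset.sum_mul_sum, ← Finset.sum_add_distrib]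
  apply Finset.sum_congr rfl
  intro i _
  rw [← Finset.sum_add_distrib]
  apply Finset.sum_congr rfl
  intro j _
  rw [mul_sub, Real.cos_sub]
  ring

theorem nn_dbl' {ι κ : Type*} (s : Finset ι) (r : Finset κ) (a th : ι → ℝ) (b ps : κ → ℝ) (t : ℝ) :
    ∑ i ∈ s, ∑ j ∈ r, a i * b j * Real.cos (t * (th i + ps j))
      = (∑ i ∈ s, a i * Real.cos (t * th i)) * (∑ j ∈ r, b j * Real.cos (t * ps j))
        - (∑ i ∈ s, a i * Real.sin (t * th i)) * (∑ j ∈ r, b j * Real.sin (t * ps j)) := by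
  rw [Finset.sum_mul_sum, Finset.sum_mul_sum, ← Finset.sum_sub_distrib]
  apply Finset.sum_congr rfl
  intro i _
  rw [← Finset.sum_sub_distrib]
  apply Finset.sum_congr rfl
  intro j _
  rw [mul_add, Real.cos_add]
  ring

theorem nn_HH (T t : ℝ) : HH T t = (∑ i ∈ IH T, cf T i * Real.cos (t * ph i)) ^ 2
    + (∑ i ∈ IH T, cf T i * Real.sin (t * ph i)) ^ 2 := by
  unfold HH
  rw [nn_dbl]
  ring

theorem nn_BB (T t : ℝ) : BB T t = (∑ p ∈ S01 T, cl T p * Real.cos (t * Real.log p)) ^ 2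
    + (∑ p ∈ S01 T, cl T p * Real.sin (t * Real.log p)) ^ 2 := by
  unfold BB
  rw [nn_dbl]
  ring

theorem nn_F2 (T t : ℝ) : F2 T t = 2 * ((∑ i ∈ IH T, cf T i * Real.cos (t * ph i)) *
      (∑ p ∈ S01 T, cl T p * Real.cos (t * Real.log p))
    - (∑ i ∈ IH T, cf T i * Real.sin (t * ph i)) *
      (∑ p ∈ S01 T, cl T p * Real.sin (t * Real.log p))) := by
  unfold F2
  rw [nn_dbl']

theorem HH_nonneg (T t : ℝ) : 0 ≤ HH T t := by
  rw [nn_HH]
  positivity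

theorem BB_nonneg (T t : ℝ) : 0 ≤ BB T t := by
  rw [nn_BB]
  positivity

theorem FF_nonneg (T t : ℝ) : 0 ≤ F1 T t + F2 T t := by
  unfold F1
  rw [nn_HH, nn_BB, nn_F2]
  set a := ∑ i ∈ IH T, cf T i * Real.cos (t * ph i)
  set b := ∑ i ∈ IH T, cf T i * Real.sin (t * ph i)
  set c := ∑ p ∈ S01 T, cl T p * Real.cos (t * Real.log p)
  set d := ∑ p ∈ S01 T, cl T p * Real.sin (t * Real.log p)
  have h : a ^ 2 + b ^ 2 + (c ^ 2 + d ^ 2) + 2 * (a * c - b * d) = (a + c) ^ 2 + (b - d) ^ 2 := by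
    ring
  rw [h]
  positivity

theorem F2_sq_le (T t : ℝ) : F2 T t ^ 2 ≤ 4 * (HH T t * BB T t) := by
  rw [nn_HH, nn_BB, nn_F2]
  set a := ∑ i ∈ IH T, cf T i * Real.cos (t * ph i)
  set b := ∑ i ∈ IH T, cf T i * Real.sin (t * ph i)
  set c := ∑ p ∈ S01 T, cl T p * Real.cos (t * Real.log p)
  set d := ∑ p ∈ S01 T, cl T p * Real.sin (t * Real.log p)
  have h : 4 * ((a ^ 2 + b ^ 2) * (c ^ 2 + d ^ 2)) - (2 * (a * c - b * d)) ^ 2
      = 4 * (a * d + b * c) ^ 2 := by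
    ring
  have h2 : 0 ≤ 4 * (a * d + b * c) ^ 2 := by positivity
  linarith

theorem HH_cont (T : ℝ) : Continuous (fun t => HH T t) := by
  unfold HH
  fun_prop

theorem BB_cont (T : ℝ) : Continuous (fun t => BB T t) := by
  unfold BB
  fun_prop

theorem F1_cont (T : ℝ) : Continuous (fun t => F1 T t) := by
  unfold F1
  exact (HH_cont T).add (BB_cont T)

theorem F2_cont (T : ℝ) : Continuous (fun t => F2 T t) := by
  unfold F2
  fun_prop

end Pool.Agent.Helper4.SH
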