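import Pool.Agent.Helper4.SH.Iso
import Pool.Agent.Helper4.SH.NN
import Pool.Agent.Helper4.SH.Crude

/-!
# SH-UP: the upper bound: at most one zero in each window

`F t := F1 T t + F2 T t ≥ 0` (`FF_nonneg`). The windows `[γ - hw T, γ + hw T]`, `γ` an ordinate of `IZ T`, are pairwise disjoint (distance
`> 2 hw T`, `iso_propsB`), contained in `[-1, T + 1]` (`hw T ≤ 1`). `g.h` is Lipschitz (smooth, compactly supported) and `g.h ≥ 0`:
`om g.h T γ ≤ om g.h T t + Lip · hw T/T` for `t` in the window. So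
`∑_γ om(γ) ∫_window F ≤ ∑_γ ∫_window (om(t) + Lip hw/T) F(t) dt ≤ ∫ om F + (Lip hw T/T) ∫_{-1}^{T+1} F ≤ ∫ om F + C T^0.998`
(`F1_crude`, `F2_crude`).
-/

open MeasureTheory Set Filter Topology
open Pool.Agent.Helper57.Zeta Pool.Agent.Helper57.PC Pool.Agent.Helper57.LH Pool.Agent.Helper78.SG
open scoped ContDiff

namespace Pool.Agent.Helper4.SH

theorem up_TF_hcs (g : TF) : HasCompactSupport g.h := by
  apply HasCompactSupport.of_support_subset_isCompact (isCompact_Icc (a := -g.th) (b := g.th))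
  intro x hx
  rw [Function.mem_support] at hx
  rw [mem_Icc]
  by_contra hc
  apply hx
  apply g.supp
  rw [not_and_or, not_le, not_le] at hc
  rcases hc with hc | hc
  · have := neg_le_abs x
    linarith
  · have := le_abs_self x
    linarith

theorem up_om_cont (g : TF) (T : ℝ) : Continuous (fun t => om g.h T t) := by
  unfold om
  exact g.smooth.continuous.comp (by fun_prop)

theorem up_om_zero (g : TF) {T t : ℝ} (hT : 0 < T) (h : t ∉ Icc 0 T) : om g.h T t = 0 := by
  unfold om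
  apply g.supp
  have h1 := g.th1
  rw [mem_Icc, not_and_or, not_le, not_le] at h
  rcases h with h | h
  · have h2 : t / T < 0 := div_neg_of_neg_of_pos h hT
    have h3 := neg_le_abs (t / T - 1 / 2)
    linarith
  · have h2 : 1 < t / T := by rwa [one_lt_div hT]
    have h3 := le_abs_self (t / T - 1 / 2)
    linarith

theorem upper_H4 (g : TF) (hg0 : ∀ x, 0 ≤ g.h x) {ε : ℝ} (hε : 0 < ε) : ∀ᶠ T : ℝ in atTop,
    ∑ ρ ∈ IZ T, om g.h T (ρ : ℂ).im * (∫ t in ((ρ : ℂ).im - hw T)..((ρ : ℂ).im + hw T), (F1 T t + F2 T t)) ≤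
      (∫ t, om g.h T t * (F1 T t + F2 T t)) + ε * T := by
  obtain ⟨K, hK⟩ := ContDiff.lipschitzWith_of_hasCompactSupport (𝕂 := ℝ) (up_TF_hcs g) g.smooth (by simp)
  have hKd : ∀ x y, |g.h x - g.h y| ≤ K * |x - y| := fun x y => by
    have := hK.dist_le_mul x y
    rwa [Real.dist_eq, Real.dist_eq] at this
  have hK0 : (0 : ℝ) ≤ K := K.2
  -- the power saving
  have hpow : ∀ᶠ T : ℝ in atTop, (60000 * (K : ℝ)) * T ^ ((998 : ℝ) / 1000) ≤ ε * T := by
    have h1 : Tendsto (fun T : ℝ => (60000 * (K : ℝ)) * T ^ (-(2 / 1000 : ℝ))) atTop (𝓝 ((60000 * (K : ℝ)) * 0)) :=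
      (tendsto_rpow_neg_atTop (by norm_num)).const_mul _
    rw [mul_zero] at h1
    filter_upwards [h1.eventually_lt_const hε, eventually_gt_atTop 0] with T h2 h3
    have h4 : T ^ ((998 : ℝ) / 1000) = T ^ (-(2 / 1000 : ℝ)) * T := by
      conv_rhs => rw [← Real.rpow_one T]
      rw [← Real.rpow_mul h3.le, ← Real.rpow_add h3]
      norm_num
    rw [h4, ← mul_assoc]
    exact mul_le_mul_of_nonneg_right h2.le h3.le
  have hlog : ∀ᶠ T : ℝ in atTop, Real.pi * (68 / 100) ≤ Real.log T :=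
    Real.tendsto_log_atTop.eventually_ge_atTop _
  filter_upwards [hpow, hlog, eventually_gt_atTop 2] with T hp hl hT2
  have hT : 1 < T := by linarith
  have hT0 : 0 < T := by linarith
  have hL : 0 < Real.log T := Real.log_pos hT
  have hw0 : 0 < hw T := by unfold hw; positivity
  have hw1 : hw T ≤ 1 := by unfold hw; rwa [div_le_one hL]
  set F : ℝ → ℝ := fun t => F1 T t + F2 T t with hF
  have hFc : Continuous F := (F1_cont T).add (F2_cont T)
  have hF0 : ∀ t, 0 ≤ F t := fun t => FF_nonneg T t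
  have hFb : ∀ t, F t ≤ 20000 * T ^ ((998 : ℝ) / 1000) := fun t => by
    have h1 := le_trans (le_abs_self _) (F1_crude hT t)
    have h2 := le_trans (le_abs_self _) (F2_crude hT t)
    show F1 T t + F2 T t ≤ _
    linarith
  set e : ℝ := K * hw T / T with he
  have he0 : 0 ≤ e := by positivity
  set G : ℝ → ℝ := fun t => (om g.h T t + e) * F t with hG
  have hGc : Continuous G := ((up_om_cont g T).add continuous_const).mul hFc
  have hom0 : ∀ t, 0 ≤ om g.h T t := fun t => hg0 _
  have hG0 : ∀ t, 0 ≤ G t := fun t => mul_nonneg (add_nonneg (hom0 t) he0) (hF0 t)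
  set A : ZS → Set ℝ := fun ρ => Ioc ((ρ : ℂ).im - hw T) ((ρ : ℂ).im + hw T) with hA
  -- one window
  have hone : ∀ ρ ∈ IZ T, om g.h T (ρ : ℂ).im *
      (∫ t in ((ρ : ℂ).im - hw T)..((ρ : ℂ).im + hw T), F t) ≤ ∫ t in A ρ, G t := by
    intro ρ _
    rw [intervalIntegral.integral_of_le (by linarith), ← integral_const_mul]
    apply setIntegral_mono_on
    · exact ((continuous_const.mul hFc).integrableOn_Icc).mono_set Ioc_subset_Icc_self
    · exact (hGc.integrableOn_Icc).mono_set Ioc_subset_Icc_self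
    · exact measurableSet_Ioc
    · intro t ht
      apply mul_le_mul_of_nonneg_right _ (hF0 t)
      unfold om
      have h1 := hKd ((ρ : ℂ).im / T - 1 / 2) (t / T - 1 / 2)
      have h2 : |((ρ : ℂ).im / T - 1 / 2) - (t / T - 1 / 2)| ≤ hw T / T := by
        have h3 : ((ρ : ℂ).im / T - 1 / 2) - (t / T - 1 / 2) = ((ρ : ℂ).im - t) / T := by ring
        rw [h3, abs_div, abs_of_pos hT0]
        apply div_le_div_of_nonneg_right _ hT0.le
        rw [abs_le]
        constructor <;> linarith [ht.1, ht.2]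
      have h3 : (K : ℝ) * |((ρ : ℂ).im / T - 1 / 2) - (t / T - 1 / 2)| ≤ e := by
        rw [he, mul_div_assoc]
        exact mul_le_mul_of_nonneg_left h2 hK0
      have h4 := le_abs_self (g.h ((ρ : ℂ).im / T - 1 / 2) - g.h (t / T - 1 / 2))
      linarith
  have hsub : (⋃ ρ ∈ IZ T, A ρ) ⊆ Icc (-1) (T + 1) := by
    intro t ht
    rw [mem_iUnion₂] at ht
    obtain ⟨ρ, hρ, h1, h2⟩ := ht
    obtain ⟨h3, h4⟩ := IZ_im hρ
    constructor <;> linarith
  have hdisj : Set.Pairwise (↑(IZ T)) (Function.onFun Disjoint A) := by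
    intro ρ hρ ρ' hρ' hne
    rw [Function.onFun, Set.disjoint_left]
    intro t h1 h2
    have h3 := IZ_sep hT (Finset.mem_coe.1 hρ) (Ne.symm hne)
    have h4 : |(ρ : ℂ).im - (ρ' : ℂ).im| ≤ 2 * hw T := by
      rw [abs_le]
      constructor <;> linarith [h1.1, h1.2, h2.1, h2.2]
    linarith
  have hsum : ∑ ρ ∈ IZ T, ∫ t in A ρ, G t = ∫ t in ⋃ ρ ∈ IZ T, A ρ, G t := by
    rw [integral_biUnion_finset (IZ T) (fun ρ _ => measurableSet_Ioc) hdisj]
    intro ρ _
    exact (hGc.integrableOn_Icc).mono_set Ioc_subset_Icc_self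
  have hle1 : ∑ ρ ∈ IZ T, om g.h T (ρ : ℂ).im *
      (∫ t in ((ρ : ℂ).im - hw T)..((ρ : ℂ).im + hw T), F t) ≤ ∫ t in Icc (-1) (T + 1), G t := by
    refine le_trans (Finset.sum_le_sum hone) ?_
    rw [hsum]
    apply setIntegral_mono_set hGc.integrableOn_Icc
    · exact Eventually.of_forall hG0
    · exact hsub.eventuallyLE
  have hint1 : IntegrableOn (fun t => om g.h T t * F t) (Icc (-1) (T + 1)) :=
    ((up_om_cont g T).mul hFc).integrableOn_Icc
  have hint2 : IntegrableOn (fun t => e * F t) (Icc (-1) (T + 1)) :=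
    (continuous_const.mul hFc).integrableOn_Icc
  have hsplit : ∫ t in Icc (-1) (T + 1), G t =
      (∫ t in Icc (-1) (T + 1), om g.h T t * F t) + ∫ t in Icc (-1) (T + 1), e * F t := by
    rw [← integral_add hint1 hint2]
    congr 1
    funext t
    simp only [hG]
    ring
  have hfull : ∫ t in Icc (-1) (T + 1), om g.h T t * F t = ∫ t, om g.h T t * F t := by
    apply setIntegral_eq_integral_of_forall_compl_eq_zero
    intro t ht
    rw [up_om_zero g hT0 _, zero_mul]
    intro h
    exact ht ⟨by linarith [h.1], by linarith [h.2]⟩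
  have hvol : (volume : Measure ℝ).real (Icc (-1) (T + 1)) = T + 2 := by
    rw [Real.volume_real_Icc_of_le (by linarith)]
    ring
  have herr : ∫ t in Icc (-1) (T + 1), e * F t ≤ ε * T := by
    have h1 : ∫ t in Icc (-1) (T + 1), e * F t ≤
        ∫ t in Icc (-1) (T + 1), e * (20000 * T ^ ((998 : ℝ) / 1000)) := by
      apply setIntegral_mono_on hint2 continuous_const.integrableOn_Icc measurableSet_Icc
      intro t _
      exact mul_le_mul_of_nonneg_left (hFb t) he0
    rw [setIntegral_const, hvol, smul_eq_mul] at h1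
    refine le_trans h1 (le_trans ?_ hp)
    have h2 : (T + 2) / T ≤ 3 := by
      rw [div_le_iff₀ hT0]; linarith
    have h3 : (T + 2) * (e * (20000 * T ^ ((998 : ℝ) / 1000))) =
        ((T + 2) / T) * hw T * (20000 * K * T ^ ((998 : ℝ) / 1000)) := by
      rw [he]; field_simp
    rw [h3]
    have h4 : (T + 2) / T * hw T ≤ 3 * 1 :=
      mul_le_mul h2 hw1 hw0.le (by norm_num)
    have h5 : 0 ≤ 20000 * (K : ℝ) * T ^ ((998 : ℝ) / 1000) := by positivity
    have h6 := mul_le_mul_of_nonneg_right h4 h5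
    linarith
  calc _ ≤ _ := hle1
    _ = _ := hsplit
    _ ≤ _ := by rw [hfull]; linarith

end Pool.Agent.Helper4.SH
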