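import Pool.Agent.Helper4.SH.WSum

/-!
# SH-AR: arithmetic of the index set

Elements of `IH T` : `nu, de` are coprime, squarefree product, `nu·de ≤ T^0.499` (`y_p + y_q ≤ 0.499` means `log(pq) ≤ 0.499 log T`).
`IH_inj`: by cases; `1, p, pq` are told apart by the number of prime factors, `pq` (`p < q`) determines `(p, q)`.
`card`: `(p,q) ↦ pq` is injective on `S20` and on `S11` (there `q < p`), values `≤ T^0.499`; and `|cf| ≤ 16`, `|cl| ≤ 5` (`ww ≤ 1`,
`0 ≤ yy ≤ 0.499`).
-/

open MeasureTheory Set Filter Topology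
open Pool.Agent.Helper57.Zeta Pool.Agent.Helper57.PC Pool.Agent.Helper57.LH Pool.Agent.Helper78.SG
open scoped ContDiff

namespace Pool.Agent.Helper4.SH

theorem yy_nonneg' {T : ℝ} (hT : 1 < T) (n : ℕ) : 0 ≤ yy T n :=
  div_nonneg (Real.log_natCast_nonneg n) (Real.log_nonneg hT.le)

/-- `log x / log T ≤ a` gives `x ≤ T ^ a` -/
theorem le_rpow_of_log {T : ℝ} (hT : 1 < T) {x a : ℝ} (hx : 0 < x)
    (h : Real.log x / Real.log T ≤ a) : x ≤ T ^ a := by
  have hT0 : 0 < T := by linarith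
  have hl : 0 < Real.log T := Real.log_pos hT
  rw [div_le_iff₀ hl] at h
  rw [Real.rpow_def_of_pos hT0, mul_comm]
  calc x = Real.exp (Real.log x) := (Real.exp_log hx).symm
    _ ≤ _ := Real.exp_le_exp.2 h

theorem mul_le_rpow {T : ℝ} (hT : 1 < T) {p q : ℕ} (hp : p.Prime) (hq : q.Prime) {a : ℝ}
    (h : yy T p + yy T q ≤ a) : (p : ℝ) * q ≤ T ^ a := by
  have hp0 : (0 : ℝ) < p := by exact_mod_cast hp.pos
  have hq0 : (0 : ℝ) < q := by exact_mod_cast hq.pos
  refine le_rpow_of_log hT (by positivity) ?_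
  rw [Real.log_mul hp0.ne' hq0.ne', add_div]
  exact h

theorem WW_one (T : ℝ) : WW T 1 = 1 := by
  simp [WW]

theorem WW_le_one {T : ℝ} (hT : 1 < T) {n : ℕ} (h : ∀ p ∈ n.primeFactorsList, p ∈ PP T) :
    WW T n ≤ 1 := by
  unfold WW
  generalize n.primeFactorsList = l at h
  induction l with
  | nil => simp
  | cons a l ih =>
    rw [List.map_cons, List.prod_cons]
    have h1 : ww T a ≤ 1 := ww_le_one hT (h a List.mem_cons_self)
    have h2 := ih (fun p hp => h p (List.mem_cons_of_mem _ hp))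
    have h3 : 0 ≤ (l.map (ww T)).prod := by
      refine List.prod_nonneg fun x hx => ?_
      obtain ⟨p, -, rfl⟩ := List.mem_map.1 hx
      exact ww_nonneg T hT p
    have h4 := ww_nonneg T hT a
    nlinarith

/-- products of two ordered primes determine the primes -/
theorem prime_pair_inj {a b c d : ℕ} (ha : a.Prime) (_hb : b.Prime) (hc : c.Prime) (hd : d.Prime)
    (h1 : a < b) (h2 : c < d) (h : a * b = c * d) : a = c ∧ b = d := by
  have h3 : a ∣ c * d := h ▸ dvd_mul_right a b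
  rcases (Nat.Prime.dvd_mul ha).1 h3 with h4 | h4
  · have h5 : a = c := (Nat.prime_dvd_prime_iff_eq ha hc).1 h4
    subst h5
    exact ⟨rfl, Nat.eq_of_mul_eq_mul_left ha.pos h⟩
  · have h5 : a = d := (Nat.prime_dvd_prime_iff_eq ha hd).1 h4
    subst h5
    have h6 : b = c := by
      rw [mul_comm c a] at h
      exact Nat.eq_of_mul_eq_mul_left ha.pos h
    omega

theorem mem_S10 {T : ℝ} {p : ℕ} (h : p ∈ S10 T) : p ∈ PP T ∧ yy T p ≤ 499 / 1000 := by
  unfold S10 at h
  exact Finset.mem_filter.1 h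

theorem mem_S01 {T : ℝ} {p : ℕ} (h : p ∈ S01 T) : p ∈ PP T ∧ yy T p ≤ 333 / 1000 := by
  unfold S01 at h
  exact Finset.mem_filter.1 h

theorem mem_S20 {T : ℝ} {x : ℕ × ℕ} (h : x ∈ S20 T) :
    x.1 ∈ PP T ∧ x.2 ∈ PP T ∧ x.1 < x.2 ∧ yy T x.1 + yy T x.2 ≤ 499 / 1000 := by
  unfold S20 at h
  rw [Finset.mem_filter, Finset.mem_product] at h
  exact ⟨h.1.1, h.1.2, h.2.1, h.2.2⟩

theorem mem_S11 {T : ℝ} {x : ℕ × ℕ} (h : x ∈ S11 T) :
    x.1 ∈ PP T ∧ x.2 ∈ PP T ∧ x.2 < x.1 ∧ yy T x.1 + yy T x.2 ≤ 499 / 1000 := by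
  unfold S11 at h
  rw [Finset.mem_filter, Finset.mem_product] at h
  exact ⟨h.1.1, h.1.2, h.2.1, h.2.2⟩

theorem prime_of_mem_PP {T : ℝ} {p : ℕ} (h : p ∈ PP T) : p.Prime := by
  unfold PP at h
  exact (Finset.mem_filter.1 h).2

theorem pfl_mem_PP {T : ℝ} {p : ℕ} (h : p ∈ PP T) : ∀ q ∈ p.primeFactorsList, q ∈ PP T := by
  intro q hq
  rw [Nat.primeFactorsList_prime (prime_of_mem_PP h), List.mem_singleton] at hq
  rw [hq]
  exact h

theorem pfl_one_mem_PP {T : ℝ} : ∀ q ∈ (1 : ℕ).primeFactorsList, q ∈ PP T := by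
  intro q hq
  simp at hq

theorem one_le_rp {T : ℝ} (hT : 1 < T) {a : ℝ} (ha : 0 ≤ a) : 1 ≤ T ^ a :=
  Real.one_le_rpow hT.le ha

theorem IH_props {T : ℝ} (hT : 1 < T) : ∀ i ∈ IH T, nu i ≠ 0 ∧ de i ≠ 0 ∧
    (nu i).primeFactorsList.length + (de i).primeFactorsList.length ≤ 2 ∧
    (∀ p ∈ (nu i).primeFactorsList, p ∈ PP T) ∧ (∀ p ∈ (de i).primeFactorsList, p ∈ PP T) ∧
    |cf T i| ≤ 16 * (WW T (nu i) * WW T (de i)) ∧ (nu i : ℝ) * de i ≤ T ^ ((499 : ℝ) / 1000) ∧
    de i ≤ nu i ∧ Nat.Coprime (nu i) (de i) := by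
  intro i hi
  unfold IH at hi
  rcases i with u | p | x | x
  · refine ⟨one_ne_zero, one_ne_zero, by simp [nu, de], pfl_one_mem_PP, pfl_one_mem_PP, ?_, ?_,
      le_refl _, Nat.coprime_one_right _⟩
    · simp only [cf, nu, de, WW_one, abs_one]
      norm_num
    · simp only [nu, de, Nat.cast_one, mul_one]
      exact one_le_rp hT (by norm_num)
  · simp only [Finset.inr_mem_disjSum, Finset.inl_mem_disjSum] at hi
    obtain ⟨h1, h2⟩ := mem_S10 hi
    have hp := prime_of_mem_PP h1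
    refine ⟨hp.ne_zero, one_ne_zero, ?_, pfl_mem_PP h1, pfl_one_mem_PP, ?_, ?_, hp.one_lt.le,
      Nat.coprime_one_right _⟩
    · simp only [nu, de]
      rw [Nat.primeFactorsList_prime hp]
      simp
    · simp only [cf, nu, de, WW_one, WW_prime T hp, mul_one]
      have h3 := ww_nonneg T hT p
      have h4 := yy_nonneg' hT p
      rw [abs_neg, abs_mul, abs_of_nonneg h3]
      have h5 : |al (yy T p)| ≤ 16 := by
        unfold al
        rw [abs_le]
        constructor <;> linarith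
      nlinarith
    · simp only [nu, de, Nat.cast_one, mul_one]
      exact le_rpow_of_log hT (by exact_mod_cast hp.pos) h2
  · simp only [Finset.inr_mem_disjSum, Finset.inl_mem_disjSum] at hi
    obtain ⟨h1, h2, h3, h4⟩ := mem_S20 hi
    have hp := prime_of_mem_PP h1
    have hq := prime_of_mem_PP h2
    refine ⟨mul_ne_zero hp.ne_zero hq.ne_zero, one_ne_zero, ?_, ?_, pfl_one_mem_PP, ?_, ?_,
      Nat.mul_pos hp.pos hq.pos, Nat.coprime_one_right _⟩
    · simp only [nu, de]
      rw [(Nat.perm_primeFactorsList_mul hp.ne_zero hq.ne_zero).length_eq, List.length_append,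
        Nat.primeFactorsList_prime hp, Nat.primeFactorsList_prime hq]
      simp
    · simp only [nu]
      intro r hr
      rw [(Nat.perm_primeFactorsList_mul hp.ne_zero hq.ne_zero).mem_iff, List.mem_append] at hr
      rcases hr with hr | hr
      · exact pfl_mem_PP h1 r hr
      · exact pfl_mem_PP h2 r hr
    · simp only [cf, nu, de, WW_one, mul_one]
      rw [WW_mul T hp.ne_zero hq.ne_zero, WW_prime T hp, WW_prime T hq]
      have h5 := ww_nonneg T hT x.1
      have h6 := ww_nonneg T hT x.2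
      rw [abs_of_nonneg (by positivity)]
    · simp only [nu, de, Nat.cast_one, mul_one, Nat.cast_mul]
      exact mul_le_rpow hT hp hq h4
  · simp only [Finset.inr_mem_disjSum] at hi
    obtain ⟨h1, h2, h3, h4⟩ := mem_S11 hi
    have hp := prime_of_mem_PP h1
    have hq := prime_of_mem_PP h2
    refine ⟨hp.ne_zero, hq.ne_zero, ?_, pfl_mem_PP h1, pfl_mem_PP h2, ?_, ?_, h3.le, ?_⟩
    · simp only [nu, de]
      rw [Nat.primeFactorsList_prime hp, Nat.primeFactorsList_prime hq]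
      simp
    · simp only [cf, nu, de]
      rw [WW_prime T hp, WW_prime T hq]
      have h5 := ww_nonneg T hT x.1
      have h6 := ww_nonneg T hT x.2
      rw [abs_of_nonneg (by positivity)]
    · simp only [nu, de]
      exact mul_le_rpow hT hp hq h4
    · simp only [nu, de]
      exact (Nat.coprime_primes hp hq).2 h3.ne'

theorem IH_inj {T : ℝ} : ∀ i ∈ IH T, ∀ j ∈ IH T, nu i = nu j → de i = de j → i = j := by
  intro i hi j hj hn hd
  unfold IH at hi hj
  rcases i with u | p | x | x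
  · rcases j with v | q | y | y
    · rfl
    · simp only [Finset.inr_mem_disjSum, Finset.inl_mem_disjSum] at hj
      exact absurd hn.symm (prime_of_mem_PP (mem_S10 hj).1).ne_one
    · simp only [Finset.inr_mem_disjSum, Finset.inl_mem_disjSum] at hj
      obtain ⟨h1, h2, -, -⟩ := mem_S20 hj
      simp only [nu] at hn
      have := Nat.eq_one_of_mul_eq_one_right hn.symm
      exact absurd this (prime_of_mem_PP h1).ne_one
    · simp only [Finset.inr_mem_disjSum] at hj
      exact absurd hn.symm (prime_of_mem_PP (mem_S11 hj).1).ne_one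
  · simp only [Finset.inr_mem_disjSum, Finset.inl_mem_disjSum] at hi
    have hp := prime_of_mem_PP (mem_S10 hi).1
    rcases j with v | q | y | y
    · exact absurd hn hp.ne_one
    · simp only [nu] at hn
      rw [hn]
    · simp only [Finset.inr_mem_disjSum, Finset.inl_mem_disjSum] at hj
      obtain ⟨h1, h2, -, -⟩ := mem_S20 hj
      simp only [nu] at hn
      exact absurd (hn ▸ hp) (Nat.not_prime_mul (prime_of_mem_PP h1).ne_one
        (prime_of_mem_PP h2).ne_one)
    · simp only [Finset.inr_mem_disjSum] at hj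
      exact absurd hd.symm (prime_of_mem_PP (mem_S11 hj).2.1).ne_one
  · simp only [Finset.inr_mem_disjSum, Finset.inl_mem_disjSum] at hi
    obtain ⟨h1, h2, h3, -⟩ := mem_S20 hi
    rcases j with v | q | y | y
    · simp only [nu] at hn
      have := Nat.eq_one_of_mul_eq_one_right hn
      exact absurd this (prime_of_mem_PP h1).ne_one
    · simp only [Finset.inr_mem_disjSum, Finset.inl_mem_disjSum] at hj
      have hq := prime_of_mem_PP (mem_S10 hj).1
      simp only [nu] at hn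
      exact absurd (hn ▸ hq) (Nat.not_prime_mul (prime_of_mem_PP h1).ne_one
        (prime_of_mem_PP h2).ne_one)
    · simp only [Finset.inr_mem_disjSum, Finset.inl_mem_disjSum] at hj
      obtain ⟨k1, k2, k3, -⟩ := mem_S20 hj
      simp only [nu] at hn
      obtain ⟨e1, e2⟩ := prime_pair_inj (prime_of_mem_PP h1) (prime_of_mem_PP h2)
        (prime_of_mem_PP k1) (prime_of_mem_PP k2) h3 k3 hn
      rw [Prod.ext e1 e2]
    · simp only [Finset.inr_mem_disjSum] at hj
      exact absurd hd.symm (prime_of_mem_PP (mem_S11 hj).2.1).ne_one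
  · simp only [Finset.inr_mem_disjSum] at hi
    have hq := prime_of_mem_PP (mem_S11 hi).2.1
    rcases j with v | q | y | y
    · exact absurd hd hq.ne_one
    · exact absurd hd hq.ne_one
    · exact absurd hd hq.ne_one
    · simp only [nu, de] at hn hd
      rw [Prod.ext hn hd]

theorem S01_props {T : ℝ} (hT : 1 < T) : ∀ q ∈ S01 T, q.Prime ∧ q ∈ PP T ∧
    |cl T q| ≤ 16 * WW T q ∧ (q : ℝ) ≤ T ^ ((333 : ℝ) / 1000) := by
  intro q hq
  obtain ⟨h1, h2⟩ := mem_S01 hq
  have hp := prime_of_mem_PP h1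
  refine ⟨hp, h1, ?_, le_rpow_of_log hT (by exact_mod_cast hp.pos) h2⟩
  rw [WW_prime T hp]
  unfold cl
  have h3 := ww_nonneg T hT q
  have h4 := yy_nonneg' hT q
  rw [abs_neg, abs_mul, abs_of_nonneg h3]
  have h5 : |bl (yy T q)| ≤ 16 := by
    unfold bl
    rw [abs_le]
    constructor <;> linarith
  nlinarith

/-- a finset mapped injectively into `[1, x]` has at most `x` elements -/
theorem card_le_of_inj {α : Type*} (S : Finset α) (f : α → ℕ) {x : ℝ} (hx : 0 ≤ x)
    (h1 : ∀ a ∈ S, 1 ≤ f a ∧ (f a : ℝ) ≤ x) (h2 : ∀ a ∈ S, ∀ b ∈ S, f a = f b → a = b) :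
    (S.card : ℝ) ≤ x := by
  classical
  have h3 : S.card ≤ (Finset.Icc 1 ⌊x⌋₊).card := by
    refine Finset.card_le_card_of_injOn f ?_ ?_
    · intro a ha
      have := h1 a ha
      simp only [Finset.coe_Icc, Set.mem_Icc]
      exact ⟨this.1, Nat.le_floor this.2⟩
    · intro a ha b hb hab
      exact h2 a ha b hb hab
  rw [Nat.card_Icc, Nat.add_sub_cancel] at h3
  exact (Nat.cast_le.2 h3).trans (Nat.floor_le hx)

theorem IH_card {T : ℝ} (hT : 1 < T) : ((IH T).card : ℝ) ≤ 4 * T ^ ((499 : ℝ) / 1000) := by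
  have hX1 : 1 ≤ T ^ ((499 : ℝ) / 1000) := one_le_rp hT (by norm_num)
  set X := T ^ ((499 : ℝ) / 1000) with hX
  have hX0 : 0 ≤ X := by linarith
  have a1 : ((S10 T).card : ℝ) ≤ X := by
    refine card_le_of_inj (S10 T) (fun p => p) hX0 ?_ (fun a _ b _ h => h)
    intro a ha
    obtain ⟨h1, h2⟩ := mem_S10 ha
    have hp := prime_of_mem_PP h1
    exact ⟨hp.pos, le_rpow_of_log hT (by exact_mod_cast hp.pos) h2⟩
  have a2 : ((S20 T).card : ℝ) ≤ X := by
    refine card_le_of_inj (S20 T) (fun x => x.1 * x.2) hX0 ?_ ?_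
    · intro a ha
      obtain ⟨h1, h2, h3, h4⟩ := mem_S20 ha
      have hp := prime_of_mem_PP h1
      have hq := prime_of_mem_PP h2
      refine ⟨Nat.mul_pos hp.pos hq.pos, ?_⟩
      push_cast
      exact mul_le_rpow hT hp hq h4
    · intro a ha b hb hab
      obtain ⟨h1, h2, h3, -⟩ := mem_S20 ha
      obtain ⟨k1, k2, k3, -⟩ := mem_S20 hb
      obtain ⟨e1, e2⟩ := prime_pair_inj (prime_of_mem_PP h1) (prime_of_mem_PP h2)
        (prime_of_mem_PP k1) (prime_of_mem_PP k2) h3 k3 hab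
      exact Prod.ext e1 e2
  have a3 : ((S11 T).card : ℝ) ≤ X := by
    refine card_le_of_inj (S11 T) (fun x => x.2 * x.1) hX0 ?_ ?_
    · intro a ha
      obtain ⟨h1, h2, h3, h4⟩ := mem_S11 ha
      have hp := prime_of_mem_PP h1
      have hq := prime_of_mem_PP h2
      refine ⟨Nat.mul_pos hq.pos hp.pos, ?_⟩
      push_cast
      rw [mul_comm]
      exact mul_le_rpow hT hp hq h4
    · intro a ha b hb hab
      obtain ⟨h1, h2, h3, -⟩ := mem_S11 ha
      obtain ⟨k1, k2, k3, -⟩ := mem_S11 hb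
      obtain ⟨e1, e2⟩ := prime_pair_inj (prime_of_mem_PP h2) (prime_of_mem_PP h1)
        (prime_of_mem_PP k2) (prime_of_mem_PP k1) h3 k3 hab
      exact Prod.ext e2 e1
  unfold IH
  rw [Finset.card_disjSum, Finset.card_disjSum, Finset.card_disjSum]
  simp only [Finset.card_univ, Fintype.card_unit]
  push_cast
  linarith

theorem S01_card {T : ℝ} (hT : 1 < T) : ((S01 T).card : ℝ) ≤ T ^ ((333 : ℝ) / 1000) := by
  refine card_le_of_inj (S01 T) (fun p => p) (by positivity) ?_ (fun a _ b _ h => h)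
  intro a ha
  obtain ⟨h1, h2⟩ := mem_S01 ha
  have hp := prime_of_mem_PP h1
  exact ⟨hp.pos, le_rpow_of_log hT (by exact_mod_cast hp.pos) h2⟩

theorem sum_cf_le {T : ℝ} (hT : 1 < T) : ∑ i ∈ IH T, |cf T i| ≤ 64 * T ^ ((499 : ℝ) / 1000) := by
  have h1 : ∀ i ∈ IH T, |cf T i| ≤ 16 := by
    intro i hi
    obtain ⟨-, -, -, h4, h5, h6, -⟩ := IH_props hT i hi
    have h7 := WW_le_one hT h4
    have h8 := WW_le_one hT h5
    have h9 := WW_nonneg hT (nu i)
    have h10 := WW_nonneg hT (de i)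
    nlinarith
  have h2 := Finset.sum_le_card_nsmul (IH T) (fun i => |cf T i|) 16 h1
  have h3 := IH_card hT
  rw [nsmul_eq_mul] at h2
  linarith

theorem sum_cl_le {T : ℝ} (hT : 1 < T) : ∑ q ∈ S01 T, |cl T q| ≤ 64 * T ^ ((499 : ℝ) / 1000) := by
  have h1 : ∀ q ∈ S01 T, |cl T q| ≤ 16 := by
    intro q hq
    obtain ⟨h3, h4, h5, -⟩ := S01_props hT q hq
    have h7 := WW_le_one hT (pfl_mem_PP h4)
    linarith
  have h2 := Finset.sum_le_card_nsmul (S01 T) (fun q => |cl T q|) 16 h1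
  have h3 := S01_card hT
  rw [nsmul_eq_mul] at h2
  have h4 : T ^ ((333 : ℝ) / 1000) ≤ T ^ ((499 : ℝ) / 1000) :=
    Real.rpow_le_rpow_of_exponent_le hT.le (by norm_num)
  have h5 : 0 ≤ T ^ ((333 : ℝ) / 1000) := by positivity
  linarith

end Pool.Agent.Helper4.SH
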