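import Pool.Agent.Helper78.SG.Defs

/-!
# SH: unconditional small gaps with constant `0.68` (MP_8958e8). Definitions.
See the README /team-store/h4_SH_README.md. Everything is built on the SG library (helper78) and the M library (helper57).

`L = log T`, `y_n = log n/L`, `w_n = log n/(L √n)`. The weight is `|M|² = F1 + F2`, `M = M_H + M_L`,
`M_H = 1 - ∑_{y_p ≤ .499} w_p al(y_p) p^(-it) + 16 ∑_{p<q, y_p+y_q ≤ .499} w_p w_q (pq)^(-it) + 16 ∑_{q<p, y_p+y_q ≤ .499} w_p w_q (p/q)^(-it)`,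
`M_L = - ∑_{y_p ≤ .333} w_p bl(y_p) p^(it)`.
-/

open MeasureTheory Set Filter Topology
open Pool.Agent.Helper57.Zeta Pool.Agent.Helper57.PC Pool.Agent.Helper57.LH Pool.Agent.Helper78.SG
open scoped ContDiff

namespace Pool.Agent.Helper4.SH

/-! ### Scaled sums over zeros, scale `s ∈ [1, 2]` -/

/-- the sum over all zeros, as evaluated by the explicit formula, scale `s` -/
noncomputable def Xs (h : ℝ → ℝ) (s T t : ℝ) : ℝ := s * Xf h (s * Real.log T) t

/-- the contribution of the zero `ρ` -/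
noncomputable def kzs (h : ℝ → ℝ) (s T t : ℝ) (ρ : ℂ) : ℝ := s * kz h (s * Real.log T) t ρ

/-- the kernel on the critical line at distance `u` -/
noncomputable def krs (h : ℝ → ℝ) (s T u : ℝ) : ℝ := s * ker h 0 (s * Real.log T * u)

/-- the prime sum -/
noncomputable def pss (h : ℝ → ℝ) (s T t : ℝ) : ℝ := s * prs h (s * Real.log T) t

/-- Close zeros at height `T`: multiple, or another zero within `0.68` mean spacings. -/
def CloseB (T : ℝ) (ρ : ZS) : Prop :=
  2 ≤ analyticOrderNatAt xi (ρ : ℂ) ∨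
    ∃ ρ' : ZS, ρ' ≠ ρ ∧ |(ρ : ℂ).im - (ρ' : ℂ).im| * Real.log T / (2 * Real.pi) ≤ 68 / 100

/-! ### The weight -/

/-- primes up to `T` -/
noncomputable def PP (T : ℝ) : Finset ℕ := (Finset.range (⌊T⌋₊ + 1)).filter Nat.Prime

/-- `log n/log T` -/
noncomputable def yy (T : ℝ) (n : ℕ) : ℝ := Real.log n / Real.log T

/-- `log n/(log T √n)` -/
noncomputable def ww (T : ℝ) (n : ℕ) : ℝ := Real.log n / (Real.log T * Real.sqrt n)

/-- coefficient functions -/
def al (y : ℝ) : ℝ := 6 - 9 * y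
/-- coefficient functions -/
def bl (y : ℝ) : ℝ := 5 - 10 * y

/-- primes with `y_p ≤ 0.499` -/
noncomputable def S10 (T : ℝ) : Finset ℕ := (PP T).filter (fun p => yy T p ≤ 499 / 1000)
/-- primes with `y_p ≤ 0.333` -/
noncomputable def S01 (T : ℝ) : Finset ℕ := (PP T).filter (fun p => yy T p ≤ 333 / 1000)
/-- pairs `p < q` with `y_p + y_q ≤ 0.499`, standing for `pq` -/
noncomputable def S20 (T : ℝ) : Finset (ℕ × ℕ) :=
  ((PP T) ×ˢ (PP T)).filter (fun x => x.1 < x.2 ∧ yy T x.1 + yy T x.2 ≤ 499 / 1000)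
/-- pairs `(p, q)`, `q < p`, with `y_p + y_q ≤ 0.499`, standing for `p/q` -/
noncomputable def S11 (T : ℝ) : Finset (ℕ × ℕ) :=
  ((PP T) ×ˢ (PP T)).filter (fun x => x.2 < x.1 ∧ yy T x.1 + yy T x.2 ≤ 499 / 1000)

/-- index type of `M_H`: `1`, `p`, `pq`, `p/q` -/
abbrev Ix : Type := Unit ⊕ (ℕ ⊕ ((ℕ × ℕ) ⊕ (ℕ × ℕ)))

/-- numerator -/
def nu : Ix → ℕ
  | .inl _ => 1
  | .inr (.inl p) => p
  | .inr (.inr (.inl x)) => x.1 * x.2
  | .inr (.inr (.inr x)) => x.1

/-- denominator -/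
def de : Ix → ℕ
  | .inl _ => 1
  | .inr (.inl _) => 1
  | .inr (.inr (.inl _)) => 1
  | .inr (.inr (.inr x)) => x.2

/-- coefficient -/
noncomputable def cf (T : ℝ) : Ix → ℝ
  | .inl _ => 1
  | .inr (.inl p) => -(ww T p * al (yy T p))
  | .inr (.inr (.inl x)) => 16 * (ww T x.1 * ww T x.2)
  | .inr (.inr (.inr x)) => 16 * (ww T x.1 * ww T x.2)

/-- coefficient of `M_L` -/
noncomputable def cl (T : ℝ) (p : ℕ) : ℝ := -(ww T p * bl (yy T p))

/-- the index set of `M_H` -/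
noncomputable def IH (T : ℝ) : Finset Ix :=
  Finset.disjSum (Finset.univ : Finset Unit) (Finset.disjSum (S10 T) (Finset.disjSum (S20 T) (S11 T)))

/-- frequency: `log nu - log de` -/
noncomputable def ph (i : Ix) : ℝ := Real.log (nu i) - Real.log (de i)

/-- `|M_H|²` -/
noncomputable def HH (T t : ℝ) : ℝ :=
  ∑ i ∈ IH T, ∑ j ∈ IH T, cf T i * cf T j * Real.cos (t * (ph i - ph j))

/-- `|M_L|²` -/
noncomputable def BB (T t : ℝ) : ℝ :=
  ∑ p ∈ S01 T, ∑ q ∈ S01 T, cl T p * cl T q * Real.cos (t * (Real.log p - Real.log q))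

/-- `2 Re M_H conj(M_L)` -/
noncomputable def F2 (T t : ℝ) : ℝ :=
  2 * ∑ i ∈ IH T, ∑ q ∈ S01 T, cf T i * cl T q * Real.cos (t * (ph i + Real.log q))

/-- `|M_H|² + |M_L|²` -/
noncomputable def F1 (T t : ℝ) : ℝ := HH T t + BB T t

/-- the mean value of `|M|²` -/
noncomputable def AT (T : ℝ) : ℝ := (∑ i ∈ IH T, cf T i ^ 2) + ∑ q ∈ S01 T, cl T q ^ 2

/-- the Fourier transform of the window: `sin(0.68 π y)/(π y)` -/
noncomputable def SB (y : ℝ) : ℝ := 68 / 100 * Real.sinc (Real.pi * (68 / 100) * y)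

/-- minus the mean value of `F1` times the prime sum -/
noncomputable def B1T (T : ℝ) : ℝ :=
  2 * ((∑ p ∈ S10 T, ww T p ^ 2 * (SB (yy T p) * al (yy T p)))
    + 16 * (∑ x ∈ ((PP T) ×ˢ (PP T)).filter (fun x => x.1 ≠ x.2 ∧ yy T x.1 + yy T x.2 ≤ 499 / 1000),
        ww T x.1 ^ 2 * ww T x.2 ^ 2 * (SB (yy T x.2) * al (yy T x.1)))
    + 16 * (∑ x ∈ S11 T, ww T x.1 ^ 2 * ww T x.2 ^ 2 * (SB (yy T x.2) * al (yy T x.1))))

/-- minus the mean value of `F2` times the prime sum -/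
noncomputable def B2T (T : ℝ) : ℝ :=
  2 * ((∑ p ∈ S01 T, ww T p ^ 2 * (SB (yy T p) * bl (yy T p)))
    + 16 * (∑ x ∈ S11 T, ww T x.1 ^ 2 * ww T x.2 ^ 2 * (SB (yy T x.1) * bl (yy T x.2))))

/-- smooth weight at height `T` -/
noncomputable def om (g : ℝ → ℝ) (T t : ℝ) : ℝ := g (t / T - 1 / 2)

/-- the prime part of the prime sum, scale `s` -/
noncomputable def prp (h : ℝ → ℝ) (s T t : ℝ) : ℝ :=
  ∑ p ∈ PP T, 2 * ww T p * h (yy T p / s) * Real.cos (Real.log p * t)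

/-- completely multiplicative extension of `ww T` from the primes -/
noncomputable def WW (T : ℝ) (n : ℕ) : ℝ := (n.primeFactorsList.map (ww T)).prod

/-- half the window: `0.34` mean spacings -/
noncomputable def hw (T : ℝ) : ℝ := Real.pi * (68 / 100) / Real.log T

open Classical in
/-- the zeros of `[0, T]` that are not close -/
noncomputable def IZ (T : ℝ) : Finset ZS := (ZT T).filter (fun ρ => ¬ CloseB T ρ)

open Classical in
/-- the close zeros of `[0, T]` -/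
noncomputable def CZ (T : ℝ) : Finset ZS := (ZT T).filter (CloseB T)

/-- the sum over the zeros that are not close -/
noncomputable def Zs (h : ℝ → ℝ) (s T t : ℝ) : ℝ := ∑ ρ ∈ IZ T, krs h s T (t - (ρ : ℂ).im)

/-- the contribution of the close zeros -/
noncomputable def Gs (h : ℝ → ℝ) (s T t : ℝ) : ℝ := ∑ ρ ∈ CZ T, mx ρ * |kzs h s T t ρ|

/-- lower bound of `SB` -/
noncomputable def SBl (y : ℝ) : ℝ := 68 / 100 - 52 / 100 * y ^ 2

end Pool.Agent.Helper4.SH
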