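import Pool.Agent.Helper4.SH.Arith

/-!
# SH-DA: arithmetic of the diagonal, first kernel

`nu i * de j = de i * nu j * p` means `nu i/de i = p · nu j/de j` in lowest terms. Solutions (`i`, `j` in `IH T`, `p` a prime of `PP T`):
`j = 1, i = p`; `j = q, i = pq` (`q ≠ p`, ordered or not; present iff `y_p + y_q ≤ 0.499`, and then `y_p, y_q ≤ 0.499`);
`j = r/q` (`q < r`), `p = q`, `i = r`. Nothing else: `j = qr`; `j = q, i = 1`; etc. give different numbers of prime factors in numerator and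
denominator. `φ` is an arbitrary function. (`Finset.sum_disjSum` splits the sums over `IH T`.)
-/

open MeasureTheory Set Filter Topology
open Pool.Agent.Helper57.Zeta Pool.Agent.Helper57.PC Pool.Agent.Helper57.LH Pool.Agent.Helper78.SG
open scoped ContDiff

namespace Pool.Agent.Helper4.SH

private theorem da_prime_of_PP {T : ℝ} {p : ℕ} (hp : p ∈ PP T) : p.Prime :=
  (Finset.mem_filter.1 hp).2

private theorem da_yy_nonneg {T : ℝ} (hT : 1 < T) {p : ℕ} (hp : p ∈ PP T) : 0 ≤ yy T p := by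
  unfold yy
  have h1 := (da_prime_of_PP hp).one_lt
  have h2 : (1 : ℝ) ≤ (p : ℝ) := by exact_mod_cast h1.le
  exact div_nonneg (Real.log_nonneg h2) (Real.log_pos hT).le

private theorem da_S20 {T : ℝ} (hT : 1 < T) {x : ℕ × ℕ} (hx : x ∈ S20 T) :
    x.1 ∈ PP T ∧ x.2 ∈ PP T ∧ x.1 < x.2 ∧ x.1 ∈ S10 T ∧ x.2 ∈ S10 T := by
  obtain ⟨h1, h2, h3⟩ := Finset.mem_filter.1 hx
  obtain ⟨ha, hb⟩ := Finset.mem_product.1 h1
  have na := da_yy_nonneg hT ha
  have nb := da_yy_nonneg hT hb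
  exact ⟨ha, hb, h2, Finset.mem_filter.2 ⟨ha, by linarith⟩, Finset.mem_filter.2 ⟨hb, by linarith⟩⟩

private theorem da_S11 {T : ℝ} (hT : 1 < T) {x : ℕ × ℕ} (hx : x ∈ S11 T) :
    x.1 ∈ PP T ∧ x.2 ∈ PP T ∧ x.2 < x.1 ∧ x.1 ∈ S10 T := by
  obtain ⟨h1, h2, h3⟩ := Finset.mem_filter.1 hx
  obtain ⟨ha, hb⟩ := Finset.mem_product.1 h1
  have na := da_yy_nonneg hT ha
  have nb := da_yy_nonneg hT hb
  exact ⟨ha, hb, h2, Finset.mem_filter.2 ⟨ha, by linarith⟩⟩

/-- number of prime factors, for short -/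
private abbrev Om (n : ℕ) : ℕ := ArithmeticFunction.cardFactors n

private theorem Om_prime {p : ℕ} (hp : p.Prime) : Om p = 1 :=
  ArithmeticFunction.cardFactors_apply_prime hp

private theorem Om_mul {a b : ℕ} (ha : a ≠ 0) (hb : b ≠ 0) : Om (a * b) = Om a + Om b :=
  ArithmeticFunction.cardFactors_mul ha hb

private theorem Om_one : Om 1 = 0 := ArithmeticFunction.cardFactors_one

/-- numbers of prime factors -/
private def wn : Ix → ℕ
  | .inl _ => 0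
  | .inr (.inl _) => 1
  | .inr (.inr (.inl _)) => 2
  | .inr (.inr (.inr _)) => 1

private def wd : Ix → ℕ
  | .inl _ => 0
  | .inr (.inl _) => 0
  | .inr (.inr (.inl _)) => 0
  | .inr (.inr (.inr _)) => 1

private theorem da_Om {T : ℝ} (hT : 1 < T) {i : Ix} (hi : i ∈ IH T) :
    nu i ≠ 0 ∧ de i ≠ 0 ∧ Om (nu i) = wn i ∧ Om (de i) = wd i := by
  rcases i with u | p | x | x
  · exact ⟨one_ne_zero, one_ne_zero, Om_one, Om_one⟩
  · have hp : p ∈ S10 T := by simpa [IH] using hi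
    have hpp := da_prime_of_PP (Finset.mem_filter.1 hp).1
    exact ⟨hpp.ne_zero, one_ne_zero, Om_prime hpp, Om_one⟩
  · have hx : x ∈ S20 T := by simpa [IH] using hi
    obtain ⟨ha, hb, -⟩ := da_S20 hT hx
    have pa := da_prime_of_PP ha
    have pb := da_prime_of_PP hb
    refine ⟨mul_ne_zero pa.ne_zero pb.ne_zero, one_ne_zero, ?_, Om_one⟩
    change Om (x.1 * x.2) = 2
    rw [Om_mul pa.ne_zero pb.ne_zero, Om_prime pa, Om_prime pb]
  · have hx : x ∈ S11 T := by simpa [IH] using hi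
    obtain ⟨ha, hb, -⟩ := da_S11 hT hx
    have pa := da_prime_of_PP ha
    have pb := da_prime_of_PP hb
    exact ⟨pa.ne_zero, pb.ne_zero, Om_prime pa, Om_prime pb⟩

private theorem da_weight {T : ℝ} (hT : 1 < T) {i j : Ix} (hi : i ∈ IH T) (hj : j ∈ IH T) {p : ℕ}
    (hp : p ∈ PP T) (h : nu i * de j = de i * nu j * p) : wn i + wd j = wd i + wn j + 1 := by
  obtain ⟨h1, h2, h3, h4⟩ := da_Om hT hi
  obtain ⟨k1, k2, k3, k4⟩ := da_Om hT hj
  have hpp := da_prime_of_PP hp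
  have e := congrArg Om h
  rw [Om_mul h1 k2, Om_mul (mul_ne_zero h2 k1) hpp.ne_zero, Om_mul h2 k1, Om_prime hpp, h3, h4, k3,
    k4] at e
  exact e

open Classical in
/-- the inner sum -/
private noncomputable def dA (T : ℝ) (φ : ℕ → ℝ) (i j : Ix) : ℝ :=
  ∑ p ∈ PP T, cf T i * cf T j * φ p * (if nu i * de j = de i * nu j * p then (1 : ℝ) else 0)

private theorem dA_zero {T : ℝ} (hT : 1 < T) (φ : ℕ → ℝ) {i j : Ix} (hi : i ∈ IH T) (hj : j ∈ IH T)
    (h : wn i + wd j ≠ wd i + wn j + 1) : dA T φ i j = 0 := by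
  refine Finset.sum_eq_zero fun p hp => ?_
  rw [if_neg (fun e => h (da_weight hT hi hj hp e)), mul_zero]

private theorem mem_IH1 {T : ℝ} {u : Unit} : (Sum.inl u : Ix) ∈ IH T := by simp [IH]
private theorem mem_IHP {T : ℝ} {p : ℕ} : (Sum.inr (Sum.inl p) : Ix) ∈ IH T ↔ p ∈ S10 T := by
  simp [IH]
private theorem mem_IHD {T : ℝ} {x : ℕ × ℕ} :
    (Sum.inr (Sum.inr (Sum.inl x)) : Ix) ∈ IH T ↔ x ∈ S20 T := by
  simp [IH]
private theorem mem_IHR {T : ℝ} {x : ℕ × ℕ} :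
    (Sum.inr (Sum.inr (Sum.inr x)) : Ix) ∈ IH T ↔ x ∈ S11 T := by
  simp [IH]

private theorem sum_IH {T : ℝ} (f : Ix → ℝ) : ∑ i ∈ IH T, f i =
    f (Sum.inl ()) + ((∑ p ∈ S10 T, f (Sum.inr (Sum.inl p))) +
      ((∑ x ∈ S20 T, f (Sum.inr (Sum.inr (Sum.inl x)))) +
        ∑ x ∈ S11 T, f (Sum.inr (Sum.inr (Sum.inr x))))) := by
  unfold IH
  rw [Finset.sum_disjSum, Finset.sum_disjSum, Finset.sum_disjSum]
  simp

private theorem dA_P1 {T : ℝ} (φ : ℕ → ℝ) {a : ℕ} (ha : a ∈ S10 T) :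
    dA T φ (Sum.inr (Sum.inl a)) (Sum.inl ()) = -(ww T a * al (yy T a) * φ a) := by
  unfold dA
  have haP : a ∈ PP T := (Finset.mem_filter.1 ha).1
  rw [Finset.sum_eq_single a]
  · have h : nu (Sum.inr (Sum.inl a)) * de (Sum.inl ()) =
        de (Sum.inr (Sum.inl a)) * nu (Sum.inl ()) * a := by
      change a * 1 = 1 * 1 * a
      ring
    rw [if_pos h]
    change -(ww T a * al (yy T a)) * 1 * φ a * 1 = _
    ring
  · intro b _ hb
    have h : ¬ nu (Sum.inr (Sum.inl a)) * de (Sum.inl ()) =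
        de (Sum.inr (Sum.inl a)) * nu (Sum.inl ()) * b := by
      intro h
      have h' : a * 1 = 1 * 1 * b := h
      apply hb
      omega
    rw [if_neg h, mul_zero]
  · intro h
    exact absurd haP h

private theorem dA_PR {T : ℝ} (hT : 1 < T) (φ : ℕ → ℝ) {x : ℕ × ℕ} (hx : x ∈ S11 T) :
    ∑ a ∈ S10 T, dA T φ (Sum.inr (Sum.inl a)) (Sum.inr (Sum.inr (Sum.inr x))) =
      -(16 * (ww T x.1 ^ 2 * ww T x.2 * al (yy T x.1) * φ x.2)) := by
  obtain ⟨h1, h2, h3, h4⟩ := da_S11 hT hx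
  have p1 := da_prime_of_PP h1
  have p2 := da_prime_of_PP h2
  have key : ∀ a ∈ S10 T, ∀ p ∈ PP T, nu (Sum.inr (Sum.inl a)) *
      de (Sum.inr (Sum.inr (Sum.inr x))) = de (Sum.inr (Sum.inl a)) *
      nu (Sum.inr (Sum.inr (Sum.inr x))) * p → a = x.1 ∧ p = x.2 := by
    intro a ha p hp h
    have h' : a * x.2 = 1 * x.1 * p := h
    have pa := da_prime_of_PP (Finset.mem_filter.1 ha).1
    rw [one_mul] at h'
    have hd : x.1 ∣ a * x.2 := ⟨p, h'⟩
    rcases (Nat.Prime.dvd_mul p1).1 hd with hd | hd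
    · have ha1 : x.1 = a := (Nat.prime_dvd_prime_iff_eq p1 pa).1 hd
      rw [← ha1] at h'
      exact ⟨ha1.symm, (Nat.eq_of_mul_eq_mul_left p1.pos h').symm⟩
    · have h12 : x.1 = x.2 := (Nat.prime_dvd_prime_iff_eq p1 p2).1 hd
      omega
  rw [Finset.sum_eq_single x.1]
  · unfold dA
    rw [Finset.sum_eq_single x.2]
    · have h : nu (Sum.inr (Sum.inl x.1)) * de (Sum.inr (Sum.inr (Sum.inr x))) =
          de (Sum.inr (Sum.inl x.1)) * nu (Sum.inr (Sum.inr (Sum.inr x))) * x.2 := by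
        change x.1 * x.2 = 1 * x.1 * x.2
        ring
      rw [if_pos h]
      change -(ww T x.1 * al (yy T x.1)) * (16 * (ww T x.1 * ww T x.2)) * φ x.2 * 1 = _
      ring
    · intro p hp hpn
      rw [if_neg (fun h => hpn (key x.1 h4 p hp h).2), mul_zero]
    · intro h
      exact absurd h2 h
  · intro a ha han
    unfold dA
    refine Finset.sum_eq_zero fun p hp => ?_
    rw [if_neg (fun h => han (key a ha p hp h).1), mul_zero]
  · intro h
    exact absurd h4 h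

private theorem dA_DP {T : ℝ} (hT : 1 < T) (φ : ℕ → ℝ) {x : ℕ × ℕ} (hx : x ∈ S20 T) :
    ∑ q ∈ S10 T, dA T φ (Sum.inr (Sum.inr (Sum.inl x))) (Sum.inr (Sum.inl q)) =
      -(16 * (ww T x.1 ^ 2 * ww T x.2 * al (yy T x.1) * φ x.2)) +
      -(16 * (ww T x.2 ^ 2 * ww T x.1 * al (yy T x.2) * φ x.1)) := by
  obtain ⟨h1, h2, h3, h4, h5⟩ := da_S20 hT hx
  have p1 := da_prime_of_PP h1
  have p2 := da_prime_of_PP h2
  have key : ∀ q ∈ S10 T, ∀ p ∈ PP T, nu (Sum.inr (Sum.inr (Sum.inl x))) *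
      de (Sum.inr (Sum.inl q)) = de (Sum.inr (Sum.inr (Sum.inl x))) *
      nu (Sum.inr (Sum.inl q)) * p → (q = x.1 ∧ p = x.2) ∨ (q = x.2 ∧ p = x.1) := by
    intro q hq p hp h
    have h' : x.1 * x.2 * 1 = 1 * q * p := h
    have pq := da_prime_of_PP (Finset.mem_filter.1 hq).1
    rw [one_mul, mul_one] at h'
    have hd : q ∣ x.1 * x.2 := ⟨p, h'⟩
    rcases (Nat.Prime.dvd_mul pq).1 hd with hd | hd
    · have hq1 : q = x.1 := (Nat.prime_dvd_prime_iff_eq pq p1).1 hd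
      rw [hq1] at h'
      exact Or.inl ⟨hq1, (Nat.eq_of_mul_eq_mul_left p1.pos h').symm⟩
    · have hq2 : q = x.2 := (Nat.prime_dvd_prime_iff_eq pq p2).1 hd
      rw [hq2, mul_comm] at h'
      exact Or.inr ⟨hq2, (Nat.eq_of_mul_eq_mul_left p2.pos h').symm⟩
  have hne : x.1 ≠ x.2 := h3.ne
  have hval : ∀ q p : ℕ, q ∈ S10 T → p ∈ PP T → ((q = x.1 ∧ p = x.2) ∨ (q = x.2 ∧ p = x.1)) →
      dA T φ (Sum.inr (Sum.inr (Sum.inl x))) (Sum.inr (Sum.inl q)) =
        -(16 * (ww T q ^ 2 * ww T p * al (yy T q) * φ p)) := by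
    intro q p hq hp hqp
    unfold dA
    rw [Finset.sum_eq_single p]
    · have h : nu (Sum.inr (Sum.inr (Sum.inl x))) * de (Sum.inr (Sum.inl q)) =
          de (Sum.inr (Sum.inr (Sum.inl x))) * nu (Sum.inr (Sum.inl q)) * p := by
        change x.1 * x.2 * 1 = 1 * q * p
        rcases hqp with ⟨rfl, rfl⟩ | ⟨rfl, rfl⟩ <;> ring
      rw [if_pos h]
      change 16 * (ww T x.1 * ww T x.2) * (-(ww T q * al (yy T q))) * φ p * 1 = _
      rcases hqp with ⟨rfl, rfl⟩ | ⟨rfl, rfl⟩ <;> ring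
    · intro p' hp' hpn
      refine (congrArg _ (if_neg fun h => hpn ?_)).trans (mul_zero _)
      rcases key q hq p' hp' h with ⟨a1, a2⟩ | ⟨a1, a2⟩ <;> rcases hqp with ⟨b1, b2⟩ | ⟨b1, b2⟩
      · rw [a2, b2]
      · exact absurd (a1.symm.trans b1) hne
      · exact absurd (b1.symm.trans a1) hne
      · rw [a2, b2]
    · intro h
      exact absurd hp h
  have hsub : ({x.1, x.2} : Finset ℕ) ⊆ S10 T := by
    intro q hq
    rcases Finset.mem_insert.1 hq with rfl | hq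
    · exact h4
    · rw [Finset.mem_singleton.1 hq]
      exact h5
  rw [← Finset.sum_subset hsub]
  · rw [Finset.sum_pair hne, hval x.1 x.2 h4 h2 (Or.inl ⟨rfl, rfl⟩),
      hval x.2 x.1 h5 h1 (Or.inr ⟨rfl, rfl⟩)]
  · intro q hq hqn
    unfold dA
    refine Finset.sum_eq_zero fun p hp => ?_
    refine (congrArg _ (if_neg fun h => hqn ?_)).trans (mul_zero _)
    rcases key q hq p hp h with ⟨a1, -⟩ | ⟨a1, -⟩
    · rw [a1]
      exact Finset.mem_insert_self _ _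
    · rw [a1]
      exact Finset.mem_insert_of_mem (Finset.mem_singleton_self _)

/-- the pairs `x.1 ≠ x.2` -/
private theorem da_split {T : ℝ} (t : ℕ → ℕ → ℝ) :
    ∑ x ∈ ((PP T) ×ˢ (PP T)).filter (fun x => x.1 ≠ x.2 ∧ yy T x.1 + yy T x.2 ≤ 499 / 1000),
      t x.1 x.2 = (∑ x ∈ S20 T, t x.1 x.2) + ∑ x ∈ S20 T, t x.2 x.1 := by
  have hsw : ∑ x ∈ S20 T, t x.2 x.1 =
      ∑ x ∈ ((PP T) ×ˢ (PP T)).filter (fun x => x.2 < x.1 ∧ yy T x.1 + yy T x.2 ≤ 499 / 1000),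
        t x.1 x.2 := by
    refine Finset.sum_nbij' (fun x => (x.2, x.1)) (fun x => (x.2, x.1)) ?_ ?_ ?_ ?_ ?_
    · intro x hx
      obtain ⟨h1, h2, h3⟩ := Finset.mem_filter.1 hx
      obtain ⟨ha, hb⟩ := Finset.mem_product.1 h1
      refine Finset.mem_filter.2 ⟨Finset.mem_product.2 ⟨hb, ha⟩, h2, ?_⟩
      rw [add_comm]
      exact h3
    · intro x hx
      obtain ⟨h1, h2, h3⟩ := Finset.mem_filter.1 hx
      obtain ⟨ha, hb⟩ := Finset.mem_product.1 h1
      refine Finset.mem_filter.2 ⟨Finset.mem_product.2 ⟨hb, ha⟩, h2, ?_⟩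
      rw [add_comm]
      exact h3
    · intro x _
      rfl
    · intro x _
      rfl
    · intro x _
      rfl
  rw [hsw]
  unfold S20
  rw [← Finset.sum_union]
  · refine Finset.sum_congr ?_ fun _ _ => rfl
    ext x
    simp only [Finset.mem_union, Finset.mem_filter]
    constructor
    · rintro ⟨h1, h2, h3⟩
      rcases lt_or_gt_of_ne h2 with h | h
      · exact Or.inl ⟨h1, h, h3⟩
      · exact Or.inr ⟨h1, h, h3⟩
    · rintro (⟨h1, h2, h3⟩ | ⟨h1, h2, h3⟩)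
      · exact ⟨h1, h2.ne, h3⟩
      · exact ⟨h1, h2.ne', h3⟩
  · rw [Finset.disjoint_left]
    intro x hx hx'
    have h1 := (Finset.mem_filter.1 hx).2.1
    have h2 := (Finset.mem_filter.1 hx').2.1
    exact absurd (h1.trans h2) (lt_irrefl _)

open Classical in
theorem diag3 {T : ℝ} (hT : 1 < T) (φ : ℕ → ℝ) :
    ∑ i ∈ IH T, ∑ j ∈ IH T, ∑ p ∈ PP T,
      cf T i * cf T j * φ p * (if nu i * de j = de i * nu j * p then (1 : ℝ) else 0) =
    -((∑ p ∈ S10 T, ww T p * al (yy T p) * φ p)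
      + 16 * (∑ x ∈ ((PP T) ×ˢ (PP T)).filter (fun x => x.1 ≠ x.2 ∧ yy T x.1 + yy T x.2 ≤ 499 / 1000),
          ww T x.1 ^ 2 * ww T x.2 * al (yy T x.1) * φ x.2)
      + 16 * (∑ x ∈ S11 T, ww T x.1 ^ 2 * ww T x.2 * al (yy T x.1) * φ x.2)) := by
  change ∑ i ∈ IH T, ∑ j ∈ IH T, dA T φ i j = _
  have e1 : ∑ j ∈ IH T, dA T φ (Sum.inl ()) j = 0 := by
    refine Finset.sum_eq_zero fun j hj => dA_zero hT φ mem_IH1 hj ?_
    rcases j with u | p | x | x <;> simp [wn, wd]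
  have e2 : ∀ a ∈ S10 T, ∑ j ∈ IH T, dA T φ (Sum.inr (Sum.inl a)) j =
      -(ww T a * al (yy T a) * φ a) +
        ∑ x ∈ S11 T, dA T φ (Sum.inr (Sum.inl a)) (Sum.inr (Sum.inr (Sum.inr x))) := by
    intro a ha
    have hi := mem_IHP.2 ha
    rw [sum_IH, dA_P1 φ ha]
    rw [Finset.sum_eq_zero (s := S10 T) fun q hq => dA_zero hT φ hi (mem_IHP.2 hq) (by simp [wn, wd])]
    rw [Finset.sum_eq_zero (s := S20 T) fun x hx => dA_zero hT φ hi (mem_IHD.2 hx) (by simp [wn, wd])]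
    ring
  have e3 : ∀ x ∈ S20 T, ∑ j ∈ IH T, dA T φ (Sum.inr (Sum.inr (Sum.inl x))) j =
      -(16 * (ww T x.1 ^ 2 * ww T x.2 * al (yy T x.1) * φ x.2)) +
      -(16 * (ww T x.2 ^ 2 * ww T x.1 * al (yy T x.2) * φ x.1)) := by
    intro x hx
    have hi := mem_IHD.2 hx
    rw [sum_IH, dA_DP hT φ hx]
    rw [dA_zero hT φ hi mem_IH1 (by simp [wn, wd])]
    rw [Finset.sum_eq_zero (s := S20 T) fun y hy => dA_zero hT φ hi (mem_IHD.2 hy) (by simp [wn, wd])]
    rw [Finset.sum_eq_zero (s := S11 T) fun y hy => dA_zero hT φ hi (mem_IHR.2 hy) (by simp [wn, wd])]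
    ring
  have e4 : ∀ x ∈ S11 T, ∑ j ∈ IH T, dA T φ (Sum.inr (Sum.inr (Sum.inr x))) j = 0 := by
    intro x hx
    refine Finset.sum_eq_zero fun j hj => dA_zero hT φ (mem_IHR.2 hx) hj ?_
    rcases j with u | p | y | y <;> simp [wn, wd]
  rw [sum_IH, e1, Finset.sum_congr rfl e2, Finset.sum_congr rfl e3, Finset.sum_congr rfl e4,
    Finset.sum_add_distrib, Finset.sum_comm, Finset.sum_congr rfl fun x hx => dA_PR hT φ hx,
    da_split (T := T) (fun u v => ww T u ^ 2 * ww T v * al (yy T u) * φ v)]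
  rw [Finset.sum_add_distrib, Finset.sum_const_zero]
  simp only [Finset.sum_neg_distrib, ← Finset.mul_sum]
  ring

/-- no diagonal for `BB` -/
theorem diag3_BB {T : ℝ} {p q r : ℕ} (hp : p ∈ S01 T) (hq : q ∈ S01 T) (hr : r ∈ PP T) : p ≠ q * r := by
  have pp := da_prime_of_PP (Finset.mem_filter.1 hp).1
  have pq := da_prime_of_PP (Finset.mem_filter.1 hq).1
  have pr := da_prime_of_PP hr
  rintro rfl
  exact Nat.not_prime_mul pq.one_lt.ne' pr.one_lt.ne' pp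

end Pool.Agent.Helper4.SH
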