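import Pool.Agent.Helper4.SH.Arith

/-!
# SH-DB: arithmetic of the diagonal, second kernel

`nu i * q = de i * p`: `i = 1, q = p`; `i = p/q` (`q < p`; then `2 y_q ≤ y_p + y_q ≤ 0.499`, so `q ∈ S01 T`); nothing else (`i = r`: `r q = p`
impossible; `i = r/s`: `r q = s p` with `s < r` forces `q = s`, `p = r`; `i = rs`: no). `φ` is an arbitrary function.
-/

open MeasureTheory Set Filter Topology
open Pool.Agent.Helper57.Zeta Pool.Agent.Helper57.PC Pool.Agent.Helper57.LH Pool.Agent.Helper78.SG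
open scoped ContDiff

namespace Pool.Agent.Helper4.SH

theorem d4_PP {T : ℝ} {p : ℕ} (h : p ∈ PP T) : p.Prime := by
  unfold PP at h
  exact (Finset.mem_filter.mp h).2

theorem d4_S01 {T : ℝ} {p : ℕ} (h : p ∈ S01 T) : p ∈ PP T ∧ yy T p ≤ 333 / 1000 := by
  unfold S01 at h
  exact Finset.mem_filter.mp h

theorem d4_S10 {T : ℝ} {p : ℕ} (h : p ∈ S10 T) : p ∈ PP T := by
  unfold S10 at h
  exact (Finset.mem_filter.mp h).1

theorem d4_S20 {T : ℝ} {x : ℕ × ℕ} (h : x ∈ S20 T) : x.1 ∈ PP T ∧ x.2 ∈ PP T := by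
  unfold S20 at h
  have h1 := (Finset.mem_filter.mp h).1
  exact Finset.mem_product.mp h1

theorem d4_S11 {T : ℝ} {x : ℕ × ℕ} (h : x ∈ S11 T) :
    x.1 ∈ PP T ∧ x.2 ∈ PP T ∧ x.2 < x.1 ∧ yy T x.1 + yy T x.2 ≤ 499 / 1000 := by
  unfold S11 at h
  have h1 := Finset.mem_filter.mp h
  exact ⟨(Finset.mem_product.mp h1.1).1, (Finset.mem_product.mp h1.1).2, h1.2.1, h1.2.2⟩

theorem d4_S11_S01 {T : ℝ} (hT : 1 < T) {x : ℕ × ℕ} (h : x ∈ S11 T) : x.2 ∈ S01 T := by
  obtain ⟨h1, h2, h3, h4⟩ := d4_S11 h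
  unfold S01
  refine Finset.mem_filter.mpr ⟨h2, ?_⟩
  have hL : 0 < Real.log T := Real.log_pos hT
  have hpos : (0 : ℝ) < (x.2 : ℝ) := by exact_mod_cast (d4_PP h2).pos
  have hle : (x.2 : ℝ) ≤ (x.1 : ℝ) := by exact_mod_cast h3.le
  have hy : yy T x.2 ≤ yy T x.1 := by
    unfold yy
    exact div_le_div_of_nonneg_right (Real.log_le_log hpos hle) hL.le
  linarith

/-- `r q = s p` for primes with `s < r` -/
theorem d4_quot {r s q p : ℕ} (hr : r.Prime) (hs : s.Prime) (hq : q.Prime) (hsr : s < r) :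
    r * q = s * p ↔ q = s ∧ p = r := by
  constructor
  · intro h
    have hd : s ∣ r * q := ⟨p, h⟩
    rcases (Nat.Prime.dvd_mul hs).mp hd with h1 | h1
    · have := (Nat.prime_dvd_prime_iff_eq hs hr).mp h1
      omega
    · have h2 := (Nat.prime_dvd_prime_iff_eq hs hq).mp h1
      refine ⟨h2.symm, ?_⟩
      subst h2
      have : s * p = s * r := by rw [← h, mul_comm]
      exact Nat.eq_of_mul_eq_mul_left hs.pos this
  · rintro ⟨rfl, rfl⟩
    exact mul_comm _ _

open Classical in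
theorem d4_inner {A : Finset ℕ} (c : ℝ) (φ : ℕ → ℝ) {P : ℕ → Prop} [DecidablePred P] {a : ℕ} (ha : a ∈ A)
    (hP : ∀ p ∈ A, P p ↔ p = a) :
    ∑ p ∈ A, c * φ p * (if P p then (1 : ℝ) else 0) = c * φ a := by
  rw [Finset.sum_eq_single a]
  · rw [if_pos ((hP a ha).mpr rfl), mul_one]
  · intro b hb hne
    rw [if_neg (fun h => hne ((hP b hb).mp h)), mul_zero]
  · intro h; exact absurd ha h

open Classical in
theorem diag4 {T : ℝ} (hT : 1 < T) (φ : ℕ → ℝ) :
    ∑ i ∈ IH T, ∑ q ∈ S01 T, ∑ p ∈ PP T,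
      cf T i * cl T q * φ p * (if nu i * q = de i * p then (1 : ℝ) else 0) =
    -((∑ p ∈ S01 T, ww T p * bl (yy T p) * φ p)
      + 16 * (∑ x ∈ S11 T, ww T x.1 * ww T x.2 ^ 2 * bl (yy T x.2) * φ x.1)) := by
  unfold IH
  rw [Finset.sum_disjSum, Finset.sum_disjSum, Finset.sum_disjSum]
  have e1 : ∑ x ∈ (Finset.univ : Finset Unit), ∑ q ∈ S01 T, ∑ p ∈ PP T,
      cf T (Sum.inl x) * cl T q * φ p * (if nu (Sum.inl x) * q = de (Sum.inl x) * p then (1 : ℝ) else 0)
      = -∑ p ∈ S01 T, ww T p * bl (yy T p) * φ p := by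
    rw [Finset.univ_unique, Finset.sum_singleton, ← Finset.sum_neg_distrib]
    refine Finset.sum_congr rfl (fun q hq => ?_)
    have hq' := (d4_S01 hq).1
    have := d4_inner (A := PP T) (cf T (Sum.inl ()) * cl T q) φ
      (P := fun p => nu (Sum.inl ()) * q = de (Sum.inl ()) * p) (a := q) hq'
      (fun p _ => by simp only [nu, de, one_mul]; exact eq_comm)
    refine this.trans ?_
    simp only [cf, cl]
    ring
  have e2 : ∑ x ∈ S10 T, ∑ q ∈ S01 T, ∑ p ∈ PP T,
      cf T (Sum.inr (Sum.inl x)) * cl T q * φ p *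
        (if nu (Sum.inr (Sum.inl x)) * q = de (Sum.inr (Sum.inl x)) * p then (1 : ℝ) else 0) = 0 := by
    refine Finset.sum_eq_zero (fun x hx => Finset.sum_eq_zero (fun q hq => Finset.sum_eq_zero (fun p hp => ?_)))
    rw [if_neg, mul_zero]
    intro h
    simp only [nu, de, one_mul] at h
    have h1 := d4_PP (d4_S10 hx)
    have h2 := d4_PP (d4_S01 hq).1
    have h3 := d4_PP hp
    rw [← h] at h3
    exact Nat.not_prime_mul h1.one_lt.ne' h2.one_lt.ne' h3
  have e3 : ∑ x ∈ S20 T, ∑ q ∈ S01 T, ∑ p ∈ PP T,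
      cf T (Sum.inr (Sum.inr (Sum.inl x))) * cl T q * φ p *
        (if nu (Sum.inr (Sum.inr (Sum.inl x))) * q = de (Sum.inr (Sum.inr (Sum.inl x))) * p
          then (1 : ℝ) else 0) = 0 := by
    refine Finset.sum_eq_zero (fun x hx => Finset.sum_eq_zero (fun q hq => Finset.sum_eq_zero (fun p hp => ?_)))
    rw [if_neg, mul_zero]
    intro h
    simp only [nu, de, one_mul] at h
    have h1 := d4_PP (d4_S20 hx).1
    have h1' := d4_PP (d4_S20 hx).2
    have h2 := d4_PP (d4_S01 hq).1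
    have h3 := d4_PP hp
    rw [← h] at h3
    refine Nat.not_prime_mul ?_ h2.one_lt.ne' h3
    have := Nat.mul_lt_mul'' h1.one_lt h1'.one_lt
    omega
  have e4 : ∑ x ∈ S11 T, ∑ q ∈ S01 T, ∑ p ∈ PP T,
      cf T (Sum.inr (Sum.inr (Sum.inr x))) * cl T q * φ p *
        (if nu (Sum.inr (Sum.inr (Sum.inr x))) * q = de (Sum.inr (Sum.inr (Sum.inr x))) * p
          then (1 : ℝ) else 0) =
      -(16 * ∑ x ∈ S11 T, ww T x.1 * ww T x.2 ^ 2 * bl (yy T x.2) * φ x.1) := by
    rw [Finset.mul_sum, ← Finset.sum_neg_distrib]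
    refine Finset.sum_congr rfl (fun x hx => ?_)
    obtain ⟨h1, h2, h3, h4⟩ := d4_S11 hx
    have hs := d4_S11_S01 hT hx
    rw [Finset.sum_eq_single x.2]
    · have := d4_inner (A := PP T) (cf T (Sum.inr (Sum.inr (Sum.inr x))) * cl T x.2) φ
        (P := fun p => nu (Sum.inr (Sum.inr (Sum.inr x))) * x.2 = de (Sum.inr (Sum.inr (Sum.inr x))) * p)
        (a := x.1) h1
        (fun p _ => by
          simp only [nu, de]
          rw [d4_quot (d4_PP h1) (d4_PP h2) (d4_PP h2) h3]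
          simp)
      refine this.trans ?_
      simp only [cf, cl]
      ring
    · intro q hq hne
      refine Finset.sum_eq_zero (fun p hp => ?_)
      rw [if_neg, mul_zero]
      intro h
      simp only [nu, de] at h
      rw [d4_quot (d4_PP h1) (d4_PP h2) (d4_PP (d4_S01 hq).1) h3] at h
      exact hne h.1
    · intro h; exact absurd hs h
  rw [e1, e2, e3, e4]
  ring

theorem diag4_none {T : ℝ} (hT : 1 < T) {i : Ix} {q p : ℕ} (hi : i ∈ IH T) (hq : q ∈ S01 T) (hp : p ∈ PP T) :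
    nu i * q * p ≠ de i := by
  have hq1 := (d4_PP (d4_S01 hq).1).one_lt
  have hp1 := (d4_PP hp).one_lt
  have hqp : 1 < q * p := by
    have := Nat.mul_lt_mul'' hq1 hp1
    omega
  have key : ∀ a b : ℕ, 1 ≤ a → b ≤ a → a * q * p ≠ b := by
    intro a b ha hb h
    have h1 : a * 1 < a * (q * p) := Nat.mul_lt_mul_of_pos_left hqp (by omega)
    rw [mul_assoc] at h
    omega
  unfold IH at hi
  rcases i with x | x | x | x
  · exact key _ _ (by simp [nu]) (by simp [nu, de])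
  · simp only [Finset.inr_mem_disjSum, Finset.inl_mem_disjSum] at hi
    have h := (d4_PP (d4_S10 hi)).one_lt
    exact key _ _ (by simp only [nu]; omega) (by simp only [nu, de]; omega)
  · simp only [Finset.inr_mem_disjSum, Finset.inl_mem_disjSum] at hi
    have h := (d4_PP (d4_S20 hi).1).one_lt
    have h' := (d4_PP (d4_S20 hi).2).one_lt
    have h2 : 1 < x.1 * x.2 := by
      have := Nat.mul_lt_mul'' h h'
      omega
    exact key _ _ (by simp only [nu]; omega) (by simp only [nu, de]; omega)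
  · simp only [Finset.inr_mem_disjSum, Finset.inl_mem_disjSum] at hi
    obtain ⟨h1, h2, h3, h4⟩ := d4_S11 hi
    have h := (d4_PP h1).one_lt
    exact key _ _ (by simp only [nu]; omega) (by simp only [nu, de]; omega)

end Pool.Agent.Helper4.SH
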