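import Pool.Agent.Helper4.SH.GMV
import Pool.Agent.Helper4.SH.Arith

/-!
# SH-E1: the mean value of the weight

`gmv` (file `GMV`, `δ = 2/1000`, `K` large) for the three parts. `HH`: index `(i, j)`, `a = nu i * de j`, `b = de i * nu j`,
`a * b ≤ T^0.998`, so `min(a, b) ≤ T^0.499`. Diagonal: `nu i * de j = de i * nu j` iff `i = j` (coprime pairs, `IH_props`, `IH_inj`).
`BB`: `a = p`, `b = q`. `F2`: `a = nu i * q`, `b = de i`; no diagonal, since `de i ≤ nu i < nu i * q`. Sums of absolute values: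
`sum_cf_le`, `sum_cl_le`.
-/

open MeasureTheory Set Filter Topology
open Pool.Agent.Helper57.Zeta Pool.Agent.Helper57.PC Pool.Agent.Helper57.LH Pool.Agent.Helper78.SG
open scoped ContDiff

namespace Pool.Agent.Helper4.SH

private theorem E1_diag {T : ℝ} (hT : 1 < T) {i j : Ix} (hi : i ∈ IH T) (hj : j ∈ IH T)
    (h : nu i * de j = de i * nu j) : i = j := by
  obtain ⟨a1, a2, -, -, -, -, -, -, a9⟩ := IH_props hT i hi
  obtain ⟨b1, b2, -, -, -, -, -, -, b9⟩ := IH_props hT j hj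
  have h1 : nu i ∣ nu j := by
    have : nu i ∣ de i * nu j := ⟨de j, h.symm⟩
    exact a9.dvd_of_dvd_mul_left this
  have h2 : nu j ∣ nu i := by
    have : nu j ∣ nu i * de j := ⟨de i, by rw [h, mul_comm]⟩
    exact b9.dvd_of_dvd_mul_right this
  have h3 : nu i = nu j := Nat.dvd_antisymm h1 h2
  have h4 : de i = de j := by
    rw [h3, mul_comm] at h
    exact (Nat.eq_of_mul_eq_mul_right (Nat.pos_of_ne_zero b1) h).symm
  exact IH_inj i hi j hj h3 h4

private theorem E1_pow_le {T : ℝ} (hT : 1 < T) {x : ℝ} (hx : x ≤ 1 / 2) :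
    T ^ x ≤ T ^ ((1 : ℝ) - 1 / 2) :=
  Real.rpow_le_rpow_of_exponent_le hT.le (by linarith)

private theorem E1_abs {a b x : ℝ} (ha : a ≤ 64 * x) (hb : b ≤ 64 * x) (ha0 : 0 ≤ a)
    (hb0 : 0 ≤ b) : a * a + (b * b + 2 * (a * b)) ≤ 16384 * (x * x) := by
  have h1 : a + b ≤ 128 * x := by linarith
  have h2 : 0 ≤ a + b := by linarith
  have h3 : (a + b) * (a + b) ≤ (128 * x) * (128 * x) := mul_self_le_mul_self h2 h1
  nlinarith

theorem E1 (g : TF) {ε : ℝ} (hε : 0 < ε) : ∀ᶠ T : ℝ in atTop,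
    |(∫ t, om g.h T t * (F1 T t + F2 T t)) - T * (∫ x, g.h x) * AT T| ≤ ε * T := by
  obtain ⟨C, hC, hmv⟩ := gmv g (δ := 1 / 2) (by norm_num) 4
  filter_upwards [eventually_gt_atTop 1, eventually_ge_atTop (16384 * C / ε)] with T hT hTC
  have hT0 : 0 < T := by linarith
  have key := hmv T hT.le ((Ix × Ix) ⊕ ((ℕ × ℕ) ⊕ (Ix × ℕ)))
    (Finset.disjSum (IH T ×ˢ IH T) (Finset.disjSum (S01 T ×ˢ S01 T) (IH T ×ˢ S01 T)))
    (Sum.elim (fun x => cf T x.1 * cf T x.2) (Sum.elim (fun x => cl T x.1 * cl T x.2)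
      (fun x => 2 * (cf T x.1 * cl T x.2))))
    (Sum.elim (fun x => nu x.1 * de x.2) (Sum.elim (fun x => x.1) (fun x => nu x.1 * x.2)))
    (Sum.elim (fun x => de x.1 * nu x.2) (Sum.elim (fun x => x.2) (fun x => de x.1))) ?_
  · have e1 : ∀ t, (∑ i ∈ Finset.disjSum (IH T ×ˢ IH T)
        (Finset.disjSum (S01 T ×ˢ S01 T) (IH T ×ˢ S01 T)),
        (Sum.elim (fun x => cf T x.1 * cf T x.2) (Sum.elim (fun x => cl T x.1 * cl T x.2)
          (fun x => 2 * (cf T x.1 * cl T x.2))) : _ → ℝ) i *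
        Real.cos (t * (Real.log ((Sum.elim (fun x => nu x.1 * de x.2)
          (Sum.elim (fun x => x.1) (fun x => nu x.1 * x.2)) : _ → ℕ) i) -
          Real.log ((Sum.elim (fun x => de x.1 * nu x.2)
          (Sum.elim (fun x => x.2) (fun x => de x.1)) : _ → ℕ) i)))) = F1 T t + F2 T t := by
      intro t
      rw [Finset.sum_disjSum, Finset.sum_disjSum, Finset.sum_product, Finset.sum_product,
        Finset.sum_product, F1, F2, HH, BB, add_assoc]
      congr 1
      · refine Finset.sum_congr rfl fun i hi => Finset.sum_congr rfl fun j hj => ?_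
        obtain ⟨a1, a2, -⟩ := IH_props hT i hi
        obtain ⟨b1, b2, -⟩ := IH_props hT j hj
        have a1' : (nu i : ℝ) ≠ 0 := by exact_mod_cast a1
        have a2' : (de i : ℝ) ≠ 0 := by exact_mod_cast a2
        have b1' : (nu j : ℝ) ≠ 0 := by exact_mod_cast b1
        have b2' : (de j : ℝ) ≠ 0 := by exact_mod_cast b2
        simp only [Sum.elim_inl, Nat.cast_mul]
        rw [Real.log_mul a1' b2', Real.log_mul a2' b1', ph, ph]
        congr 2
        ring
      · congr 1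
        rw [Finset.mul_sum]
        refine Finset.sum_congr rfl fun i hi => ?_
        rw [Finset.mul_sum]
        refine Finset.sum_congr rfl fun q hq => ?_
        obtain ⟨a1, a2, -⟩ := IH_props hT i hi
        obtain ⟨hq1, -⟩ := S01_props hT q hq
        have a1' : (nu i : ℝ) ≠ 0 := by exact_mod_cast a1
        have q1' : (q : ℝ) ≠ 0 := by exact_mod_cast hq1.ne_zero
        simp only [Sum.elim_inr, Nat.cast_mul]
        rw [Real.log_mul a1' q1', ph, mul_assoc]
        congr 3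
        ring
    have e2 : (∑ i ∈ Finset.disjSum (IH T ×ˢ IH T)
        (Finset.disjSum (S01 T ×ˢ S01 T) (IH T ×ˢ S01 T)),
        (if (Sum.elim (fun x => nu x.1 * de x.2)
          (Sum.elim (fun x => x.1) (fun x => nu x.1 * x.2)) : _ → ℕ) i =
          (Sum.elim (fun x => de x.1 * nu x.2)
          (Sum.elim (fun x => x.2) (fun x => de x.1)) : _ → ℕ) i then
        (Sum.elim (fun x => cf T x.1 * cf T x.2) (Sum.elim (fun x => cl T x.1 * cl T x.2)
          (fun x => 2 * (cf T x.1 * cl T x.2))) : _ → ℝ) i else 0)) = AT T := by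
      rw [Finset.sum_disjSum, Finset.sum_disjSum, Finset.sum_product, Finset.sum_product,
        Finset.sum_product, AT]
      have h3 : ∑ i ∈ IH T, ∑ q ∈ S01 T, (if nu i * q = de i then 2 * (cf T i * cl T q) else 0) =
          0 := by
        refine Finset.sum_eq_zero fun i hi => Finset.sum_eq_zero fun q hq => ?_
        obtain ⟨a1, a2, -, -, -, -, -, a8, -⟩ := IH_props hT i hi
        obtain ⟨hq1, -⟩ := S01_props hT q hq
        rw [if_neg]
        intro h
        have h5 : nu i * 2 ≤ nu i * q := Nat.mul_le_mul_left _ hq1.two_le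
        omega
      have h1 : ∑ i ∈ IH T, ∑ j ∈ IH T, (if nu i * de j = de i * nu j then cf T i * cf T j
          else 0) = ∑ i ∈ IH T, cf T i ^ 2 := by
        refine Finset.sum_congr rfl fun i hi => ?_
        rw [Finset.sum_eq_single_of_mem i hi, if_pos (mul_comm _ _), pow_two]
        intro j hj hji
        rw [if_neg]
        intro h
        exact hji (E1_diag hT hi hj h).symm
      have h2 : ∑ p ∈ S01 T, ∑ q ∈ S01 T, (if p = q then cl T p * cl T q else 0) =
          ∑ q ∈ S01 T, cl T q ^ 2 := by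
        refine Finset.sum_congr rfl fun p hp => ?_
        rw [Finset.sum_eq_single_of_mem p hp, if_pos rfl, pow_two]
        intro q _ hqp
        rw [if_neg (Ne.symm hqp)]
      change (∑ i ∈ IH T, ∑ j ∈ IH T, (if nu i * de j = de i * nu j then cf T i * cf T j
          else 0)) + ((∑ p ∈ S01 T, ∑ q ∈ S01 T, (if p = q then cl T p * cl T q else 0)) +
        ∑ i ∈ IH T, ∑ q ∈ S01 T, (if nu i * q = de i then 2 * (cf T i * cl T q) else 0)) = _
      rw [h1, h2, h3, add_zero]
    have e3 : (∑ i ∈ Finset.disjSum (IH T ×ˢ IH T)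
        (Finset.disjSum (S01 T ×ˢ S01 T) (IH T ×ˢ S01 T)),
        |(Sum.elim (fun x => cf T x.1 * cf T x.2) (Sum.elim (fun x => cl T x.1 * cl T x.2)
          (fun x => 2 * (cf T x.1 * cl T x.2))) : _ → ℝ) i|) ≤
        16384 * (T ^ ((499 : ℝ) / 1000) * T ^ ((499 : ℝ) / 1000)) := by
      rw [Finset.sum_disjSum, Finset.sum_disjSum, Finset.sum_product, Finset.sum_product,
        Finset.sum_product]
      simp only [Sum.elim_inl, Sum.elim_inr, abs_mul]
      have h0 : |(2 : ℝ)| = 2 := abs_of_pos (by norm_num)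
      rw [h0]
      refine le_trans (le_of_eq ?_) (E1_abs (sum_cf_le hT) (sum_cl_le hT)
        (Finset.sum_nonneg fun i _ => abs_nonneg _) (Finset.sum_nonneg fun i _ => abs_nonneg _))
      rw [Finset.sum_mul_sum, Finset.sum_mul_sum, Finset.sum_mul_sum, Finset.mul_sum]
      simp only [Finset.mul_sum]
    simp only [e1] at key
    rw [e2] at key
    refine key.trans ?_
    have e4 : C * T ^ ((1 : ℝ) - 1 / 2 * (4 : ℕ)) ≤ C * T ^ (-1 : ℝ) := by
      refine mul_le_mul_of_nonneg_left (le_of_eq ?_) hC.le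
      congr 1
      norm_num
    have e5 : 0 ≤ T ^ (-1 : ℝ) := Real.rpow_nonneg hT0.le _
    have e6 : T ^ (-1 : ℝ) * (T ^ ((499 : ℝ) / 1000) * T ^ ((499 : ℝ) / 1000)) ≤ 1 := by
      rw [← Real.rpow_add hT0, ← Real.rpow_add hT0]
      exact Real.rpow_le_one_of_one_le_of_nonpos hT.le (by norm_num)
    calc C * T ^ ((1 : ℝ) - 1 / 2 * (4 : ℕ)) * _
        ≤ C * T ^ (-1 : ℝ) * (16384 * (T ^ ((499 : ℝ) / 1000) * T ^ ((499 : ℝ) / 1000))) :=
          mul_le_mul e4 e3 (Finset.sum_nonneg fun i _ => abs_nonneg _) (mul_nonneg hC.le e5)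
      _ = 16384 * C * (T ^ (-1 : ℝ) * (T ^ ((499 : ℝ) / 1000) * T ^ ((499 : ℝ) / 1000))) := by
          ring
      _ ≤ 16384 * C * 1 := mul_le_mul_of_nonneg_left e6 (by positivity)
      _ ≤ ε * T := by
          rw [div_le_iff₀ hε] at hTC
          linarith
  · have hmin : ∀ m n : ℕ, ((min m n : ℕ) : ℝ) ≤ m ∧ ((min m n : ℕ) : ℝ) ≤ n := fun m n =>
      ⟨by exact_mod_cast min_le_left m n, by exact_mod_cast min_le_right m n⟩
    intro x hx
    rcases x with ⟨i, j⟩ | ⟨p, q⟩ | ⟨i, q⟩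
    · rw [Finset.inl_mem_disjSum, Finset.mem_product] at hx
      obtain ⟨a1, a2, -, -, -, -, a7, -, -⟩ := IH_props hT i hx.1
      obtain ⟨b1, b2, -, -, -, -, b7, -, -⟩ := IH_props hT j hx.2
      simp only [Sum.elim_inl]
      have hpos : ∀ n : ℕ, n ≠ 0 → 1 ≤ n := fun n hn => Nat.one_le_iff_ne_zero.2 hn
      refine ⟨hpos _ (mul_ne_zero a1 b2), hpos _ (mul_ne_zero a2 b1), ?_⟩
      refine le_trans ?_ (E1_pow_le hT (x := 499 / 1000) (by norm_num))
      have h1 := hmin (nu i * de j) (de i * nu j)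
      have h2 : ((min (nu i * de j) (de i * nu j) : ℕ) : ℝ) *
          ((min (nu i * de j) (de i * nu j) : ℕ) : ℝ) ≤
          T ^ ((499 : ℝ) / 1000) * T ^ ((499 : ℝ) / 1000) := by
        calc ((min (nu i * de j) (de i * nu j) : ℕ) : ℝ) *
            ((min (nu i * de j) (de i * nu j) : ℕ) : ℝ)
            ≤ ((nu i * de j : ℕ) : ℝ) * ((de i * nu j : ℕ) : ℝ) :=
              mul_le_mul h1.1 h1.2 (Nat.cast_nonneg _) (Nat.cast_nonneg _)
          _ = ((nu i : ℝ) * de i) * ((nu j : ℝ) * de j) := by push_cast; ring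
          _ ≤ _ := mul_le_mul a7 b7 (by positivity) (Real.rpow_nonneg hT0.le _)
      exact abs_le_of_sq_le_sq' (by nlinarith) (Real.rpow_nonneg hT0.le _) |>.2
    · rw [Finset.inr_mem_disjSum, Finset.inl_mem_disjSum, Finset.mem_product] at hx
      obtain ⟨p1, -, -, p4⟩ := S01_props hT p hx.1
      obtain ⟨q1, -, -, -⟩ := S01_props hT q hx.2
      simp only [Sum.elim_inl, Sum.elim_inr]
      exact ⟨p1.one_lt.le, q1.one_lt.le, ((hmin p q).1.trans p4).trans
        (E1_pow_le hT (by norm_num))⟩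
    · rw [Finset.inr_mem_disjSum, Finset.inr_mem_disjSum, Finset.mem_product] at hx
      obtain ⟨a1, a2, -, -, -, -, a7, -, -⟩ := IH_props hT i hx.1
      obtain ⟨q1, -, -, -⟩ := S01_props hT q hx.2
      simp only [Sum.elim_inr]
      have hpos : ∀ n : ℕ, n ≠ 0 → 1 ≤ n := fun n hn => Nat.one_le_iff_ne_zero.2 hn
      refine ⟨hpos _ (mul_ne_zero a1 q1.ne_zero), hpos _ a2, ?_⟩
      refine ((hmin _ _).2.trans ?_).trans (E1_pow_le hT (x := 499 / 1000) (by norm_num))
      refine le_trans ?_ a7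
      have h1 : (1 : ℝ) ≤ nu i := by exact_mod_cast hpos _ a1
      have h2 : (0 : ℝ) ≤ de i := Nat.cast_nonneg _
      nlinarith

end Pool.Agent.Helper4.SH
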