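import Pool.Agent.Helper4.SH.GMV
import Pool.Agent.Helper4.SH.Diag3

/-!
# SH-E3: the mean value of `F1` times the prime sum

`f.h y = 0` for `|y| ≥ f.th`, `f.th < 1/2`, so only primes `p ≤ T^(1/2)` count. `2 cos(tα) cos(t log p) = cos(t(α + log p)) + cos(t(α - log p))`.
`gmv` with index set `Bool × Ix × Ix × ℕ` (or two applications): `a = nu i * de j * p, b = de i * nu j` and
`a = nu i * de j, b = de i * nu j * p`; `a * b ≤ T^(0.998 + 0.5)`, so `min(a, b) ≤ T^0.749`, `δ = 1/4`. Coefficients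
`cf i * cf j * (ww p * f.h(yy p))`; sum of absolute values at most `(64 T^0.499)² · T · C` (`ww ≤ 1`, `card (PP T) ≤ T + 1`, `f.h` bounded), so
`K = 20` is plenty. By the symmetry `(i, j) ↔ (j, i)` both diagonals are equal, given by `diag3` with `φ p = ww p * f.h(yy p)`. In all terms of
`diag3`, `y ≤ 0.499`, so `f.h = SB`. The `BB` part has no diagonal: `diag3_BB`.
-/

open MeasureTheory Set Filter Topology
open Pool.Agent.Helper57.Zeta Pool.Agent.Helper57.PC Pool.Agent.Helper57.LH Pool.Agent.Helper78.SG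
open scoped ContDiff

namespace Pool.Agent.Helper4.SH

/-- the nonvanishing range of `f.h` -/
private noncomputable def PF (f : TF) (T : ℝ) : Finset ℕ := (PP T).filter (fun p => yy T p < f.th)

private noncomputable def fi (f : TF) (T : ℝ) (p : ℕ) : ℝ := ww T p * f.h (yy T p)

private theorem PP_prime {T : ℝ} {p : ℕ} (hp : p ∈ PP T) : p.Prime := (Finset.mem_filter.1 hp).2

private theorem yy_nonneg {T : ℝ} (hT : 1 < T) {p : ℕ} (hp : 1 ≤ p) : 0 ≤ yy T p :=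
  div_nonneg (Real.log_nonneg (by exact_mod_cast hp)) (Real.log_nonneg hT.le)

private theorem PP_le {T : ℝ} (hT : 1 < T) {p : ℕ} (hp : p ∈ PP T) : (p : ℝ) ≤ T := by
  have h1 := Finset.mem_range.1 (Finset.mem_filter.1 hp).1
  have h2 : p ≤ ⌊T⌋₊ := by omega
  exact (Nat.le_floor_iff (by linarith)).1 h2

private theorem ww_bd {T : ℝ} (hT : 1 < T) {p : ℕ} (hp : p ∈ PP T) : |ww T p| ≤ 1 := by
  have hp1 : (1 : ℝ) ≤ p := by exact_mod_cast (PP_prime hp).one_lt.le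
  have h1 : Real.log p ≤ Real.log T := Real.log_le_log (by linarith) (PP_le hT hp)
  have h2 : 0 < Real.log T := Real.log_pos hT
  have h3 : 1 ≤ Real.sqrt p := Real.one_le_sqrt.2 hp1
  have h4 : 0 ≤ Real.log p := Real.log_nonneg hp1
  rw [ww, abs_of_nonneg (by positivity), div_le_one (by positivity)]
  nlinarith

private theorem fi_zero {f : TF} {T : ℝ} {p : ℕ} (hp : p ∈ PP T) (h : p ∉ PF f T) :
    fi f T p = 0 := by
  have h1 : f.th ≤ yy T p := by
    by_contra hc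
    exact h (Finset.mem_filter.2 ⟨hp, not_le.1 hc⟩)
  rw [fi, f.supp _ (h1.trans (le_abs_self _)), mul_zero]

private theorem f_bd (f : TF) : ∃ M : ℝ, 0 < M ∧ ∀ y, |f.h y| ≤ M := by
  have hcs : HasCompactSupport f.h := by
    refine HasCompactSupport.of_support_subset_isCompact (isCompact_Icc (a := -f.th) (b := f.th)) ?_
    intro y hy
    by_contra hcon
    apply hy
    apply f.supp
    by_contra h
    exact hcon (abs_le.mp (not_le.mp h).le)
  obtain ⟨M, hM⟩ := hcs.exists_bound_of_continuous f.smooth.continuous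
  refine ⟨max M 1, lt_of_lt_of_le one_pos (le_max_right _ _), fun y => (hM y).trans (le_max_left _ _)⟩

private theorem PF_pow {f : TF} {T : ℝ} (hT : 1 < T) {p : ℕ} (hp : p ∈ PF f T) :
    (p : ℝ) ≤ T ^ ((1 : ℝ) / 2) := by
  have h1 := (Finset.mem_filter.1 hp).2
  have h2 := (Finset.mem_filter.1 hp).1
  have hp1 : (0 : ℝ) < p := by exact_mod_cast (PP_prime h2).pos
  have h3 : 0 < Real.log T := Real.log_pos hT
  have h4 : yy T p ≤ 1 / 2 := h1.le.trans f.th1.le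
  rw [yy, div_le_iff₀ h3] at h4
  rw [← Real.log_le_log_iff hp1 (Real.rpow_pos_of_pos (by linarith) _), Real.log_rpow (by linarith)]
  exact h4

/-- base index set -/
private noncomputable def S0 (T : ℝ) : Finset ((Ix × Ix) ⊕ (ℕ × ℕ)) :=
  Finset.disjSum (IH T ×ˢ IH T) (S01 T ×ˢ S01 T)

private noncomputable def c0 (T : ℝ) : (Ix × Ix) ⊕ (ℕ × ℕ) → ℝ :=
  Sum.elim (fun x => cf T x.1 * cf T x.2) (fun x => cl T x.1 * cl T x.2)

private def aa : (Ix × Ix) ⊕ (ℕ × ℕ) → ℕ := Sum.elim (fun x => nu x.1 * de x.2) (fun x => x.1)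

private def ab : (Ix × Ix) ⊕ (ℕ × ℕ) → ℕ := Sum.elim (fun x => de x.1 * nu x.2) (fun x => x.2)

private theorem S0_props {T : ℝ} (hT : 1 < T) : ∀ x ∈ S0 T, aa x ≠ 0 ∧ ab x ≠ 0 ∧
    (aa x : ℝ) * ab x ≤ T ^ ((998 : ℝ) / 1000) := by
  have hT0 : 0 < T := by linarith
  intro x hx
  rcases x with ⟨i, j⟩ | ⟨p, q⟩
  · rw [S0, Finset.inl_mem_disjSum, Finset.mem_product] at hx
    obtain ⟨a1, a2, -, -, -, -, a7, -, -⟩ := IH_props hT i hx.1
    obtain ⟨b1, b2, -, -, -, -, b7, -, -⟩ := IH_props hT j hx.2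
    refine ⟨mul_ne_zero a1 b2, mul_ne_zero a2 b1, ?_⟩
    simp only [aa, ab, Sum.elim_inl]
    have h1 : T ^ ((998 : ℝ) / 1000) = T ^ ((499 : ℝ) / 1000) * T ^ ((499 : ℝ) / 1000) := by
      rw [← Real.rpow_add hT0]
      norm_num
    rw [h1]
    calc ((nu i * de j : ℕ) : ℝ) * ((de i * nu j : ℕ) : ℝ)
        = ((nu i : ℝ) * de i) * ((nu j : ℝ) * de j) := by push_cast; ring
      _ ≤ _ := mul_le_mul a7 b7 (by positivity) (Real.rpow_nonneg hT0.le _)
  · rw [S0, Finset.inr_mem_disjSum, Finset.mem_product] at hx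
    obtain ⟨p1, -, -, p4⟩ := S01_props hT p hx.1
    obtain ⟨q1, -, -, q4⟩ := S01_props hT q hx.2
    refine ⟨p1.ne_zero, q1.ne_zero, ?_⟩
    simp only [aa, ab, Sum.elim_inr]
    calc (p : ℝ) * q ≤ T ^ ((333 : ℝ) / 1000) * T ^ ((333 : ℝ) / 1000) :=
          mul_le_mul p4 q4 (Nat.cast_nonneg _) (Real.rpow_nonneg hT0.le _)
      _ = T ^ ((333 : ℝ) / 1000 + (333 : ℝ) / 1000) := (Real.rpow_add hT0 _ _).symm
      _ ≤ T ^ ((998 : ℝ) / 1000) := Real.rpow_le_rpow_of_exponent_le hT.le (by norm_num)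

private theorem F1_eq {T : ℝ} (hT : 1 < T) (t : ℝ) :
    F1 T t = ∑ x ∈ S0 T, c0 T x * Real.cos (t * (Real.log (aa x) - Real.log (ab x))) := by
  rw [S0, Finset.sum_disjSum, Finset.sum_product, Finset.sum_product, F1, HH, BB]
  congr 1
  refine Finset.sum_congr rfl fun i hi => Finset.sum_congr rfl fun j hj => ?_
  obtain ⟨a1, a2, -⟩ := IH_props hT i hi
  obtain ⟨b1, b2, -⟩ := IH_props hT j hj
  have a1' : (nu i : ℝ) ≠ 0 := by exact_mod_cast a1
  have a2' : (de i : ℝ) ≠ 0 := by exact_mod_cast a2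
  have b1' : (nu j : ℝ) ≠ 0 := by exact_mod_cast b1
  have b2' : (de j : ℝ) ≠ 0 := by exact_mod_cast b2
  simp only [c0, aa, ab, Sum.elim_inl, Nat.cast_mul]
  rw [Real.log_mul a1' b2', Real.log_mul a2' b1', ph, ph]
  congr 2
  ring

private theorem prp_eq {f : TF} {T : ℝ} (t : ℝ) :
    prp f.h 1 T t = ∑ p ∈ PF f T, 2 * fi f T p * Real.cos (Real.log p * t) := by
  rw [prp]
  symm
  have h : ∀ p ∈ PP T, 2 * ww T p * f.h (yy T p / 1) * Real.cos (Real.log p * t) =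
      2 * fi f T p * Real.cos (Real.log p * t) := by
    intro p _
    rw [fi, div_one]
    ring
  rw [Finset.sum_congr rfl h]
  refine Finset.sum_subset (Finset.filter_subset _ _) fun p hp hnp => ?_
  rw [fi_zero hp hnp, mul_zero, zero_mul]

/-- the product index set -/
private noncomputable def S1x (f : TF) (T : ℝ) :
    Finset (((Ix × Ix) ⊕ (ℕ × ℕ)) × ℕ ⊕ ((Ix × Ix) ⊕ (ℕ × ℕ)) × ℕ) :=
  Finset.disjSum (S0 T ×ˢ PF f T) (S0 T ×ˢ PF f T)

private noncomputable def c1 (f : TF) (T : ℝ) :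
    ((Ix × Ix) ⊕ (ℕ × ℕ)) × ℕ ⊕ ((Ix × Ix) ⊕ (ℕ × ℕ)) × ℕ → ℝ :=
  Sum.elim (fun x => c0 T x.1 * fi f T x.2) (fun x => c0 T x.1 * fi f T x.2)

private def a1 : ((Ix × Ix) ⊕ (ℕ × ℕ)) × ℕ ⊕ ((Ix × Ix) ⊕ (ℕ × ℕ)) × ℕ → ℕ :=
  Sum.elim (fun x => aa x.1 * x.2) (fun x => aa x.1)

private def b1 : ((Ix × Ix) ⊕ (ℕ × ℕ)) × ℕ ⊕ ((Ix × Ix) ⊕ (ℕ × ℕ)) × ℕ → ℕ :=
  Sum.elim (fun x => ab x.1) (fun x => ab x.1 * x.2)

private theorem prod_eq {f : TF} {T : ℝ} (hT : 1 < T) (t : ℝ) :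
    F1 T t * prp f.h 1 T t =
      ∑ i ∈ S1x f T, c1 f T i * Real.cos (t * (Real.log (a1 i) - Real.log (b1 i))) := by
  rw [F1_eq hT, prp_eq, Finset.sum_mul_sum, S1x, Finset.sum_disjSum, Finset.sum_product,
    Finset.sum_product, ← Finset.sum_add_distrib]
  refine Finset.sum_congr rfl fun x hx => ?_
  rw [← Finset.sum_add_distrib]
  refine Finset.sum_congr rfl fun p hp => ?_
  obtain ⟨h1, h2, -⟩ := S0_props hT x hx
  have h1' : (aa x : ℝ) ≠ 0 := by exact_mod_cast h1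
  have h2' : (ab x : ℝ) ≠ 0 := by exact_mod_cast h2
  have h3' : (p : ℝ) ≠ 0 := by
    exact_mod_cast (PP_prime (Finset.mem_filter.1 hp).1).ne_zero
  simp only [c1, a1, b1, Sum.elim_inl, Sum.elim_inr, Nat.cast_mul]
  rw [Real.log_mul h1' h3', Real.log_mul h2' h3']
  have e1 : t * (Real.log (aa x) + Real.log p - Real.log (ab x)) =
      t * (Real.log (aa x) - Real.log (ab x)) + Real.log p * t := by ring
  have e2 : t * (Real.log (aa x) - (Real.log (ab x) + Real.log p)) =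
      t * (Real.log (aa x) - Real.log (ab x)) - Real.log p * t := by ring
  rw [e1, e2, Real.cos_add, Real.cos_sub]
  ring

private theorem min_cond {f : TF} {T : ℝ} (hT : 1 < T) : ∀ i ∈ S1x f T, 1 ≤ a1 i ∧ 1 ≤ b1 i ∧
    ((min (a1 i) (b1 i) : ℕ) : ℝ) ≤ T ^ ((1 : ℝ) - 1 / 4) := by
  have hT0 : 0 < T := by linarith
  have hm : ∀ m n : ℕ, (m : ℝ) * n ≤ T ^ ((998 : ℝ) / 1000) * T ^ ((1 : ℝ) / 2) →
      ((min m n : ℕ) : ℝ) ≤ T ^ ((1 : ℝ) - 1 / 4) := by
    intro m n h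
    have h1 : ((min m n : ℕ) : ℝ) ≤ m := by exact_mod_cast min_le_left m n
    have h2 : ((min m n : ℕ) : ℝ) ≤ n := by exact_mod_cast min_le_right m n
    have h3 : T ^ ((998 : ℝ) / 1000) * T ^ ((1 : ℝ) / 2) ≤
        T ^ ((1 : ℝ) - 1 / 4) * T ^ ((1 : ℝ) - 1 / 4) := by
      rw [← Real.rpow_add hT0, ← Real.rpow_add hT0]
      exact Real.rpow_le_rpow_of_exponent_le hT.le (by norm_num)
    have h4 : ((min m n : ℕ) : ℝ) * ((min m n : ℕ) : ℝ) ≤
        T ^ ((1 : ℝ) - 1 / 4) * T ^ ((1 : ℝ) - 1 / 4) :=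
      (mul_le_mul h1 h2 (Nat.cast_nonneg _) (Nat.cast_nonneg _)).trans (h.trans h3)
    exact abs_le_of_sq_le_sq' (by nlinarith) (Real.rpow_nonneg hT0.le _) |>.2
  have hpos : ∀ n : ℕ, n ≠ 0 → 1 ≤ n := fun n hn => Nat.one_le_iff_ne_zero.2 hn
  intro i hi
  rcases i with ⟨x, p⟩ | ⟨x, p⟩
  · rw [S1x, Finset.inl_mem_disjSum, Finset.mem_product] at hi
    obtain ⟨h1, h2, h3⟩ := S0_props hT x hi.1
    have h4 := PF_pow hT hi.2
    have h5 := (PP_prime (Finset.mem_filter.1 hi.2).1).ne_zero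
    simp only [a1, b1, Sum.elim_inl]
    refine ⟨hpos _ (mul_ne_zero h1 h5), hpos _ h2, hm _ _ ?_⟩
    calc ((aa x * p : ℕ) : ℝ) * (ab x : ℝ) = ((aa x : ℝ) * ab x) * p := by push_cast; ring
      _ ≤ _ := mul_le_mul h3 h4 (Nat.cast_nonneg _) (Real.rpow_nonneg hT0.le _)
  · rw [S1x, Finset.inr_mem_disjSum, Finset.mem_product] at hi
    obtain ⟨h1, h2, h3⟩ := S0_props hT x hi.1
    have h4 := PF_pow hT hi.2
    have h5 := (PP_prime (Finset.mem_filter.1 hi.2).1).ne_zero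
    simp only [a1, b1, Sum.elim_inr]
    refine ⟨hpos _ h1, hpos _ (mul_ne_zero h2 h5), hm _ _ ?_⟩
    calc (aa x : ℝ) * ((ab x * p : ℕ) : ℝ) = ((aa x : ℝ) * ab x) * p := by push_cast; ring
      _ ≤ _ := mul_le_mul h3 h4 (Nat.cast_nonneg _) (Real.rpow_nonneg hT0.le _)

private theorem sum_abs_le {f : TF} {M T : ℝ} (hM : 0 < M) (hf : ∀ y, |f.h y| ≤ M) (hT : 1 < T) :
    ∑ i ∈ S1x f T, |c1 f T i| ≤ 32768 * M * (T ^ ((998 : ℝ) / 1000) * T) := by
  have hT0 : 0 < T := by linarith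
  have h1 : ∑ p ∈ PF f T, |fi f T p| ≤ 2 * M * T := by
    have h2 : ∀ p ∈ PF f T, |fi f T p| ≤ M := by
      intro p hp
      rw [fi, abs_mul]
      calc |ww T p| * |f.h (yy T p)| ≤ 1 * M :=
            mul_le_mul (ww_bd hT (Finset.mem_filter.1 hp).1) (hf _) (abs_nonneg _) zero_le_one
        _ = M := one_mul M
    have h3 : ((PF f T).card : ℝ) ≤ 2 * T := by
      have h4 : (PF f T).card ≤ (PP T).card := Finset.card_filter_le _ _
      have h5 : (PP T).card ≤ ⌊T⌋₊ + 1 := by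
        refine (Finset.card_filter_le _ _).trans ?_
        rw [Finset.card_range]
      have h6 : ((⌊T⌋₊ + 1 : ℕ) : ℝ) ≤ T + 1 := by
        push_cast
        linarith [Nat.floor_le hT0.le]
      have h7 : ((PF f T).card : ℝ) ≤ ((⌊T⌋₊ + 1 : ℕ) : ℝ) := by exact_mod_cast h4.trans h5
      linarith
    calc ∑ p ∈ PF f T, |fi f T p| ≤ ∑ _p ∈ PF f T, M := Finset.sum_le_sum h2
      _ = (PF f T).card * M := by rw [Finset.sum_const, nsmul_eq_mul]
      _ ≤ 2 * T * M := mul_le_mul_of_nonneg_right h3 hM.le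
      _ = 2 * M * T := by ring
  have h2 : ∑ x ∈ S0 T, |c0 T x| ≤ 8192 * T ^ ((998 : ℝ) / 1000) := by
    have e : T ^ ((998 : ℝ) / 1000) = T ^ ((499 : ℝ) / 1000) * T ^ ((499 : ℝ) / 1000) := by
      rw [← Real.rpow_add hT0]
      norm_num
    rw [S0, Finset.sum_disjSum, Finset.sum_product, Finset.sum_product]
    simp only [c0, Sum.elim_inl, Sum.elim_inr, abs_mul]
    rw [← Finset.sum_mul_sum, ← Finset.sum_mul_sum, e]
    have ha := sum_cf_le hT
    have hb := sum_cl_le hT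
    have ha0 : 0 ≤ ∑ i ∈ IH T, |cf T i| := Finset.sum_nonneg fun _ _ => abs_nonneg _
    have hb0 : 0 ≤ ∑ q ∈ S01 T, |cl T q| := Finset.sum_nonneg fun _ _ => abs_nonneg _
    have h3 := mul_self_le_mul_self ha0 ha
    have h4 := mul_self_le_mul_self hb0 hb
    linarith
  have h0 : 0 ≤ ∑ p ∈ PF f T, |fi f T p| := Finset.sum_nonneg fun _ _ => abs_nonneg _
  have hP : 0 ≤ T ^ ((998 : ℝ) / 1000) := Real.rpow_nonneg hT0.le _
  have h3 : ∑ i ∈ S1x f T, |c1 f T i| =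
      2 * ((∑ x ∈ S0 T, |c0 T x|) * ∑ p ∈ PF f T, |fi f T p|) := by
    rw [S1x, Finset.sum_disjSum]
    simp only [c1, Sum.elim_inl, Sum.elim_inr, abs_mul]
    rw [Finset.sum_product]
    simp only []
    rw [← Finset.sum_mul_sum]
    ring
  rw [h3]
  have h4 : (∑ x ∈ S0 T, |c0 T x|) * ∑ p ∈ PF f T, |fi f T p| ≤
      (8192 * T ^ ((998 : ℝ) / 1000)) * (2 * M * T) :=
    mul_le_mul h2 h1 h0 (by positivity)
  linarith

private theorem diag_half {f : TF} {T : ℝ} (hT : 1 < T) (hf : ∀ y, |y| ≤ 499 / 1000 → f.h y = SB y) :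
    ∑ i ∈ IH T, ∑ j ∈ IH T, ∑ p ∈ PF f T,
      (if nu i * de j = de i * nu j * p then cf T i * cf T j * fi f T p else 0) =
    -(B1T T / 2) := by
  have e0 : ∑ i ∈ IH T, ∑ j ∈ IH T, ∑ p ∈ PF f T,
      (if nu i * de j = de i * nu j * p then cf T i * cf T j * fi f T p else 0) =
      ∑ i ∈ IH T, ∑ j ∈ IH T, ∑ p ∈ PP T,
      cf T i * cf T j * fi f T p * (if nu i * de j = de i * nu j * p then (1 : ℝ) else 0) := by
    refine Finset.sum_congr rfl fun i _ => Finset.sum_congr rfl fun j _ => ?_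
    have e1 : ∀ p ∈ PF f T, (if nu i * de j = de i * nu j * p then cf T i * cf T j * fi f T p else 0) =
        cf T i * cf T j * fi f T p * (if nu i * de j = de i * nu j * p then (1 : ℝ) else 0) := by
      intro p _
      split_ifs <;> simp
    rw [Finset.sum_congr rfl e1]
    refine Finset.sum_subset (Finset.filter_subset _ _) fun p hp hnp => ?_
    rw [fi_zero hp hnp, mul_zero, zero_mul]
  rw [e0]
  have e2 := diag3 hT (fi f T)
  have hy : ∀ p ∈ PP T, 0 ≤ yy T p := fun p hp => yy_nonneg hT (PP_prime hp).one_lt.le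
  have hh : ∀ p ∈ PP T, yy T p ≤ 499 / 1000 → f.h (yy T p) = SB (yy T p) := fun p hp h =>
    hf _ (by rw [abs_of_nonneg (hy p hp)]; exact h)
  have e3 : ∑ p ∈ S10 T, ww T p * al (yy T p) * fi f T p =
      ∑ p ∈ S10 T, ww T p ^ 2 * (SB (yy T p) * al (yy T p)) := by
    refine Finset.sum_congr rfl fun p hp => ?_
    have h := Finset.mem_filter.1 hp
    rw [fi, hh p h.1 h.2]
    ring
  have e4 : ∑ x ∈ ((PP T) ×ˢ (PP T)).filter (fun x => x.1 ≠ x.2 ∧ yy T x.1 + yy T x.2 ≤ 499 / 1000),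
      ww T x.1 ^ 2 * ww T x.2 * al (yy T x.1) * fi f T x.2 =
      ∑ x ∈ ((PP T) ×ˢ (PP T)).filter (fun x => x.1 ≠ x.2 ∧ yy T x.1 + yy T x.2 ≤ 499 / 1000),
      ww T x.1 ^ 2 * ww T x.2 ^ 2 * (SB (yy T x.2) * al (yy T x.1)) := by
    refine Finset.sum_congr rfl fun x hx => ?_
    have h := Finset.mem_filter.1 hx
    have h1 := Finset.mem_product.1 h.1
    rw [fi, hh x.2 h1.2 (by linarith [h.2.2, hy x.1 h1.1])]
    ring
  have e5 : ∑ x ∈ S11 T, ww T x.1 ^ 2 * ww T x.2 * al (yy T x.1) * fi f T x.2 =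
      ∑ x ∈ S11 T, ww T x.1 ^ 2 * ww T x.2 ^ 2 * (SB (yy T x.2) * al (yy T x.1)) := by
    refine Finset.sum_congr rfl fun x hx => ?_
    have h := Finset.mem_filter.1 hx
    have h1 := Finset.mem_product.1 h.1
    rw [fi, hh x.2 h1.2 (by linarith [h.2.2, hy x.1 h1.1])]
    ring
  rw [e3, e4, e5] at e2
  rw [B1T]
  refine Eq.trans ?_ (e2.trans (by ring))
  refine Finset.sum_congr rfl fun i _ => Finset.sum_congr rfl fun j _ =>
    Finset.sum_congr rfl fun p _ => ?_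
  congr 1

private theorem diag_tot {f : TF} {T : ℝ} (hT : 1 < T) (hf : ∀ y, |y| ≤ 499 / 1000 → f.h y = SB y) :
    ∑ i ∈ S1x f T, (if a1 i = b1 i then c1 f T i else 0) = -B1T T := by
  have hd := diag_half hT hf
  rw [S1x, Finset.sum_disjSum, Finset.sum_product, Finset.sum_product, S0, Finset.sum_disjSum,
    Finset.sum_disjSum, Finset.sum_product, Finset.sum_product, Finset.sum_product,
    Finset.sum_product]
  have z1 : ∑ p ∈ S01 T, ∑ q ∈ S01 T, ∑ r ∈ PF f T,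
      (if a1 (Sum.inl (Sum.inr (p, q), r)) = b1 (Sum.inl (Sum.inr (p, q), r)) then
        c1 f T (Sum.inl (Sum.inr (p, q), r)) else 0) = 0 := by
    refine Finset.sum_eq_zero fun p hp => Finset.sum_eq_zero fun q hq =>
      Finset.sum_eq_zero fun r hr => ?_
    rw [if_neg]
    intro h
    simp only [a1, b1, aa, ab, Sum.elim_inl, Sum.elim_inr] at h
    exact diag3_BB hq hp (Finset.mem_filter.1 hr).1 h.symm
  have z2 : ∑ p ∈ S01 T, ∑ q ∈ S01 T, ∑ r ∈ PF f T,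
      (if a1 (Sum.inr (Sum.inr (p, q), r)) = b1 (Sum.inr (Sum.inr (p, q), r)) then
        c1 f T (Sum.inr (Sum.inr (p, q), r)) else 0) = 0 := by
    refine Finset.sum_eq_zero fun p hp => Finset.sum_eq_zero fun q hq =>
      Finset.sum_eq_zero fun r hr => ?_
    rw [if_neg]
    intro h
    simp only [a1, b1, aa, ab, Sum.elim_inr] at h
    exact diag3_BB hp hq (Finset.mem_filter.1 hr).1 h
  have w2 : ∑ i ∈ IH T, ∑ j ∈ IH T, ∑ r ∈ PF f T,
      (if a1 (Sum.inr (Sum.inl (i, j), r)) = b1 (Sum.inr (Sum.inl (i, j), r)) then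
        c1 f T (Sum.inr (Sum.inl (i, j), r)) else 0) = -(B1T T / 2) := by
    rw [← hd]
    rfl
  have w1 : ∑ i ∈ IH T, ∑ j ∈ IH T, ∑ r ∈ PF f T,
      (if a1 (Sum.inl (Sum.inl (i, j), r)) = b1 (Sum.inl (Sum.inl (i, j), r)) then
        c1 f T (Sum.inl (Sum.inl (i, j), r)) else 0) = -(B1T T / 2) := by
    rw [← hd, Finset.sum_comm]
    refine Finset.sum_congr rfl fun j _ => Finset.sum_congr rfl fun i _ =>
      Finset.sum_congr rfl fun r _ => ?_
    simp only [a1, b1, c1, c0, aa, ab, Sum.elim_inl]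
    have h : (nu i * de j * r = de i * nu j) = (nu j * de i = de j * nu i * r) := by
      apply propext
      constructor
      · intro h
        rw [mul_comm (nu j), ← h]
        ring
      · intro h
        rw [mul_comm (de i), h]
        ring
    simp only [h, mul_comm (cf T i) (cf T j)]
  rw [z1, z2, w1, w2]
  ring

theorem E3 (g f : TF) (hf : ∀ y, |y| ≤ 499 / 1000 → f.h y = SB y) {ε : ℝ} (hε : 0 < ε) : ∀ᶠ T : ℝ in atTop,
    |(∫ t, om g.h T t * (F1 T t * prp f.h 1 T t)) + T * (∫ x, g.h x) * B1T T| ≤ ε * T := by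
  obtain ⟨C, hC, hmv⟩ := gmv g (δ := 1 / 4) (by norm_num) 20
  obtain ⟨M, hM, hMb⟩ := f_bd f
  filter_upwards [eventually_gt_atTop 1, eventually_ge_atTop (32768 * C * M / ε)] with T hT hTC
  have hT0 : 0 < T := by linarith
  have key := hmv T hT.le _ (S1x f T) (c1 f T) a1 b1 (min_cond hT)
  simp only [← prod_eq hT] at key
  rw [diag_tot hT hf] at key
  have e0 : (∫ t, om g.h T t * (F1 T t * prp f.h 1 T t)) + T * (∫ x, g.h x) * B1T T =
      (∫ t, om g.h T t * (F1 T t * prp f.h 1 T t)) - T * (∫ x, g.h x) * (-B1T T) := by ring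
  rw [e0]
  refine key.trans ?_
  have e4 : C * T ^ ((1 : ℝ) - 1 / 4 * (20 : ℕ)) ≤ C * T ^ (-4 : ℝ) := by
    refine mul_le_mul_of_nonneg_left (le_of_eq ?_) hC.le
    congr 1
    norm_num
  have e5 : 0 ≤ T ^ (-4 : ℝ) := Real.rpow_nonneg hT0.le _
  have e6 : T ^ (-4 : ℝ) * (T ^ ((998 : ℝ) / 1000) * T) ≤ 1 := by
    have h1 : T ^ (-4 : ℝ) * (T ^ ((998 : ℝ) / 1000) * T) =
        T ^ ((-4 : ℝ) + ((998 : ℝ) / 1000 + 1)) := by
      rw [Real.rpow_add hT0, Real.rpow_add hT0, Real.rpow_one]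
    rw [h1]
    exact Real.rpow_le_one_of_one_le_of_nonpos hT.le (by norm_num)
  calc C * T ^ ((1 : ℝ) - 1 / 4 * (20 : ℕ)) * ∑ i ∈ S1x f T, |c1 f T i|
      ≤ C * T ^ (-4 : ℝ) * (32768 * M * (T ^ ((998 : ℝ) / 1000) * T)) :=
        mul_le_mul e4 (sum_abs_le hM hMb hT) (Finset.sum_nonneg fun i _ => abs_nonneg _)
          (mul_nonneg hC.le e5)
    _ = 32768 * C * M * (T ^ (-4 : ℝ) * (T ^ ((998 : ℝ) / 1000) * T)) := by ring
    _ ≤ 32768 * C * M * 1 := mul_le_mul_of_nonneg_left e6 (by positivity)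
    _ ≤ ε * T := by
        rw [div_le_iff₀ hε] at hTC
        linarith

end Pool.Agent.Helper4.SH
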