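import Pool.Agent.Helper4.SH.GMV
import Pool.Agent.Helper4.SH.Diag4

/-!
# SH-E4: the mean value of `F2` times the prime sum

As in `E3`: `prp f.h 2 T t = ∑_{p ≤ T} 2 ww p f.h(yy p/2) cos(t log p)`, `f.h(yy p/2) = 0` unless `p ≤ T^(2 f.th)`, `2 f.th < 1`.
Terms `cos(t(ph i + log q)) cos(t log p)`: `a = nu i * q * p, b = de i` and `a = nu i * q, b = de i * p`;
`a * b ≤ T^(0.832 + 2 f.th)`, so `min(a,b) ≤ T^(0.416 + f.th)`, `δ = 0.084`. Sum of absolute values at most `2 (64 T^0.499)² · T · C`.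
The first has no diagonal (`diag4_none`), the second is `diag4` with `φ p = ww p * f.h(yy p/2)`; in all terms of `diag4`, `yy p ≤ 0.499`, and
`f.h(yy p/2) = SB(yy p)`.
-/

open MeasureTheory Set Filter Topology
open Pool.Agent.Helper57.Zeta Pool.Agent.Helper57.PC Pool.Agent.Helper57.LH Pool.Agent.Helper78.SG
open scoped ContDiff

namespace Pool.Agent.Helper4.SH

/-- coefficient of `E4` -/
private noncomputable def e4c (f : TF) (T : ℝ) (x : Bool × Ix × ℕ × ℕ) : ℝ :=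
  2 * (cf T x.2.1 * cl T x.2.2.1 * (ww T x.2.2.2 * f.h (yy T x.2.2.2 / 2)))

/-- numerator of `E4` -/
private def e4a (x : Bool × Ix × ℕ × ℕ) : ℕ :=
  bif x.1 then nu x.2.1 * x.2.2.1 * x.2.2.2 else nu x.2.1 * x.2.2.1

/-- denominator of `E4` -/
private def e4b (x : Bool × Ix × ℕ × ℕ) : ℕ :=
  bif x.1 then de x.2.1 else de x.2.1 * x.2.2.2

/-- the primes which count -/
private noncomputable def e4P (f : TF) (T : ℝ) : Finset ℕ :=
  (PP T).filter (fun p => f.h (yy T p / 2) ≠ 0)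

private noncomputable def e4S (f : TF) (T : ℝ) : Finset (Bool × Ix × ℕ × ℕ) :=
  (Finset.univ : Finset Bool) ×ˢ (IH T ×ˢ (S01 T ×ˢ e4P f T))

private theorem e4_bound (f : TF) : ∃ B : ℝ, 0 < B ∧ ∀ y, |f.h y| ≤ B := by
  have hc : HasCompactSupport f.h := by
    refine HasCompactSupport.intro (isCompact_Icc (a := -f.th) (b := f.th)) fun x hx => ?_
    refine f.supp x ?_
    by_contra h
    push Not at h
    exact hx ⟨(abs_lt.1 h).1.le, (abs_lt.1 h).2.le⟩
  obtain ⟨B, hB⟩ := hc.exists_bound_of_continuous f.smooth.continuous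
  refine ⟨|B| + 1, by positivity, fun y => ?_⟩
  have h1 := hB y
  rw [Real.norm_eq_abs] at h1
  have h2 := le_abs_self B
  linarith

private theorem e4_prime {T : ℝ} {p : ℕ} (hp : p ∈ PP T) : p.Prime := (Finset.mem_filter.1 hp).2

private theorem e4_le {T : ℝ} (hT : 1 < T) {p : ℕ} (hp : p ∈ PP T) : (p : ℝ) ≤ T := by
  have h1 := (Finset.mem_filter.1 hp).1
  rw [Finset.mem_range] at h1
  have h2 : p ≤ ⌊T⌋₊ := by omega
  exact (Nat.cast_le.2 h2).trans (Nat.floor_le (by linarith))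

private theorem e4_card {T : ℝ} (hT : 1 < T) : ((PP T).card : ℝ) ≤ T + 1 := by
  have h1 : (PP T).card ≤ ⌊T⌋₊ + 1 := by
    refine (Finset.card_filter_le _ _).trans ?_
    rw [Finset.card_range]
  have h2 : ((⌊T⌋₊ : ℕ) : ℝ) ≤ T := Nat.floor_le (by linarith)
  calc ((PP T).card : ℝ) ≤ ((⌊T⌋₊ + 1 : ℕ) : ℝ) := Nat.cast_le.2 h1
    _ = (⌊T⌋₊ : ℝ) + 1 := by push_cast; ring
    _ ≤ T + 1 := by linarith

private theorem e4_yy {T : ℝ} (hT : 1 < T) {p : ℕ} (hp : p.Prime) : 0 ≤ yy T p :=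
  div_nonneg (Real.log_nonneg (by exact_mod_cast hp.one_lt.le)) (Real.log_pos hT).le

private theorem e4_pow {T : ℝ} (hT : 1 < T) {p : ℕ} (hp : p.Prime) {y : ℝ} (hy : yy T p ≤ y) :
    (p : ℝ) ≤ T ^ y := by
  have hl : 0 < Real.log T := Real.log_pos hT
  have hp0 : (0 : ℝ) < p := by exact_mod_cast hp.pos
  rw [← Real.log_le_log_iff hp0 (Real.rpow_pos_of_pos (by linarith) _), Real.log_rpow (by linarith)]
  exact (div_le_iff₀ hl).1 hy

private theorem e4_mem {f : TF} {T : ℝ} {p : ℕ} (hp : p ∈ e4P f T) :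
    p ∈ PP T ∧ f.h (yy T p / 2) ≠ 0 := Finset.mem_filter.1 hp

private theorem e4_cond (f : TF) {T : ℝ} (hT : 1 < T) (x : Bool × Ix × ℕ × ℕ) (hx : x ∈ e4S f T) :
    1 ≤ e4a x ∧ 1 ≤ e4b x ∧
      ((min (e4a x) (e4b x) : ℕ) : ℝ) ≤ T ^ (1 - (84 : ℝ) / 1000) := by
  obtain ⟨s, i, q, p⟩ := x
  obtain ⟨-, hx⟩ := Finset.mem_product.1 hx
  obtain ⟨hi, hx⟩ := Finset.mem_product.1 hx
  obtain ⟨hq, hp⟩ := Finset.mem_product.1 hx
  dsimp only at hi hq hp
  obtain ⟨hn, hd, -, -, -, -, hnd, -, -⟩ := IH_props hT i hi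
  obtain ⟨hqp, hqT, -, hq3⟩ := S01_props hT q hq
  obtain ⟨hpT, hp0⟩ := e4_mem hp
  have hpp := e4_prime hpT
  have hy : yy T p ≤ 2 * f.th := by
    by_contra h
    push Not at h
    refine hp0 (f.supp _ ?_)
    rw [abs_of_nonneg (by have := e4_yy hT hpp; linarith)]
    linarith
  have hple := e4_pow hT hpp hy
  have hT0 : (0 : ℝ) < T := by linarith
  have hprod : (nu i : ℝ) * de i * (q * p) ≤ T ^ (2 * (1 - (84 : ℝ) / 1000)) := by
    calc (nu i : ℝ) * de i * (q * p) ≤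
        T ^ ((499 : ℝ) / 1000) * (T ^ ((333 : ℝ) / 1000) * T ^ (2 * f.th)) := by
          gcongr
      _ = T ^ ((499 : ℝ) / 1000 + ((333 : ℝ) / 1000 + 2 * f.th)) := by
          rw [Real.rpow_add hT0, Real.rpow_add hT0]
      _ ≤ T ^ (2 * (1 - (84 : ℝ) / 1000)) := by
          refine Real.rpow_le_rpow_of_exponent_le hT.le ?_
          have := f.th1
          linarith
  have hab : ((e4a (s, i, q, p) : ℕ) : ℝ) * ((e4b (s, i, q, p) : ℕ) : ℝ) =
      (nu i : ℝ) * de i * (q * p) := by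
    cases s
    · simp only [e4a, e4b, cond_false]
      push_cast
      ring
    · simp only [e4a, e4b, cond_true]
      push_cast
      ring
  have ha : 1 ≤ e4a (s, i, q, p) := by
    rw [Nat.one_le_iff_ne_zero]
    cases s
    · exact mul_ne_zero hn hqp.ne_zero
    · exact mul_ne_zero (mul_ne_zero hn hqp.ne_zero) hpp.ne_zero
  have hb : 1 ≤ e4b (s, i, q, p) := by
    rw [Nat.one_le_iff_ne_zero]
    cases s
    · exact mul_ne_zero hd hpp.ne_zero
    · exact hd
  refine ⟨ha, hb, ?_⟩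
  set a := e4a (s, i, q, p)
  set b := e4b (s, i, q, p)
  have h1 : ((min a b : ℕ) : ℝ) ≤ a := Nat.cast_le.2 (min_le_left _ _)
  have h2 : ((min a b : ℕ) : ℝ) ≤ b := Nat.cast_le.2 (min_le_right _ _)
  have h0 : (0 : ℝ) ≤ ((min a b : ℕ) : ℝ) := Nat.cast_nonneg _
  have h3 : ((min a b : ℕ) : ℝ) * ((min a b : ℕ) : ℝ) ≤ T ^ (2 * (1 - (84 : ℝ) / 1000)) := by
    refine (mul_le_mul h1 h2 h0 (h0.trans h1)).trans ?_
    rw [hab]
    exact hprod
  have h4 : T ^ (2 * (1 - (84 : ℝ) / 1000)) =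
      T ^ (1 - (84 : ℝ) / 1000) * T ^ (1 - (84 : ℝ) / 1000) := by
    rw [← Real.rpow_add hT0]
    congr 1
    ring
  rw [h4] at h3
  exact abs_le_of_sq_le_sq' (by nlinarith) (Real.rpow_nonneg hT0.le _) |>.2

private theorem e4_sum (f : TF) (T : ℝ) (F : Ix → ℕ → ℕ → ℝ)
    (hF : ∀ i q p, f.h (yy T p / 2) = 0 → F i q p = 0) :
    ∑ i ∈ IH T, ∑ q ∈ S01 T, ∑ p ∈ e4P f T, F i q p =
      ∑ i ∈ IH T, ∑ q ∈ S01 T, ∑ p ∈ PP T, F i q p := by
  refine Finset.sum_congr rfl fun i _ => Finset.sum_congr rfl fun q _ => ?_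
  refine Finset.sum_subset (Finset.filter_subset _ _) fun p hp hp' => ?_
  refine hF i q p ?_
  by_contra h
  exact hp' (Finset.mem_filter.2 ⟨hp, h⟩)

private theorem e4_expand (f : TF) (T : ℝ) (F : Bool × Ix × ℕ × ℕ → ℝ) :
    ∑ x ∈ e4S f T, F x = ∑ i ∈ IH T, ∑ q ∈ S01 T, ∑ p ∈ e4P f T,
      (F (true, i, q, p) + F (false, i, q, p)) := by
  unfold e4S
  rw [Finset.sum_product]
  simp only [Finset.sum_product, Fintype.sum_bool]
  simp only [← Finset.sum_add_distrib]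

private theorem e4_point (f : TF) {T : ℝ} (hT : 1 < T) (t : ℝ) :
    F2 T t * prp f.h 2 T t = ∑ x ∈ e4S f T, e4c f T x *
      Real.cos (t * (Real.log (e4a x) - Real.log (e4b x))) := by
  rw [e4_expand]
  have h1 : F2 T t * prp f.h 2 T t = ∑ i ∈ IH T, ∑ q ∈ S01 T, ∑ p ∈ PP T,
      (2 * (cf T i * cl T q * (ww T p * f.h (yy T p / 2))) *
        (Real.cos (t * (ph i + Real.log q + Real.log p)) +
          Real.cos (t * (ph i + Real.log q - Real.log p)))) := by
    unfold F2 prp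
    rw [mul_assoc, Finset.sum_mul, Finset.mul_sum]
    refine Finset.sum_congr rfl fun i _ => ?_
    rw [Finset.sum_mul, Finset.mul_sum]
    refine Finset.sum_congr rfl fun q _ => ?_
    rw [Finset.mul_sum, Finset.mul_sum]
    refine Finset.sum_congr rfl fun p _ => ?_
    have e1 : t * (ph i + Real.log q + Real.log p) =
        t * (ph i + Real.log q) + Real.log p * t := by ring
    have e2 : t * (ph i + Real.log q - Real.log p) =
        t * (ph i + Real.log q) - Real.log p * t := by ring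
    rw [e1, e2, Real.cos_add, Real.cos_sub]
    ring
  rw [h1, ← e4_sum f T]
  · refine Finset.sum_congr rfl fun i hi => Finset.sum_congr rfl fun q hq =>
      Finset.sum_congr rfl fun p hp => ?_
    obtain ⟨hn, hd, -⟩ := IH_props hT i hi
    have hq0 := (S01_props hT q hq).1.ne_zero
    have hp0 := (e4_prime (e4_mem hp).1).ne_zero
    have hn' : (nu i : ℝ) ≠ 0 := Nat.cast_ne_zero.2 hn
    have hd' : (de i : ℝ) ≠ 0 := Nat.cast_ne_zero.2 hd
    have hq' : (q : ℝ) ≠ 0 := Nat.cast_ne_zero.2 hq0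
    have hp' : (p : ℝ) ≠ 0 := Nat.cast_ne_zero.2 hp0
    have e1 : Real.log ((e4a (true, i, q, p) : ℕ) : ℝ) - Real.log ((e4b (true, i, q, p) : ℕ) : ℝ) =
        ph i + Real.log q + Real.log p := by
      simp only [e4a, e4b, cond_true]
      push_cast
      rw [Real.log_mul (mul_ne_zero hn' hq') hp', Real.log_mul hn' hq']
      unfold ph
      ring
    have e2 : Real.log ((e4a (false, i, q, p) : ℕ) : ℝ) - Real.log ((e4b (false, i, q, p) : ℕ) : ℝ) =
        ph i + Real.log q - Real.log p := by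
      simp only [e4a, e4b, cond_false]
      push_cast
      rw [Real.log_mul hd' hp', Real.log_mul hn' hq']
      unfold ph
      ring
    rw [e1, e2]
    unfold e4c
    ring
  · intro i q p h
    rw [h]
    ring

private theorem e4_diag (f : TF) (hf : ∀ y, |y| ≤ 416 / 1000 → f.h y = SB (2 * y)) {T : ℝ}
    (hT : 1 < T) : ∑ x ∈ e4S f T, (if e4a x = e4b x then e4c f T x else 0) = -B2T T := by
  classical
  rw [e4_expand]
  have h1 : ∑ i ∈ IH T, ∑ q ∈ S01 T, ∑ p ∈ e4P f T,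
      ((if e4a (true, i, q, p) = e4b (true, i, q, p) then e4c f T (true, i, q, p) else 0) +
        (if e4a (false, i, q, p) = e4b (false, i, q, p) then e4c f T (false, i, q, p) else 0)) =
      2 * ∑ i ∈ IH T, ∑ q ∈ S01 T, ∑ p ∈ PP T, cf T i * cl T q * (ww T p * f.h (yy T p / 2)) *
        (if nu i * q = de i * p then (1 : ℝ) else 0) := by
    rw [← e4_sum f T]
    · rw [Finset.mul_sum]
      refine Finset.sum_congr rfl fun i hi => ?_
      rw [Finset.mul_sum]
      refine Finset.sum_congr rfl fun q hq => ?_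
      rw [Finset.mul_sum]
      refine Finset.sum_congr rfl fun p hp => ?_
      have k1 : ¬ (e4a (true, i, q, p) = e4b (true, i, q, p)) := by
        simp only [e4a, e4b, cond_true]
        exact diag4_none hT hi hq (e4_mem hp).1
      rw [if_neg k1, zero_add]
      simp only [e4a, e4b, cond_false]
      by_cases k2 : nu i * q = de i * p
      · rw [if_pos k2, if_pos k2]
        unfold e4c
        ring
      · rw [if_neg k2, if_neg k2]
        ring
    · intro i q p h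
      rw [h]
      ring
  rw [h1]
  have h2 := diag4 hT (fun p => ww T p * f.h (yy T p / 2))
  have h3 : ∑ i ∈ IH T, ∑ q ∈ S01 T, ∑ p ∈ PP T, cf T i * cl T q * (ww T p * f.h (yy T p / 2)) *
        (if nu i * q = de i * p then (1 : ℝ) else 0) =
      -((∑ p ∈ S01 T, ww T p * bl (yy T p) * (ww T p * f.h (yy T p / 2)))
      + 16 * (∑ x ∈ S11 T, ww T x.1 * ww T x.2 ^ 2 * bl (yy T x.2) *
        (ww T x.1 * f.h (yy T x.1 / 2)))) := by
    rw [← h2]
  rw [h3]
  have h4 : ∑ p ∈ S01 T, ww T p * bl (yy T p) * (ww T p * f.h (yy T p / 2)) =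
      ∑ p ∈ S01 T, ww T p ^ 2 * (SB (yy T p) * bl (yy T p)) := by
    refine Finset.sum_congr rfl fun p hp => ?_
    have k1 := (Finset.mem_filter.1 hp).2
    have k2 := e4_yy hT (e4_prime (Finset.mem_filter.1 hp).1)
    rw [hf _ (by rw [abs_of_nonneg (by linarith)]; linarith), mul_div_cancel₀ _ (two_ne_zero)]
    ring
  have h5 : ∑ x ∈ S11 T, ww T x.1 * ww T x.2 ^ 2 * bl (yy T x.2) *
        (ww T x.1 * f.h (yy T x.1 / 2)) =
      ∑ x ∈ S11 T, ww T x.1 ^ 2 * ww T x.2 ^ 2 * (SB (yy T x.1) * bl (yy T x.2)) := by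
    refine Finset.sum_congr rfl fun x hx => ?_
    obtain ⟨k0, -, k1⟩ := Finset.mem_filter.1 hx
    obtain ⟨k2, k3⟩ := Finset.mem_product.1 k0
    have k4 := e4_yy hT (e4_prime k2)
    have k5 := e4_yy hT (e4_prime k3)
    rw [hf _ (by rw [abs_of_nonneg (by linarith)]; linarith), mul_div_cancel₀ _ (two_ne_zero)]
    ring
  rw [h4, h5]
  unfold B2T
  ring

private theorem e4_abs (f : TF) {B : ℝ} (hB0 : 0 < B) (hB : ∀ y, |f.h y| ≤ B) {T : ℝ} (hT : 1 < T) :
    ∑ x ∈ e4S f T, |e4c f T x| ≤ 32768 * B * T ^ (2 : ℝ) := by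
  rw [e4_expand]
  have hT0 : (0 : ℝ) < T := by linarith
  have h1 : ∀ i ∈ IH T, ∀ q ∈ S01 T, ∑ p ∈ e4P f T,
      (|e4c f T (true, i, q, p)| + |e4c f T (false, i, q, p)|) ≤
      (T + 1) * (4 * B) * (|cf T i| * |cl T q|) := by
    intro i _ q _
    calc ∑ p ∈ e4P f T, (|e4c f T (true, i, q, p)| + |e4c f T (false, i, q, p)|)
        ≤ ∑ p ∈ e4P f T, 4 * B * (|cf T i| * |cl T q|) := by
          refine Finset.sum_le_sum fun p hp => ?_
          have k1 : |ww T p| ≤ 1 := by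
            rw [abs_of_nonneg (ww_nonneg T hT p)]
            exact ww_le_one hT (e4_mem hp).1
          have k2 : |ww T p * f.h (yy T p / 2)| ≤ B := by
            rw [abs_mul]
            calc |ww T p| * |f.h (yy T p / 2)| ≤ 1 * B :=
                  mul_le_mul k1 (hB _) (abs_nonneg _) zero_le_one
              _ = B := one_mul B
          have k3 : ∀ s : Bool, |e4c f T (s, i, q, p)| ≤ 2 * (|cf T i| * |cl T q| * B) := by
            intro s
            unfold e4c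
            rw [abs_mul, abs_mul, abs_mul, abs_two]
            dsimp only
            have k4 : 0 ≤ |cf T i| * |cl T q| := mul_nonneg (abs_nonneg _) (abs_nonneg _)
            have k5 := mul_le_mul_of_nonneg_left k2 k4
            linarith
          have k6 := k3 true
          have k7 := k3 false
          linarith
      _ = (e4P f T).card * (4 * B * (|cf T i| * |cl T q|)) := by
          rw [Finset.sum_const, nsmul_eq_mul]
      _ ≤ (T + 1) * (4 * B * (|cf T i| * |cl T q|)) := by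
          have k8 : ((e4P f T).card : ℝ) ≤ T + 1 :=
            (Nat.cast_le.2 (Finset.card_filter_le _ _)).trans (e4_card hT)
          exact mul_le_mul_of_nonneg_right k8 (by positivity)
      _ = (T + 1) * (4 * B) * (|cf T i| * |cl T q|) := by ring
  have h2 : ∑ i ∈ IH T, ∑ q ∈ S01 T, (T + 1) * (4 * B) * (|cf T i| * |cl T q|) =
      (T + 1) * (4 * B) * ((∑ i ∈ IH T, |cf T i|) * ∑ q ∈ S01 T, |cl T q|) := by
    rw [Finset.sum_mul_sum, Finset.mul_sum]
    refine Finset.sum_congr rfl fun i _ => ?_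
    rw [Finset.mul_sum]
  have h3 : (∑ i ∈ IH T, |cf T i|) * ∑ q ∈ S01 T, |cl T q| ≤
      64 * T ^ ((499 : ℝ) / 1000) * (64 * T ^ ((499 : ℝ) / 1000)) :=
    mul_le_mul (sum_cf_le hT) (sum_cl_le hT) (Finset.sum_nonneg fun _ _ => abs_nonneg _)
      (by positivity)
  have h4 : T ^ ((499 : ℝ) / 1000) * T ^ ((499 : ℝ) / 1000) * T ≤ T ^ (2 : ℝ) := by
    have e : T ^ ((499 : ℝ) / 1000) * T ^ ((499 : ℝ) / 1000) * T =
        T ^ ((499 : ℝ) / 1000 + (499 : ℝ) / 1000 + 1) := by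
      rw [Real.rpow_add hT0, Real.rpow_add hT0, Real.rpow_one]
    rw [e]
    exact Real.rpow_le_rpow_of_exponent_le hT.le (by norm_num)
  calc ∑ i ∈ IH T, ∑ q ∈ S01 T, ∑ p ∈ e4P f T,
      (|e4c f T (true, i, q, p)| + |e4c f T (false, i, q, p)|)
      ≤ ∑ i ∈ IH T, ∑ q ∈ S01 T, (T + 1) * (4 * B) * (|cf T i| * |cl T q|) :=
        Finset.sum_le_sum fun i hi => Finset.sum_le_sum fun q hq => h1 i hi q hq
    _ = (T + 1) * (4 * B) * ((∑ i ∈ IH T, |cf T i|) * ∑ q ∈ S01 T, |cl T q|) := h2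
    _ ≤ (2 * T) * (4 * B) * (64 * T ^ ((499 : ℝ) / 1000) * (64 * T ^ ((499 : ℝ) / 1000))) := by
        refine mul_le_mul ?_ h3 ?_ (by positivity)
        · exact mul_le_mul_of_nonneg_right (by linarith) (by positivity)
        · exact mul_nonneg (Finset.sum_nonneg fun _ _ => abs_nonneg _)
            (Finset.sum_nonneg fun _ _ => abs_nonneg _)
    _ = 32768 * B * (T ^ ((499 : ℝ) / 1000) * T ^ ((499 : ℝ) / 1000) * T) := by ring
    _ ≤ 32768 * B * T ^ (2 : ℝ) := mul_le_mul_of_nonneg_left h4 (by positivity)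

theorem E4 (g f : TF) (hf : ∀ y, |y| ≤ 416 / 1000 → f.h y = SB (2 * y)) {ε : ℝ} (hε : 0 < ε) : ∀ᶠ T : ℝ in atTop,
    |(∫ t, om g.h T t * (F2 T t * prp f.h 2 T t)) + T * (∫ x, g.h x) * B2T T| ≤ ε * T := by
  obtain ⟨B, hB0, hB⟩ := e4_bound f
  obtain ⟨C, hC0, hC⟩ := gmv g (δ := 84 / 1000) (by norm_num) 50
  filter_upwards [eventually_gt_atTop (1 : ℝ), eventually_ge_atTop (C * (32768 * B) / ε)]
    with T hT hT2
  have hT0 : (0 : ℝ) < T := by linarith
  have h1 := hC T hT.le (Bool × Ix × ℕ × ℕ) (e4S f T) (e4c f T) e4a e4b (e4_cond f hT)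
  have h2 : (fun t => om g.h T t * (F2 T t * prp f.h 2 T t)) = fun t => om g.h T t *
      ∑ x ∈ e4S f T, e4c f T x * Real.cos (t * (Real.log (e4a x) - Real.log (e4b x))) :=
    funext fun t => by rw [e4_point f hT t]
  rw [← h2, e4_diag f hf hT] at h1
  have h3 := e4_abs f hB0 hB hT
  have h4 : (∫ t, om g.h T t * (F2 T t * prp f.h 2 T t)) + T * (∫ x, g.h x) * B2T T =
      (∫ t, om g.h T t * (F2 T t * prp f.h 2 T t)) - T * (∫ x, g.h x) * -B2T T := by ring
  rw [h4]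
  refine h1.trans ?_
  have h5 : T ^ (1 - (84 : ℝ) / 1000 * ((50 : ℕ) : ℝ)) * T ^ (2 : ℝ) ≤ 1 := by
    rw [← Real.rpow_add hT0]
    refine Real.rpow_le_one_of_one_le_of_nonpos hT.le ?_
    norm_num
  have h6 : C * (32768 * B) ≤ ε * T := by
    rw [div_le_iff₀ hε] at hT2
    linarith
  calc C * T ^ (1 - (84 : ℝ) / 1000 * ((50 : ℕ) : ℝ)) * ∑ x ∈ e4S f T, |e4c f T x|
      ≤ C * T ^ (1 - (84 : ℝ) / 1000 * ((50 : ℕ) : ℝ)) * (32768 * B * T ^ (2 : ℝ)) :=
        mul_le_mul_of_nonneg_left h3 (by positivity)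
    _ = C * (32768 * B) * (T ^ (1 - (84 : ℝ) / 1000 * ((50 : ℕ) : ℝ)) * T ^ (2 : ℝ)) := by ring
    _ ≤ C * (32768 * B) * 1 := mul_le_mul_of_nonneg_left h5 (by positivity)
    _ ≤ ε * T := by linarith

end Pool.Agent.Helper4.SH
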