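import Pool.Agent.Helper4.SH.S2
import Pool.Agent.Helper4.SH.Num

/-!
# SH-FN: the numerical input of the main theorem

`AT T = 1 + ∑_{S10} ww² al² + 256 ∑_{S20} ww² ww² + 256 ∑_{S11} ww² ww² + ∑_{S01} ww² bl²` (`Finset.sum_disjSum`), and
`∑_{S20} + ∑_{S11}` is the sum over `x.1 ≠ x.2` (split by `<` and `>`). Limits by `S1` (at `z = 0.499`, `0.333`), `S2a`, `S2b`.
In `B1T`, `B2T` replace `SB` by the smaller `SBl` first: all other factors are `≥ 0` (`al ≥ 0` on `y ≤ 0.499`, `bl ≥ 0` on `y ≤ 0.499`); or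
take limits with the continuous `SB` and compare integrals. Then `num_int`; `g0 = 1/200`.
-/

open MeasureTheory Set Filter Topology
open Pool.Agent.Helper57.Zeta Pool.Agent.Helper57.PC Pool.Agent.Helper57.LH Pool.Agent.Helper78.SG
open scoped ContDiff

namespace Pool.Agent.Helper4.SH

private theorem al_cont47 : Continuous al := by unfold al; fun_prop
private theorem bl_cont47 : Continuous bl := by unfold bl; fun_prop
private theorem SBl_cont47 : Continuous SBl := by unfold SBl; fun_prop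

private theorem yy_nonneg47 {T : ℝ} (hT : 1 < T) (p : ℕ) : 0 ≤ yy T p := by
  unfold yy
  exact div_nonneg (Real.log_natCast_nonneg p) (Real.log_pos hT).le

/-- the set of ordered pairs of different primes -/
private noncomputable def SN47 (T : ℝ) : Finset (ℕ × ℕ) :=
  ((PP T) ×ˢ (PP T)).filter (fun x => x.1 ≠ x.2 ∧ yy T x.1 + yy T x.2 ≤ 499 / 1000)

private theorem sum_SN47 (T : ℝ) (f : ℕ × ℕ → ℝ) :
    (∑ x ∈ S20 T, f x) + ∑ x ∈ S11 T, f x = ∑ x ∈ SN47 T, f x := by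
  unfold S20 S11 SN47
  simp only [Finset.sum_filter]
  rw [← Finset.sum_add_distrib]
  refine Finset.sum_congr rfl fun x _ => ?_
  by_cases h : yy T x.1 + yy T x.2 ≤ 499 / 1000
  · rcases lt_trichotomy x.1 x.2 with h1 | h1 | h1
    · simp [h, h1, h1.ne, not_lt.2 h1.le]
    · simp [h, h1]
    · simp [h, h1, h1.ne', not_lt.2 h1.le]
  · simp [h]

private theorem AT_eq47 (T : ℝ) : AT T = 1 + (∑ p ∈ S10 T, ww T p ^ 2 * al (yy T p) ^ 2)
    + 256 * (∑ x ∈ SN47 T, ww T x.1 ^ 2 * ww T x.2 ^ 2 * (1 * 1))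
    + ∑ p ∈ S01 T, ww T p ^ 2 * bl (yy T p) ^ 2 := by
  have h := sum_SN47 T (fun x => ww T x.1 ^ 2 * ww T x.2 ^ 2 * (1 * 1))
  rw [← h]
  unfold AT IH
  rw [Finset.sum_disjSum, Finset.sum_disjSum, Finset.sum_disjSum]
  have e0 : ∑ i ∈ (Finset.univ : Finset Unit), cf T (Sum.inl i) ^ 2 = 1 := by simp [cf]
  have e1 : ∑ p ∈ S10 T, cf T (Sum.inr (Sum.inl p)) ^ 2 = ∑ p ∈ S10 T, ww T p ^ 2 * al (yy T p) ^ 2 :=
    Finset.sum_congr rfl fun p _ => by simp only [cf]; ring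
  have e2 : ∑ x ∈ S20 T, cf T (Sum.inr (Sum.inr (Sum.inl x))) ^ 2
      = 256 * ∑ x ∈ S20 T, ww T x.1 ^ 2 * ww T x.2 ^ 2 * (1 * 1) := by
    rw [Finset.mul_sum]
    exact Finset.sum_congr rfl fun p _ => by simp only [cf]; ring
  have e3 : ∑ x ∈ S11 T, cf T (Sum.inr (Sum.inr (Sum.inr x))) ^ 2
      = 256 * ∑ x ∈ S11 T, ww T x.1 ^ 2 * ww T x.2 ^ 2 * (1 * 1) := by
    rw [Finset.mul_sum]
    exact Finset.sum_congr rfl fun p _ => by simp only [cf]; ring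
  have e4 : ∑ q ∈ S01 T, cl T q ^ 2 = ∑ p ∈ S01 T, ww T p ^ 2 * bl (yy T p) ^ 2 :=
    Finset.sum_congr rfl fun p _ => by simp only [cl]; ring
  rw [e0, e1, e2, e3, e4]
  ring

private theorem al_nonneg47 {y : ℝ} (h : y ≤ 499 / 1000) : 0 ≤ al y := by unfold al; linarith
private theorem bl_nonneg47 {y : ℝ} (h : y ≤ 499 / 1000) : 0 ≤ bl y := by unfold bl; linarith

private theorem B1_ge47 {T : ℝ} (hT : 1 < T) :
    2 * ((∑ p ∈ S10 T, ww T p ^ 2 * (SBl (yy T p) * al (yy T p)))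
      + 16 * (∑ x ∈ SN47 T, ww T x.1 ^ 2 * ww T x.2 ^ 2 * (al (yy T x.1) * SBl (yy T x.2)))
      + 16 * (∑ x ∈ S11 T, ww T x.1 ^ 2 * ww T x.2 ^ 2 * (al (yy T x.1) * SBl (yy T x.2)))) ≤ B1T T := by
  unfold B1T
  have h1 : ∑ p ∈ S10 T, ww T p ^ 2 * (SBl (yy T p) * al (yy T p))
      ≤ ∑ p ∈ S10 T, ww T p ^ 2 * (SB (yy T p) * al (yy T p)) := by
    refine Finset.sum_le_sum fun p hp => ?_
    have hy : yy T p ≤ 499 / 1000 := (Finset.mem_filter.1 hp).2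
    exact mul_le_mul_of_nonneg_left (mul_le_mul_of_nonneg_right (SB_ge _) (al_nonneg47 hy)) (sq_nonneg _)
  have h2 : ∑ x ∈ SN47 T, ww T x.1 ^ 2 * ww T x.2 ^ 2 * (al (yy T x.1) * SBl (yy T x.2))
      ≤ ∑ x ∈ SN47 T, ww T x.1 ^ 2 * ww T x.2 ^ 2 * (SB (yy T x.2) * al (yy T x.1)) := by
    refine Finset.sum_le_sum fun x hx => ?_
    have hy : yy T x.1 + yy T x.2 ≤ 499 / 1000 := (Finset.mem_filter.1 hx).2.2
    have hy1 := yy_nonneg47 hT x.2
    refine mul_le_mul_of_nonneg_left ?_ (by positivity)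
    rw [mul_comm (al _)]
    exact mul_le_mul_of_nonneg_right (SB_ge _) (al_nonneg47 (by linarith))
  have h3 : ∑ x ∈ S11 T, ww T x.1 ^ 2 * ww T x.2 ^ 2 * (al (yy T x.1) * SBl (yy T x.2))
      ≤ ∑ x ∈ S11 T, ww T x.1 ^ 2 * ww T x.2 ^ 2 * (SB (yy T x.2) * al (yy T x.1)) := by
    refine Finset.sum_le_sum fun x hx => ?_
    have hy : yy T x.1 + yy T x.2 ≤ 499 / 1000 := (Finset.mem_filter.1 hx).2.2
    have hy1 := yy_nonneg47 hT x.2
    refine mul_le_mul_of_nonneg_left ?_ (by positivity)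
    rw [mul_comm (al _)]
    exact mul_le_mul_of_nonneg_right (SB_ge _) (al_nonneg47 (by linarith))
  have h2' : ∑ x ∈ ((PP T) ×ˢ (PP T)).filter (fun x => x.1 ≠ x.2 ∧ yy T x.1 + yy T x.2 ≤ 499 / 1000),
      ww T x.1 ^ 2 * ww T x.2 ^ 2 * (SB (yy T x.2) * al (yy T x.1))
      = ∑ x ∈ SN47 T, ww T x.1 ^ 2 * ww T x.2 ^ 2 * (SB (yy T x.2) * al (yy T x.1)) := rfl
  rw [h2']
  linarith

private theorem B2_ge47 {T : ℝ} (hT : 1 < T) :
    2 * ((∑ p ∈ S01 T, ww T p ^ 2 * (SBl (yy T p) * bl (yy T p)))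
      + 16 * (∑ x ∈ S11 T, ww T x.1 ^ 2 * ww T x.2 ^ 2 * (SBl (yy T x.1) * bl (yy T x.2)))) ≤ B2T T := by
  unfold B2T
  have h1 : ∑ p ∈ S01 T, ww T p ^ 2 * (SBl (yy T p) * bl (yy T p))
      ≤ ∑ p ∈ S01 T, ww T p ^ 2 * (SB (yy T p) * bl (yy T p)) := by
    refine Finset.sum_le_sum fun p hp => ?_
    have hy : yy T p ≤ 333 / 1000 := (Finset.mem_filter.1 hp).2
    exact mul_le_mul_of_nonneg_left (mul_le_mul_of_nonneg_right (SB_ge _) (bl_nonneg47 (by linarith)))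
      (sq_nonneg _)
  have h3 : ∑ x ∈ S11 T, ww T x.1 ^ 2 * ww T x.2 ^ 2 * (SBl (yy T x.1) * bl (yy T x.2))
      ≤ ∑ x ∈ S11 T, ww T x.1 ^ 2 * ww T x.2 ^ 2 * (SB (yy T x.1) * bl (yy T x.2)) := by
    refine Finset.sum_le_sum fun x hx => ?_
    have hy : yy T x.1 + yy T x.2 ≤ 499 / 1000 := (Finset.mem_filter.1 hx).2.2
    have hy1 := yy_nonneg47 hT x.1
    refine mul_le_mul_of_nonneg_left ?_ (by positivity)
    exact mul_le_mul_of_nonneg_right (SB_ge _) (bl_nonneg47 (by linarith))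
  linarith

private theorem AT_lim47 {ε : ℝ} (hε : 0 < ε) : ∀ᶠ T : ℝ in atTop,
    AT T ≤ 1 + (∫ y in (0:ℝ)..(499 / 1000), y * al y ^ 2) + (∫ y in (0:ℝ)..(333 / 1000), y * bl y ^ 2)
      + 256 * (∫ y in (0:ℝ)..(499 / 1000), y * 1 * ∫ z in (0:ℝ)..(499 / 1000 - y), z * 1) + 258 * ε := by
  have a1 := S1 (φ := fun y => al y ^ 2) (al_cont47.pow 2) hε
  have a2 := S1 (φ := fun y => bl y ^ 2) (bl_cont47.pow 2) hε
  have a3 := S2a (φ := fun _ => 1) (ψ := fun _ => 1) continuous_const continuous_const hε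
  filter_upwards [a1, a2, a3] with T h1 h2 h3
  have g1 := (abs_le.1 (h1 (499 / 1000) ⟨by norm_num, by norm_num⟩)).2
  have g2 := (abs_le.1 (h2 (333 / 1000) ⟨by norm_num, by norm_num⟩)).2
  have g3 := (abs_le.1 h3).2
  rw [AT_eq47]
  unfold S10 S01 SN47
  linarith

theorem fin_num : ∀ᶠ T : ℝ in atTop, 32 / 100 * AT T + 1 / 200 ≤ B1T T + B2T T := by
  have hε : (0:ℝ) < 1 / 100000 := by norm_num
  have a1 := S1 (φ := fun y => SBl y * al y) (SBl_cont47.mul al_cont47) hε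
  have a2 := S1 (φ := fun y => SBl y * bl y) (SBl_cont47.mul bl_cont47) hε
  have a3 := S2a (φ := al) (ψ := SBl) al_cont47 SBl_cont47 hε
  have a4 := S2b (φ := al) (ψ := SBl) al_cont47 SBl_cont47 hε
  have a5 := S2b (φ := SBl) (ψ := bl) SBl_cont47 bl_cont47 hε
  filter_upwards [a1, a2, a3, a4, a5, AT_lim47 hε, eventually_gt_atTop (1:ℝ)] with T h1 h2 h3 h4 h5 hA hT
  have g1 := (abs_le.1 (h1 (499 / 1000) ⟨by norm_num, by norm_num⟩)).1
  have g2 := (abs_le.1 (h2 (333 / 1000) ⟨by norm_num, by norm_num⟩)).1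
  have g3 := (abs_le.1 h3).1
  have g4 := (abs_le.1 h4).1
  have g5 := (abs_le.1 h5).1
  have b1 := B1_ge47 hT
  have b2 := B2_ge47 hT
  have hn := num_int
  unfold S10 SN47 at b1
  unfold S01 at b2
  linarith

private theorem ip47 (b c1 c2 c3 c4 c5 : ℝ) (f : ℝ → ℝ)
    (hf : ∀ y, f y = c1 * y + c2 * y ^ 2 + c3 * y ^ 3 + c4 * y ^ 4 + c5 * y ^ 5) :
    ∫ y in (0:ℝ)..b, f y = c1 * b ^ 2 / 2 + c2 * b ^ 3 / 3 + c3 * b ^ 4 / 4 + c4 * b ^ 5 / 5 + c5 * b ^ 6 / 6 := by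
  have hc : Continuous f := by
    have : f = fun y => c1 * y + c2 * y ^ 2 + c3 * y ^ 3 + c4 * y ^ 4 + c5 * y ^ 5 := funext hf
    rw [this]
    fun_prop
  rw [intervalIntegral.integral_eq_sub_of_hasDerivAt
    (f := fun y => c1 * y ^ 2 / 2 + c2 * y ^ 3 / 3 + c3 * y ^ 4 / 4 + c4 * y ^ 5 / 5 + c5 * y ^ 6 / 6)
    (fun y _ => ?_) (hc.intervalIntegrable _ _)]
  · ring
  rw [hf y]
  have h2 := ((hasDerivAt_pow 2 y).const_mul c1).div_const 2
  have h3 := ((hasDerivAt_pow 3 y).const_mul c2).div_const 3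
  have h4 := ((hasDerivAt_pow 4 y).const_mul c3).div_const 4
  have h5 := ((hasDerivAt_pow 5 y).const_mul c4).div_const 5
  have h6 := ((hasDerivAt_pow 6 y).const_mul c5).div_const 6
  refine ((((h2.add h3).add h4).add h5).add h6).congr_deriv ?_
  norm_num
  ring

theorem AT_bdd : ∀ᶠ T : ℝ in atTop, AT T ≤ 4 := by
  filter_upwards [AT_lim47 (show (0:ℝ) < 1 / 1000 by norm_num)] with T hA
  have in1 : ∀ w : ℝ, ∫ z in (0:ℝ)..w, z * 1 = w ^ 2 / 2 := fun w => by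
    rw [ip47 w 1 0 0 0 0 (fun z => z * 1) (fun y => by ring)]
    ring
  simp only [in1] at hA
  rw [ip47 (499 / 1000) 36 (-108) 81 0 0 (fun y => y * al y ^ 2) (fun y => by unfold al; ring),
    ip47 (333 / 1000) 25 (-100) 100 0 0 (fun y => y * bl y ^ 2) (fun y => by unfold bl; ring),
    ip47 (499 / 1000) (249001 / 2000000) (-(499 / 1000)) (1 / 2) 0 0
      (fun y => y * 1 * ((499 / 1000 - y) ^ 2 / 2)) (fun y => by ring)] at hA
  norm_num at hA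
  linarith

theorem AT_one_le (T : ℝ) : 1 ≤ AT T := by
  rw [AT_eq47]
  have h1 : 0 ≤ ∑ p ∈ S10 T, ww T p ^ 2 * al (yy T p) ^ 2 := Finset.sum_nonneg fun _ _ => by positivity
  have h2 : 0 ≤ ∑ x ∈ SN47 T, ww T x.1 ^ 2 * ww T x.2 ^ 2 * (1 * 1) :=
    Finset.sum_nonneg fun _ _ => by positivity
  have h3 : 0 ≤ ∑ p ∈ S01 T, ww T p ^ 2 * bl (yy T p) ^ 2 := Finset.sum_nonneg fun _ _ => by positivity
  linarith

end Pool.Agent.Helper4.SH
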