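import Pool.Agent.Helper4.SH.Defs
import Pool.Agent.Helper78.SG.Iso

/-!
# SH-IS: isolated zeros are simple, on the line, and separated
-/

open MeasureTheory Set Filter Topology
open Pool.Agent.Helper57.Zeta Pool.Agent.Helper57.PC Pool.Agent.Helper57.LH Pool.Agent.Helper78.SG
open scoped ContDiff

namespace Pool.Agent.Helper4.SH

theorem iso_propsB {T : ℝ} {ρ : ZS} (h : ¬ CloseB T ρ) :
    (ρ : ℂ).re = 1 / 2 ∧ mx ρ = 1 ∧
      ∀ ρ' : ZS, ρ' ≠ ρ → 68 / 100 < |(ρ : ℂ).im - (ρ' : ℂ).im| * Real.log T / (2 * Real.pi) := by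
  unfold CloseB at h
  push Not at h
  obtain ⟨h1, h2⟩ := h
  refine ⟨?_, ?_, h2⟩
  · by_contra hre
    have hne : refl ρ ≠ ρ := by
      intro he
      have h3 := refl_re ρ
      rw [he] at h3
      exact hre (by linarith)
    have h4 := h2 (refl ρ) hne
    rw [refl_im, sub_self, abs_zero, zero_mul, zero_div] at h4
    norm_num at h4
  · have h3 := mx_one_le ρ
    unfold mx at h3 ⊢
    have h4 : 1 ≤ analyticOrderNatAt xi (ρ : ℂ) := by exact_mod_cast h3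
    have h5 : analyticOrderNatAt xi (ρ : ℂ) = 1 := by omega
    rw [h5]
    norm_num

theorem mem_IZ {T : ℝ} {ρ : ZS} : ρ ∈ IZ T ↔ ρ ∈ ZT T ∧ ¬ CloseB T ρ := by
  classical
  unfold IZ
  rw [Finset.mem_filter]

theorem mem_CZ {T : ℝ} {ρ : ZS} : ρ ∈ CZ T ↔ ρ ∈ ZT T ∧ CloseB T ρ := by
  classical
  unfold CZ
  rw [Finset.mem_filter]

/-- distinct elements of `IZ T` have ordinates at distance more than the full window `2 hw T` -/
theorem IZ_sep {T : ℝ} (hT : 1 < T) {ρ ρ' : ZS} (h : ρ ∈ IZ T) (hne : ρ' ≠ ρ) :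
    2 * hw T < |(ρ : ℂ).im - (ρ' : ℂ).im| := by
  obtain ⟨_, _, h3⟩ := iso_propsB (mem_IZ.mp h).2
  have h4 := h3 ρ' hne
  have hL : 0 < Real.log T := Real.log_pos hT
  have hp : 0 < 2 * Real.pi := by positivity
  rw [lt_div_iff₀ hp] at h4
  unfold hw
  have h5 : 2 * (Real.pi * (68 / 100) / Real.log T) = 68 / 100 * (2 * Real.pi) / Real.log T := by ring
  rw [h5, div_lt_iff₀ hL]
  exact h4

/-- the ordinates of `IZ T` are in `[0, T]` -/
theorem IZ_im {T : ℝ} {ρ : ZS} (h : ρ ∈ IZ T) : 0 ≤ (ρ : ℂ).im ∧ (ρ : ℂ).im ≤ T :=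
  mem_ZT.1 (mem_IZ.mp h).1

end Pool.Agent.Helper4.SH
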