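import Pool.Agent.Helper4.SH.Mom
import Pool.Agent.Helper4.SH.Arith

/-!
# SH-MA: the moments used

`mom` (file `Mom`) with `S = IH T`, `c = cf T`, `a = nu`, `b = de`, `j = 2`, `θ = 499/1000`, `δ = 2/1000`; and with `S = S01 T`, `c = cl T`,
`a = id`, `b = 1`, `j = 2` or `3`, `θ = 333/1000`, `δ = 1/1000`. Hypotheses: file `Arith`. `HH_nonneg`, `BB_nonneg` to drop absolute values.
-/

open MeasureTheory Set Filter Topology
open Pool.Agent.Helper57.Zeta Pool.Agent.Helper57.PC Pool.Agent.Helper57.LH Pool.Agent.Helper78.SG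
open scoped ContDiff

namespace Pool.Agent.Helper4.SH

private lemma h94_ev_card : ∀ᶠ T : ℝ in atTop, 4 * T ^ ((499 : ℝ) / 1000) ≤ T ^ 3 := by
  filter_upwards [eventually_ge_atTop (4 : ℝ)] with T hT
  have h1 : T ^ ((499 : ℝ) / 1000) ≤ T ^ (1 : ℝ) :=
    Real.rpow_le_rpow_of_exponent_le (by linarith) (by norm_num)
  rw [Real.rpow_one] at h1
  have h2 : T ^ 3 = T * T * T := by ring
  rw [h2]
  nlinarith [mul_nonneg (by linarith : (0 : ℝ) ≤ T) (by linarith : (0 : ℝ) ≤ T)]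

private lemma h94_ev_card' : ∀ᶠ T : ℝ in atTop, T ^ ((333 : ℝ) / 1000) ≤ T ^ 3 := by
  filter_upwards [eventually_ge_atTop (4 : ℝ)] with T hT
  have h1 : T ^ ((333 : ℝ) / 1000) ≤ T ^ (3 : ℝ) :=
    Real.rpow_le_rpow_of_exponent_le (by linarith) (by norm_num)
  calc T ^ ((333 : ℝ) / 1000) ≤ T ^ (3 : ℝ) := h1
    _ = T ^ 3 := by
      rw [← Real.rpow_natCast]
      norm_num

theorem HH_sq_int (g : TF) : ∃ C : ℝ, 0 < C ∧ ∀ᶠ T : ℝ in atTop, ∫ t, om g.h T t * HH T t ^ 2 ≤ C * T := by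
  obtain ⟨C, hC, h⟩ := mom g 2 2 16 (2 / 1000) (499 / 1000) (by norm_num) (by norm_num) (by norm_num)
  refine ⟨C, hC, ?_⟩
  filter_upwards [h, h94_ev_card, eventually_gt_atTop (1 : ℝ)] with T hT hc h1
  have hh := hT Ix (IH T) (cf T) nu de (fun i hi => by
    obtain ⟨p1, p2, p3, p4, p5, p6, p7, -, -⟩ := IH_props h1 i hi
    exact ⟨p1, p2, p3, p4, p5, p6, p7⟩) IH_inj ((IH_card h1).trans hc)
  exact (le_abs_self _).trans hh

private lemma h94_BB {g : TF} {j : ℕ} {C T : ℝ} (h1 : 1 < T) (hc : T ^ ((333 : ℝ) / 1000) ≤ T ^ 3)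
    (hT : ∀ (ι : Type) [DecidableEq ι] (S : Finset ι) (c : ι → ℝ) (a b : ι → ℕ),
      (∀ i ∈ S, a i ≠ 0 ∧ b i ≠ 0 ∧ (a i).primeFactorsList.length + (b i).primeFactorsList.length ≤ 1 ∧
        (∀ p ∈ (a i).primeFactorsList, p ∈ PP T) ∧ (∀ p ∈ (b i).primeFactorsList, p ∈ PP T) ∧
        |c i| ≤ 16 * (WW T (a i) * WW T (b i)) ∧ (a i : ℝ) * b i ≤ T ^ ((333 : ℝ) / 1000)) →
      (∀ i ∈ S, ∀ i' ∈ S, a i = a i' → b i = b i' → i = i') → (S.card : ℝ) ≤ T ^ 3 →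
      |∫ t, om g.h T t * (∑ i ∈ S, ∑ i' ∈ S, c i * c i' * Real.cos (t * ((Real.log (a i) - Real.log (b i)) -
        (Real.log (a i') - Real.log (b i'))))) ^ j| ≤ C * T) :
    ∫ t, om g.h T t * BB T t ^ j ≤ C * T := by
  have hh := hT ℕ (S01 T) (cl T) (fun p => p) (fun _ => 1) (fun q hq => by
    obtain ⟨p1, p2, p3, p4⟩ := S01_props h1 q hq
    refine ⟨p1.ne_zero, one_ne_zero, ?_, ?_, ?_, ?_, ?_⟩
    · simp [Nat.primeFactorsList_prime p1]
    · intro p hp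
      rw [Nat.primeFactorsList_prime p1, List.mem_singleton] at hp
      rw [hp]; exact p2
    · intro p hp
      simp at hp
    · have : WW T 1 = 1 := by simp [WW]
      rw [this, mul_one]
      exact p3
    · simpa using p4) (fun i _ i' _ h _ => h) ((S01_card h1).trans hc)
  refine (le_of_eq ?_).trans ((le_abs_self _).trans hh)
  congr 1
  ext t
  unfold BB
  simp

theorem BB_sq_int (g : TF) : ∃ C : ℝ, 0 < C ∧ ∀ᶠ T : ℝ in atTop, ∫ t, om g.h T t * BB T t ^ 2 ≤ C * T := by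
  obtain ⟨C, hC, h⟩ := mom g 2 1 16 (1 / 1000) (333 / 1000) (by norm_num) (by norm_num) (by norm_num)
  refine ⟨C, hC, ?_⟩
  filter_upwards [h, h94_ev_card', eventually_gt_atTop (1 : ℝ)] with T hT hc h1
  exact h94_BB h1 hc hT

theorem BB_cube_int (g : TF) : ∃ C : ℝ, 0 < C ∧ ∀ᶠ T : ℝ in atTop, ∫ t, om g.h T t * BB T t ^ 3 ≤ C * T := by
  obtain ⟨C, hC, h⟩ := mom g 3 1 16 (1 / 1000) (333 / 1000) (by norm_num) (by norm_num) (by norm_num)
  refine ⟨C, hC, ?_⟩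
  filter_upwards [h, h94_ev_card', eventually_gt_atTop (1 : ℝ)] with T hT hc h1
  exact h94_BB h1 hc hT

end Pool.Agent.Helper4.SH
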