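import Pool.Agent.Helper4.SH.XMom
import Pool.Agent.Helper4.SH.MomApply
import Pool.Agent.Helper4.SH.NN

/-!
# SH-UI: uniform integrability (helper59)

All integrals are over a measurable set `B` with `volume B ≤ η T`; `0 ≤ om ≤ 1`, `om` is supported in `[T/8, 7T/8]`. Cauchy-Schwarz / Hölder with
the weight `om` (for instance `2ab ≤ λ a² + b²/λ` pointwise, which avoids Hölder: see the end of this comment).
`X1_four`: `X_fourth`, `X_int` of Helper78/SG/Moments with `δ = 1/8` (`Xs f.h 1 T t = Xf f.h (log T) t`), and `om ≤ 1`.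
`X2_sq`: on `[T/8, 7T/8]` `Xs² ≤ 3 (f.h 0)² + 3 + 3 pss²` eventually (`main_term_s` with `ε = 1`), `pss² ≤ 2 prp² + 2 (pss - prp)²`, file `PPow`.
`ui_1`: `|F1 X| ≤ λ X⁴ + λ F1² + C_λ` pointwise (Young: `|F1||X| ≤ λ F1² + X²/(4λ)` and `X²/(4λ) ≤ λ X⁴ + 1/(64 λ³)`), integrate over `B`
against `om`: `≤ 2 λ C T + C_λ η T`. `F1² ≤ 2 HH² + 2 BB²`.
`ui_2`: `|F2 X| ≤ λ X² + F2²/(4λ)`, `F2² ≤ 4 HH BB ≤ μ HH² + 4 BB²/μ`, `BB² ≤ ν BB³ + 1/ν²`.
-/

open MeasureTheory Set Filter Topology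
open Pool.Agent.Helper57.Zeta Pool.Agent.Helper57.PC Pool.Agent.Helper57.LH Pool.Agent.Helper78.SG
open scoped ContDiff

namespace Pool.Agent.Helper4.SH

/-- `om` is continuous -/
private theorem ui_om_cont (g : TF) (T : ℝ) : Continuous (fun t => om g.h T t) := by
  unfold om
  exact g.smooth.continuous.comp (by fun_prop)

/-- `om` times a continuous function is integrable -/
private theorem ui_om_int (g : TF) {T : ℝ} (hT : 0 < T) {H : ℝ → ℝ} (hH : Continuous H) :
    Integrable (fun t => om g.h T t * H t) := by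
  have hc : Continuous (fun t => om g.h T t * H t) := (ui_om_cont g T).mul hH
  apply hc.integrable_of_hasCompactSupport
  apply HasCompactSupport.intro (K := Icc (T * (1 / 2 - g.th)) (T * (1 / 2 + g.th))) isCompact_Icc
  intro t ht
  have h0 : g.h (t / T - 1 / 2) = 0 := by
    apply g.supp
    by_contra hlt
    push Not at hlt
    rw [abs_lt] at hlt
    apply ht
    constructor
    · have h1 : 1 / 2 - g.th < t / T := by linarith [hlt.1]
      rw [lt_div_iff₀ hT] at h1
      nlinarith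
    · have h1 : t / T < 1 / 2 + g.th := by linarith [hlt.2]
      rw [div_lt_iff₀ hT] at h1
      nlinarith
  show om g.h T t * H t = 0
  unfold om
  rw [h0, zero_mul]

private theorem ui_set_le {B : Set ℝ} {G : ℝ → ℝ} (hG : Integrable G) (hG0 : ∀ t, 0 ≤ G t) :
    ∫ t in B, G t ≤ ∫ t, G t :=
  setIntegral_le_integral hG (Eventually.of_forall hG0)

private theorem ui_om_set (g : TF) (hg0 : ∀ x, 0 ≤ g.h x) (hg1 : ∀ x, g.h x ≤ 1) {T : ℝ} {r : ℝ} (hr : 0 ≤ r)
    {B : Set ℝ} (hB : volume B ≤ ENNReal.ofReal r) : ∫ t in B, om g.h T t ≤ r := by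
  have hfin : volume B < ⊤ := lt_of_le_of_lt hB ENNReal.ofReal_lt_top
  have h1 : ‖∫ t in B, om g.h T t‖ ≤ 1 * volume.real B := by
    apply norm_setIntegral_le_of_norm_le_const hfin
    intro t _
    have hw : 0 ≤ om g.h T t := hg0 _
    rw [Real.norm_eq_abs, abs_of_nonneg hw]
    exact hg1 _
  have h2 : volume.real B ≤ r := ENNReal.toReal_le_of_le_ofReal hr hB
  have h3 := le_abs_self (∫ t in B, om g.h T t)
  rw [Real.norm_eq_abs] at h1
  linarith

private theorem ui_lin3 {m : Measure ℝ} {a b c : ℝ → ℝ} (ha : Integrable a m) (hb : Integrable b m)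
    (hc : Integrable c m) (p q r : ℝ) :
    ∫ t, (p * a t + q * b t + r * c t) ∂m = p * (∫ t, a t ∂m) + q * (∫ t, b t ∂m) + r * ∫ t, c t ∂m := by
  rw [integral_add, integral_add, integral_const_mul, integral_const_mul, integral_const_mul]
  · exact ha.const_mul p
  · exact hb.const_mul q
  · exact (ha.const_mul p).add (hb.const_mul q)
  · exact hc.const_mul r

private theorem ui_lin4 {m : Measure ℝ} {a b c d : ℝ → ℝ} (ha : Integrable a m) (hb : Integrable b m)
    (hc : Integrable c m) (hd : Integrable d m) (p q r s : ℝ) :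
    ∫ t, (p * a t + q * b t + r * c t + s * d t) ∂m =
      p * (∫ t, a t ∂m) + q * (∫ t, b t ∂m) + r * (∫ t, c t ∂m) + s * ∫ t, d t ∂m := by
  rw [integral_add, ui_lin3 ha hb hc, integral_const_mul]
  · exact ((ha.const_mul p).add (hb.const_mul q)).add (hc.const_mul r)
  · exact hd.const_mul s

/-- Young's inequality used in `ui_1` -/
private theorem ui_young1 {l : ℝ} (hl : 0 < l) (a x : ℝ) :
    |a * x| ≤ l * a ^ 2 + l * x ^ 4 + 1 / (64 * l ^ 3) := by
  rw [abs_mul]
  have h1 : |a| * |x| ≤ l * a ^ 2 + x ^ 2 / (4 * l) := by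
    have : 0 ≤ (2 * l * |a| - |x|) ^ 2 / (4 * l) := by positivity
    have h2 : (2 * l * |a| - |x|) ^ 2 / (4 * l) = l * a ^ 2 + x ^ 2 / (4 * l) - |a| * |x| := by
      field_simp
      rw [← sq_abs a, ← sq_abs x]
      ring
    linarith
  have h3 : x ^ 2 / (4 * l) ≤ l * x ^ 4 + 1 / (64 * l ^ 3) := by
    have : 0 ≤ (8 * l ^ 2 * x ^ 2 - 1) ^ 2 / (64 * l ^ 3) := by positivity
    have h4 : (8 * l ^ 2 * x ^ 2 - 1) ^ 2 / (64 * l ^ 3) = l * x ^ 4 + 1 / (64 * l ^ 3) - x ^ 2 / (4 * l) := by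
      field_simp
      ring
    linarith
  linarith

/-- Young's inequality used in `ui_2` -/
private theorem ui_young2 {l m n : ℝ} (hl : 0 < l) (hm : 0 < m) (hn : 0 < n) (a h b x : ℝ) (_hh : 0 ≤ h) (hb : 0 ≤ b)
    (ha : a ^ 2 ≤ 4 * (h * b)) :
    |a * x| ≤ l * x ^ 2 + m / (4 * l) * h ^ 2 + n / (l * m) * b ^ 3 + 1 / (l * m * n ^ 2) := by
  rw [abs_mul]
  have h1 : |a| * |x| ≤ l * x ^ 2 + a ^ 2 / (4 * l) := by
    have : 0 ≤ (2 * l * |x| - |a|) ^ 2 / (4 * l) := by positivity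
    have h2 : (2 * l * |x| - |a|) ^ 2 / (4 * l) = l * x ^ 2 + a ^ 2 / (4 * l) - |a| * |x| := by
      field_simp
      rw [← sq_abs a, ← sq_abs x]
      ring
    linarith
  have h3 : 4 * (h * b) ≤ m * h ^ 2 + 4 * b ^ 2 / m := by
    have : 0 ≤ (m * h - 2 * b) ^ 2 / m := by positivity
    have h4 : (m * h - 2 * b) ^ 2 / m = m * h ^ 2 + 4 * b ^ 2 / m - 4 * (h * b) := by
      field_simp
      ring
    linarith
  have h5 : b ^ 2 ≤ n * b ^ 3 + 1 / n ^ 2 := by
    rcases le_total (1 / n) b with hc | hc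
    · have h6 : 1 ≤ n * b := by
        rw [div_le_iff₀ hn] at hc
        linarith
      have h7 : b ^ 2 ≤ n * b ^ 3 := by
        have : 0 ≤ b ^ 2 * (n * b - 1) := mul_nonneg (by positivity) (by linarith)
        nlinarith
      have : 0 ≤ 1 / n ^ 2 := by positivity
      linarith
    · have h6 : b ^ 2 ≤ (1 / n) ^ 2 := pow_le_pow_left₀ hb hc 2
      have h7 : (1 / n) ^ 2 = 1 / n ^ 2 := by rw [div_pow, one_pow]
      have : 0 ≤ n * b ^ 3 := by positivity
      linarith
  have h8 : a ^ 2 / (4 * l) ≤ (m * h ^ 2 + 4 * (n * b ^ 3 + 1 / n ^ 2) / m) / (4 * l) := by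
    apply div_le_div_of_nonneg_right _ (by positivity)
    have h9 : 4 * b ^ 2 / m ≤ 4 * (n * b ^ 3 + 1 / n ^ 2) / m := by
      apply div_le_div_of_nonneg_right _ hm.le
      linarith
    linarith
  have h10 : (m * h ^ 2 + 4 * (n * b ^ 3 + 1 / n ^ 2) / m) / (4 * l) =
      m / (4 * l) * h ^ 2 + n / (l * m) * b ^ 3 + 1 / (l * m * n ^ 2) := by
    field_simp
    ring
  linarith

theorem F1_sq_int (g : TF) (hg0 : ∀ x, 0 ≤ g.h x) : ∃ C : ℝ, 0 < C ∧ ∀ᶠ T : ℝ in atTop,
    ∫ t, om g.h T t * F1 T t ^ 2 ≤ C * T := by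
  obtain ⟨C1, hC1, h1⟩ := HH_sq_int g
  obtain ⟨C2, hC2, h2⟩ := BB_sq_int g
  refine ⟨2 * C1 + 2 * C2, by positivity, ?_⟩
  filter_upwards [h1, h2, eventually_gt_atTop 0] with T h1 h2 hT
  have hcH : Continuous (fun t => HH T t ^ 2) := (HH_cont T).pow 2
  have hcB : Continuous (fun t => BB T t ^ 2) := (BB_cont T).pow 2
  have hcF : Continuous (fun t => F1 T t ^ 2) := (F1_cont T).pow 2
  have e1 := ui_om_int g hT hcH
  have e2 := ui_om_int g hT hcB
  calc ∫ t, om g.h T t * F1 T t ^ 2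
      ≤ ∫ t, (2 * (om g.h T t * HH T t ^ 2) + 2 * (om g.h T t * BB T t ^ 2)) := by
        apply integral_mono (ui_om_int g hT hcF) ((e1.const_mul 2).add (e2.const_mul 2))
        intro t
        show om g.h T t * F1 T t ^ 2 ≤ 2 * (om g.h T t * HH T t ^ 2) + 2 * (om g.h T t * BB T t ^ 2)
        have hw : 0 ≤ om g.h T t := hg0 _
        have : F1 T t ^ 2 ≤ 2 * HH T t ^ 2 + 2 * BB T t ^ 2 := by
          unfold F1
          nlinarith [sq_nonneg (HH T t - BB T t)]
        nlinarith [mul_le_mul_of_nonneg_left this hw]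
    _ = 2 * (∫ t, om g.h T t * HH T t ^ 2) + 2 * (∫ t, om g.h T t * BB T t ^ 2) := by
        rw [integral_add (e1.const_mul 2) (e2.const_mul 2), integral_const_mul, integral_const_mul]
    _ ≤ (2 * C1 + 2 * C2) * T := by nlinarith

theorem F2_sq_int (g : TF) (hg0 : ∀ x, 0 ≤ g.h x) : ∃ C : ℝ, 0 < C ∧ ∀ᶠ T : ℝ in atTop,
    ∫ t, om g.h T t * F2 T t ^ 2 ≤ C * T := by
  obtain ⟨C1, hC1, h1⟩ := HH_sq_int g
  obtain ⟨C2, hC2, h2⟩ := BB_sq_int g
  refine ⟨2 * C1 + 2 * C2, by positivity, ?_⟩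
  filter_upwards [h1, h2, eventually_gt_atTop 0] with T h1 h2 hT
  have hcH : Continuous (fun t => HH T t ^ 2) := (HH_cont T).pow 2
  have hcB : Continuous (fun t => BB T t ^ 2) := (BB_cont T).pow 2
  have hcF : Continuous (fun t => F2 T t ^ 2) := (F2_cont T).pow 2
  have e1 := ui_om_int g hT hcH
  have e2 := ui_om_int g hT hcB
  calc ∫ t, om g.h T t * F2 T t ^ 2
      ≤ ∫ t, (2 * (om g.h T t * HH T t ^ 2) + 2 * (om g.h T t * BB T t ^ 2)) := by
        apply integral_mono (ui_om_int g hT hcF) ((e1.const_mul 2).add (e2.const_mul 2))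
        intro t
        show om g.h T t * F2 T t ^ 2 ≤ 2 * (om g.h T t * HH T t ^ 2) + 2 * (om g.h T t * BB T t ^ 2)
        have hw : 0 ≤ om g.h T t := hg0 _
        have : F2 T t ^ 2 ≤ 2 * HH T t ^ 2 + 2 * BB T t ^ 2 := by
          nlinarith [sq_nonneg (HH T t - BB T t), F2_sq_le T t]
        nlinarith [mul_le_mul_of_nonneg_left this hw]
    _ = 2 * (∫ t, om g.h T t * HH T t ^ 2) + 2 * (∫ t, om g.h T t * BB T t ^ 2) := by
        rw [integral_add (e1.const_mul 2) (e2.const_mul 2), integral_const_mul, integral_const_mul]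
    _ ≤ (2 * C1 + 2 * C2) * T := by nlinarith

theorem ui_1 (g f : TF) (hg : g.th = 1 / 4) (hg0 : ∀ x, 0 ≤ g.h x) (hg1 : ∀ x, g.h x ≤ 1) {ε : ℝ} (hε : 0 < ε) :
    ∃ η : ℝ, 0 < η ∧ ∀ᶠ T : ℝ in atTop, ∀ B : Set ℝ, MeasurableSet B → volume B ≤ ENNReal.ofReal (η * T) →
      ∫ t in B, om g.h T t * |F1 T t * Xs f.h 1 T t| ≤ ε * T := by
  obtain ⟨C1, hC1, h1⟩ := F1_sq_int g hg0
  obtain ⟨C2, hC2, h2⟩ := X1_four g f hg hg0 hg1
  set l : ℝ := ε / (2 * (C1 + C2)) with hl
  have hl0 : 0 < l := by positivity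
  set K : ℝ := 1 / (64 * l ^ 3) with hK
  have hK0 : 0 < K := by positivity
  refine ⟨ε / (2 * K), by positivity, ?_⟩
  filter_upwards [h1, h2, omX_int g f hg (le_refl (1:ℝ)) (by norm_num), eventually_gt_atTop 0] with T h1 h2 h3 hT
  intro B hB hv
  have i0 : Integrable (fun t => om g.h T t * |F1 T t * Xs f.h 1 T t|) := by
    have := (h3 (fun t => F1 T t) (F1_cont T) 1).abs
    refine this.congr (Eventually.of_forall fun t => ?_)
    show |om g.h T t * (F1 T t * Xs f.h 1 T t ^ 1)| = om g.h T t * |F1 T t * Xs f.h 1 T t|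
    rw [pow_one, abs_mul, abs_of_nonneg (show 0 ≤ om g.h T t from hg0 _)]
  have i1 : Integrable (fun t => om g.h T t * F1 T t ^ 2) := ui_om_int g hT ((F1_cont T).pow 2)
  have i2 : Integrable (fun t => om g.h T t * Xs f.h 1 T t ^ 4) := by
    have := h3 (fun _ => 1) continuous_const 4
    refine this.congr (Eventually.of_forall fun t => ?_)
    show om g.h T t * (1 * Xs f.h 1 T t ^ 4) = om g.h T t * Xs f.h 1 T t ^ 4
    rw [one_mul]
  have i3 : Integrable (fun t => om g.h T t) := by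
    have := ui_om_int g hT (H := fun _ => (1:ℝ)) continuous_const
    simpa using this
  calc ∫ t in B, om g.h T t * |F1 T t * Xs f.h 1 T t|
      ≤ ∫ t in B, (l * (om g.h T t * F1 T t ^ 2) + l * (om g.h T t * Xs f.h 1 T t ^ 4) + K * om g.h T t) := by
        apply setIntegral_mono i0.integrableOn
          ((((i1.const_mul l).add (i2.const_mul l)).add (i3.const_mul K))).integrableOn
        intro t
        show om g.h T t * |F1 T t * Xs f.h 1 T t| ≤
          l * (om g.h T t * F1 T t ^ 2) + l * (om g.h T t * Xs f.h 1 T t ^ 4) + K * om g.h T t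
        have hw : 0 ≤ om g.h T t := hg0 _
        have := mul_le_mul_of_nonneg_left (ui_young1 hl0 (F1 T t) (Xs f.h 1 T t)) hw
        rw [← hK] at this
        linarith
    _ = l * (∫ t in B, om g.h T t * F1 T t ^ 2) + l * (∫ t in B, om g.h T t * Xs f.h 1 T t ^ 4)
          + K * ∫ t in B, om g.h T t := by
        exact ui_lin3 i1.integrableOn i2.integrableOn i3.integrableOn l l K
    _ ≤ l * (C1 * T) + l * (C2 * T) + K * (ε / (2 * K) * T) := by
        have a1 := (ui_set_le (B := B) i1 (fun t => mul_nonneg (hg0 _) (by positivity))).trans h1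
        have a2 := (ui_set_le (B := B) i2 (fun t => mul_nonneg (hg0 _) (by positivity))).trans h2
        have a3 := ui_om_set g hg0 hg1 (T := T) (by positivity : 0 ≤ ε / (2 * K) * T) hv
        gcongr
    _ = ε * T := by
        rw [hl]
        field_simp
        ring

theorem ui_2 (g f : TF) (hg : g.th = 1 / 4) (hg0 : ∀ x, 0 ≤ g.h x) (hg1 : ∀ x, g.h x ≤ 1) {ε : ℝ} (hε : 0 < ε) :
    ∃ η : ℝ, 0 < η ∧ ∀ᶠ T : ℝ in atTop, ∀ B : Set ℝ, MeasurableSet B → volume B ≤ ENNReal.ofReal (η * T) →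
      ∫ t in B, om g.h T t * |F2 T t * Xs f.h 2 T t| ≤ ε * T := by
  obtain ⟨CX, hCX, h1⟩ := X2_sq g f hg hg0 hg1 (s := 2) (Or.inr rfl)
  obtain ⟨CH, hCH, h2⟩ := HH_sq_int g
  obtain ⟨CB, hCB, h3⟩ := BB_cube_int g
  set l : ℝ := ε / (4 * CX) with hl
  have hl0 : 0 < l := by positivity
  set m : ℝ := ε * l / CH with hm
  have hm0 : 0 < m := by positivity
  set n : ℝ := ε * l * m / (4 * CB) with hn
  have hn0 : 0 < n := by positivity
  refine ⟨ε * l * m * n ^ 2 / 4, by positivity, ?_⟩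
  filter_upwards [h1, h2, h3, omX_int g f hg (s := 2) (by norm_num) le_rfl, eventually_gt_atTop 0]
    with T h1 h2 h3 h4 hT
  intro B hB hv
  have i0 : Integrable (fun t => om g.h T t * |F2 T t * Xs f.h 2 T t|) := by
    have := (h4 (fun t => F2 T t) (F2_cont T) 1).abs
    refine this.congr (Eventually.of_forall fun t => ?_)
    show |om g.h T t * (F2 T t * Xs f.h 2 T t ^ 1)| = om g.h T t * |F2 T t * Xs f.h 2 T t|
    rw [pow_one, abs_mul, abs_of_nonneg (show 0 ≤ om g.h T t from hg0 _)]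
  have i1 : Integrable (fun t => om g.h T t * Xs f.h 2 T t ^ 2) := by
    have := h4 (fun _ => 1) continuous_const 2
    refine this.congr (Eventually.of_forall fun t => ?_)
    show om g.h T t * (1 * Xs f.h 2 T t ^ 2) = om g.h T t * Xs f.h 2 T t ^ 2
    rw [one_mul]
  have i2 : Integrable (fun t => om g.h T t * HH T t ^ 2) := ui_om_int g hT ((HH_cont T).pow 2)
  have i3 : Integrable (fun t => om g.h T t * BB T t ^ 3) := ui_om_int g hT ((BB_cont T).pow 3)
  have i4 : Integrable (fun t => om g.h T t) := by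
    have := ui_om_int g hT (H := fun _ => (1:ℝ)) continuous_const
    simpa using this
  set a : ℝ := m / (4 * l) with ha
  set b : ℝ := n / (l * m) with hb
  set K : ℝ := 1 / (l * m * n ^ 2) with hK
  have ha0 : 0 < a := by positivity
  have hb0 : 0 < b := by positivity
  have hK0 : 0 < K := by positivity
  calc ∫ t in B, om g.h T t * |F2 T t * Xs f.h 2 T t|
      ≤ ∫ t in B, (l * (om g.h T t * Xs f.h 2 T t ^ 2) + a * (om g.h T t * HH T t ^ 2)
          + b * (om g.h T t * BB T t ^ 3) + K * om g.h T t) := by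
        apply setIntegral_mono i0.integrableOn
          (((((i1.const_mul l).add (i2.const_mul a)).add (i3.const_mul b)).add (i4.const_mul K))).integrableOn
        intro t
        show om g.h T t * |F2 T t * Xs f.h 2 T t| ≤
          l * (om g.h T t * Xs f.h 2 T t ^ 2) + a * (om g.h T t * HH T t ^ 2)
          + b * (om g.h T t * BB T t ^ 3) + K * om g.h T t
        have hw : 0 ≤ om g.h T t := hg0 _
        have := mul_le_mul_of_nonneg_left (ui_young2 hl0 hm0 hn0 (F2 T t) (HH T t) (BB T t) (Xs f.h 2 T t)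
          (HH_nonneg T t) (BB_nonneg T t) (F2_sq_le T t)) hw
        rw [← ha, ← hb, ← hK] at this
        linarith
    _ = l * (∫ t in B, om g.h T t * Xs f.h 2 T t ^ 2) + a * (∫ t in B, om g.h T t * HH T t ^ 2)
          + b * (∫ t in B, om g.h T t * BB T t ^ 3) + K * ∫ t in B, om g.h T t := by
        exact ui_lin4 i1.integrableOn i2.integrableOn i3.integrableOn i4.integrableOn l a b K
    _ ≤ l * (CX * T) + a * (CH * T) + b * (CB * T) + K * (ε * l * m * n ^ 2 / 4 * T) := by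
        have a1 := (ui_set_le (B := B) i1 (fun t => mul_nonneg (hg0 _) (by positivity))).trans h1
        have a2 := (ui_set_le (B := B) i2 (fun t => mul_nonneg (hg0 _) (by positivity))).trans h2
        have a3 := (ui_set_le (B := B) i3 (fun t => mul_nonneg (hg0 _)
          (pow_nonneg (BB_nonneg T t) 3))).trans h3
        have a4 := ui_om_set g hg0 hg1 (T := T) (by positivity : 0 ≤ ε * l * m * n ^ 2 / 4 * T) hv
        gcongr
    _ = ε * T := by
        have e1 : l * CX = ε / 4 := by rw [hl]; field_simp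
        have e2 : a * CH = ε / 4 := by rw [ha, hm]; field_simp
        have e3 : b * CB = ε / 4 := by
          rw [hb, hn]; field_simp
        have e4 : K * (ε * l * m * n ^ 2 / 4) = ε / 4 := by rw [hK]; field_simp
        calc l * (CX * T) + a * (CH * T) + b * (CB * T) + K * (ε * l * m * n ^ 2 / 4 * T)
            = (l * CX + a * CH + b * CB + K * (ε * l * m * n ^ 2 / 4)) * T := by ring
          _ = ε * T := by rw [e1, e2, e3, e4]; ring

end Pool.Agent.Helper4.SH
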