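import Pool.Agent.Helper4.SH.Window
import Pool.Agent.Helper4.SH.Arith

/-!
# SH-WF: windows against kernels for `F1`, `F2`

`window_F1`, `window_F2`: term by term, `window_cos` and `kernel_cos` (file `Window`). Frequencies: `0 ≤ ph i ≤ 0.499 L`, so
`|ph i - ph j| ≤ 0.499 L`; `0 ≤ log p ≤ 0.333 L` on `S01`; `0 ≤ ph i + log q ≤ 0.832 L`, so divided by `2 L` it is `≤ 0.416`. File `Arith`.
-/

open MeasureTheory Set Filter Topology
open Pool.Agent.Helper57.Zeta Pool.Agent.Helper57.PC Pool.Agent.Helper57.LH Pool.Agent.Helper78.SG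
open scoped ContDiff

namespace Pool.Agent.Helper4.SH

/-- `0 ≤ ph i ≤ 0.499 log T` -/
theorem wf_ph {T : ℝ} (hT : 1 < T) {i : Ix} (hi : i ∈ IH T) :
    0 ≤ ph i ∧ ph i ≤ 499 / 1000 * Real.log T := by
  obtain ⟨h1, h2, -, -, -, -, h3, h4, -⟩ := IH_props hT i hi
  have hn : (0 : ℝ) < (nu i : ℝ) := by exact_mod_cast Nat.pos_of_ne_zero h1
  have hd : (0 : ℝ) < (de i : ℝ) := by exact_mod_cast Nat.pos_of_ne_zero h2
  have hd1 : (1 : ℝ) ≤ (de i : ℝ) := by exact_mod_cast Nat.pos_of_ne_zero h2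
  have hle : (de i : ℝ) ≤ (nu i : ℝ) := by exact_mod_cast h4
  have hlog : Real.log (de i) ≤ Real.log (nu i) := Real.log_le_log hd hle
  have hlog0 : 0 ≤ Real.log (de i) := Real.log_nonneg hd1
  have hT0 : (0 : ℝ) < T := by linarith
  have h5 : Real.log ((nu i : ℝ) * de i) ≤ Real.log (T ^ ((499 : ℝ) / 1000)) :=
    Real.log_le_log (by positivity) h3
  rw [Real.log_mul hn.ne' hd.ne', Real.log_rpow hT0] at h5
  unfold ph
  constructor
  · linarith
  · linarith

/-- `0 ≤ log q ≤ 0.333 log T` -/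
theorem wf_q {T : ℝ} (hT : 1 < T) {q : ℕ} (hq : q ∈ S01 T) :
    0 ≤ Real.log q ∧ Real.log q ≤ 333 / 1000 * Real.log T := by
  obtain ⟨h1, -, -, h3⟩ := S01_props hT q hq
  have hq0 : (0 : ℝ) < (q : ℝ) := by exact_mod_cast h1.pos
  have hq1 : (1 : ℝ) ≤ (q : ℝ) := by exact_mod_cast h1.one_lt.le
  have hT0 : (0 : ℝ) < T := by linarith
  have h5 : Real.log (q : ℝ) ≤ Real.log (T ^ ((333 : ℝ) / 1000)) :=
    Real.log_le_log hq0 h3
  rw [Real.log_rpow hT0] at h5
  exact ⟨Real.log_nonneg hq1, h5⟩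

/-- one frequency -/
theorem wf_term (f : TF) {s T : ℝ} (hs : 1 ≤ s) (hT : 1 < T) (γ ν : ℝ)
    (h : f.h (ν / (s * Real.log T)) = SB (ν / Real.log T)) :
    ∫ t in (γ - hw T)..(γ + hw T), Real.cos (t * ν) =
      ∫ t, Real.cos (t * ν) * krs f.h s T (t - γ) := by
  rw [window_cos hT, kernel_cos f hs hT, h]

/-- integrability of one term -/
theorem wf_int (f : TF) {s T : ℝ} (hs : 1 ≤ s) (hT : 1 < T) (γ ν c : ℝ) :
    Integrable (fun t => c * Real.cos (t * ν) * krs f.h s T (t - γ)) := by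
  have h1 : Integrable (fun t => krs f.h s T (t - γ)) := (krs_integrable f hs hT).comp_sub_right γ
  have h2 := h1.bdd_mul (c := |c|) (f := fun t => c * Real.cos (t * ν))
    (by
      apply Continuous.aestronglyMeasurable
      fun_prop)
    (by
      refine Filter.Eventually.of_forall fun t => ?_
      rw [Real.norm_eq_abs, abs_mul]
      calc |c| * |Real.cos (t * ν)| ≤ |c| * 1 :=
            mul_le_mul_of_nonneg_left (Real.abs_cos_le_one _) (abs_nonneg _)
        _ = |c| := mul_one _)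
  exact h2

/-- a finite trigonometric sum -/
theorem wf_sum (f : TF) {s T : ℝ} (hs : 1 ≤ s) (hT : 1 < T) (γ : ℝ) {ι : Type*} (A : Finset ι)
    (c ν : ι → ℝ) (h : ∀ i ∈ A, f.h (ν i / (s * Real.log T)) = SB (ν i / Real.log T)) :
    ∫ t in (γ - hw T)..(γ + hw T), (∑ i ∈ A, c i * Real.cos (t * ν i)) =
      ∫ t, (∑ i ∈ A, c i * Real.cos (t * ν i)) * krs f.h s T (t - γ) := by
  rw [intervalIntegral.integral_finsetSum]
  · have e : (fun t => (∑ i ∈ A, c i * Real.cos (t * ν i)) * krs f.h s T (t - γ)) =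
        fun t => ∑ i ∈ A, (c i * Real.cos (t * ν i) * krs f.h s T (t - γ)) := by
      funext t
      rw [Finset.sum_mul]
    rw [e, integral_finsetSum]
    · refine Finset.sum_congr rfl fun i hi => ?_
      rw [intervalIntegral.integral_const_mul, wf_term f hs hT γ (ν i) (h i hi),
        ← integral_const_mul]
      congr 1
      funext t
      ring
    · intro i _
      exact wf_int f hs hT γ (ν i) (c i)
  · intro i _
    apply Continuous.intervalIntegrable
    fun_prop

theorem wf_sum_int (f : TF) {s T : ℝ} (hs : 1 ≤ s) (hT : 1 < T) (γ : ℝ) {ι : Type*} (A : Finset ι)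
    (c ν : ι → ℝ) :
    Integrable (fun t => (∑ i ∈ A, c i * Real.cos (t * ν i)) * krs f.h s T (t - γ)) := by
  have e : (fun t => (∑ i ∈ A, c i * Real.cos (t * ν i)) * krs f.h s T (t - γ)) =
      fun t => ∑ i ∈ A, (c i * Real.cos (t * ν i) * krs f.h s T (t - γ)) := by
    funext t
    rw [Finset.sum_mul]
  rw [e]
  exact integrable_finsetSum _ fun i _ => wf_int f hs hT γ (ν i) (c i)

theorem HH_eq (T t : ℝ) : HH T t = ∑ x ∈ IH T ×ˢ IH T,
    (cf T x.1 * cf T x.2) * Real.cos (t * (ph x.1 - ph x.2)) := by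
  unfold HH
  rw [Finset.sum_product]

theorem BB_eq (T t : ℝ) : BB T t = ∑ x ∈ S01 T ×ˢ S01 T,
    (cl T x.1 * cl T x.2) * Real.cos (t * (Real.log x.1 - Real.log x.2)) := by
  unfold BB
  rw [Finset.sum_product]

theorem F2_eq (T t : ℝ) : F2 T t = ∑ x ∈ IH T ×ˢ S01 T,
    (2 * (cf T x.1 * cl T x.2)) * Real.cos (t * (ph x.1 + Real.log x.2)) := by
  unfold F2
  rw [Finset.sum_product, Finset.mul_sum]
  refine Finset.sum_congr rfl fun i _ => ?_
  rw [Finset.mul_sum]
  refine Finset.sum_congr rfl fun j _ => ?_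
  ring

theorem window_F1 (f : TF) (hf : ∀ y, |y| ≤ 499 / 1000 → f.h y = SB y) {T : ℝ} (hT : 1 < T) (γ : ℝ) :
    ∫ t in (γ - hw T)..(γ + hw T), F1 T t = ∫ t, F1 T t * krs f.h 1 T (t - γ) := by
  have hL : 0 < Real.log T := Real.log_pos hT
  have key : ∀ ν : ℝ, |ν| ≤ 499 / 1000 * Real.log T →
      f.h (ν / (1 * Real.log T)) = SB (ν / Real.log T) := by
    intro ν hν
    rw [one_mul]
    apply hf
    rw [abs_div, abs_of_pos hL, div_le_iff₀ hL]
    exact hν
  have h1 := wf_sum f le_rfl hT γ (IH T ×ˢ IH T) (fun x => cf T x.1 * cf T x.2)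
    (fun x => ph x.1 - ph x.2) (by
      intro x hx
      rw [Finset.mem_product] at hx
      apply key
      have a := wf_ph hT hx.1
      have b := wf_ph hT hx.2
      rw [abs_le]
      constructor <;> linarith)
  have h2 := wf_sum f le_rfl hT γ (S01 T ×ˢ S01 T) (fun x => cl T x.1 * cl T x.2)
    (fun x => Real.log x.1 - Real.log x.2) (by
      intro x hx
      rw [Finset.mem_product] at hx
      apply key
      have a := wf_q hT hx.1
      have b := wf_q hT hx.2
      rw [abs_le]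
      constructor <;> linarith)
  have e1 : (fun t => F1 T t) = fun t => (∑ x ∈ IH T ×ˢ IH T,
      (cf T x.1 * cf T x.2) * Real.cos (t * (ph x.1 - ph x.2))) +
      ∑ x ∈ S01 T ×ˢ S01 T,
        (cl T x.1 * cl T x.2) * Real.cos (t * (Real.log x.1 - Real.log x.2)) := by
    funext t
    unfold F1
    rw [HH_eq, BB_eq]
  have e2 : (fun t => F1 T t * krs f.h 1 T (t - γ)) = fun t => (∑ x ∈ IH T ×ˢ IH T,
      (cf T x.1 * cf T x.2) * Real.cos (t * (ph x.1 - ph x.2))) * krs f.h 1 T (t - γ) +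
      (∑ x ∈ S01 T ×ˢ S01 T,
        (cl T x.1 * cl T x.2) * Real.cos (t * (Real.log x.1 - Real.log x.2))) *
          krs f.h 1 T (t - γ) := by
    funext t
    unfold F1
    rw [HH_eq, BB_eq]
    ring
  rw [e1, e2, intervalIntegral.integral_add, integral_add, h1, h2]
  · exact wf_sum_int f le_rfl hT γ _ _ _
  · exact wf_sum_int f le_rfl hT γ _ _ _
  · apply Continuous.intervalIntegrable
    fun_prop
  · apply Continuous.intervalIntegrable
    fun_prop

theorem window_F2 (f : TF) (hf : ∀ y, |y| ≤ 416 / 1000 → f.h y = SB (2 * y)) {T : ℝ} (hT : 1 < T) (γ : ℝ) :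
    ∫ t in (γ - hw T)..(γ + hw T), F2 T t = ∫ t, F2 T t * krs f.h 2 T (t - γ) := by
  have hL : 0 < Real.log T := Real.log_pos hT
  have key : ∀ ν : ℝ, |ν| ≤ 832 / 1000 * Real.log T →
      f.h (ν / (2 * Real.log T)) = SB (ν / Real.log T) := by
    intro ν hν
    rw [hf]
    · congr 1
      field_simp
    · rw [abs_div, abs_of_pos (by positivity : (0 : ℝ) < 2 * Real.log T), div_le_iff₀ (by positivity)]
      linarith
  have h1 := wf_sum f (by norm_num : (1 : ℝ) ≤ 2) hT γ (IH T ×ˢ S01 T)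
    (fun x => 2 * (cf T x.1 * cl T x.2))
    (fun x => ph x.1 + Real.log x.2) (by
      intro x hx
      rw [Finset.mem_product] at hx
      apply key
      have a := wf_ph hT hx.1
      have b := wf_q hT hx.2
      rw [abs_le]
      constructor <;> linarith)
  have e1 : (fun t => F2 T t) = fun t => ∑ x ∈ IH T ×ˢ S01 T,
      (2 * (cf T x.1 * cl T x.2)) * Real.cos (t * (ph x.1 + Real.log x.2)) := by
    funext t
    rw [F2_eq]
  have e2 : (fun t => F2 T t * krs f.h 2 T (t - γ)) = fun t => (∑ x ∈ IH T ×ˢ S01 T,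
      (2 * (cf T x.1 * cl T x.2)) * Real.cos (t * (ph x.1 + Real.log x.2))) *
        krs f.h 2 T (t - γ) := by
    funext t
    rw [F2_eq]
  rw [e1, e2, h1]

end Pool.Agent.Helper4.SH
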