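import Pool.Agent.Helper4.SH.Scale
import Pool.Agent.Helper4.SH.PPow

/-!
# SH-XP: from the sum over zeros to the prime sum

On the support of `om` (`om_supp`, `[T/8, 7T/8]`): `|Xs - (f.h 0 - pss)| ≤ ε'` (`main_term_s` with `δ = 1/8`), so
`∫ om F Xs = f.h 0 ∫ om F - ∫ om F pss + O(ε' ∫ om |F|)`, `∫ om |F| ≤ T + ∫ om F²`; and
`|∫ om F (pss - prp)| ≤ λ ∫ om F² + (1/(4λ)) ∫ om (pss - prp)²` (`pp_small`).
-/

open MeasureTheory Set Filter Topology
open Pool.Agent.Helper57.Zeta Pool.Agent.Helper57.PC Pool.Agent.Helper57.LH Pool.Agent.Helper78.SG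
open scoped ContDiff

namespace Pool.Agent.Helper4.SH

private theorem om_cont_xp (g : TF) (T : ℝ) : Continuous (fun t => om g.h T t) := by
  unfold om
  exact g.smooth.continuous.comp (by fun_prop)

private theorem prp_cont_xp (h : ℝ → ℝ) (s T : ℝ) : Continuous (fun t => prp h s T t) := by
  unfold prp
  fun_prop

private theorem om_int_xp (g : TF) (hg : g.th = 1 / 4) {T : ℝ} (hT : 0 < T) {H : ℝ → ℝ} (hH : Continuous H) :
    Integrable (fun t => om g.h T t * H t) := by
  have hcs : HasCompactSupport (fun t => om g.h T t) := by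
    refine HasCompactSupport.intro (isCompact_Icc (a := 1 / 8 * T) (b := 7 / 8 * T)) ?_
    intro t ht
    by_contra h
    exact ht (om_supp g hg hT t h)
  exact ((om_cont_xp g T).mul hH).integrable_of_hasCompactSupport hcs.mul_right

theorem xs_prime (g f : TF) (hg : g.th = 1 / 4) (hg0 : ∀ x, 0 ≤ g.h x) (hg1 : ∀ x, g.h x ≤ 1) {s : ℝ} (hs : s = 1 ∨ s = 2)
    (F : ℝ → ℝ → ℝ) (hFc : ∀ T, Continuous (F T))
    (hF2 : ∃ C : ℝ, 0 < C ∧ ∀ᶠ T : ℝ in atTop, ∫ t, om g.h T t * F T t ^ 2 ≤ C * T) {ε : ℝ} (hε : 0 < ε) : ∀ᶠ T : ℝ in atTop,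
    |(∫ t, om g.h T t * (F T t * Xs f.h s T t)) -
      (f.h 0 * (∫ t, om g.h T t * F T t) - ∫ t, om g.h T t * (F T t * prp f.h s T t))| ≤ ε * T := by
  have hs1 : 1 ≤ s := by rcases hs with h | h <;> rw [h] <;> norm_num
  have hs2 : s ≤ 2 := by rcases hs with h | h <;> rw [h] <;> norm_num
  obtain ⟨C, hC, hFC⟩ := hF2
  have hlam : 0 < ε / (4 * C) := by positivity
  have hpp := pp_small g f hs (ε := ε * (ε / (4 * C))) (by positivity)
  have hmt := main_term_s f hs1 hs2 (δ := 1 / 8) (ε := ε / (4 * (1 + C))) (by norm_num) (by positivity)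
  filter_upwards [hFC, hpp, hmt, omX_int g f hg hs1 hs2, eventually_gt_atTop 1] with T hT1 hT2 hT3 hT4 hT5
  have hT0 : 0 < T := by linarith
  generalize hlamd : ε / (4 * C) = lam at *
  generalize hepd : ε / (4 * (1 + C)) = ep at *
  have hep : 0 < ep := by rw [← hepd]; positivity
  have hFT := hFc T
  have hprp := prp_cont_xp f.h s T
  have hpss := pss_cont f.h s T
  have hX : Integrable (fun t => om g.h T t * (F T t * Xs f.h s T t)) := by
    have := hT4 (F T) hFT 1
    simpa using this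
  have i1 : Integrable (fun t => om g.h T t * F T t) := om_int_xp g hg hT0 hFT
  have i2 : Integrable (fun t => om g.h T t * (F T t * prp f.h s T t)) := om_int_xp g hg hT0 (hFT.mul hprp)
  have i3 : Integrable (fun t => om g.h T t * F T t ^ 2) := om_int_xp g hg hT0 (hFT.pow 2)
  have i4 : Integrable (fun t => om g.h T t * (pss f.h s T t - prp f.h s T t) ^ 2) :=
    om_int_xp g hg hT0 ((hpss.sub hprp).pow 2)
  have i5 : Integrable (fun t => om g.h T t) := by
    have := om_int_xp g hg hT0 (H := fun _ => (1 : ℝ)) continuous_const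
    simpa using this
  have hw0 : ∀ t, 0 ≤ om g.h T t := fun t => hg0 _
  have hw1 : ∫ t, om g.h T t ≤ T := by
    have h1 : ∀ t, om g.h T t ≤ Set.indicator (Icc (1 / 8 * T) (7 / 8 * T)) (fun _ => (1 : ℝ)) t := by
      intro t
      by_cases h : om g.h T t = 0
      · rw [h]; exact Set.indicator_nonneg (fun _ _ => zero_le_one) t
      · rw [Set.indicator_of_mem (om_supp g hg hT0 t h)]; exact hg1 _
    have h2 : Integrable (Set.indicator (Icc (1 / 8 * T) (7 / 8 * T)) (fun _ => (1 : ℝ))) := by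
      rw [integrable_indicator_iff measurableSet_Icc]
      exact integrableOn_const (by simp)
    calc ∫ t, om g.h T t ≤ ∫ t, Set.indicator (Icc (1 / 8 * T) (7 / 8 * T)) (fun _ => (1 : ℝ)) t :=
          integral_mono i5 h2 h1
      _ = 7 / 8 * T - 1 / 8 * T := by
          rw [integral_indicator measurableSet_Icc, setIntegral_const]
          simp [Measure.real, Real.volume_Icc]
          linarith
      _ ≤ T := by linarith
  have e1 : (∫ t, om g.h T t * (F T t * Xs f.h s T t)) -
      (f.h 0 * (∫ t, om g.h T t * F T t) - ∫ t, om g.h T t * (F T t * prp f.h s T t)) =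
      ∫ t, (om g.h T t * (F T t * Xs f.h s T t) -
        (f.h 0 * (om g.h T t * F T t) - om g.h T t * (F T t * prp f.h s T t))) := by
    have k1 : Integrable (fun t => f.h 0 * (om g.h T t * F T t)) := i1.const_mul _
    have k2 : Integrable (fun t => f.h 0 * (om g.h T t * F T t) - om g.h T t * (F T t * prp f.h s T t)) := k1.sub i2
    rw [integral_sub hX k2, integral_sub k1 i2, integral_const_mul]
  have iB : Integrable (fun t => ep * (om g.h T t + om g.h T t * F T t ^ 2) +
      (lam * (om g.h T t * F T t ^ 2) +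
        1 / (4 * lam) * (om g.h T t * (pss f.h s T t - prp f.h s T t) ^ 2))) :=
    ((i5.add i3).const_mul ep).add ((i3.const_mul lam).add (i4.const_mul _))
  have e2 : ∫ t, (ep * (om g.h T t + om g.h T t * F T t ^ 2) +
      (lam * (om g.h T t * F T t ^ 2) +
        1 / (4 * lam) * (om g.h T t * (pss f.h s T t - prp f.h s T t) ^ 2))) =
      ep * ((∫ t, om g.h T t) + ∫ t, om g.h T t * F T t ^ 2) +
      (lam * (∫ t, om g.h T t * F T t ^ 2) +
        1 / (4 * lam) * (∫ t, om g.h T t * (pss f.h s T t - prp f.h s T t) ^ 2)) := by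
    have k1 : Integrable (fun t => om g.h T t + om g.h T t * F T t ^ 2) := i5.add i3
    have k2 : Integrable (fun t => ep * (om g.h T t + om g.h T t * F T t ^ 2)) := k1.const_mul ep
    have k3 : Integrable (fun t => lam * (om g.h T t * F T t ^ 2)) := i3.const_mul lam
    have k4 : Integrable (fun t => 1 / (4 * lam) * (om g.h T t * (pss f.h s T t - prp f.h s T t) ^ 2)) :=
      i4.const_mul _
    have k5 : Integrable (fun t => lam * (om g.h T t * F T t ^ 2) +
        1 / (4 * lam) * (om g.h T t * (pss f.h s T t - prp f.h s T t) ^ 2)) := k3.add k4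
    rw [integral_add k2 k5, integral_add k3 k4, integral_const_mul, integral_const_mul,
      integral_const_mul, integral_add i5 i3]
  rw [e1]
  have hb : ∀ t, ‖om g.h T t * (F T t * Xs f.h s T t) -
        (f.h 0 * (om g.h T t * F T t) - om g.h T t * (F T t * prp f.h s T t))‖ ≤
      ep * (om g.h T t + om g.h T t * F T t ^ 2) +
      (lam * (om g.h T t * F T t ^ 2) +
        1 / (4 * lam) * (om g.h T t * (pss f.h s T t - prp f.h s T t) ^ 2)) := by
    intro t
    by_cases hz : om g.h T t = 0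
    · simp [hz]
    have hmem := om_supp g hg hT0 t hz
    have hX' := hT3 t ⟨hmem.1, hmem.2.trans (by linarith)⟩
    generalize Xs f.h s T t = X at *
    generalize pss f.h s T t = P at *
    generalize prp f.h s T t = Q at *
    generalize F T t = Y at *
    have hw := hw0 t
    generalize om g.h T t = w at *
    have h1 : w * (Y * X) - (f.h 0 * (w * Y) - w * (Y * Q)) =
        w * (Y * (X - (f.h 0 - P)) - Y * (P - Q)) := by ring
    rw [h1, Real.norm_eq_abs, abs_mul, abs_of_nonneg hw]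
    have h2 : |Y * (X - (f.h 0 - P)) - Y * (P - Q)| ≤
        ep * (1 + Y ^ 2) + (lam * Y ^ 2 + 1 / (4 * lam) * (P - Q) ^ 2) := by
      refine (abs_sub _ _).trans ?_
      rw [abs_mul, abs_mul]
      have a1 : |Y| ≤ 1 + Y ^ 2 := by
        have : |Y| ^ 2 = Y ^ 2 := sq_abs Y
        nlinarith [abs_nonneg Y, sq_nonneg (|Y| - 1)]
      have a2 : |Y| * |X - (f.h 0 - P)| ≤ (1 + Y ^ 2) * ep :=
        mul_le_mul a1 hX' (abs_nonneg _) (by positivity)
      have a3 : |Y| * |P - Q| ≤ lam * Y ^ 2 + 1 / (4 * lam) * (P - Q) ^ 2 := by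
        have b1 : 0 ≤ (2 * lam * |Y| - |P - Q|) ^ 2 := sq_nonneg _
        have b2 : (2 * lam * |Y| - |P - Q|) ^ 2 = 4 * lam ^ 2 * Y ^ 2 - 4 * lam * (|Y| * |P - Q|) + (P - Q) ^ 2 := by
          have c1 : |Y| ^ 2 = Y ^ 2 := sq_abs Y
          have c2 : |P - Q| ^ 2 = (P - Q) ^ 2 := sq_abs _
          rw [← c1, ← c2]; ring
        have b3 : 4 * lam * (|Y| * |P - Q|) ≤ 4 * lam * (lam * Y ^ 2 + 1 / (4 * lam) * (P - Q) ^ 2) := by
          have : 4 * lam * (lam * Y ^ 2 + 1 / (4 * lam) * (P - Q) ^ 2) = 4 * lam ^ 2 * Y ^ 2 + (P - Q) ^ 2 := by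
            field_simp
          rw [this]; linarith
        exact le_of_mul_le_mul_left b3 (by positivity)
      linarith
    calc w * |Y * (X - (f.h 0 - P)) - Y * (P - Q)| ≤
        w * (ep * (1 + Y ^ 2) + (lam * Y ^ 2 + 1 / (4 * lam) * (P - Q) ^ 2)) :=
          mul_le_mul_of_nonneg_left h2 hw
      _ = _ := by ring
  have hfin := norm_integral_le_of_norm_le iB (Filter.Eventually.of_forall hb)
  rw [Real.norm_eq_abs] at hfin
  refine hfin.trans ?_
  rw [e2]
  have f1 : ep * ((∫ t, om g.h T t) + ∫ t, om g.h T t * F T t ^ 2) ≤ ep * (T + C * T) :=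
    mul_le_mul_of_nonneg_left (add_le_add hw1 hT1) hep.le
  have f2 : lam * (∫ t, om g.h T t * F T t ^ 2) ≤ lam * (C * T) := mul_le_mul_of_nonneg_left hT1 hlam.le
  have f3 : 1 / (4 * lam) * (∫ t, om g.h T t * (pss f.h s T t - prp f.h s T t) ^ 2) ≤
      1 / (4 * lam) * (ε * lam * T) := mul_le_mul_of_nonneg_left hT2 (by positivity)
  have g1 : ep * (T + C * T) = ε / 4 * T := by
    rw [← hepd]; field_simp
  have g2 : lam * (C * T) = ε / 4 * T := by
    rw [← hlamd]; field_simp
  have g3 : 1 / (4 * lam) * (ε * lam * T) = ε / 4 * T := by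
    field_simp
  have : 0 < ε * T := by positivity
  linarith

end Pool.Agent.Helper4.SH
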