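import Pool.Agent.Helper4.SH.Weights
import Pool.Agent.Helper4.SH.Kernels
import Pool.Agent.Helper4.SH.E1
import Pool.Agent.Helper4.SH.E3
import Pool.Agent.Helper4.SH.E4
import Pool.Agent.Helper4.SH.FinNum
import Pool.Agent.Helper4.SH.WindowF
import Pool.Agent.Helper4.SH.Upper
import Pool.Agent.Helper4.SH.Swap
import Pool.Agent.Helper4.SH.UI
import Pool.Agent.Helper4.SH.Transfer
import Pool.Agent.Helper4.SH.XPrime

/-!
# SH: the main theorem: a positive proportion of the zeros is within `0.68` mean spacings of another zero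
-/

open MeasureTheory Set Filter Topology
open Pool.Agent.Helper57.Zeta Pool.Agent.Helper57.PC Pool.Agent.Helper57.LH Pool.Agent.Helper78.SG
open scoped ContDiff

namespace Pool.Agent.Helper4.SH

/-- the lower bound for one of the two parts -/
lemma part_lower (g f : TF) (hg : g.th = 1 / 4) (hg0 : ∀ x, 0 ≤ g.h x) (hg1 : ∀ x, g.h x ≤ 1) {s : ℝ}
    (hs : s = 1 ∨ s = 2) (F : ℝ → ℝ → ℝ) (hFc : ∀ T, Continuous (F T))
    (hFb : ∀ T : ℝ, 1 < T → ∀ t, |F T t| ≤ 10000 * T ^ ((998 : ℝ) / 1000))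
    (hF2 : ∃ C : ℝ, 0 < C ∧ ∀ᶠ T : ℝ in atTop, ∫ t, om g.h T t * F T t ^ 2 ≤ C * T)
    (hui : ∀ ε : ℝ, 0 < ε → ∃ η : ℝ, 0 < η ∧ ∀ᶠ T : ℝ in atTop, ∀ B : Set ℝ, MeasurableSet B →
      volume B ≤ ENNReal.ofReal (η * T) → ∫ t in B, om g.h T t * |F T t * Xs f.h s T t| ≤ ε * T)
    (hwin : ∀ T : ℝ, 1 < T → ∀ γ : ℝ, ∫ t in (γ - hw T)..(γ + hw T), F T t = ∫ t, F T t * krs f.h s T (t - γ))
    (BT : ℝ → ℝ)
    (hE : ∀ ε : ℝ, 0 < ε → ∀ᶠ T : ℝ in atTop,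
      |(∫ t, om g.h T t * (F T t * prp f.h s T t)) + T * (∫ x, g.h x) * BT T| ≤ ε * T)
    {ε : ℝ} (hε : 0 < ε) : ∃ p : ℝ, 0 < p ∧ ∀ᶠ T : ℝ in atTop, ∑ ρ ∈ CZ T, mx ρ ≤ p * (T * Real.log T) →
      |(∑ ρ ∈ IZ T, om g.h T (ρ : ℂ).im * (∫ t in ((ρ : ℂ).im - hw T)..((ρ : ℂ).im + hw T), F T t)) -
        (f.h 0 * (∫ t, om g.h T t * F T t) + T * (∫ x, g.h x) * BT T)| ≤ ε * T := by
  have hs1 : 1 ≤ s := by rcases hs with h | h <;> rw [h] <;> norm_num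
  have hs2 : s ≤ 2 := by rcases hs with h | h <;> rw [h] <;> norm_num
  have hε4 : 0 < ε / 4 := by positivity
  obtain ⟨p, hp, htr⟩ := transfer g f hg hg0 hg1 hs1 hs2 F hFc hF2 hui hε4
  refine ⟨p, hp, ?_⟩
  filter_upwards [htr, swap_H5 g f hs1 F hFc hFb hε4, xs_prime g f hg hg0 hg1 hs F hFc hF2 hε4, hE (ε / 4) hε4,
    eventually_gt_atTop 1] with T h1 h2 h3 h4 hT hcl
  have h1' := h1 hcl
  have h5 : (∑ ρ ∈ IZ T, om g.h T (ρ : ℂ).im * (∫ t in ((ρ : ℂ).im - hw T)..((ρ : ℂ).im + hw T), F T t)) =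
      ∑ ρ ∈ IZ T, om g.h T (ρ : ℂ).im * ∫ t, F T t * krs f.h s T (t - (ρ : ℂ).im) := by
    refine Finset.sum_congr rfl fun ρ _ => ?_
    rw [hwin T hT]
  rw [h5]
  have e1 := abs_le.mp h1'
  have e2 := abs_le.mp h2
  have e3 := abs_le.mp h3
  have e4 := abs_le.mp h4
  rw [abs_le]
  constructor <;> linarith [e1.1, e1.2, e2.1, e2.2, e3.1, e3.2, e4.1, e4.2]

/-- Main theorem: a positive proportion of the zeros is close. -/
theorem main_closeB : ∃ p : ℝ, 0 < p ∧ ∀ᶠ T : ℝ in atTop, p * (T * Real.log T) ≤ ∑ ρ ∈ CZ T, mx ρ := by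
  obtain ⟨g, hg, hg0, hg1, hOm⟩ := exists_g
  obtain ⟨f1, hf1⟩ := exists_f1
  obtain ⟨f2, hf2⟩ := exists_f2
  obtain ⟨Om, hOme⟩ : ∃ Om : ℝ, Om = ∫ x, g.h x := ⟨_, rfl⟩
  have hOm0 : 0 < Om := by rw [hOme]; exact hOm
  obtain ⟨ε, hεe⟩ : ∃ ε : ℝ, ε = Om / 4000 := ⟨_, rfl⟩
  have hε : 0 < ε := by rw [hεe]; positivity
  have hf10 : f1.h 0 = 68 / 100 := by
    rw [hf1 0 (by norm_num), SB_zero]
  have hf20 : f2.h 0 = 68 / 100 := by
    rw [hf2 0 (by norm_num), mul_zero, SB_zero]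
  obtain ⟨p1, hp1, h1⟩ := part_lower g f1 hg hg0 hg1 (s := 1) (Or.inl rfl) F1 F1_cont (fun T hT t => F1_crude hT t)
    (F1_sq_int g hg0) (fun ε hε => ui_1 g f1 hg hg0 hg1 hε) (fun T hT γ => window_F1 f1 hf1 hT γ) B1T
    (fun ε hε => E3 g f1 hf1 hε) hε
  obtain ⟨p2, hp2, h2⟩ := part_lower g f2 hg hg0 hg1 (s := 2) (Or.inr rfl) F2 F2_cont (fun T hT t => F2_crude hT t)
    (F2_sq_int g hg0) (fun ε hε => ui_2 g f2 hg hg0 hg1 hε) (fun T hT γ => window_F2 f2 hf2 hT γ) B2T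
    (fun ε hε => E4 g f2 hf2 hε) hε
  refine ⟨min p1 p2, lt_min hp1 hp2, ?_⟩
  filter_upwards [h1, h2, upper_H4 g hg0 hε, E1 g hε, fin_num, eventually_gt_atTop 1] with T h3 h4 h5 h6 h7 hT
  by_contra hcon
  rw [not_le] at hcon
  have hL : 0 < Real.log T := Real.log_pos hT
  have hT0 : 0 < T := by linarith
  have hTL : 0 ≤ T * Real.log T := by positivity
  have hc1 : ∑ ρ ∈ CZ T, mx ρ ≤ p1 * (T * Real.log T) :=
    hcon.le.trans (mul_le_mul_of_nonneg_right (min_le_left _ _) hTL)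
  have hc2 : ∑ ρ ∈ CZ T, mx ρ ≤ p2 * (T * Real.log T) :=
    hcon.le.trans (mul_le_mul_of_nonneg_right (min_le_right _ _) hTL)
  have e3 := abs_le.mp (h3 hc1)
  have e4 := abs_le.mp (h4 hc2)
  rw [hf10] at e3
  rw [hf20] at e4
  have e6 := abs_le.mp h6
  rw [← hOme] at e3 e4 e6
  -- split the integrals of `F1 + F2`
  have hcs : HasCompactSupport (fun t => om g.h T t) := by
    refine HasCompactSupport.of_support_subset_isCompact (isCompact_Icc (a := 1 / 8 * T) (b := 7 / 8 * T)) ?_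
    intro t ht
    exact om_supp g hg hT0 t ht
  have hi1 : Integrable (fun t => om g.h T t * F1 T t) :=
    (((om_cont g T).mul (F1_cont T)).integrable_of_hasCompactSupport hcs.mul_right)
  have hi2 : Integrable (fun t => om g.h T t * F2 T t) :=
    (((om_cont g T).mul (F2_cont T)).integrable_of_hasCompactSupport hcs.mul_right)
  have hsum : ∫ t, om g.h T t * (F1 T t + F2 T t) = (∫ t, om g.h T t * F1 T t) + ∫ t, om g.h T t * F2 T t := by
    rw [← integral_add hi1 hi2]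
    refine integral_congr_ae (Eventually.of_forall fun t => ?_)
    simp only
    ring
  have hwsum : ∑ ρ ∈ IZ T, om g.h T (ρ : ℂ).im *
      (∫ t in ((ρ : ℂ).im - hw T)..((ρ : ℂ).im + hw T), (F1 T t + F2 T t)) =
      (∑ ρ ∈ IZ T, om g.h T (ρ : ℂ).im * (∫ t in ((ρ : ℂ).im - hw T)..((ρ : ℂ).im + hw T), F1 T t)) +
      ∑ ρ ∈ IZ T, om g.h T (ρ : ℂ).im * (∫ t in ((ρ : ℂ).im - hw T)..((ρ : ℂ).im + hw T), F2 T t) := by
    rw [← Finset.sum_add_distrib]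
    refine Finset.sum_congr rfl fun ρ _ => ?_
    rw [← mul_add, ← intervalIntegral.integral_add]
    · exact (F1_cont T).intervalIntegrable _ _
    · exact (F2_cont T).intervalIntegrable _ _
  rw [hwsum] at h5
  rw [hsum] at h5 e6
  -- the contradiction
  have hkey : T * Om * (32 / 100 * AT T + 1 / 200) ≤ T * Om * (B1T T + B2T T) :=
    mul_le_mul_of_nonneg_left h7 (by positivity)
  have hfin : T * Om * (1 / 200) ≤ 5 * ε * T := by
    nlinarith [e3.1, e3.2, e4.1, e4.2, e6.1, e6.2, h5, hkey]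
  have h8 : T * Om * (1 / 200) ≤ 5 * (Om / 4000) * T := by rw [hεe] at hfin; exact hfin
  have h9 : 5 * (Om / 4000) * T < T * Om * (1 / 200) := by
    have : 0 < T * Om := by positivity
    nlinarith
  linarith

end Pool.Agent.Helper4.SH
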