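import Pool.Agent.Helper4.SH.WSum

/-!
# SH-MD: the diagonal of a moment

For `X, Y : Fin j → ι` in the sum put `N = ∏ a(X k) · ∏ b(Y k) = ∏ b(X k) · ∏ a(Y k)`. Then
`∏|c(X k)| ∏|c(Y k)| ≤ K^(2j) WW(N)²` (`WW` is multiplicative), `Ω(N) ≤ j d` (`2 Ω(N) = ∑ (Ω(a)+Ω(b)) ≤ 2 j d`), all prime factors of `N`
are in `PP T`. For a given `N` the number of pairs `(X, Y)` is at most `(number of divisors of N)^(4j) ≤ 2^(4 j · j d)`: `(X, Y)` is
determined by the divisors `a(X k), b(X k), a(Y k), b(Y k)` of `N` (injectivity hypothesis) and `N` has at most `2^Ω(N)` divisors. So the sum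
is `≤ K^(2j) 2^(4 j² d) ∑_{i ≤ jd} ∑_{Ω(N) = i} WW(N)² ≤ K^(2j) 2^(4 j² d) (j d + 1)` by `WW_pow_sum` and `∑ ww² ≤ 1`.
-/

open MeasureTheory Set Filter Topology
open Pool.Agent.Helper57.Zeta Pool.Agent.Helper57.PC Pool.Agent.Helper57.LH Pool.Agent.Helper78.SG
open scoped ContDiff

namespace Pool.Agent.Helper4.SH

namespace MDaux

theorem card_div_le {N : ℕ} (hN : N ≠ 0) : N.divisors.card ≤ 2 ^ N.primeFactorsList.length := by
  rw [Nat.card_divisors hN]
  have h1 : N.primeFactorsList.length = ∑ p ∈ N.primeFactors, N.factorization p := by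
    have := List.sum_toFinset_count_eq_length N.primeFactorsList
    rw [← this]
    refine Finset.sum_congr rfl fun p _ => ?_
    exact Nat.primeFactorsList_count_eq
  rw [h1, ← Finset.prod_pow_eq_pow_sum]
  exact Finset.prod_le_prod' fun p _ => Nat.lt_two_pow_self

theorem WW_one (T : ℝ) : WW T 1 = 1 := by
  simp [WW]

theorem WW_prod (T : ℝ) {κ : Type*} (s : Finset κ) (f : κ → ℕ) (hf : ∀ k ∈ s, f k ≠ 0) :
    WW T (∏ k ∈ s, f k) = ∏ k ∈ s, WW T (f k) := by
  classical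
  induction s using Finset.induction_on with
  | empty => simp [WW_one]
  | insert a s ha ih =>
    rw [Finset.prod_insert ha, Finset.prod_insert ha, WW_mul T, ih]
    · intro k hk
      exact hf k (Finset.mem_insert_of_mem hk)
    · exact hf a (Finset.mem_insert_self _ _)
    · exact Finset.prod_ne_zero_iff.2 fun k hk => hf k (Finset.mem_insert_of_mem hk)

theorem len_mul {m n : ℕ} (hm : m ≠ 0) (hn : n ≠ 0) :
    (m * n).primeFactorsList.length = m.primeFactorsList.length + n.primeFactorsList.length := by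
  rw [(Nat.perm_primeFactorsList_mul hm hn).length_eq, List.length_append]

theorem len_prod {κ : Type*} (s : Finset κ) (f : κ → ℕ) (hf : ∀ k ∈ s, f k ≠ 0) :
    (∏ k ∈ s, f k).primeFactorsList.length = ∑ k ∈ s, (f k).primeFactorsList.length := by
  classical
  induction s using Finset.induction_on with
  | empty => simp
  | insert a s ha ih =>
    rw [Finset.prod_insert ha, Finset.sum_insert ha, len_mul, ih]
    · intro k hk
      exact hf k (Finset.mem_insert_of_mem hk)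
    · exact hf a (Finset.mem_insert_self _ _)
    · exact Finset.prod_ne_zero_iff.2 fun k hk => hf k (Finset.mem_insert_of_mem hk)

end MDaux

open MDaux

theorem mom_diag (j d : ℕ) (K : ℝ) (hK : 0 ≤ K) : ∃ C : ℝ, 0 < C ∧ ∀ T : ℝ, 1 < T →
    ∑ p ∈ PP T, ww T p ^ 2 ≤ 1 →
    ∀ (ι : Type) [DecidableEq ι] (S : Finset ι) (c : ι → ℝ) (a b : ι → ℕ),
      (∀ i ∈ S, a i ≠ 0 ∧ b i ≠ 0 ∧ (a i).primeFactorsList.length + (b i).primeFactorsList.length ≤ d ∧
        (∀ p ∈ (a i).primeFactorsList, p ∈ PP T) ∧ (∀ p ∈ (b i).primeFactorsList, p ∈ PP T) ∧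
        |c i| ≤ K * (WW T (a i) * WW T (b i))) →
      (∀ i ∈ S, ∀ i' ∈ S, a i = a i' → b i = b i' → i = i') →
      ∑ X ∈ Fintype.piFinset (fun _ : Fin j => S), ∑ Y ∈ Fintype.piFinset (fun _ : Fin j => S),
        (if (∏ k, a (X k)) * (∏ k, b (Y k)) = (∏ k, b (X k)) * (∏ k, a (Y k))
          then (∏ k, |c (X k)|) * (∏ k, |c (Y k)|) else 0) ≤ C := by
  refine ⟨K ^ (2 * j) * (2 ^ (j * d)) ^ (4 * j) * (j * d + 1) + 1, by positivity, ?_⟩
  intro T hT hww ι _ S c a b hS hinj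
  set P : Finset ((Fin j → ι) × (Fin j → ι)) :=
    (Fintype.piFinset (fun _ : Fin j => S) ×ˢ Fintype.piFinset (fun _ : Fin j => S)).filter
      (fun x => (∏ k, a (x.1 k)) * (∏ k, b (x.2 k)) = (∏ k, b (x.1 k)) * (∏ k, a (x.2 k))) with hP
  set g : (Fin j → ι) × (Fin j → ι) → ℕ := fun x => (∏ k, a (x.1 k)) * (∏ k, b (x.2 k)) with hg
  have hmem : ∀ x ∈ P, (∀ k, x.1 k ∈ S) ∧ (∀ k, x.2 k ∈ S) ∧
      (∏ k, a (x.1 k)) * (∏ k, b (x.2 k)) = (∏ k, b (x.1 k)) * (∏ k, a (x.2 k)) := by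
    intro x hx
    rw [hP, Finset.mem_filter, Finset.mem_product, Fintype.mem_piFinset,
      Fintype.mem_piFinset] at hx
    exact ⟨hx.1.1, hx.1.2, hx.2⟩
  have hsum : ∑ X ∈ Fintype.piFinset (fun _ : Fin j => S),
      ∑ Y ∈ Fintype.piFinset (fun _ : Fin j => S),
        (if (∏ k, a (X k)) * (∏ k, b (Y k)) = (∏ k, b (X k)) * (∏ k, a (Y k))
          then (∏ k, |c (X k)|) * (∏ k, |c (Y k)|) else 0) =
      ∑ x ∈ P, (∏ k, |c (x.1 k)|) * (∏ k, |c (x.2 k)|) := by
    rw [← Finset.sum_product', hP, Finset.sum_filter]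
  rw [hsum]
  -- facts about the numbers `g x`
  have hA0 : ∀ x ∈ P, (∏ k, a (x.1 k)) ≠ 0 := fun x hx =>
    Finset.prod_ne_zero_iff.2 fun k _ => (hS _ ((hmem x hx).1 k)).1
  have hB0 : ∀ x ∈ P, (∏ k, b (x.1 k)) ≠ 0 := fun x hx =>
    Finset.prod_ne_zero_iff.2 fun k _ => (hS _ ((hmem x hx).1 k)).2.1
  have hA0' : ∀ x ∈ P, (∏ k, a (x.2 k)) ≠ 0 := fun x hx =>
    Finset.prod_ne_zero_iff.2 fun k _ => (hS _ ((hmem x hx).2.1 k)).1
  have hB0' : ∀ x ∈ P, (∏ k, b (x.2 k)) ≠ 0 := fun x hx =>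
    Finset.prod_ne_zero_iff.2 fun k _ => (hS _ ((hmem x hx).2.1 k)).2.1
  have hg0 : ∀ x ∈ P, g x ≠ 0 := fun x hx => mul_ne_zero (hA0 x hx) (hB0' x hx)
  have hlen : ∀ x ∈ P, (g x).primeFactorsList.length ≤ j * d := by
    intro x hx
    have h1 : (g x).primeFactorsList.length = ∑ k, (a (x.1 k)).primeFactorsList.length +
        ∑ k, (b (x.2 k)).primeFactorsList.length := by
      rw [hg]
      dsimp only
      rw [len_mul (hA0 x hx) (hB0' x hx), len_prod _ _ fun k _ => (hS _ ((hmem x hx).1 k)).1,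
        len_prod _ _ fun k _ => (hS _ ((hmem x hx).2.1 k)).2.1]
    have h2 : (g x).primeFactorsList.length = ∑ k, (b (x.1 k)).primeFactorsList.length +
        ∑ k, (a (x.2 k)).primeFactorsList.length := by
      rw [hg]
      dsimp only
      rw [(hmem x hx).2.2, len_mul (hB0 x hx) (hA0' x hx),
        len_prod _ _ fun k _ => (hS _ ((hmem x hx).1 k)).2.1,
        len_prod _ _ fun k _ => (hS _ ((hmem x hx).2.1 k)).1]
    have h3 : ∑ k, (a (x.1 k)).primeFactorsList.length +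
        ∑ k, (b (x.1 k)).primeFactorsList.length ≤ j * d := by
      rw [← Finset.sum_add_distrib]
      calc _ ≤ ∑ k : Fin j, d := Finset.sum_le_sum fun k _ => (hS _ ((hmem x hx).1 k)).2.2.1
        _ = j * d := by simp
    have h4 : ∑ k, (a (x.2 k)).primeFactorsList.length +
        ∑ k, (b (x.2 k)).primeFactorsList.length ≤ j * d := by
      rw [← Finset.sum_add_distrib]
      calc _ ≤ ∑ k : Fin j, d := Finset.sum_le_sum fun k _ => (hS _ ((hmem x hx).2.1 k)).2.2.1
        _ = j * d := by simp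
    omega
  have hpr : ∀ x ∈ P, ∀ p ∈ (g x).primeFactorsList, p ∈ PP T := by
    intro x hx p hp
    rw [Nat.mem_primeFactorsList (hg0 x hx)] at hp
    rcases (Nat.Prime.dvd_mul hp.1).1 hp.2 with h | h
    · obtain ⟨k, _, hk⟩ := (Nat.Prime.prime hp.1).exists_mem_finset_dvd h
      have h5 := hS _ ((hmem x hx).1 k)
      exact h5.2.2.2.1 p ((Nat.mem_primeFactorsList h5.1).2 ⟨hp.1, hk⟩)
    · obtain ⟨k, _, hk⟩ := (Nat.Prime.prime hp.1).exists_mem_finset_dvd h
      have h5 := hS _ ((hmem x hx).2.1 k)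
      exact h5.2.2.2.2.1 p ((Nat.mem_primeFactorsList h5.2.1).2 ⟨hp.1, hk⟩)
  have hterm : ∀ x ∈ P, (∏ k, |c (x.1 k)|) * (∏ k, |c (x.2 k)|) ≤
      K ^ (2 * j) * WW T (g x) ^ 2 := by
    intro x hx
    have h1 : ∏ k, |c (x.1 k)| ≤ ∏ k, (K * (WW T (a (x.1 k)) * WW T (b (x.1 k)))) :=
      Finset.prod_le_prod (fun k _ => abs_nonneg _)
        fun k _ => (hS _ ((hmem x hx).1 k)).2.2.2.2.2
    have h2 : ∏ k, |c (x.2 k)| ≤ ∏ k, (K * (WW T (a (x.2 k)) * WW T (b (x.2 k)))) :=
      Finset.prod_le_prod (fun k _ => abs_nonneg _)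
        fun k _ => (hS _ ((hmem x hx).2.1 k)).2.2.2.2.2
    have h3 : WW T (g x) = (∏ k, WW T (a (x.1 k))) * ∏ k, WW T (b (x.2 k)) := by
      rw [hg]
      dsimp only
      rw [WW_mul T (hA0 x hx) (hB0' x hx), WW_prod T _ _ fun k _ => (hS _ ((hmem x hx).1 k)).1,
        WW_prod T _ _ fun k _ => (hS _ ((hmem x hx).2.1 k)).2.1]
    have h4 : WW T (g x) = (∏ k, WW T (b (x.1 k))) * ∏ k, WW T (a (x.2 k)) := by
      rw [hg]
      dsimp only
      rw [(hmem x hx).2.2, WW_mul T (hB0 x hx) (hA0' x hx),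
        WW_prod T _ _ fun k _ => (hS _ ((hmem x hx).1 k)).2.1,
        WW_prod T _ _ fun k _ => (hS _ ((hmem x hx).2.1 k)).1]
    have h5 : K ^ (2 * j) * WW T (g x) ^ 2 =
        (∏ k, (K * (WW T (a (x.1 k)) * WW T (b (x.1 k))))) *
          ∏ k, (K * (WW T (a (x.2 k)) * WW T (b (x.2 k)))) := by
      simp only [Finset.prod_mul_distrib, Finset.prod_const, Finset.card_univ, Fintype.card_fin]
      rw [pow_two (WW T (g x))]
      nth_rewrite 1 [h3]
      rw [h4]
      ring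
    rw [h5]
    exact mul_le_mul h1 h2 (Finset.prod_nonneg fun k _ => abs_nonneg _)
      (Finset.prod_nonneg fun k _ => mul_nonneg hK (mul_nonneg (WW_nonneg hT _) (WW_nonneg hT _)))
  -- the fibres
  have hfib : ∀ N ∈ P.image g, ((P.filter fun x => g x = N).card : ℝ) ≤
      (2 ^ (j * d)) ^ (4 * j) := by
    intro N hN
    obtain ⟨x0, hx0, rfl⟩ := Finset.mem_image.1 hN
    set N := g x0 with hNdef
    have hN0 : N ≠ 0 := hg0 x0 hx0
    have hcard : (P.filter fun x => g x = N).card ≤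
        (Fintype.piFinset fun _ : Fin j =>
          (N.divisors ×ˢ N.divisors) ×ˢ (N.divisors ×ˢ N.divisors)).card := by
      refine Finset.card_le_card_of_injOn
        (fun x k => ((a (x.1 k), b (x.1 k)), (a (x.2 k), b (x.2 k)))) ?_ ?_
      · intro x hx
        rw [Finset.mem_coe, Finset.mem_filter] at hx
        rw [Finset.mem_coe, Fintype.mem_piFinset]
        intro k
        have hN1 : N = (∏ k, a (x.1 k)) * (∏ k, b (x.2 k)) := hx.2.symm
        have hN2 : N = (∏ k, b (x.1 k)) * (∏ k, a (x.2 k)) := by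
          rw [← (hmem x hx.1).2.2]
          exact hN1
        simp only [Finset.mem_product, Nat.mem_divisors]
        refine ⟨⟨⟨?_, hN0⟩, ⟨?_, hN0⟩⟩, ⟨⟨?_, hN0⟩, ⟨?_, hN0⟩⟩⟩
        · rw [hN1]
          exact dvd_mul_of_dvd_left (Finset.dvd_prod_of_mem _ (Finset.mem_univ k)) _
        · rw [hN2]
          exact dvd_mul_of_dvd_left (Finset.dvd_prod_of_mem _ (Finset.mem_univ k)) _
        · rw [hN2]
          exact dvd_mul_of_dvd_right
            (Finset.dvd_prod_of_mem (fun k => a (x.2 k)) (Finset.mem_univ k)) _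
        · rw [hN1]
          exact dvd_mul_of_dvd_right
            (Finset.dvd_prod_of_mem (fun k => b (x.2 k)) (Finset.mem_univ k)) _
      · intro x hx y hy hxy
        rw [Finset.mem_coe, Finset.mem_filter] at hx hy
        have hk : ∀ k, ((a (x.1 k), b (x.1 k)), (a (x.2 k), b (x.2 k))) =
            ((a (y.1 k), b (y.1 k)), (a (y.2 k), b (y.2 k))) := fun k => congrFun hxy k
        simp only [Prod.mk.injEq] at hk
        refine Prod.ext ?_ ?_
        · funext k
          exact hinj _ ((hmem x hx.1).1 k) _ ((hmem y hy.1).1 k) (hk k).1.1 (hk k).1.2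
        · funext k
          exact hinj _ ((hmem x hx.1).2.1 k) _ ((hmem y hy.1).2.1 k) (hk k).2.1 (hk k).2.2
    have hdiv : N.divisors.card ≤ 2 ^ (j * d) :=
      (card_div_le hN0).trans (Nat.pow_le_pow_right (by norm_num) (hlen x0 hx0))
    have h2 : (Fintype.piFinset fun _ : Fin j =>
          (N.divisors ×ˢ N.divisors) ×ˢ (N.divisors ×ˢ N.divisors)).card =
          N.divisors.card ^ (4 * j) := by
      rw [Fintype.card_piFinset]
      simp only [Finset.card_product, Finset.prod_const, Finset.card_univ, Fintype.card_fin]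
      rw [pow_mul]
      congr 1
      ring
    rw [h2] at hcard
    have h3 := hcard.trans (Nat.pow_le_pow_left hdiv (4 * j))
    exact_mod_cast h3
  -- conclusion
  have hmain : ∑ x ∈ P, (∏ k, |c (x.1 k)|) * (∏ k, |c (x.2 k)|) ≤
      K ^ (2 * j) * (2 ^ (j * d)) ^ (4 * j) * ∑ N ∈ P.image g, WW T N ^ 2 := by
    calc _ ≤ ∑ x ∈ P, K ^ (2 * j) * WW T (g x) ^ 2 := Finset.sum_le_sum hterm
      _ = ∑ N ∈ P.image g, (P.filter fun x => g x = N).card • (K ^ (2 * j) * WW T N ^ 2) :=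
          Finset.sum_comp (fun N => K ^ (2 * j) * WW T N ^ 2) g
      _ ≤ ∑ N ∈ P.image g, (2 ^ (j * d)) ^ (4 * j) * (K ^ (2 * j) * WW T N ^ 2) := by
          refine Finset.sum_le_sum fun N hN => ?_
          rw [nsmul_eq_mul]
          exact mul_le_mul_of_nonneg_right (hfib N hN) (by positivity)
      _ = _ := by
          rw [← Finset.mul_sum, ← Finset.mul_sum]
          ring
  have hW : ∑ N ∈ P.image g, WW T N ^ 2 ≤ j * d + 1 := by
    have hmaps : ∀ N ∈ P.image g, N.primeFactorsList.length ∈ Finset.range (j * d + 1) := by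
      intro N hN
      obtain ⟨x0, hx0, rfl⟩ := Finset.mem_image.1 hN
      rw [Finset.mem_range]
      exact Nat.lt_succ_of_le (hlen x0 hx0)
    rw [← Finset.sum_fiberwise_of_maps_to hmaps]
    calc _ ≤ ∑ i ∈ Finset.range (j * d + 1), (1 : ℝ) := by
          refine Finset.sum_le_sum fun i _ => ?_
          refine (WW_pow_sum hT i _ ?_).trans ?_
          · intro N hN
            rw [Finset.mem_filter] at hN
            obtain ⟨x0, hx0, rfl⟩ := Finset.mem_image.1 hN.1
            exact ⟨hg0 x0 hx0, hN.2, hpr x0 hx0⟩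
          · exact pow_le_one₀ (Finset.sum_nonneg fun p _ => sq_nonneg _) hww
      _ = j * d + 1 := by
          simp
  calc _ ≤ _ := hmain
    _ ≤ K ^ (2 * j) * (2 ^ (j * d)) ^ (4 * j) * (j * d + 1) :=
        mul_le_mul_of_nonneg_left hW (by positivity)
    _ ≤ _ := by linarith

end Pool.Agent.Helper4.SH
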