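import Pool.Agent.Helper4.SH.GMV
import Pool.Agent.Helper4.SH.MomDiag

/-!
# SH-MO: moments with a smooth weight

`G(t) = ∑_{i,i'} c_i c_i' cos(t(log a_i - log b_i - log a_i' + log b_i')) = |f(t)|²`, `f = ∑ c_i e^(i t (log a_i - log b_i))`;
`f^j = ∑_X ∏ c(X k) e^(i t (log ∏a(X k) - log ∏b(X k)))` (`Finset.prod_univ_sum`), so
`G^j = |f^j|² = ∑_X ∑_Y ∏c(X k) ∏c(Y k) cos(t (log(∏a(X k) ∏b(Y k)) - log(∏b(X k) ∏a(Y k))))`. Apply `gmv` with the index set of pairs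
`(X, Y)`: the product of the two arguments is `≤ (T^θ)^(2j) ≤ T^(2(1-δ))`, so the smaller one is `≤ T^(1-δ)`. Diagonal: `mom_diag`.
Error: `∑|c| ≤ (K card S)^(2j) ≤ (K T²)^(2j)` (`WW ≤ 1`), beaten by `T^(1 - δ·k)` with `k` large.
-/

open MeasureTheory Set Filter Topology
open Pool.Agent.Helper57.Zeta Pool.Agent.Helper57.PC Pool.Agent.Helper57.LH Pool.Agent.Helper78.SG
open scoped ContDiff

namespace Pool.Agent.Helper4.SH

/-- the trigonometric polynomial -/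
noncomputable def trp {κ : Type} (S : Finset κ) (c ph : κ → ℝ) (t : ℝ) : ℂ :=
  ∑ i ∈ S, (c i : ℂ) * Complex.exp (((t * ph i : ℝ) : ℂ) * Complex.I)

theorem trp_normSq {κ : Type} (S : Finset κ) (c ph : κ → ℝ) (t : ℝ) :
    Complex.normSq (trp S c ph t) =
      ∑ i ∈ S, ∑ i' ∈ S, c i * c i' * Real.cos (t * (ph i - ph i')) := by
  have hre : (trp S c ph t).re = ∑ i ∈ S, c i * Real.cos (t * ph i) := by
    unfold trp
    rw [Complex.re_sum]
    refine Finset.sum_congr rfl fun i _ => ?_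
    rw [Complex.re_ofReal_mul, Complex.exp_ofReal_mul_I_re]
  have him : (trp S c ph t).im = ∑ i ∈ S, c i * Real.sin (t * ph i) := by
    unfold trp
    rw [Complex.im_sum]
    refine Finset.sum_congr rfl fun i _ => ?_
    rw [Complex.im_ofReal_mul, Complex.exp_ofReal_mul_I_im]
  rw [Complex.normSq_apply, hre, him, Finset.sum_mul_sum, Finset.sum_mul_sum,
    ← Finset.sum_add_distrib]
  refine Finset.sum_congr rfl fun i _ => ?_
  rw [← Finset.sum_add_distrib]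
  refine Finset.sum_congr rfl fun i' _ => ?_
  rw [mul_sub, Real.cos_sub]
  ring

theorem trp_pow {κ : Type} [DecidableEq κ] (S : Finset κ) (c ph : κ → ℝ) (t : ℝ) (j : ℕ) :
    trp S c ph t ^ j = trp (Fintype.piFinset (fun _ : Fin j => S)) (fun X => ∏ k, c (X k))
      (fun X => ∑ k, ph (X k)) t := by
  have h1 : trp S c ph t ^ j = ∏ _k : Fin j, trp S c ph t := by
    rw [Finset.prod_const, Finset.card_univ, Fintype.card_fin]
  rw [h1]
  unfold trp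
  rw [Finset.prod_univ_sum]
  refine Finset.sum_congr rfl fun X _ => ?_
  rw [Finset.prod_mul_distrib, ← Complex.exp_sum, Complex.ofReal_prod]
  congr 2
  rw [← Finset.sum_mul, Finset.mul_sum, Complex.ofReal_sum]

theorem WW_le_one {T : ℝ} (hT : 1 < T) (n : ℕ) (h : ∀ p ∈ n.primeFactorsList, p ∈ PP T) :
    WW T n ≤ 1 := by
  have key : ∀ l : List ℕ, (∀ p ∈ l, p ∈ PP T) →
      0 ≤ (l.map (ww T)).prod ∧ (l.map (ww T)).prod ≤ 1 := by
    intro l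
    induction l with
    | nil => intro _; simp
    | cons p l ih =>
      intro hl
      obtain ⟨h1, h2⟩ := ih (fun q hq => hl q (List.mem_cons_of_mem _ hq))
      have h3 := ww_nonneg T hT p
      have h4 := ww_le_one hT (hl p List.mem_cons_self)
      rw [List.map_cons, List.prod_cons]
      exact ⟨mul_nonneg h3 h1, mul_le_one₀ h4 h1 h2⟩
  exact (key _ h).2

theorem log_prod_nat {j : ℕ} (f : Fin j → ℕ) (hf : ∀ k, f k ≠ 0) :
    Real.log ((∏ k, f k : ℕ) : ℝ) = ∑ k, Real.log (f k) := by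
  rw [Nat.cast_prod]
  exact Real.log_prod (fun k _ => by exact_mod_cast hf k)

theorem mom_expand {ι : Type} [DecidableEq ι] (S : Finset ι) (c : ι → ℝ) (a b : ι → ℕ)
    (h : ∀ i ∈ S, a i ≠ 0 ∧ b i ≠ 0) (j : ℕ) (t : ℝ) :
    (∑ i ∈ S, ∑ i' ∈ S, c i * c i' * Real.cos (t * ((Real.log (a i) - Real.log (b i)) -
        (Real.log (a i') - Real.log (b i'))))) ^ j =
    ∑ Z ∈ Fintype.piFinset (fun _ : Fin j => S) ×ˢ Fintype.piFinset (fun _ : Fin j => S),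
      ((∏ k, c (Z.1 k)) * (∏ k, c (Z.2 k))) * Real.cos (t *
        (Real.log (((∏ k, a (Z.1 k)) * (∏ k, b (Z.2 k)) : ℕ) : ℝ) -
          Real.log (((∏ k, b (Z.1 k)) * (∏ k, a (Z.2 k)) : ℕ) : ℝ))) := by
  rw [← trp_normSq S c (fun i => Real.log (a i) - Real.log (b i)) t, ← map_pow, trp_pow,
    trp_normSq, Finset.sum_product]
  refine Finset.sum_congr rfl fun X hX => Finset.sum_congr rfl fun Y hY => ?_
  have hX' : ∀ k, X k ∈ S := fun k => (Fintype.mem_piFinset.mp hX) k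
  have hY' : ∀ k, Y k ∈ S := fun k => (Fintype.mem_piFinset.mp hY) k
  have haX : (((∏ k, a (X k) : ℕ)) : ℝ) ≠ 0 := by
    exact_mod_cast Finset.prod_ne_zero_iff.mpr fun k _ => (h _ (hX' k)).1
  have hbX : (((∏ k, b (X k) : ℕ)) : ℝ) ≠ 0 := by
    exact_mod_cast Finset.prod_ne_zero_iff.mpr fun k _ => (h _ (hX' k)).2
  have haY : (((∏ k, a (Y k) : ℕ)) : ℝ) ≠ 0 := by
    exact_mod_cast Finset.prod_ne_zero_iff.mpr fun k _ => (h _ (hY' k)).1
  have hbY : (((∏ k, b (Y k) : ℕ)) : ℝ) ≠ 0 := by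
    exact_mod_cast Finset.prod_ne_zero_iff.mpr fun k _ => (h _ (hY' k)).2
  have e1 : Real.log (((∏ k, a (X k)) * (∏ k, b (Y k)) : ℕ) : ℝ) =
      (∑ k, Real.log (a (X k))) + ∑ k, Real.log (b (Y k)) := by
    rw [Nat.cast_mul, Real.log_mul haX hbY, log_prod_nat _ fun k => (h _ (hX' k)).1,
      log_prod_nat _ fun k => (h _ (hY' k)).2]
  have e2 : Real.log (((∏ k, b (X k)) * (∏ k, a (Y k)) : ℕ) : ℝ) =
      (∑ k, Real.log (b (X k))) + ∑ k, Real.log (a (Y k)) := by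
    rw [Nat.cast_mul, Real.log_mul hbX haY, log_prod_nat _ fun k => (h _ (hX' k)).2,
      log_prod_nat _ fun k => (h _ (hY' k)).1]
  simp only [e1, e2, Finset.sum_sub_distrib]
  congr 2
  ring

theorem mom_min {ι : Type} (S : Finset ι) (a b : ι → ℕ) {T θ δ : ℝ} (hT : 1 < T) (j : ℕ)
    (hθ : j * θ ≤ 1 - δ) (h : ∀ i ∈ S, (a i : ℝ) * b i ≤ T ^ θ)
    (X Y : Fin j → ι) (hX : ∀ k, X k ∈ S) (hY : ∀ k, Y k ∈ S) :
    ((min ((∏ k, a (X k)) * (∏ k, b (Y k))) ((∏ k, b (X k)) * (∏ k, a (Y k))) : ℕ) : ℝ) ≤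
      T ^ (1 - δ) := by
  have hT0 : 0 ≤ T := by linarith
  set A : ℕ := (∏ k, a (X k)) * (∏ k, b (Y k)) with hA
  set B : ℕ := (∏ k, b (X k)) * (∏ k, a (Y k)) with hB
  have h1 : (A : ℝ) * B = (∏ k, ((a (X k) : ℝ) * b (X k))) * ∏ k, ((a (Y k) : ℝ) * b (Y k)) := by
    rw [hA, hB]
    push_cast
    rw [Finset.prod_mul_distrib, Finset.prod_mul_distrib]
    ring
  have h2 : ∀ Z : Fin j → ι, (∀ k, Z k ∈ S) →
      ∏ k, ((a (Z k) : ℝ) * b (Z k)) ≤ T ^ ((j : ℝ) * θ) := by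
    intro Z hZ
    calc ∏ k, ((a (Z k) : ℝ) * b (Z k)) ≤ ∏ _k : Fin j, T ^ θ :=
          Finset.prod_le_prod (fun k _ => by positivity) fun k _ => h _ (hZ k)
      _ = T ^ ((j : ℝ) * θ) := by
          rw [Finset.prod_const, Finset.card_univ, Fintype.card_fin, ← Real.rpow_natCast,
            ← Real.rpow_mul hT0, mul_comm]
  have h3 : (A : ℝ) * B ≤ T ^ ((j : ℝ) * θ) * T ^ ((j : ℝ) * θ) := by
    rw [h1]
    exact mul_le_mul (h2 X hX) (h2 Y hY) (by positivity) (by positivity)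
  have h4 : ((min A B : ℕ) : ℝ) * ((min A B : ℕ) : ℝ) ≤ (A : ℝ) * B := by
    have h5 : ((min A B : ℕ) : ℝ) ≤ A := by exact_mod_cast min_le_left A B
    have h6 : ((min A B : ℕ) : ℝ) ≤ B := by exact_mod_cast min_le_right A B
    exact mul_le_mul h5 h6 (by positivity) (by positivity)
  have h7 : ((min A B : ℕ) : ℝ) ≤ T ^ ((j : ℝ) * θ) := by
    by_contra hcon
    push Not at hcon
    have h8 : 0 < T ^ ((j : ℝ) * θ) := by positivity
    have := mul_lt_mul'' hcon hcon h8.le h8.le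
    linarith
  exact h7.trans (Real.rpow_le_rpow_of_exponent_le hT.le hθ)

theorem mom (g : TF) (j d : ℕ) (K δ θ : ℝ) (hK : 0 ≤ K) (hδ : 0 < δ) (hθ : j * θ ≤ 1 - δ) :
    ∃ C : ℝ, 0 < C ∧ ∀ᶠ T : ℝ in atTop,
    ∀ (ι : Type) [DecidableEq ι] (S : Finset ι) (c : ι → ℝ) (a b : ι → ℕ),
      (∀ i ∈ S, a i ≠ 0 ∧ b i ≠ 0 ∧ (a i).primeFactorsList.length + (b i).primeFactorsList.length ≤ d ∧
        (∀ p ∈ (a i).primeFactorsList, p ∈ PP T) ∧ (∀ p ∈ (b i).primeFactorsList, p ∈ PP T) ∧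
        |c i| ≤ K * (WW T (a i) * WW T (b i)) ∧ (a i : ℝ) * b i ≤ T ^ θ) →
      (∀ i ∈ S, ∀ i' ∈ S, a i = a i' → b i = b i' → i = i') → (S.card : ℝ) ≤ T ^ 3 →
      |∫ t, om g.h T t * (∑ i ∈ S, ∑ i' ∈ S, c i * c i' * Real.cos (t * ((Real.log (a i) - Real.log (b i)) -
        (Real.log (a i') - Real.log (b i'))))) ^ j| ≤ C * T := by
  obtain ⟨Cd, hCd0, hCd⟩ := mom_diag j d K hK
  obtain ⟨k, hk⟩ := exists_nat_ge (6 * (j : ℝ) / δ)
  have hk' : 6 * (j : ℝ) ≤ δ * k := by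
    rw [div_le_iff₀ hδ] at hk
    linarith
  obtain ⟨Cg, hCg0, hCg⟩ := gmv g hδ k
  refine ⟨|∫ x, g.h x| * Cd + Cg * (K ^ j * K ^ j) + 1, by positivity, ?_⟩
  filter_upwards [ww_sq_le, eventually_gt_atTop 1] with T hw hT ι _ S c a b hS hinj hcard
  have hT0 : 0 < T := by linarith
  set P : Finset (Fin j → ι) := Fintype.piFinset (fun _ : Fin j => S) with hP
  have hexp : ∀ t : ℝ, om g.h T t * (∑ i ∈ S, ∑ i' ∈ S, c i * c i' * Real.cos (t *
      ((Real.log (a i) - Real.log (b i)) - (Real.log (a i') - Real.log (b i'))))) ^ j =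
      om g.h T t * ∑ Z ∈ P ×ˢ P,
      ((∏ k, c (Z.1 k)) * (∏ k, c (Z.2 k))) * Real.cos (t *
        (Real.log (((∏ k, a (Z.1 k)) * (∏ k, b (Z.2 k)) : ℕ) : ℝ) -
          Real.log (((∏ k, b (Z.1 k)) * (∏ k, a (Z.2 k)) : ℕ) : ℝ))) := by
    intro t
    rw [mom_expand S c a b (fun i hi => ⟨(hS i hi).1, (hS i hi).2.1⟩) j t]
  have hint := integral_congr_ae (Filter.Eventually.of_forall hexp) (μ := volume)
  rw [hint]
  have hmem : ∀ Z ∈ P ×ˢ P, (∀ k, Z.1 k ∈ S) ∧ ∀ k, Z.2 k ∈ S := by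
    intro Z hZ
    rw [Finset.mem_product] at hZ
    exact ⟨fun k => (Fintype.mem_piFinset.mp hZ.1) k, fun k => (Fintype.mem_piFinset.mp hZ.2) k⟩
  have h1 := hCg T hT.le ((Fin j → ι) × (Fin j → ι)) (P ×ˢ P)
    (fun Z => (∏ k, c (Z.1 k)) * (∏ k, c (Z.2 k)))
    (fun Z => (∏ k, a (Z.1 k)) * (∏ k, b (Z.2 k)))
    (fun Z => (∏ k, b (Z.1 k)) * (∏ k, a (Z.2 k))) (by
      intro Z hZ
      obtain ⟨hX, hY⟩ := hmem Z hZ
      refine ⟨?_, ?_, mom_min S a b hT j hθ (fun i hi => (hS i hi).2.2.2.2.2.2) Z.1 Z.2 hX hY⟩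
      · refine Nat.one_le_iff_ne_zero.mpr (mul_ne_zero ?_ ?_)
        · exact Finset.prod_ne_zero_iff.mpr fun k _ => (hS _ (hX k)).1
        · exact Finset.prod_ne_zero_iff.mpr fun k _ => (hS _ (hY k)).2.1
      · refine Nat.one_le_iff_ne_zero.mpr (mul_ne_zero ?_ ?_)
        · exact Finset.prod_ne_zero_iff.mpr fun k _ => (hS _ (hX k)).2.1
        · exact Finset.prod_ne_zero_iff.mpr fun k _ => (hS _ (hY k)).1)
  -- diagonal
  have h2 := hCd T hT hw ι S c a b (fun i hi => ⟨(hS i hi).1, (hS i hi).2.1, (hS i hi).2.2.1,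
    (hS i hi).2.2.2.1, (hS i hi).2.2.2.2.1, (hS i hi).2.2.2.2.2.1⟩) hinj
  have h3 : |∑ Z ∈ P ×ˢ P, (if (∏ k, a (Z.1 k)) * (∏ k, b (Z.2 k)) =
      (∏ k, b (Z.1 k)) * (∏ k, a (Z.2 k)) then (∏ k, c (Z.1 k)) * (∏ k, c (Z.2 k)) else 0)| ≤
      Cd := by
    refine (Finset.abs_sum_le_sum_abs _ _).trans (le_trans (le_of_eq ?_) h2)
    rw [Finset.sum_product]
    refine Finset.sum_congr rfl fun X _ => Finset.sum_congr rfl fun Y _ => ?_
    by_cases hc : (∏ k, a (X k)) * (∏ k, b (Y k)) = (∏ k, b (X k)) * (∏ k, a (Y k))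
    · simp only [hc, if_true]
      rw [abs_mul, Finset.abs_prod, Finset.abs_prod]
    · simp only [hc, if_false, abs_zero]
  -- the coefficients
  have hc1 : ∀ i ∈ S, |c i| ≤ K := by
    intro i hi
    obtain ⟨_, _, _, q1, q2, q3, _⟩ := hS i hi
    have w1 := WW_le_one hT (a i) q1
    have w2 := WW_le_one hT (b i) q2
    have w3 := WW_nonneg hT (a i)
    have w4 := WW_nonneg hT (b i)
    calc |c i| ≤ K * (WW T (a i) * WW T (b i)) := q3
      _ ≤ K * 1 := mul_le_mul_of_nonneg_left (mul_le_one₀ w1 w4 w2) hK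
      _ = K := mul_one K
  have hc2 : ∀ Z : Fin j → ι, (∀ k, Z k ∈ S) → |∏ k, c (Z k)| ≤ K ^ j := by
    intro Z hZ
    rw [Finset.abs_prod]
    calc ∏ k, |c (Z k)| ≤ ∏ _k : Fin j, K :=
          Finset.prod_le_prod (fun k _ => abs_nonneg _) fun k _ => hc1 _ (hZ k)
      _ = K ^ j := by rw [Finset.prod_const, Finset.card_univ, Fintype.card_fin]
  have h4 : ∑ Z ∈ P ×ˢ P, |(∏ k, c (Z.1 k)) * (∏ k, c (Z.2 k))| ≤
      (K ^ j * K ^ j) * T ^ (6 * j) := by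
    calc ∑ Z ∈ P ×ˢ P, |(∏ k, c (Z.1 k)) * (∏ k, c (Z.2 k))| ≤
          ∑ _Z ∈ P ×ˢ P, K ^ j * K ^ j := by
          refine Finset.sum_le_sum fun Z hZ => ?_
          obtain ⟨hX, hY⟩ := hmem Z hZ
          rw [abs_mul]
          exact mul_le_mul (hc2 _ hX) (hc2 _ hY) (abs_nonneg _) (by positivity)
      _ = ((S.card : ℝ) ^ j * (S.card : ℝ) ^ j) * (K ^ j * K ^ j) := by
          rw [Finset.sum_const, Finset.card_product, nsmul_eq_mul, hP, Fintype.card_piFinset]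
          simp
      _ ≤ ((T ^ 3) ^ j * (T ^ 3) ^ j) * (K ^ j * K ^ j) := by
          refine mul_le_mul_of_nonneg_right ?_ (by positivity)
          have := pow_le_pow_left₀ (Nat.cast_nonneg S.card) hcard j
          exact mul_le_mul this this (by positivity) (by positivity)
      _ = (K ^ j * K ^ j) * T ^ (6 * j) := by
          rw [← pow_mul, ← pow_add, mul_comm]
          congr 2
          ring
  have h5 : T ^ (1 - δ * k) * T ^ (6 * j) ≤ T := by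
    rw [← Real.rpow_natCast, ← Real.rpow_add hT0]
    calc T ^ (1 - δ * k + ((6 * j : ℕ) : ℝ)) ≤ T ^ (1 : ℝ) := by
          refine Real.rpow_le_rpow_of_exponent_le hT.le ?_
          push_cast
          linarith
      _ = T := Real.rpow_one T
  have h6 : Cg * T ^ (1 - δ * k) * ∑ Z ∈ P ×ˢ P, |(∏ k, c (Z.1 k)) * (∏ k, c (Z.2 k))| ≤
      Cg * (K ^ j * K ^ j) * T := by
    calc Cg * T ^ (1 - δ * k) * ∑ Z ∈ P ×ˢ P, |(∏ k, c (Z.1 k)) * (∏ k, c (Z.2 k))| ≤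
          Cg * T ^ (1 - δ * k) * ((K ^ j * K ^ j) * T ^ (6 * j)) :=
          mul_le_mul_of_nonneg_left h4 (by positivity)
      _ = Cg * (K ^ j * K ^ j) * (T ^ (1 - δ * k) * T ^ (6 * j)) := by ring
      _ ≤ Cg * (K ^ j * K ^ j) * T := mul_le_mul_of_nonneg_left h5 (by positivity)
  have h7 : |T * (∫ x, g.h x) * ∑ Z ∈ P ×ˢ P, (if (∏ k, a (Z.1 k)) * (∏ k, b (Z.2 k)) =
      (∏ k, b (Z.1 k)) * (∏ k, a (Z.2 k)) then (∏ k, c (Z.1 k)) * (∏ k, c (Z.2 k)) else 0)| ≤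
      |∫ x, g.h x| * Cd * T := by
    rw [abs_mul, abs_mul, abs_of_pos hT0]
    calc T * |∫ x, g.h x| * |∑ Z ∈ P ×ˢ P, (if (∏ k, a (Z.1 k)) * (∏ k, b (Z.2 k)) =
          (∏ k, b (Z.1 k)) * (∏ k, a (Z.2 k)) then (∏ k, c (Z.1 k)) * (∏ k, c (Z.2 k)) else 0)| ≤
          T * |∫ x, g.h x| * Cd := mul_le_mul_of_nonneg_left h3 (by positivity)
      _ = |∫ x, g.h x| * Cd * T := by ring
  have h8 := abs_sub_abs_le_abs_sub (∫ t, om g.h T t * ∑ Z ∈ P ×ˢ P,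
      ((∏ k, c (Z.1 k)) * (∏ k, c (Z.2 k))) * Real.cos (t *
        (Real.log (((∏ k, a (Z.1 k)) * (∏ k, b (Z.2 k)) : ℕ) : ℝ) -
          Real.log (((∏ k, b (Z.1 k)) * (∏ k, a (Z.2 k)) : ℕ) : ℝ))))
      (T * (∫ x, g.h x) * ∑ Z ∈ P ×ˢ P, (if (∏ k, a (Z.1 k)) * (∏ k, b (Z.2 k)) =
      (∏ k, b (Z.1 k)) * (∏ k, a (Z.2 k)) then (∏ k, c (Z.1 k)) * (∏ k, c (Z.2 k)) else 0))
  have h9 := h8.trans (h1.trans h6)
  nlinarith
end Pool.Agent.Helper4.SH
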