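import Pool.Agent.Helper4.SH.Defs
import Pool.Agent.Helper78.SG.KDecay

/-!
# SH-OS: oscillatory integrals with a smooth weight

`om g.h T t = g.h (t/T - 1/2)`. Substitute `t = T (x + 1/2)`: `∫ om cos(tν) dt = T ∫ g.h x cos(ν T (x + 1/2)) dx = T cos(νT/2) ker g.h 0 (νT)`
(the sine part vanishes because `g.h` is even). Then `ker_decay g K` (Helper78/SG/KDecay).
-/

open MeasureTheory Set Filter Topology
open Pool.Agent.Helper57.Zeta Pool.Agent.Helper57.PC Pool.Agent.Helper57.LH Pool.Agent.Helper78.SG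
open scoped ContDiff

namespace Pool.Agent.Helper4.SH

private theorem hcs (g : TF) : HasCompactSupport g.h := by
  refine HasCompactSupport.of_support_subset_isCompact (isCompact_Icc (a := -g.th) (b := g.th)) ?_
  intro y hy
  by_contra hcon
  apply hy
  apply g.supp
  by_contra h
  exact hcon (abs_le.mp (not_le.mp h).le)

private theorem om_sub (g : TF) {T : ℝ} (hT : 0 < T) (F : ℝ → ℝ) :
    ∫ t, om g.h T t * F t = T * ∫ x, g.h x * F (T * (x + 1 / 2)) := by
  have h1 : ∀ t : ℝ, om g.h T t * F t =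
      (fun y : ℝ => (fun x : ℝ => g.h x * F (T * (x + 1 / 2))) (y - 1 / 2)) (t / T) := by
    intro t
    simp only [om]
    congr 2
    field_simp
    ring
  simp only [h1]
  rw [Measure.integral_comp_div (fun y : ℝ => (fun x : ℝ => g.h x * F (T * (x + 1 / 2))) (y - 1 / 2)) T,
    integral_sub_right_eq_self (fun x : ℝ => g.h x * F (T * (x + 1 / 2))) (1 / 2 : ℝ), abs_of_pos hT, smul_eq_mul]

theorem om_integrable (g : TF) {T : ℝ} (hT : 0 < T) : Integrable (fun t => om g.h T t) := by
  have hg : Integrable g.h := g.smooth.continuous.integrable_of_hasCompactSupport (hcs g)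
  have h1 : Integrable (fun y : ℝ => g.h (y - 1 / 2)) := hg.comp_sub_right (1 / 2)
  have h2 := h1.comp_div (R := T) hT.ne'
  exact h2

theorem om_int (g : TF) {T : ℝ} (hT : 0 < T) : ∫ t, om g.h T t = T * ∫ x, g.h x := by
  have h := om_sub g hT (fun _ => 1)
  simpa using h

theorem om_osc (g : TF) (K : ℕ) : ∃ C : ℝ, 0 < C ∧ ∀ T ν : ℝ, 0 < T →
    |∫ t, om g.h T t * Real.cos (t * ν)| ≤ C * T / (1 + |T * ν|) ^ K := by
  obtain ⟨C, hC, hCb⟩ := ker_decay g K
  refine ⟨C, hC, fun T ν hT => ?_⟩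
  rw [om_sub g hT (fun t => Real.cos (t * ν))]
  have hc : ∀ F : ℝ → ℝ, Continuous F → Integrable (fun x => g.h x * F x) := by
    intro F hF
    refine (g.smooth.continuous.mul hF).integrable_of_hasCompactSupport ?_
    exact (hcs g).mul_right
  have h1 : ∀ x : ℝ, g.h x * Real.cos (T * (x + 1 / 2) * ν) =
      Real.cos (T * ν / 2) * (g.h x * Real.cos (T * ν * x)) -
        Real.sin (T * ν / 2) * (g.h x * Real.sin (T * ν * x)) := by
    intro x
    have : T * (x + 1 / 2) * ν = T * ν * x + T * ν / 2 := by ring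
    rw [this, Real.cos_add]
    ring
  simp only [h1]
  rw [integral_sub ((hc _ (by fun_prop)).const_mul _) ((hc _ (by fun_prop)).const_mul _),
    integral_const_mul, integral_const_mul]
  have h2 : ∫ x, g.h x * Real.sin (T * ν * x) = 0 := by
    have h3 : ∫ x, g.h x * Real.sin (T * ν * x) = ∫ x, g.h (-x) * Real.sin (T * ν * (-x)) :=
      (integral_neg_eq_self (fun x => g.h x * Real.sin (T * ν * x)) volume).symm
    have h4 : ∀ x : ℝ, g.h (-x) * Real.sin (T * ν * (-x)) = -(g.h x * Real.sin (T * ν * x)) := by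
      intro x
      rw [g.even, mul_neg, Real.sin_neg, mul_neg]
    simp only [h4] at h3
    rw [integral_neg] at h3
    linarith
  have h5 : ∫ x, g.h x * Real.cos (T * ν * x) = ker g.h 0 (T * ν) := by
    unfold Helper78.SG.ker
    congr 1
    ext y
    rw [zero_mul, Real.cosh_zero, one_mul]
  rw [h2, h5, mul_zero, sub_zero, abs_mul, abs_mul, abs_of_pos hT]
  have h6 := hCb 0 (T * ν)
  rw [abs_zero, Real.exp_zero, mul_one] at h6
  calc T * (|Real.cos (T * ν / 2)| * |ker g.h 0 (T * ν)|) ≤ T * (1 * (C / (1 + |T * ν|) ^ K)) := by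
        gcongr
        exact Real.abs_cos_le_one _
    _ = C * T / (1 + |T * ν|) ^ K := by ring

end Pool.Agent.Helper4.SH
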