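import Pool.Agent.Helper4.SH.S1

/-!
# SH-S2: double sums over primes

Fix `x.1 = p` and sum over `x.2 = q`. First statement: the inner sum is over `y_q ≤ 499/1000 - y_p` minus the term `q = p`; `S1` for `ψ` is
uniform in the end point; then `S1` with `φ · Ψ(499/1000 - ·)`, `Ψ w = ∫_0^w z ψ z dz` (extend `Ψ` continuously, it is continuous on `ℝ`).
Second statement: the inner sum is over `y_q ≤ min(y_p, 499/1000 - y_p)` minus the term `q = p` (for `q` prime `q ≤ p` iff `y_q ≤ y_p`). The terms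
`q = p` contribute at most `C ∑ ww⁴ → 0` (`S1_diag`). `∑ ww² ≤ 1` (`ww_sq_le`).
-/

open MeasureTheory Set Filter Topology
open Pool.Agent.Helper57.Zeta Pool.Agent.Helper57.PC Pool.Agent.Helper57.LH Pool.Agent.Helper78.SG
open scoped ContDiff

namespace Pool.Agent.Helper4.SH

private theorem yy_nonneg_h80 {T : ℝ} (hT : 1 < T) {p : ℕ} (hp : p ∈ PP T) : 0 ≤ yy T p := by
  have hp1 : 1 ≤ p := (Finset.mem_filter.mp hp).2.one_lt.le
  exact div_nonneg (Real.log_nonneg (by exact_mod_cast hp1)) (Real.log_pos hT).le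

private theorem yy_le_one_h80 {T : ℝ} (hT : 1 < T) {p : ℕ} (hp : p ∈ PP T) : yy T p ≤ 1 := by
  have h1 := Finset.mem_filter.mp hp
  have hpT : (p : ℝ) ≤ T := by
    have h0 := Finset.mem_range.mp h1.1
    have h2 : p ≤ ⌊T⌋₊ := Nat.lt_succ_iff.mp h0
    exact (Nat.le_floor_iff (by linarith)).mp h2
  rw [yy, div_le_one (Real.log_pos hT)]
  exact Real.log_le_log (by exact_mod_cast h1.2.pos) hpT

private theorem yy_lt_iff_h80 {T : ℝ} (hT : 1 < T) {p q : ℕ} (hp : p ∈ PP T) (hq : q ∈ PP T) :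
    q < p ↔ p ≠ q ∧ yy T q ≤ yy T p := by
  have hL := Real.log_pos hT
  have hp0 : (0 : ℝ) < p := by exact_mod_cast (Finset.mem_filter.mp hp).2.pos
  have hq0 : (0 : ℝ) < q := by exact_mod_cast (Finset.mem_filter.mp hq).2.pos
  have h1 : yy T q ≤ yy T p ↔ q ≤ p := by
    rw [yy, yy, div_le_div_iff_of_pos_right hL, Real.log_le_log_iff hq0 hp0]
    exact Nat.cast_le
  rw [h1]
  constructor
  · intro h
    exact ⟨h.ne', h.le⟩
  · rintro ⟨h, h'⟩
    exact lt_of_le_of_ne h' (Ne.symm h)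

private theorem gen_h80 {φ ψ m : ℝ → ℝ} (hφ : Continuous φ) (hψ : Continuous ψ)
    (hm : Continuous m) (hm0 : ∀ y ∈ Icc (0:ℝ) (499 / 1000), m y ∈ Icc (0:ℝ) 1)
    {ε : ℝ} (hε : 0 < ε) : ∀ᶠ T : ℝ in atTop,
    |(∑ x ∈ ((PP T) ×ˢ (PP T)).filter (fun x => x.1 ≠ x.2 ∧ yy T x.1 ≤ 499 / 1000 ∧
          yy T x.2 ≤ m (yy T x.1)),
        ww T x.1 ^ 2 * ww T x.2 ^ 2 * (φ (yy T x.1) * ψ (yy T x.2))) -
      ∫ y in (0:ℝ)..(499 / 1000), y * φ y * ∫ z in (0:ℝ)..(m y), z * ψ z| ≤ ε := by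
  obtain ⟨M1, hM1⟩ := isCompact_Icc.exists_bound_of_continuousOn
    (s := Icc (0:ℝ) 1) hφ.continuousOn
  obtain ⟨M2, hM2⟩ := isCompact_Icc.exists_bound_of_continuousOn
    (s := Icc (0:ℝ) 1) hψ.continuousOn
  obtain ⟨M, hM, hMφ, hMψ⟩ : ∃ M : ℝ, 0 < M ∧ (∀ y ∈ Icc (0:ℝ) 1, |φ y| ≤ M) ∧
      ∀ y ∈ Icc (0:ℝ) 1, |ψ y| ≤ M := by
    refine ⟨max (max M1 M2) 1, lt_of_lt_of_le one_pos (le_max_right _ _), ?_, ?_⟩
    · intro y hy
      exact (hM1 y hy).trans ((le_max_left _ _).trans (le_max_left _ _))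
    · intro y hy
      exact (hM2 y hy).trans ((le_max_right _ _).trans (le_max_left _ _))
  have hΨ : Continuous (fun w : ℝ => ∫ z in (0:ℝ)..w, z * ψ z) :=
    intervalIntegral.continuous_primitive
      (fun a b => (continuous_id.mul hψ).intervalIntegrable a b) 0
  have hφ2 : Continuous (fun y : ℝ => φ y * ∫ z in (0:ℝ)..(m y), z * ψ z) :=
    hφ.mul (hΨ.comp hm)
  have e1 : 0 < ε / (3 * M) := by positivity
  have e2 : 0 < ε / 3 := by positivity
  have e3 : 0 < ε / (3 * M ^ 2) := by positivity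
  filter_upwards [S1 hψ e1, S1 hφ2 e2, S1_diag e3, ww_sq_le, eventually_gt_atTop (1:ℝ)]
    with T h1 h2 h3 h4 hT
  -- notation
  set f : ℕ × ℕ → ℝ := fun x =>
    ww T x.1 ^ 2 * ww T x.2 ^ 2 * (φ (yy T x.1) * ψ (yy T x.2)) with hf
  set F : Finset (ℕ × ℕ) := ((PP T) ×ˢ (PP T)).filter
    (fun x => yy T x.1 ≤ 499 / 1000 ∧ yy T x.2 ≤ m (yy T x.1)) with hF
  have hA : ((PP T) ×ˢ (PP T)).filter (fun x => x.1 ≠ x.2 ∧ yy T x.1 ≤ 499 / 1000 ∧
      yy T x.2 ≤ m (yy T x.1)) = F.filter (fun x => ¬ x.1 = x.2) := by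
    rw [hF, Finset.filter_filter]
    refine Finset.filter_congr fun x _ => ?_
    tauto
  have hsplit := Finset.sum_filter_add_sum_filter_not F (fun x => x.1 = x.2) f
  have hFsum : ∑ x ∈ F, f x = ∑ p ∈ (PP T).filter (fun p => yy T p ≤ 499 / 1000),
      ww T p ^ 2 * φ (yy T p) *
        ∑ q ∈ (PP T).filter (fun q => yy T q ≤ m (yy T p)), ww T q ^ 2 * ψ (yy T q) := by
    rw [hF, Finset.sum_filter, Finset.sum_product, Finset.sum_filter]
    refine Finset.sum_congr rfl fun p _ => ?_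
    by_cases hp : yy T p ≤ 499 / 1000
    · rw [if_pos hp, Finset.sum_filter, Finset.mul_sum]
      refine Finset.sum_congr rfl fun q _ => ?_
      by_cases hq : yy T q ≤ m (yy T p)
      · rw [if_pos ⟨hp, hq⟩, if_pos hq]
        simp only [hf]
        ring
      · rw [if_neg (fun h => hq h.2), if_neg hq, mul_zero]
    · rw [if_neg hp]
      refine Finset.sum_eq_zero fun q _ => ?_
      rw [if_neg (fun h => hp h.1)]
  -- the inner sums
  have hinner : |∑ x ∈ F, f x - ∑ p ∈ (PP T).filter (fun p => yy T p ≤ 499 / 1000),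
      ww T p ^ 2 * (φ (yy T p) * ∫ z in (0:ℝ)..(m (yy T p)), z * ψ z)| ≤ ε / 3 := by
    rw [hFsum, ← Finset.sum_sub_distrib]
    refine (Finset.abs_sum_le_sum_abs _ _).trans ?_
    have hterm : ∀ p ∈ (PP T).filter (fun p => yy T p ≤ 499 / 1000),
        |ww T p ^ 2 * φ (yy T p) *
          ∑ q ∈ (PP T).filter (fun q => yy T q ≤ m (yy T p)), ww T q ^ 2 * ψ (yy T q) -
        ww T p ^ 2 * (φ (yy T p) * ∫ z in (0:ℝ)..(m (yy T p)), z * ψ z)| ≤
        ww T p ^ 2 * (ε / 3) := by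
      intro p hp
      obtain ⟨hp1, hp2⟩ := Finset.mem_filter.mp hp
      have hy0 := yy_nonneg_h80 hT hp1
      have hy1 := yy_le_one_h80 hT hp1
      have hG := h1 (m (yy T p)) (hm0 _ ⟨hy0, hp2⟩)
      have hφb := hMφ _ ⟨hy0, hy1⟩
      have heq : ww T p ^ 2 * φ (yy T p) *
          ∑ q ∈ (PP T).filter (fun q => yy T q ≤ m (yy T p)), ww T q ^ 2 * ψ (yy T q) -
        ww T p ^ 2 * (φ (yy T p) * ∫ z in (0:ℝ)..(m (yy T p)), z * ψ z) =
        ww T p ^ 2 * (φ (yy T p) *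
          (∑ q ∈ (PP T).filter (fun q => yy T q ≤ m (yy T p)), ww T q ^ 2 * ψ (yy T q) -
            ∫ z in (0:ℝ)..(m (yy T p)), z * ψ z)) := by ring
      rw [heq, abs_mul, abs_mul, abs_of_nonneg (sq_nonneg (ww T p))]
      refine mul_le_mul_of_nonneg_left ?_ (sq_nonneg _)
      calc |φ (yy T p)| * |∑ q ∈ (PP T).filter (fun q => yy T q ≤ m (yy T p)),
              ww T q ^ 2 * ψ (yy T q) - ∫ z in (0:ℝ)..(m (yy T p)), z * ψ z|
          ≤ M * (ε / (3 * M)) := mul_le_mul hφb hG (abs_nonneg _) hM.le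
        _ = ε / 3 := by field_simp
    refine (Finset.sum_le_sum hterm).trans ?_
    rw [← Finset.sum_mul]
    have hle : ∑ p ∈ (PP T).filter (fun p => yy T p ≤ 499 / 1000), ww T p ^ 2 ≤ 1 :=
      (Finset.sum_le_sum_of_subset_of_nonneg (Finset.filter_subset _ _)
        (fun _ _ _ => sq_nonneg _)).trans h4
    calc (∑ p ∈ (PP T).filter (fun p => yy T p ≤ 499 / 1000), ww T p ^ 2) * (ε / 3)
        ≤ 1 * (ε / 3) := mul_le_mul_of_nonneg_right hle e2.le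
      _ = ε / 3 := one_mul _
  -- the outer sum
  have houter := h2 (499 / 1000) ⟨by norm_num, by norm_num⟩
  have hint : (∫ y in (0:ℝ)..(499 / 1000), y * (φ y * ∫ z in (0:ℝ)..(m y), z * ψ z)) =
      ∫ y in (0:ℝ)..(499 / 1000), y * φ y * ∫ z in (0:ℝ)..(m y), z * ψ z := by
    refine intervalIntegral.integral_congr fun y _ => ?_
    change y * (φ y * _) = y * φ y * _
    ring
  rw [hint] at houter
  -- the diagonal
  have hdiag : |∑ x ∈ F.filter (fun x => x.1 = x.2), f x| ≤ ε / 3 := by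
    refine (Finset.abs_sum_le_sum_abs _ _).trans ?_
    have hterm : ∀ x ∈ F.filter (fun x => x.1 = x.2), |f x| ≤ ww T x.1 ^ 4 * M ^ 2 := by
      intro x hx
      obtain ⟨hx1, hx2⟩ := Finset.mem_filter.mp hx
      have hx3 := (Finset.mem_product.mp (Finset.mem_filter.mp hx1).1).1
      have hy0 := yy_nonneg_h80 hT hx3
      have hy1 := yy_le_one_h80 hT hx3
      have ha := hMφ _ ⟨hy0, hy1⟩
      have hb := hMψ _ ⟨hy0, hy1⟩
      simp only [hf]
      rw [← hx2, abs_mul, abs_mul, abs_mul, abs_of_nonneg (sq_nonneg (ww T x.1))]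
      have h5 : |φ (yy T x.1)| * |ψ (yy T x.1)| ≤ M * M :=
        mul_le_mul ha hb (abs_nonneg _) hM.le
      have h6 : 0 ≤ ww T x.1 ^ 2 * ww T x.1 ^ 2 := by positivity
      calc ww T x.1 ^ 2 * ww T x.1 ^ 2 * (|φ (yy T x.1)| * |ψ (yy T x.1)|)
          ≤ ww T x.1 ^ 2 * ww T x.1 ^ 2 * (M * M) := mul_le_mul_of_nonneg_left h5 h6
        _ = ww T x.1 ^ 4 * M ^ 2 := by ring
    refine (Finset.sum_le_sum hterm).trans ?_
    have hsub : F.filter (fun x => x.1 = x.2) ⊆ (PP T).diag := by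
      intro x hx
      obtain ⟨hx1, hx2⟩ := Finset.mem_filter.mp hx
      exact Finset.mem_diag.mpr
        ⟨(Finset.mem_product.mp (Finset.mem_filter.mp hx1).1).1, hx2⟩
    refine (Finset.sum_le_sum_of_subset_of_nonneg hsub (fun _ _ _ => by positivity)).trans ?_
    rw [Finset.sum_diag, ← Finset.sum_mul]
    calc (∑ p ∈ PP T, ww T p ^ 4) * M ^ 2 ≤ ε / (3 * M ^ 2) * M ^ 2 :=
          mul_le_mul_of_nonneg_right h3 (by positivity)
      _ = ε / 3 := by field_simp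
  rw [hA]
  have hfin : ∑ x ∈ F.filter (fun x => ¬ x.1 = x.2), f x =
      ∑ x ∈ F, f x - ∑ x ∈ F.filter (fun x => x.1 = x.2), f x := by linarith
  rw [hfin]
  rw [abs_le] at hinner houter hdiag ⊢
  constructor <;> linarith [hinner.1, hinner.2, houter.1, houter.2, hdiag.1, hdiag.2]

theorem S2a {φ ψ : ℝ → ℝ} (hφ : Continuous φ) (hψ : Continuous ψ) {ε : ℝ} (hε : 0 < ε) : ∀ᶠ T : ℝ in atTop,
    |(∑ x ∈ ((PP T) ×ˢ (PP T)).filter (fun x => x.1 ≠ x.2 ∧ yy T x.1 + yy T x.2 ≤ 499 / 1000),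
        ww T x.1 ^ 2 * ww T x.2 ^ 2 * (φ (yy T x.1) * ψ (yy T x.2))) -
      ∫ y in (0:ℝ)..(499 / 1000), y * φ y * ∫ z in (0:ℝ)..(499 / 1000 - y), z * ψ z| ≤ ε := by
  have hm0 : ∀ y ∈ Icc (0:ℝ) (499 / 1000), (499 / 1000 - y) ∈ Icc (0:ℝ) 1 := by
    intro y hy
    exact ⟨by linarith [hy.2], by linarith [hy.1]⟩
  filter_upwards [gen_h80 (m := fun y => 499 / 1000 - y) hφ hψ (by fun_prop) hm0 hε,
    eventually_gt_atTop (1:ℝ)] with T h hT
  have hcongr : ((PP T) ×ˢ (PP T)).filter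
      (fun x => x.1 ≠ x.2 ∧ yy T x.1 + yy T x.2 ≤ 499 / 1000) =
      ((PP T) ×ˢ (PP T)).filter (fun x => x.1 ≠ x.2 ∧ yy T x.1 ≤ 499 / 1000 ∧
          yy T x.2 ≤ 499 / 1000 - yy T x.1) := by
    refine Finset.filter_congr fun x hx => ?_
    have h2 := yy_nonneg_h80 hT (Finset.mem_product.mp hx).2
    constructor
    · rintro ⟨ha, hb⟩
      exact ⟨ha, by linarith, by linarith⟩
    · rintro ⟨ha, hb, hc⟩
      exact ⟨ha, by linarith⟩
  rw [hcongr]
  exact h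

theorem S2b {φ ψ : ℝ → ℝ} (hφ : Continuous φ) (hψ : Continuous ψ) {ε : ℝ} (hε : 0 < ε) : ∀ᶠ T : ℝ in atTop,
    |(∑ x ∈ S11 T, ww T x.1 ^ 2 * ww T x.2 ^ 2 * (φ (yy T x.1) * ψ (yy T x.2))) -
      ∫ y in (0:ℝ)..(499 / 1000), y * φ y * ∫ z in (0:ℝ)..(min y (499 / 1000 - y)), z * ψ z| ≤ ε := by
  have hm0 : ∀ y ∈ Icc (0:ℝ) (499 / 1000), min y (499 / 1000 - y) ∈ Icc (0:ℝ) 1 := by
    intro y hy
    refine ⟨le_min hy.1 (by linarith [hy.2]), (min_le_left _ _).trans (by linarith [hy.2])⟩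
  filter_upwards [gen_h80 (m := fun y => min y (499 / 1000 - y)) hφ hψ (by fun_prop) hm0 hε,
    eventually_gt_atTop (1:ℝ)] with T h hT
  have hcongr : S11 T =
      ((PP T) ×ˢ (PP T)).filter (fun x => x.1 ≠ x.2 ∧ yy T x.1 ≤ 499 / 1000 ∧
          yy T x.2 ≤ min (yy T x.1) (499 / 1000 - yy T x.1)) := by
    rw [S11]
    refine Finset.filter_congr fun x hx => ?_
    have h2 := yy_nonneg_h80 hT (Finset.mem_product.mp hx).2
    rw [yy_lt_iff_h80 hT (Finset.mem_product.mp hx).1 (Finset.mem_product.mp hx).2, le_min_iff]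
    constructor
    · rintro ⟨⟨ha, hb⟩, hc⟩
      exact ⟨ha, by linarith, hb, by linarith⟩
    · rintro ⟨ha, hb, hc, hd⟩
      exact ⟨⟨ha, hc⟩, by linarith⟩
  rw [hcongr]
  exact h

end Pool.Agent.Helper4.SH
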