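import Pool.Agent.Helper4.SH.Defs

/-!
# SH-WE: the two smooth weights

Take a smooth bump (`ContDiffBump` at `0` in `ℝ`, `rIn < rOut`; even because it depends on `|x|`, or `x ↦ B x * B (-x)`), supported in
`[-rOut, rOut]`, values in `[0,1]`, equal to `1` on `[-rIn, rIn]`. `exists_g`: `rIn = 1/8`, `rOut = 1/4`. `exists_g2`: `rIn = 1/4`,
`rOut = 2/5` (`th = 2/5`). See also the bump functions in `Helper78/SG/TestQ.lean`.
-/

open MeasureTheory Set Filter Topology
open Pool.Agent.Helper57.Zeta Pool.Agent.Helper57.PC Pool.Agent.Helper57.LH Pool.Agent.Helper78.SG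
open scoped ContDiff

namespace Pool.Agent.Helper4.SH

theorem exists_g : ∃ g : TF, g.th = 1 / 4 ∧ (∀ x, 0 ≤ g.h x) ∧ (∀ x, g.h x ≤ 1) ∧ 0 < ∫ x, g.h x := by
  let B : ContDiffBump (0 : ℝ) := ⟨1 / 8, 1 / 4, by norm_num, by norm_num⟩
  refine ⟨⟨B, 1 / 4, B.contDiff, fun x => B.neg x, by norm_num, by norm_num, fun x hx => ?_⟩, rfl,
    fun x => B.nonneg, fun x => B.le_one, ?_⟩
  · apply B.zero_of_le_dist
    rw [dist_zero_right, Real.norm_eq_abs]
    exact hx
  · exact B.integral_pos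

theorem exists_g2 : ∃ g : TF, (∀ x, 0 ≤ g.h x) ∧ (∀ x, |x| ≤ 1 / 4 → 1 ≤ g.h x) := by
  let B : ContDiffBump (0 : ℝ) := ⟨1 / 4, 2 / 5, by norm_num, by norm_num⟩
  refine ⟨⟨B, 2 / 5, B.contDiff, fun x => B.neg x, by norm_num, by norm_num, fun x hx => ?_⟩,
    fun x => B.nonneg, fun x hx => ?_⟩
  · apply B.zero_of_le_dist
    rw [dist_zero_right, Real.norm_eq_abs]
    exact hx
  · apply le_of_eq
    symm
    apply B.one_of_mem_closedBall
    rw [mem_closedBall_zero_iff, Real.norm_eq_abs]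
    exact hx

end Pool.Agent.Helper4.SH
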