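import Pool.Agent.Helper4.SH.Scale
import Pool.Agent.Helper4.SH.PPow
import Pool.Agent.Helper78.SG.Moments

/-!
# SH-XM: moments of the sums over all zeros

`X1_four`: `X_fourth`, `X_int` of Helper78/SG/Moments with `δ = 1/8` (`Xs f.h 1 T t = Xf f.h (log T) t`), and `om ≤ 1`.
`X2_sq`: on `[T/8, 7T/8]` `Xs² ≤ 3 (f.h 0)² + 3 + 3 pss²` eventually (`main_term_s` with `ε = 1`), `pss² ≤ 2 prp² + 2 (pss - prp)²`, file `PPow`.
-/

open MeasureTheory Set Filter Topology
open Pool.Agent.Helper57.Zeta Pool.Agent.Helper57.PC Pool.Agent.Helper57.LH Pool.Agent.Helper78.SG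
open scoped ContDiff

namespace Pool.Agent.Helper4.SH

theorem Xs_one (h : ℝ → ℝ) (T t : ℝ) : Xs h 1 T t = Xf h (Real.log T) t := by
  unfold Xs
  rw [one_mul, one_mul]

/-- the weight integrates over `[T/8, 7T/8]` -/
theorem om_mul_integral (g : TF) (hg : g.th = 1 / 4) {T : ℝ} (hT : 0 < T) (F : ℝ → ℝ) :
    ∫ t in Icc (1 / 8 * T) (7 / 8 * T), om g.h T t * F t = ∫ t, om g.h T t * F t := by
  apply setIntegral_eq_integral_of_forall_compl_eq_zero
  intro t ht
  by_contra hne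
  exact ht (om_supp g hg hT t (fun h0 => hne (by rw [h0, zero_mul])))

theorem X1_four (g f : TF) (hg : g.th = 1 / 4) (hg0 : ∀ x, 0 ≤ g.h x) (hg1 : ∀ x, g.h x ≤ 1) :
    ∃ C : ℝ, 0 < C ∧ ∀ᶠ T : ℝ in atTop, ∫ t, om g.h T t * Xs f.h 1 T t ^ 4 ≤ C * T := by
  obtain ⟨C, hC, hX⟩ := X_fourth f
  refine ⟨C, hC, ?_⟩
  filter_upwards [hX (1 / 8) (by norm_num) (by norm_num), X_int f (δ := 1 / 8) (by norm_num) (by norm_num),
    omX_int g f hg (s := 1) le_rfl one_le_two, eventually_gt_atTop 0] with T h4 hint hom hT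
  have e78 : (1 - 1 / 8 : ℝ) * T = 7 / 8 * T := by ring
  rw [e78] at h4 hint
  rw [← om_mul_integral g hg hT (fun t => Xs f.h 1 T t ^ 4)]
  refine le_trans ?_ h4
  have hi := (hom (fun _ => 1) continuous_const 4).integrableOn (s := Icc (1 / 8 * T) (7 / 8 * T))
  have hi' : IntegrableOn (fun t => om g.h T t * Xs f.h 1 T t ^ 4) (Icc (1 / 8 * T) (7 / 8 * T)) := by
    simpa only [one_mul] using hi
  refine setIntegral_mono_on hi' hint.2.2 measurableSet_Icc ?_
  intro t _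
  rw [Xs_one]
  have h0 : 0 ≤ Xf f.h (Real.log T) t ^ 4 := by positivity
  have h1 : om g.h T t ≤ 1 := hg1 _
  nlinarith

theorem X2_sq (g f : TF) (hg : g.th = 1 / 4) (hg0 : ∀ x, 0 ≤ g.h x) (hg1 : ∀ x, g.h x ≤ 1) {s : ℝ} (hs : s = 1 ∨ s = 2) :
    ∃ C : ℝ, 0 < C ∧ ∀ᶠ T : ℝ in atTop, ∫ t, om g.h T t * Xs f.h s T t ^ 2 ≤ C * T := by
  obtain ⟨C, hC, hP⟩ := prp_sq_int g f hs
  have hs1 : 1 ≤ s := by rcases hs with rfl | rfl <;> norm_num
  have hs2 : s ≤ 2 := by rcases hs with rfl | rfl <;> norm_num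
  refine ⟨(3 * f.h 0 ^ 2 + 3) + 6 * C + 6 * 1, by positivity, ?_⟩
  filter_upwards [hP, pp_small g f hs one_pos, main_term_s f (δ := 1 / 8) (ε := 1) hs1 hs2 (by norm_num) one_pos,
    omX_int g f hg hs1 hs2, eventually_gt_atTop 0] with T h1 h2 hm hom hT
  have iO : ∀ H : ℝ → ℝ, Continuous H → Integrable (fun t => om g.h T t * H t) := by
    intro H hH
    have := hom H hH 0
    simpa only [pow_zero, mul_one] using this
  have iX : Integrable (fun t => om g.h T t * Xs f.h s T t ^ 2) := by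
    have := hom (fun _ => 1) continuous_const 2
    simpa only [one_mul] using this
  have cprp : Continuous (fun t => prp f.h s T t) := by
    unfold prp
    fun_prop
  have cpss : Continuous (fun t => pss f.h s T t) := pss_cont f.h s T
  have i1 : Integrable (fun t => om g.h T t * prp f.h s T t ^ 2) := iO (fun t => prp f.h s T t ^ 2) (cprp.pow 2)
  have i2 : Integrable (fun t => om g.h T t * (pss f.h s T t - prp f.h s T t) ^ 2) :=
    iO (fun t => (pss f.h s T t - prp f.h s T t) ^ 2) ((cpss.sub cprp).pow 2)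
  have i0 : Integrable (fun t => om g.h T t * (3 * f.h 0 ^ 2 + 3)) :=
    iO (fun _ => 3 * f.h 0 ^ 2 + 3) continuous_const
  have hpt : ∀ t, om g.h T t * Xs f.h s T t ^ 2 ≤ om g.h T t * (3 * f.h 0 ^ 2 + 3)
      + 6 * (om g.h T t * prp f.h s T t ^ 2) + 6 * (om g.h T t * (pss f.h s T t - prp f.h s T t) ^ 2) := by
    intro t
    by_cases h0 : om g.h T t = 0
    · rw [h0]; simp
    · have ht := om_supp g hg hT t h0
      have hm' := hm t ⟨ht.1, by linarith [ht.2]⟩
      have ho : 0 ≤ om g.h T t := hg0 _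
      have key : Xs f.h s T t ^ 2 ≤ (3 * f.h 0 ^ 2 + 3) + 6 * prp f.h s T t ^ 2
          + 6 * (pss f.h s T t - prp f.h s T t) ^ 2 := by
        generalize Xs f.h s T t = X at hm' ⊢
        generalize pss f.h s T t = P at hm' ⊢
        generalize prp f.h s T t = Q
        generalize f.h 0 = a at hm' ⊢
        obtain ⟨u, hu⟩ : ∃ u, u = X - (a - P) := ⟨_, rfl⟩
        rw [← hu] at hm'
        have hX : X = u + a - P := by rw [hu]; ring
        have hu2 : u ^ 2 ≤ 1 := by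
          have := abs_le.mp hm'
          nlinarith
        have e1 : X ^ 2 ≤ 3 * u ^ 2 + 3 * a ^ 2 + 3 * P ^ 2 := by
          rw [hX]
          nlinarith [sq_nonneg (u - a), sq_nonneg (u + P), sq_nonneg (a + P)]
        have e2 : P ^ 2 ≤ 2 * Q ^ 2 + 2 * (P - Q) ^ 2 := by
          nlinarith [sq_nonneg (P - 2 * Q)]
        linarith
      calc om g.h T t * Xs f.h s T t ^ 2 ≤ om g.h T t * ((3 * f.h 0 ^ 2 + 3) + 6 * prp f.h s T t ^ 2
          + 6 * (pss f.h s T t - prp f.h s T t) ^ 2) := mul_le_mul_of_nonneg_left key ho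
        _ = _ := by ring
  have hint : ∫ t, om g.h T t * Xs f.h s T t ^ 2 ≤ ∫ t, (om g.h T t * (3 * f.h 0 ^ 2 + 3)
      + 6 * (om g.h T t * prp f.h s T t ^ 2) + 6 * (om g.h T t * (pss f.h s T t - prp f.h s T t) ^ 2)) :=
    integral_mono iX ((i0.add (i1.const_mul 6)).add (i2.const_mul 6)) hpt
  have hsum : ∫ t, (om g.h T t * (3 * f.h 0 ^ 2 + 3)
      + 6 * (om g.h T t * prp f.h s T t ^ 2) + 6 * (om g.h T t * (pss f.h s T t - prp f.h s T t) ^ 2))
      = (∫ t, om g.h T t * (3 * f.h 0 ^ 2 + 3)) + 6 * (∫ t, om g.h T t * prp f.h s T t ^ 2)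
        + 6 * ∫ t, om g.h T t * (pss f.h s T t - prp f.h s T t) ^ 2 := by
    have a1 := integral_add (i0.add (i1.const_mul 6)) (i2.const_mul 6)
    have a2 := integral_add i0 (i1.const_mul 6)
    have a3 := integral_const_mul (6:ℝ) (fun t => om g.h T t * prp f.h s T t ^ 2) (μ := volume)
    have a4 := integral_const_mul (6:ℝ) (fun t => om g.h T t * (pss f.h s T t - prp f.h s T t) ^ 2) (μ := volume)
    simp only [Pi.add_apply] at a1 a2
    rw [a1, a2, a3, a4]
  have hO : ∫ t, om g.h T t * (3 * f.h 0 ^ 2 + 3) ≤ (3 * f.h 0 ^ 2 + 3) * T := by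
    rw [← om_mul_integral g hg hT (fun _ => 3 * f.h 0 ^ 2 + 3)]
    have hc : (0:ℝ) ≤ 3 * f.h 0 ^ 2 + 3 := by positivity
    calc ∫ t in Icc (1 / 8 * T) (7 / 8 * T), om g.h T t * (3 * f.h 0 ^ 2 + 3)
        ≤ ∫ t in Icc (1 / 8 * T) (7 / 8 * T), (3 * f.h 0 ^ 2 + 3) := by
          refine setIntegral_mono_on i0.integrableOn ?_ measurableSet_Icc ?_
          · exact integrableOn_const (by rw [Real.volume_Icc]; exact ENNReal.ofReal_ne_top)
          · intro t _
            have h1 : om g.h T t ≤ 1 := hg1 _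
            nlinarith
      _ = (3 / 4 * T) * (3 * f.h 0 ^ 2 + 3) := by
          rw [setIntegral_const, smul_eq_mul, Measure.real, Real.volume_Icc, ENNReal.toReal_ofReal (by linarith)]
          ring
      _ ≤ (3 * f.h 0 ^ 2 + 3) * T := by nlinarith [mul_nonneg hc hT.le]
  rw [hsum] at hint
  linarith

end Pool.Agent.Helper4.SH
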